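import Pool.Agent.Lib.MP_03c723_gt.Defs

/-!
Elementary facts on frames, the circle map `cp`, the rotations `rotf` and the projection area `P`.
-/

namespace PB3

open MeasureTheory Real
open scoped InnerProductSpace

theorem flip_apply (i j : Fin 3) (x : E) : flip i x j = if j = i then - x j else x j := by
  have h : flip i x = x - (2 * x i) • (EuclideanSpace.single i (1 : ℝ) : E) := by
    unfold flip
    rw [Submodule.reflection_orthogonal_apply, Submodule.reflection_singleton_apply]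
    simp only [EuclideanSpace.inner_single_left, PiLp.norm_single]
    simp [two_smul]
    module
  rw [h]
  by_cases hji : j = i
  · subst hji
    simp
    ring
  · simp [hji]

theorem cyc_apply (x : E) (j : Fin 3) : cyc x (j + 1) = x j := by
  unfold cyc
  rw [LinearIsometryEquiv.piLpCongrLeft_apply]
  simp only [Equiv.piCongrLeft'_apply]
  have h : (finRotate 3).symm (j + 1) = j := by
    rw [Equiv.symm_apply_eq]
    exact (finRotate_apply j).symm
  rw [h]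

theorem norm_cp {a b : E} (h : OP a b) (θ : ℝ) : ‖cp a b θ‖ = 1 := by
  have h1 : ‖cp a b θ‖ ^ 2 = 1 := by
    rw [← real_inner_self_eq_norm_sq]
    unfold cp
    have haa : ⟪a, a⟫_ℝ = 1 := by rw [real_inner_self_eq_norm_sq, h.nw]; norm_num
    have hbb : ⟪b, b⟫_ℝ = 1 := by rw [real_inner_self_eq_norm_sq, h.nu]; norm_num
    have hba : ⟪b, a⟫_ℝ = 0 := by rw [real_inner_comm]; exact h.wu
    simp only [inner_add_left, inner_add_right, real_inner_smul_left, real_inner_smul_right,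
      haa, hbb, hba, h.wu]
    nlinarith [Real.sin_sq_add_cos_sq θ]
  have h2 := norm_nonneg (cp a b θ)
  nlinarith [sq_nonneg (‖cp a b θ‖ - 1)]

theorem Fr.opab {a b u : E} (h : Fr a b u) : OP a b := ⟨h.na, h.nb, h.ab⟩

theorem Fr.map {a b u : E} (h : Fr a b u) (ρ : E ≃ₗᵢ[ℝ] E) : Fr (ρ a) (ρ b) (ρ u) where
  na := by rw [ρ.norm_map]; exact h.na
  nb := by rw [ρ.norm_map]; exact h.nb
  nu := by rw [ρ.norm_map]; exact h.nu
  ab := by rw [ρ.inner_map_map]; exact h.ab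
  au := by rw [ρ.inner_map_map]; exact h.au
  bu := by rw [ρ.inner_map_map]; exact h.bu

theorem Fr.op {a b u : E} (h : Fr a b u) (θ : ℝ) : OP (cp a b θ) u where
  nw := norm_cp h.opab θ
  nu := h.nu
  wu := by
    unfold cp
    simp only [inner_add_left, real_inner_smul_left, h.au, h.bu]
    ring

theorem exists_frame {u : E} (hu : ‖u‖ = 1) : ∃ a b, Fr a b u := by
  have hcard : Module.finrank ℝ E = Fintype.card (Fin 3) := by simp
  have hv : Orthonormal ℝ ((({2} : Set (Fin 3))).domRestrict (fun _ => u)) := by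
    constructor
    · intro i
      exact hu
    · intro i j hij
      exact absurd (Subsingleton.elim i j) hij
  obtain ⟨B, hB⟩ := hv.exists_orthonormalBasis_extension_of_card_eq hcard
  have h2 : B 2 = u := hB 2 (by simp)
  have hin : ∀ i j, ⟪B i, B j⟫_ℝ = if i = j then (1 : ℝ) else 0 :=
    fun i j => orthonormal_iff_ite.mp B.orthonormal i j
  refine ⟨B 0, B 1, B.orthonormal.1 0, B.orthonormal.1 1, hu, ?_, ?_, ?_⟩
  · simp
  · rw [← h2]; simp
  · rw [← h2]; simp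

/-- the orthonormal basis given by a frame -/
theorem Fr.exists_basis {a b u : E} (h : Fr a b u) :
    ∃ B : OrthonormalBasis (Fin 3) ℝ E, B 0 = a ∧ B 1 = b ∧ B 2 = u := by
  have hcard : Fintype.card (Fin 3) = Module.finrank ℝ E := by simp
  have haa : ⟪a, a⟫_ℝ = 1 := by rw [real_inner_self_eq_norm_sq, h.na]; norm_num
  have hbb : ⟪b, b⟫_ℝ = 1 := by rw [real_inner_self_eq_norm_sq, h.nb]; norm_num
  have huu : ⟪u, u⟫_ℝ = 1 := by rw [real_inner_self_eq_norm_sq, h.nu]; norm_num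
  have hba : ⟪b, a⟫_ℝ = 0 := by rw [real_inner_comm]; exact h.ab
  have hua : ⟪u, a⟫_ℝ = 0 := by rw [real_inner_comm]; exact h.au
  have hub : ⟪u, b⟫_ℝ = 0 := by rw [real_inner_comm]; exact h.bu
  have hv : Orthonormal ℝ (![a, b, u]) := by
    rw [orthonormal_iff_ite]
    intro i j
    fin_cases i <;> fin_cases j <;>
      simp [h.ab, h.au, h.bu, hba, hua, hub, h.na, h.nb, h.nu]
  refine ⟨OrthonormalBasis.mk hv
    (hv.linearIndependent.span_eq_top_of_card_eq_finrank hcard).ge, ?_, ?_, ?_⟩ <;>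
  simp

theorem Fr.expand {a b u : E} (h : Fr a b u) (x : E) :
    x = ⟪a, x⟫_ℝ • a + ⟪b, x⟫_ℝ • b + ⟪u, x⟫_ℝ • u := by
  obtain ⟨B, h0, h1, h2⟩ := h.exists_basis
  have := B.sum_repr' x
  rw [Fin.sum_univ_three, h0, h1, h2] at this
  exact this.symm

theorem Fr.norm_sq {a b u : E} (h : Fr a b u) (x : E) :
    ‖x‖ ^ 2 = ⟪a, x⟫_ℝ ^ 2 + ⟪b, x⟫_ℝ ^ 2 + ⟪u, x⟫_ℝ ^ 2 := by
  obtain ⟨B, h0, h1, h2⟩ := h.exists_basis
  have := B.sum_sq_norm_inner_right x
  rw [Fin.sum_univ_three, h0, h1, h2] at this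
  simp only [Real.norm_eq_abs, sq_abs] at this
  exact this.symm

theorem cp_rot (a b : E) (α θ : ℝ) :
    cp (cp a b α) (cp a b (α + π / 2)) θ = cp a b (α + θ) := by
  unfold cp
  rw [Real.cos_add_pi_div_two, Real.sin_add_pi_div_two, Real.cos_add, Real.sin_add]
  module

theorem cp_neg (a b : E) (θ : ℝ) : cp a (-b) θ = cp a b (-θ) := by
  unfold cp
  rw [Real.cos_neg, Real.sin_neg]
  module

/-- a unit vector orthogonal to `u` is on the circle of the frame -/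
theorem Fr.exists_angle {a b u : E} (h : Fr a b u) {w : E} (hw : OP w u) :
    ∃ α : ℝ, w = cp a b α := by
  have h1 := h.expand w
  have h2 := h.norm_sq w
  have huw : ⟪u, w⟫_ℝ = 0 := by rw [real_inner_comm]; exact hw.wu
  rw [huw] at h1 h2
  rw [hw.nw] at h2
  have h3 : ⟪a, w⟫_ℝ ^ 2 + ⟪b, w⟫_ℝ ^ 2 = 1 := by nlinarith
  have h4 : ‖(⟨⟪a, w⟫_ℝ, ⟪b, w⟫_ℝ⟩ : ℂ)‖ = 1 := by
    rw [Complex.norm_def, Complex.normSq_mk]
    rw [show ⟪a, w⟫_ℝ * ⟪a, w⟫_ℝ + ⟪b, w⟫_ℝ * ⟪b, w⟫_ℝ = 1 by nlinarith]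
    exact Real.sqrt_one
  have h5 : (⟨⟪a, w⟫_ℝ, ⟪b, w⟫_ℝ⟩ : ℂ) ≠ 0 := by
    intro h0
    rw [h0] at h4
    simp at h4
  refine ⟨Complex.arg ⟨⟪a, w⟫_ℝ, ⟪b, w⟫_ℝ⟩, ?_⟩
  unfold cp
  rw [Complex.cos_arg h5, Complex.sin_arg, h4]
  simp only [div_one]
  rw [zero_smul, add_zero] at h1
  exact h1

theorem cp_periodic (a b : E) (θ : ℝ) : cp a b (θ + 2 * π) = cp a b θ := by
  unfold cp
  rw [Real.cos_add_two_pi, Real.sin_add_two_pi]

theorem inner_cp_cp {a b : E} (h : OP a b) (α β : ℝ) :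
    ⟪cp a b α, cp a b β⟫_ℝ = Real.cos (β - α) := by
  unfold cp
  have haa : ⟪a, a⟫_ℝ = 1 := by rw [real_inner_self_eq_norm_sq, h.nw]; norm_num
  have hbb : ⟪b, b⟫_ℝ = 1 := by rw [real_inner_self_eq_norm_sq, h.nu]; norm_num
  have hba : ⟪b, a⟫_ℝ = 0 := by rw [real_inner_comm]; exact h.wu
  simp only [inner_add_left, inner_add_right, real_inner_smul_left, real_inner_smul_right,
    haa, hbb, hba, h.wu]
  rw [Real.cos_sub]
  ring

theorem integral_cp_shift (a b : E) (α : ℝ) (φ : E → ℝ) :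
    ∫ θ in (-π)..π, φ (cp a b (α + θ)) = ∫ θ in (-π)..π, φ (cp a b θ) := by
  have hper : Function.Periodic (fun θ => φ (cp a b θ)) (2 * π) := by
    intro θ
    simp only
    rw [cp_periodic]
  have h1 := intervalIntegral.integral_comp_add_left (a := -π) (b := π)
    (fun θ => φ (cp a b θ)) α
  rw [h1]
  have h2 := hper.intervalIntegral_add_eq (α + -π) (-π)
  rw [show α + -π + 2 * π = α + π by ring, show -π + 2 * π = π by ring] at h2
  exact h2

theorem integral_cp_refl (a b : E) (α : ℝ) (φ : E → ℝ) :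
    ∫ θ in (-π)..π, φ (cp a b (α - θ)) = ∫ θ in (-π)..π, φ (cp a b θ) := by
  have hper : Function.Periodic (fun θ => φ (cp a b θ)) (2 * π) := by
    intro θ
    simp only
    rw [cp_periodic]
  have h1 := intervalIntegral.integral_comp_sub_left (a := -π) (b := π)
    (fun θ => φ (cp a b θ)) α
  rw [h1]
  have h2 := hper.intervalIntegral_add_eq (α - π) (-π)
  rw [show α - π + 2 * π = α - -π by ring, show -π + 2 * π = π by ring] at h2
  exact h2

theorem integral_cp_frame {a b a' b' u : E} (h : Fr a b u) (h' : Fr a' b' u) (φ : E → ℝ) :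
    ∫ θ in (-π)..π, φ (cp a b θ) = ∫ θ in (-π)..π, φ (cp a' b' θ) := by
  obtain ⟨α, hα⟩ := h.exists_angle (w := a') ⟨h'.na, h'.nu, h'.au⟩
  obtain ⟨β, hβ⟩ := h.exists_angle (w := b') ⟨h'.nb, h'.nu, h'.bu⟩
  have hc : Real.cos (β - α) = 0 := by
    rw [← inner_cp_cp h.opab, ← hα, ← hβ]
    exact h'.ab
  have hs : Real.sin (β - α) ^ 2 = 1 := by
    nlinarith [Real.sin_sq_add_cos_sq (β - α)]
  have hcb : Real.cos β = - Real.sin (β - α) * Real.sin α := by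
    have : β = (β - α) + α := by ring
    conv_lhs => rw [this]
    rw [Real.cos_add, hc]
    ring
  have hsb : Real.sin β = Real.sin (β - α) * Real.cos α := by
    have : β = (β - α) + α := by ring
    conv_lhs => rw [this]
    rw [Real.sin_add, hc]
    ring
  have hs' : Real.sin (β - α) = 1 ∨ Real.sin (β - α) = -1 := by
    have h0 : (Real.sin (β - α) - 1) * (Real.sin (β - α) + 1) = 0 := by linarith [hs, sq (Real.sin (β - α))]
    rcases mul_eq_zero.mp h0 with h0 | h0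
    · left; linarith
    · right; linarith
  rcases hs' with h1 | h1
  · have hb' : b' = cp a b (α + π / 2) := by
      rw [hβ]
      unfold cp
      rw [hcb, hsb, h1, Real.cos_add_pi_div_two, Real.sin_add_pi_div_two]
      congr 2 <;> ring
    have : ∀ θ, cp a' b' θ = cp a b (α + θ) := by
      intro θ
      rw [hα, hb', cp_rot]
    simp only [this]
    rw [integral_cp_shift]
  · have hb' : b' = -cp a b (α + π / 2) := by
      rw [hβ]
      unfold cp
      rw [hcb, hsb, h1, Real.cos_add_pi_div_two, Real.sin_add_pi_div_two]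
      module
    have : ∀ θ, cp a' b' θ = cp a b (α - θ) := by
      intro θ
      rw [hα, hb', cp_neg, cp_rot, sub_eq_add_neg]
    simp only [this]
    rw [integral_cp_refl]

theorem P_eq (z : E → ℝ) {a b u : E} (h : Fr a b u) : P z u = PF z a b u := by
  have h' : Fr (fr u).1 (fr u).2 u := by
    have : ∃ ab : E × E, Fr ab.1 ab.2 u := ⟨(a, b), h⟩
    exact Classical.epsilon_spec this
  unfold P PF
  congr 1
  exact integral_cp_frame h' h (fun w => ((mu z w u) ^ 2)⁻¹)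

theorem map_cp (ρ : E ≃ₗᵢ[ℝ] E) (a b : E) (θ : ℝ) : ρ (cp a b θ) = cp (ρ a) (ρ b) θ := by
  unfold cp
  rw [map_add, map_smul, map_smul]

theorem P_comp (z : E → ℝ) (ρ : E ≃ₗᵢ[ℝ] E) {u : E} (hu : ‖u‖ = 1) :
    P z (ρ u) = P (fun x => z (ρ x)) u := by
  obtain ⟨a, b, h⟩ := exists_frame hu
  rw [P_eq z (h.map ρ), P_eq _ h]
  unfold PF mu
  simp only [map_add, map_smul, map_cp]

/-- the rotation as a linear isometry -/
theorem norm_rotf {p q : E} (h : OP p q) (s : ℝ) (x : E) : ‖rotf p q s x‖ = ‖x‖ := by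
  have hpp : ⟪p, p⟫_ℝ = 1 := by rw [real_inner_self_eq_norm_sq, h.nw]; norm_num
  have hqq : ⟪q, q⟫_ℝ = 1 := by rw [real_inner_self_eq_norm_sq, h.nu]; norm_num
  have hqp : ⟪q, p⟫_ℝ = 0 := by rw [real_inner_comm]; exact h.wu
  have hxp : ⟪x, p⟫_ℝ = ⟪p, x⟫_ℝ := real_inner_comm _ _
  have hxq : ⟪x, q⟫_ℝ = ⟪q, x⟫_ℝ := real_inner_comm _ _
  have h1 : ‖rotf p q s x‖ ^ 2 = ‖x‖ ^ 2 := by
    rw [← real_inner_self_eq_norm_sq, ← real_inner_self_eq_norm_sq]
    unfold rotf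
    simp only [inner_add_left, inner_add_right, inner_sub_left, inner_sub_right,
      real_inner_smul_left, real_inner_smul_right, hpp, hqq, hqp, h.wu, hxp, hxq]
    have hcs := Real.sin_sq_add_cos_sq s
    have : Real.sin s ^ 2 = 1 - Real.cos s ^ 2 := by linarith
    ring_nf
    rw [this]
    ring
  have h2 := norm_nonneg (rotf p q s x)
  have h3 := norm_nonneg x
  exact (sq_eq_sq₀ h2 h3).mp h1

theorem rotf_neg_rotf {p q : E} (h : OP p q) (s : ℝ) (x : E) :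
    rotf p q (-s) (rotf p q s x) = x := by
  have hpp : ⟪p, p⟫_ℝ = 1 := by rw [real_inner_self_eq_norm_sq, h.nw]; norm_num
  have hqq : ⟪q, q⟫_ℝ = 1 := by rw [real_inner_self_eq_norm_sq, h.nu]; norm_num
  have hqp : ⟪q, p⟫_ℝ = 0 := by rw [real_inner_comm]; exact h.wu
  have h1 : ⟪p, rotf p q s x⟫_ℝ = Real.cos s * ⟪p, x⟫_ℝ - Real.sin s * ⟪q, x⟫_ℝ := by
    unfold rotf
    simp only [inner_add_right, inner_sub_right, real_inner_smul_right, hpp, h.wu]
    ring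
  have h2 : ⟪q, rotf p q s x⟫_ℝ = Real.cos s * ⟪q, x⟫_ℝ + Real.sin s * ⟪p, x⟫_ℝ := by
    unfold rotf
    simp only [inner_add_right, inner_sub_right, real_inner_smul_right, hqq, hqp]
    ring
  have hcs := Real.sin_sq_add_cos_sq s
  have e1 : rotf p q (-s) (rotf p q s x) = rotf p q s x
      + (Real.cos s - 1) • ((Real.cos s * ⟪p, x⟫_ℝ - Real.sin s * ⟪q, x⟫_ℝ) • p
        + (Real.cos s * ⟪q, x⟫_ℝ + Real.sin s * ⟪p, x⟫_ℝ) • q)
      + (- Real.sin s) • ((Real.cos s * ⟪p, x⟫_ℝ - Real.sin s * ⟪q, x⟫_ℝ) • q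
        - (Real.cos s * ⟪q, x⟫_ℝ + Real.sin s * ⟪p, x⟫_ℝ) • p) := by
    conv_lhs => unfold rotf
    rw [show x + (Real.cos s - 1) • (⟪p, x⟫_ℝ • p + ⟪q, x⟫_ℝ • q)
      + Real.sin s • (⟪p, x⟫_ℝ • q - ⟪q, x⟫_ℝ • p) = rotf p q s x from rfl, h1, h2,
      Real.cos_neg, Real.sin_neg]
  rw [e1]
  unfold rotf
  have e2 : Real.cos s ^ 2 = 1 - Real.sin s ^ 2 := by linarith
  have e3' : x + (Real.cos s - 1) • (⟪p, x⟫_ℝ • p + ⟪q, x⟫_ℝ • q)
      + Real.sin s • (⟪p, x⟫_ℝ • q - ⟪q, x⟫_ℝ • p)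
      + (Real.cos s - 1) • ((Real.cos s * ⟪p, x⟫_ℝ - Real.sin s * ⟪q, x⟫_ℝ) • p
        + (Real.cos s * ⟪q, x⟫_ℝ + Real.sin s * ⟪p, x⟫_ℝ) • q)
      + (- Real.sin s) • ((Real.cos s * ⟪p, x⟫_ℝ - Real.sin s * ⟪q, x⟫_ℝ) • q
        - (Real.cos s * ⟪q, x⟫_ℝ + Real.sin s * ⟪p, x⟫_ℝ) • p)
      = x + ((Real.cos s ^ 2 + Real.sin s ^ 2 - 1) * ⟪p, x⟫_ℝ) • p
        + ((Real.cos s ^ 2 + Real.sin s ^ 2 - 1) * ⟪q, x⟫_ℝ) • q := by
    module
  rw [e3', e2]
  module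

theorem exists_rot {p q : E} (h : OP p q) (s : ℝ) :
    ∃ ρ : E ≃ₗᵢ[ℝ] E, (∀ x, ρ x = rotf p q s x) ∧ (∀ x, ρ.symm x = rotf p q (-s) x) := by
  let L : E →ₗ[ℝ] E :=
    { toFun := rotf p q s
      map_add' := by
        intro x y
        unfold rotf
        simp only [inner_add_right]
        module
      map_smul' := by
        intro c x
        unfold rotf
        simp only [real_inner_smul_right, RingHom.id_apply]
        module }
  have hL : ∀ x, ‖L x‖ = ‖x‖ := norm_rotf h s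
  let I : E →ₗᵢ[ℝ] E := ⟨L, hL⟩
  refine ⟨I.toLinearIsometryEquiv rfl, fun x => rfl, fun x => ?_⟩
  rw [LinearIsometryEquiv.symm_apply_eq]
  have := rotf_neg_rotf h (-s) x
  rw [neg_neg] at this
  exact this.symm

theorem norm_rotf_sub_le {p q : E} (h : OP p q) (s : ℝ) (x : E) :
    ‖rotf p q s x - x‖ ≤ |s| * ‖x‖ := by
  have hpp : ⟪p, p⟫_ℝ = 1 := by rw [real_inner_self_eq_norm_sq, h.nw]; norm_num
  have hqq : ⟪q, q⟫_ℝ = 1 := by rw [real_inner_self_eq_norm_sq, h.nu]; norm_num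
  have hqp : ⟪q, p⟫_ℝ = 0 := by rw [real_inner_comm]; exact h.wu
  have h1 : ‖rotf p q s x - x‖ ^ 2 = (2 - 2 * Real.cos s) * (⟪p, x⟫_ℝ ^ 2 + ⟪q, x⟫_ℝ ^ 2) := by
    have e : rotf p q s x - x = ((Real.cos s - 1) * ⟪p, x⟫_ℝ - Real.sin s * ⟪q, x⟫_ℝ) • p
        + ((Real.cos s - 1) * ⟪q, x⟫_ℝ + Real.sin s * ⟪p, x⟫_ℝ) • q := by
      unfold rotf
      module
    rw [e, ← real_inner_self_eq_norm_sq]
    simp only [inner_add_left, inner_add_right,
      real_inner_smul_left, real_inner_smul_right, hpp, hqq, hqp, h.wu]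
    have hcs := Real.sin_sq_add_cos_sq s
    have : Real.sin s ^ 2 = 1 - Real.cos s ^ 2 := by linarith
    ring_nf
    rw [this]
    ring
  have h2 : ⟪p, x⟫_ℝ ^ 2 + ⟪q, x⟫_ℝ ^ 2 ≤ ‖x‖ ^ 2 := by
    have e : ‖x - ⟪p, x⟫_ℝ • p - ⟪q, x⟫_ℝ • q‖ ^ 2
        = ‖x‖ ^ 2 - (⟪p, x⟫_ℝ ^ 2 + ⟪q, x⟫_ℝ ^ 2) := by
      rw [← real_inner_self_eq_norm_sq, ← real_inner_self_eq_norm_sq]
      have hxp : ⟪x, p⟫_ℝ = ⟪p, x⟫_ℝ := real_inner_comm _ _
      have hxq : ⟪x, q⟫_ℝ = ⟪q, x⟫_ℝ := real_inner_comm _ _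
      simp only [inner_sub_left, inner_sub_right,
        real_inner_smul_left, real_inner_smul_right, hpp, hqq, hqp, h.wu, hxp, hxq]
      ring
    nlinarith [sq_nonneg ‖x - ⟪p, x⟫_ℝ • p - ⟪q, x⟫_ℝ • q‖]
  have h3 : 2 - 2 * Real.cos s ≤ s ^ 2 := by
    have := Real.one_sub_sq_div_two_le_cos (x := s)
    linarith
  have h4 : 0 ≤ 2 - 2 * Real.cos s := by linarith [Real.cos_le_one s]
  have h5 : ‖rotf p q s x - x‖ ^ 2 ≤ (|s| * ‖x‖) ^ 2 := by
    rw [h1, mul_pow, sq_abs]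
    calc (2 - 2 * Real.cos s) * (⟪p, x⟫_ℝ ^ 2 + ⟪q, x⟫_ℝ ^ 2)
        ≤ (2 - 2 * Real.cos s) * ‖x‖ ^ 2 := mul_le_mul_of_nonneg_left h2 h4
      _ ≤ s ^ 2 * ‖x‖ ^ 2 := mul_le_mul_of_nonneg_right h3 (sq_nonneg _)
  exact le_of_sq_le_sq h5 (by positivity)

theorem rotf_self {p q : E} (h : OP p q) (s : ℝ) : rotf p q s p = cp p q s := by
  have hpp : ⟪p, p⟫_ℝ = 1 := by rw [real_inner_self_eq_norm_sq, h.nw]; norm_num
  have hqp : ⟪q, p⟫_ℝ = 0 := by rw [real_inner_comm]; exact h.wu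
  unfold rotf cp
  rw [hpp, hqp]
  module

theorem frame_nh_nv {a b u : E} (h : Fr a b u) (s θ : ℝ) :
    Fr (nh s (cp a b θ) u) (cp a b (θ + π / 2)) (nv s (cp a b θ) u) := by
  have hw := norm_cp h.opab θ
  have hww : ⟪cp a b θ, cp a b θ⟫_ℝ = 1 := by rw [real_inner_self_eq_norm_sq, hw]; norm_num
  have huu : ⟪u, u⟫_ℝ = 1 := by rw [real_inner_self_eq_norm_sq, h.nu]; norm_num
  have hwu : ⟪cp a b θ, u⟫_ℝ = 0 := (h.op θ).wu
  have huw : ⟪u, cp a b θ⟫_ℝ = 0 := by rw [real_inner_comm]; exact hwu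
  have hvu : ⟪cp a b (θ + π / 2), u⟫_ℝ = 0 := (h.op _).wu
  have huv : ⟪u, cp a b (θ + π / 2)⟫_ℝ = 0 := by rw [real_inner_comm]; exact hvu
  have hwv : ⟪cp a b θ, cp a b (θ + π / 2)⟫_ℝ = 0 := by
    rw [inner_cp_cp h.opab, show θ + π / 2 - θ = π / 2 by ring, Real.cos_pi_div_two]
  have hvw : ⟪cp a b (θ + π / 2), cp a b θ⟫_ℝ = 0 := by rw [real_inner_comm]; exact hwv
  have hpos : 0 < 1 + s ^ 2 := by positivity
  have hr : (Real.sqrt (1 + s ^ 2))⁻¹ * (Real.sqrt (1 + s ^ 2))⁻¹ = (1 + s ^ 2)⁻¹ := by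
    rw [← mul_inv, Real.mul_self_sqrt hpos.le]
  have hr1 : (Real.sqrt (1 + s ^ 2))⁻¹ * (Real.sqrt (1 + s ^ 2))⁻¹ * (1 + s ^ 2) = 1 := by
    rw [hr]
    exact inv_mul_cancel₀ hpos.ne'
  have key : ∀ x : E, ‖x‖ ^ 2 = 1 → ‖x‖ = 1 := by
    intro x hx
    nlinarith [norm_nonneg x, sq_nonneg (‖x‖ - 1)]
  refine ⟨?_, norm_cp h.opab _, ?_, ?_, ?_, ?_⟩
  · apply key
    rw [← real_inner_self_eq_norm_sq]
    unfold nh
    simp only [inner_sub_left, inner_sub_right, real_inner_smul_left, real_inner_smul_right,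
      hww, huu, hwu, huw]
    linarith [hr1]
  · apply key
    rw [← real_inner_self_eq_norm_sq]
    unfold nv
    simp only [inner_add_left, inner_add_right, real_inner_smul_left, real_inner_smul_right,
      hww, huu, hwu, huw]
    linarith [hr1]
  · unfold nh
    simp only [inner_sub_left, real_inner_smul_left, huv, hwv]
    ring
  · unfold nh nv
    simp only [inner_sub_left, inner_add_right, real_inner_smul_left, real_inner_smul_right,
      hww, huu, hwu, huw]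
    ring
  · unfold nv
    simp only [inner_add_right, real_inner_smul_right, hvw, hvu]
    ring

theorem Near.comp {z : E → ℝ} {δ : ℝ} (h : Near z δ) (ρ : E ≃ₗᵢ[ℝ] E) :
    Near (fun x => z (ρ x)) δ := by
  obtain ⟨G, hG⟩ := h.hq
  refine ⟨⟨h.eh.cont.comp ρ.continuous, ?_⟩, fun x => ρ.symm (G (ρ x)), ?_⟩
  · intro c x
    simp only [map_smul]
    exact h.eh.hom c (ρ x)
  · intro x hx y
    have hx' : ρ x ≠ 0 := by
      intro h0
      apply hx
      have := ρ.norm_map x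
      rw [h0, norm_zero] at this
      exact norm_eq_zero.mp this.symm
    have h1 := hG (ρ x) hx' (ρ y)
    simp only [ρ.norm_map, ρ.inner_map_map] at h1
    have h2 : ⟪ρ.symm (G (ρ x)), y⟫_ℝ = ⟪G (ρ x), ρ y⟫_ℝ := by
      rw [← ρ.inner_map_map, ρ.apply_symm_apply]
    simp only [h2]
    exact h1

end PB3
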