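import Mathlib

/-!
Basic definitions for MP_03c723_gt (convex bodies `K` in `E^3` with polar projection body
homothetic to the difference body, near the ball).
-/

namespace PB3

open MeasureTheory Real
open scoped InnerProductSpace

/-- Euclidean 3-space. -/
abbrev E := EuclideanSpace ℝ (Fin 3)

/-- `(a, b, u)` is an orthonormal frame. -/
structure Fr (a b u : E) : Prop where
  na : ‖a‖ = 1
  nb : ‖b‖ = 1
  nu : ‖u‖ = 1
  ab : ⟪a, b⟫_ℝ = 0
  au : ⟪a, u⟫_ℝ = 0
  bu : ⟪b, u⟫_ℝ = 0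

/-- `(w, u)` is an orthonormal pair. -/
structure OP (w u : E) : Prop where
  nw : ‖w‖ = 1
  nu : ‖u‖ = 1
  wu : ⟪w, u⟫_ℝ = 0

/-- The point with angle `θ` on the circle spanned by `a`, `b`. -/
noncomputable def cp (a b : E) (θ : ℝ) : E := Real.cos θ • a + Real.sin θ • b

/-- The third basis vector. -/
noncomputable def e3 : E := EuclideanSpace.single 2 1

/-- Sign change of the `i`-th coordinate. -/
noncomputable def flip (i : Fin 3) : E ≃ₗᵢ[ℝ] E :=
  (ℝ ∙ (EuclideanSpace.single i (1 : ℝ) : E))ᗮ.reflection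

/-- Cyclic permutation of the coordinates. -/
noncomputable def cyc : E ≃ₗᵢ[ℝ] E := LinearIsometryEquiv.piLpCongrLeft 2 ℝ ℝ (finRotate 3)

/-- Rotation by the angle `s` in the plane of the orthonormal pair `(p, q)`. -/
noncomputable def rotf (p q : E) (s : ℝ) (x : E) : E :=
  x + (Real.cos s - 1) • (⟪p, x⟫_ℝ • p + ⟪q, x⟫_ℝ • q)
    + Real.sin s • (⟪p, x⟫_ℝ • q - ⟪q, x⟫_ℝ • p)

/-- even, 1-homogeneous and continuous -/
structure EH (z : E → ℝ) : Prop where
  cont : Continuous z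
  hom : ∀ (c : ℝ) (x : E), z (c • x) = |c| * z x

/-- invariance under all sign changes and the cyclic permutations -/
structure Inv (z : E → ℝ) : Prop where
  flip : ∀ i x, z (flip i x) = z x
  cyc : ∀ x, z (cyc x) = z x

/-- second differences along rotations are at most `δ s²` -/
def N2 (z : E → ℝ) (δ : ℝ) : Prop :=
  ∀ p q : E, OP p q → ∀ (s : ℝ) (x : E),
    |z (rotf p q s x) + z (rotf p q (-s) x) - 2 * z x| ≤ δ * s ^ 2 * ‖x‖

/-- the class of gauges `δ`-close to the norm -/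
structure Cls (z : E → ℝ) (δ : ℝ) : Prop where
  eh : EH z
  inv : Inv z
  one : z e3 = 1
  n2 : N2 z δ

/-- `G` is the gradient of `ζ`, and both `δ‖·‖ + ζ` and `δ‖·‖ - ζ` are supported by it -/
def HQ (ζ : E → ℝ) (G : E → E) (δ : ℝ) : Prop :=
  ∀ x : E, x ≠ 0 → ∀ y : E, |ζ y - ⟪G x, y⟫_ℝ| ≤ δ * (‖y‖ - ⟪x, y⟫_ℝ / ‖x‖)

/-- `z` is a small perturbation of the norm -/
structure Near (z : E → ℝ) (δ : ℝ) : Prop where
  eh : EH z
  hq : ∃ G : E → E, HQ (fun x => z x - ‖x‖) G δ

/-- gauge of the projection of the body `{z ≤ 1}` along `u` -/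
noncomputable def mu (z : E → ℝ) (w u : E) : ℝ := ⨅ t : ℝ, z (w + t • u)

/-- a minimiser of `t ↦ z (w + t u)` -/
noncomputable def tz (z : E → ℝ) (w u : E) : ℝ :=
  Classical.epsilon (fun t : ℝ => ∀ s : ℝ, z (w + t • u) ≤ z (w + s • u))

/-- area of the projection of `{z ≤ 1}` along `u`, in the frame `(a, b, u)` -/
noncomputable def PF (z : E → ℝ) (a b u : E) : ℝ :=
  (1 / 2) * ∫ θ in (-π)..π, ((mu z (cp a b θ) u) ^ 2)⁻¹

/-- a chosen frame with third vector `u` -/
noncomputable def fr (u : E) : E × E := Classical.epsilon (fun ab : E × E => Fr ab.1 ab.2 u)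

/-- area of the projection of `{z ≤ 1}` along the unit vector `u` -/
noncomputable def P (z : E → ℝ) (u : E) : ℝ := PF z (fr u).1 (fr u).2 u

/-- small Lipschitz functions of an orthonormal pair -/
structure Good (t : E → E → ℝ) (δ : ℝ) : Prop where
  bd : ∀ w u, OP w u → |t w u| ≤ δ
  lip : ∀ w u w' u', OP w u → OP w' u' → |t w u - t w' u'| ≤ δ * (‖w - w'‖ + ‖u - u'‖)
  odd : ∀ w u, OP w u → t (-w) u = - t w u

/-- normalised `w + s u` -/
noncomputable def nv (s : ℝ) (w u : E) : E := (Real.sqrt (1 + s ^ 2))⁻¹ • (w + s • u)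

/-- normalised `u - s w` -/
noncomputable def nh (s : ℝ) (w u : E) : E := (Real.sqrt (1 + s ^ 2))⁻¹ • (u - s • w)

/-- the second-step point -/
noncomputable def Y (t₁ t₂ : E → E → ℝ) (a b u : E) (θ ψ : ℝ) : E :=
  let w := cp a b θ
  let s := t₁ w u
  let v := nv s w u
  let q := cp (nh s w u) (cp a b (θ + π / 2)) ψ
  q + t₂ q v • v

/-- the second-step point for the round norm -/
noncomputable def Y0 (a b u : E) (θ ψ : ℝ) : E := cp u (cp a b (θ + π / 2)) ψ

/-- no moments of degree 0 and 2 -/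
def MF (σ : E → ℝ) : Prop :=
  ∀ i j : Fin 3, ∫ x : E, σ x * (x i * x j) * Real.exp (-‖x‖ ^ 2) = 0

/-- the normalised map whose fixed points are the gauges of solutions -/
noncomputable def F (τ z : E → ℝ) : E → ℝ := fun x =>
  (‖x‖ * P z (‖x‖⁻¹ • x) + τ x) / (P z e3 + τ e3)

/-- the planar set cut out by the (support) function `H` -/
def LH (H : ℝ → ℝ) : Set (ℝ × ℝ) := {x | ∀ θ : ℝ, x.1 * Real.cos θ + x.2 * Real.sin θ ≤ H θ}

/-- support function -/
noncomputable def suppFn (K : Set E) (u : E) : ℝ := sSup ((fun x => ⟪x, u⟫_ℝ) '' K)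

end PB3
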