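import Pool.Agent.Lib.MP_03c723_gt.Defs

/-!
# Trigonometric convexity and subadditivity
-/

namespace PB3
open MeasureTheory Real Set
open scoped InnerProductSpace

/-- strict local trigonometric convexity implies trigonometric convexity -/
private theorem sb_trig {H : ℝ → ℝ} (hc : Continuous H) {s0 : ℝ} (hs0 : 0 < s0)
    (h : ∀ α s : ℝ, 0 < s → s ≤ s0 → 2 * Real.cos s * H α < H (α + s) + H (α - s))
    {β α : ℝ} (hα0 : 0 < α) (hαβ : α < β) (hβ : β < π) :
    Real.sin β * H α ≤ Real.sin (β - α) * H 0 + Real.sin α * H β := by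
  have hβ0 : 0 < β := hα0.trans hαβ
  have hsβ : 0 < Real.sin β := Real.sin_pos_of_pos_of_lt_pi hβ0 hβ
  -- the comparison function
  set B : ℝ := (H β - H 0 * Real.cos β) / Real.sin β with hB
  set L : ℝ → ℝ := fun θ => H 0 * Real.cos θ + B * Real.sin θ with hL
  have hL0 : L 0 = H 0 := by simp [hL]
  have hLβ : L β = H β := by
    simp only [hL, hB]
    field_simp
    ring
  have hLadd : ∀ θ s, L (θ + s) + L (θ - s) = 2 * Real.cos s * L θ := by
    intro θ s
    simp only [hL]
    rw [Real.cos_add, Real.sin_add, Real.cos_sub, Real.sin_sub]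
    ring
  have hLc : Continuous L :=
    (continuous_const.mul Real.continuous_cos).add (continuous_const.mul Real.continuous_sin)
  set φ : ℝ → ℝ := fun θ => H θ - L θ with hφ
  have hφc : Continuous φ := hc.sub hLc
  have key : ∀ θ ∈ Icc 0 β, φ θ ≤ 0 := by
    intro θ hθ
    by_contra hcon
    rw [not_le] at hcon
    set m : ℝ := β / 2 with hm
    have hcos : ∀ x ∈ Icc 0 β, 0 < Real.cos (x - m) := fun x hx =>
      Real.cos_pos_of_mem_Ioo ⟨by simp only [hm]; linarith [hx.1], by simp only [hm]; linarith [hx.2]⟩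
    set ψ : ℝ → ℝ := fun x => φ x / Real.cos (x - m) with hψ
    have hψc : ContinuousOn ψ (Icc 0 β) :=
      hφc.continuousOn.div (Real.continuous_cos.comp (continuous_id.sub continuous_const)).continuousOn
        fun x hx => (hcos x hx).ne'
    obtain ⟨x0, hx0, hmax⟩ := isCompact_Icc.exists_isMaxOn (nonempty_Icc.2 hβ0.le) hψc
    have hψθ : 0 < ψ θ := div_pos hcon (hcos θ hθ)
    have hψx0 : 0 < ψ x0 := hψθ.trans_le (hmax hθ)
    have hx00 : 0 < x0 := by
      rcases hx0.1.eq_or_lt with h0 | h0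
      · exfalso
        rw [← h0] at hψx0
        simp only [hψ, hφ, hL0, sub_self, zero_div] at hψx0
        exact lt_irrefl _ hψx0
      · exact h0
    have hx0β : x0 < β := by
      rcases hx0.2.eq_or_lt with h0 | h0
      · exfalso
        rw [h0] at hψx0
        simp only [hψ, hφ, hLβ, sub_self, zero_div] at hψx0
        exact lt_irrefl _ hψx0
      · exact h0
    set s : ℝ := min s0 (min x0 (β - x0)) with hs
    have hspos : 0 < s := lt_min hs0 (lt_min hx00 (by linarith))
    have hs1 : s ≤ s0 := min_le_left _ _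
    have hs2 : s ≤ x0 := (min_le_right _ _).trans (min_le_left _ _)
    have hs3 : s ≤ β - x0 := (min_le_right _ _).trans (min_le_right _ _)
    have hin1 : x0 + s ∈ Icc 0 β := ⟨by linarith, by linarith⟩
    have hin2 : x0 - s ∈ Icc 0 β := ⟨by linarith, by linarith⟩
    have e1 : φ (x0 + s) ≤ ψ x0 * Real.cos (x0 + s - m) := by
      have := hmax hin1
      simp only [hψ, mem_ofPred_eq] at this ⊢
      rwa [div_le_iff₀ (hcos _ hin1)] at this
    have e2 : φ (x0 - s) ≤ ψ x0 * Real.cos (x0 - s - m) := by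
      have := hmax hin2
      simp only [hψ, mem_ofPred_eq] at this ⊢
      rwa [div_le_iff₀ (hcos _ hin2)] at this
    have e3 : Real.cos (x0 + s - m) + Real.cos (x0 - s - m) =
        2 * Real.cos s * Real.cos (x0 - m) := by
      rw [show x0 + s - m = (x0 - m) + s by ring, show x0 - s - m = (x0 - m) - s by ring,
        Real.cos_add (x0 - m) s, Real.cos_sub (x0 - m) s]
      ring
    have e4 : ψ x0 * Real.cos (x0 - m) = φ x0 := by
      simp only [hψ]
      exact div_mul_cancel₀ _ (hcos x0 hx0).ne'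
    have e5 : φ (x0 + s) + φ (x0 - s) ≤ 2 * Real.cos s * φ x0 := by
      calc φ (x0 + s) + φ (x0 - s)
          ≤ ψ x0 * Real.cos (x0 + s - m) + ψ x0 * Real.cos (x0 - s - m) := add_le_add e1 e2
        _ = ψ x0 * (Real.cos (x0 + s - m) + Real.cos (x0 - s - m)) := by ring
        _ = 2 * Real.cos s * (ψ x0 * Real.cos (x0 - m)) := by rw [e3]; ring
        _ = 2 * Real.cos s * φ x0 := by rw [e4]
    have e6 := h x0 s hspos hs1
    have e7 := hLadd x0 s
    simp only [hφ] at e5
    nlinarith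
  have h1 := key α ⟨hα0.le, hαβ.le⟩
  have h2 : H α ≤ L α := by simp only [hφ] at h1; linarith
  have h3 : Real.sin β * L α = Real.sin (β - α) * H 0 + Real.sin α * H β := by
    simp only [hL, hB]
    rw [Real.sin_sub]
    field_simp
    ring
  rw [← h3]
  exact mul_le_mul_of_nonneg_left h2 hsβ.le

private theorem sb_cp_cp (p q : E) (α s : ℝ) :
    cp (cp p q α) (cp p q (α + π / 2)) s = cp p q (α + s) := by
  unfold cp
  rw [Real.cos_add_pi_div_two, Real.sin_add_pi_div_two, Real.cos_add, Real.sin_add]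
  module

private theorem sb_norm_cp {a b : E} (h : OP a b) (θ : ℝ) : ‖cp a b θ‖ = 1 := by
  have h1 : ‖cp a b θ‖ ^ 2 = 1 := by
    unfold cp
    rw [norm_add_sq_real, norm_smul, norm_smul, h.nw, h.nu, inner_smul_left, inner_smul_right,
      h.wu]
    simp only [Real.norm_eq_abs, mul_one, mul_zero, sq_abs, add_zero]
    exact Real.cos_sq_add_sin_sq θ
  exact (pow_eq_one_iff_of_nonneg (norm_nonneg _) two_ne_zero).1 h1

private theorem sb_op_cp {a b : E} (h : OP a b) (θ : ℝ) :
    OP (cp a b θ) (cp a b (θ + π / 2)) := by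
  refine ⟨sb_norm_cp h _, sb_norm_cp h _, ?_⟩
  unfold cp
  rw [Real.cos_add_pi_div_two, Real.sin_add_pi_div_two]
  simp only [inner_add_left, inner_add_right, inner_smul_left, inner_smul_right,
    real_inner_self_eq_norm_sq, h.nw, h.nu, h.wu, real_inner_comm]
  simp only [conj_trivial]
  ring

theorem subadd_of_diff {F : E → ℝ} (hc : Continuous F)
    (hh : ∀ c : ℝ, 0 ≤ c → ∀ x, F (c • x) = c * F x) {δ δ' C : ℝ}
    (h2 : ∀ p q, OP p q → ∀ s : ℝ, |F (cp p q s) + F (cp p q (-s)) - 2 * F p| ≤ δ * s ^ 2)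
    (h0 : ∀ x, |F x| ≤ δ' * ‖x‖) (hC : δ + δ' < C) (x y : E) :
    C * ‖x + y‖ + F (x + y) ≤ (C * ‖x‖ + F x) + (C * ‖y‖ + F y) := by
  set g : E → ℝ := fun x => C * ‖x‖ + F x with hg
  have hgh : ∀ c : ℝ, 0 ≤ c → ∀ x, g (c • x) = c * g x := by
    intro c hc x
    simp only [hg, hh c hc x, norm_smul, Real.norm_eq_abs, abs_of_nonneg hc]
    ring
  have hF0 : F 0 = 0 := by
    have := hh 0 le_rfl 0
    simpa using this
  have hg0 : g 0 = 0 := by simp [hg, hF0]
  -- a unit vector
  have hδ : 0 ≤ δ ∨ ∀ p q : E, ¬ OP p q := by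
    by_cases hex : ∃ p q : E, OP p q
    · obtain ⟨p, q, hpq⟩ := hex
      left
      have := (abs_nonneg _).trans (h2 p q hpq 1)
      simpa using this
    · right
      intro p q h
      exact hex ⟨p, q, h⟩
  have hgnn : ∀ x, 0 ≤ g x := by
    intro x
    rcases eq_or_ne x 0 with h | h
    · rw [h, hg0]
    · have hx : 0 < ‖x‖ := norm_pos_iff.2 h
      have h3 := h0 x
      have h4 := (abs_le.1 h3).1
      have h5 : 0 ≤ δ := by
        rcases hδ with h6 | h6
        · exact h6
        · exfalso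
          exact h6 (EuclideanSpace.single 0 1) (EuclideanSpace.single 1 1)
            ⟨by simp, by simp, by simp [EuclideanSpace.inner_single_left]⟩
      simp only [hg]
      nlinarith
  have hδ0 : 0 ≤ δ := by
    rcases hδ with h6 | h6
    · exact h6
    · exfalso
      exact h6 (EuclideanSpace.single 0 1) (EuclideanSpace.single 1 1)
        ⟨by simp, by simp, by simp [EuclideanSpace.inner_single_left]⟩
  show g (x + y) ≤ g x + g y
  rcases eq_or_ne x 0 with hx | hx
  · rw [hx, zero_add, hg0, zero_add]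
  have hxn : 0 < ‖x‖ := norm_pos_iff.2 hx
  obtain ⟨p, hp⟩ : ∃ p : E, p = ‖x‖⁻¹ • x := ⟨_, rfl⟩
  have hpn : ‖p‖ = 1 := by
    rw [hp, norm_smul, norm_inv, norm_norm, inv_mul_cancel₀ hxn.ne']
  have hxp : x = ‖x‖ • p := by
    rw [hp, smul_smul, mul_inv_cancel₀ hxn.ne', one_smul]
  set b1 : ℝ := ⟪p, y⟫_ℝ with hb1
  set y' : E := y - b1 • p with hy'
  rcases eq_or_ne y' 0 with hy0 | hy0
  · -- parallel vectors
    have hyp : y = b1 • p := sub_eq_zero.1 hy0
    rcases le_or_gt 0 b1 with hb | hb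
    · rw [hxp, hyp, ← add_smul, hgh _ (by positivity), hgh _ hxn.le, hgh _ hb]
      linarith
    · rcases le_or_gt 0 (‖x‖ + b1) with hb' | hb'
      · have e1 : g (x + y) = (‖x‖ + b1) * g p := by
          rw [hyp]
          nth_rewrite 1 [hxp]
          rw [← add_smul, hgh _ hb']
        have e2 : g x = ‖x‖ * g p := by
          nth_rewrite 1 [hxp]
          rw [hgh _ hxn.le]
        have e3 := hgnn p
        have e4 := hgnn y
        rw [e1, e2]
        nlinarith
      · have e1 : g (x + y) = -(‖x‖ + b1) * g (-p) := by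
          rw [hyp]
          nth_rewrite 1 [hxp]
          rw [← add_smul, ← hgh _ (by linarith), smul_neg, neg_smul, neg_neg]
        have e2 : g y = (-b1) * g (-p) := by
          rw [hyp, ← hgh _ (by linarith), smul_neg, neg_smul, neg_neg]
        have e3 := hgnn (-p)
        have e4 := hgnn x
        rw [e1, e2]
        nlinarith
  -- independent vectors
  have hyn' : 0 < ‖y'‖ := norm_pos_iff.2 hy0
  obtain ⟨q, hq⟩ : ∃ q : E, q = ‖y'‖⁻¹ • y' := ⟨_, rfl⟩
  have hqn : ‖q‖ = 1 := by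
    rw [hq, norm_smul, norm_inv, norm_norm, inv_mul_cancel₀ hyn'.ne']
  have hpq : ⟪p, q⟫_ℝ = 0 := by
    rw [hq, inner_smul_right, hy', inner_sub_right, inner_smul_right, real_inner_self_eq_norm_sq,
      hpn, ← hb1]
    ring
  have hOP : OP p q := ⟨hpn, hqn, hpq⟩
  set b2 : ℝ := ‖y'‖ with hb2
  have hyb : y = b1 • p + b2 • q := by
    rw [hq, smul_smul b2, mul_inv_cancel₀ hyn'.ne', one_smul, hy']
    abel
  -- norms
  have hnorm : ∀ s t : ℝ, ‖s • p + t • q‖ ^ 2 = s ^ 2 + t ^ 2 := by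
    intro s t
    rw [norm_add_sq_real, norm_smul, norm_smul, hpn, hqn, inner_smul_left, inner_smul_right, hpq]
    simp
  have hyn : ‖y‖ ^ 2 = b1 ^ 2 + b2 ^ 2 := by
    have := hnorm b1 b2
    rwa [← hyb] at this
  have hxy : x + y = (‖x‖ + b1) • p + b2 • q := by
    nth_rewrite 1 [hyb]
    nth_rewrite 1 [hxp]
    module
  have hxyn : ‖x + y‖ ^ 2 = (‖x‖ + b1) ^ 2 + b2 ^ 2 := by
    have := hnorm (‖x‖ + b1) b2
    rwa [← hxy] at this
  -- polar angles
  have polar : ∀ (s r : ℝ), 0 < r → r ^ 2 = s ^ 2 + b2 ^ 2 →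
      ∃ θ, 0 < θ ∧ θ < π ∧ r * Real.cos θ = s ∧ r * Real.sin θ = b2 := by
    intro s r hr hrs
    have h3 : -1 < s / r := by
      rw [lt_div_iff₀ hr]
      nlinarith [sq_nonneg (r + s)]
    have h4 : s / r < 1 := by
      rw [div_lt_iff₀ hr]
      nlinarith [sq_nonneg (r - s)]
    refine ⟨Real.arccos (s / r), Real.arccos_pos.2 h4, ?_, ?_, ?_⟩
    · rcases (Real.arccos_le_pi (s / r)).eq_or_lt with h5 | h5
      · have := Real.arccos_eq_pi.1 h5
        linarith
      · exact h5
    · rw [Real.cos_arccos h3.le h4.le]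
      field_simp
    · have h5 : 0 ≤ Real.sin (Real.arccos (s / r)) := by
        rw [Real.sin_arccos]; positivity
      have h6 := Real.sin_sq_add_cos_sq (Real.arccos (s / r))
      rw [Real.cos_arccos h3.le h4.le] at h6
      have h7 : (r * Real.sin (Real.arccos (s / r))) ^ 2 = b2 ^ 2 := by
        have h8 : r ^ 2 * (s / r) ^ 2 = s ^ 2 := by field_simp
        rw [mul_pow]
        nlinarith
      exact (pow_left_inj₀ (by positivity) hyn'.le two_ne_zero).1 h7
  have hyn0 : 0 < ‖y‖ := by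
    by_contra hcon
    have : ‖y‖ = 0 := le_antisymm (not_lt.1 hcon) (norm_nonneg _)
    rw [this] at hyn
    have : 0 < b2 ^ 2 := by positivity
    nlinarith [sq_nonneg b1]
  have hxyn0 : 0 < ‖x + y‖ := by
    by_contra hcon
    have : ‖x + y‖ = 0 := le_antisymm (not_lt.1 hcon) (norm_nonneg _)
    rw [this] at hxyn
    have : 0 < b2 ^ 2 := by positivity
    nlinarith [sq_nonneg (‖x‖ + b1)]
  obtain ⟨β, hβ0, hβπ, hβ1, hβ2⟩ := polar b1 ‖y‖ hyn0 hyn
  obtain ⟨α, hα0, hαπ, hα1, hα2⟩ := polar (‖x‖ + b1) ‖x + y‖ hxyn0 hxyn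
  have hsβ : 0 < Real.sin β := Real.sin_pos_of_pos_of_lt_pi hβ0 hβπ
  have hsub : ‖x + y‖ * Real.sin (β - α) = ‖x‖ * Real.sin β := by
    rw [Real.sin_sub]
    calc ‖x + y‖ * (Real.sin β * Real.cos α - Real.cos β * Real.sin α)
        = Real.sin β * (‖x + y‖ * Real.cos α) - Real.cos β * (‖x + y‖ * Real.sin α) := by ring
      _ = Real.sin β * (‖x‖ + ‖y‖ * Real.cos β) - Real.cos β * (‖y‖ * Real.sin β) := by
          rw [hα1, hα2, hβ1, hβ2]
      _ = ‖x‖ * Real.sin β := by ring
  have hαβ : α < β := by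
    by_contra hcon
    have h3 : Real.sin (β - α) ≤ 0 :=
      Real.sin_nonpos_of_nonpos_of_neg_pi_le (by linarith) (by linarith)
    have h4 : 0 < ‖x‖ * Real.sin β := by positivity
    have h5 : ‖x + y‖ * Real.sin (β - α) ≤ 0 := mul_nonpos_of_nonneg_of_nonpos hxyn0.le h3
    linarith
  -- the function on the circle
  set H : ℝ → ℝ := fun θ => g (cp p q θ) with hH
  have hHc : Continuous H := by
    have e1 : Continuous fun θ => cp p q θ := by
      unfold cp
      exact (Real.continuous_cos.smul continuous_const).add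
        (Real.continuous_sin.smul continuous_const)
    have e2 : Continuous g := (continuous_const.mul continuous_norm).add hc
    exact e2.comp e1
  have hδ' : ∀ θ, F (cp p q θ) ≥ -δ' := by
    intro θ
    have := (abs_le.1 (h0 (cp p q θ))).1
    rw [sb_norm_cp hOP, mul_one] at this
    exact this
  set D : ℝ := C - δ' with hD
  set γ : ℝ := C - δ' - δ with hγ
  have hγ0 : 0 < γ := by simp only [hγ]; linarith
  have hD0 : 0 < D := by simp only [hD]; linarith
  have hloc : ∀ α s : ℝ, 0 < s → s ≤ min 1 (γ / D) →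
      2 * Real.cos s * H α < H (α + s) + H (α - s) := by
    intro α s hs hs1
    have hs2 : s ≤ 1 := hs1.trans (min_le_left _ _)
    have hs3 : s ≤ γ / D := hs1.trans (min_le_right _ _)
    rw [le_div_iff₀ hD0] at hs3
    have e1 := h2 _ _ (sb_op_cp hOP α) s
    rw [sb_cp_cp, sb_cp_cp, ← sub_eq_add_neg] at e1
    have e2 := (abs_le.1 e1).1
    have e3 := Real.cos_bound (x := s) (by rw [abs_of_pos hs]; exact hs2)
    rw [abs_of_pos hs] at e3
    have e4 := (abs_le.1 e3).2
    have e5 := hδ' α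
    simp only [hH, hg, sb_norm_cp hOP, mul_one]
    have e6 : 0 < s ^ 2 := by positivity
    have e7 : s ^ 2 * (1 - 5 / 48 * s ^ 2) ≤ 2 * (1 - Real.cos s) := by nlinarith
    have e8 : 0 ≤ 2 * (1 - Real.cos s) := by have := Real.cos_le_one s; linarith
    have e9 : D ≤ C + F (cp p q α) := by simp only [hD]; linarith
    have e10 : D * (s ^ 2 * (1 - 5 / 48 * s ^ 2)) ≤ (C + F (cp p q α)) * (2 * (1 - Real.cos s)) := by
      calc D * (s ^ 2 * (1 - 5 / 48 * s ^ 2)) ≤ D * (2 * (1 - Real.cos s)) :=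
            mul_le_mul_of_nonneg_left e7 hD0.le
        _ ≤ (C + F (cp p q α)) * (2 * (1 - Real.cos s)) := mul_le_mul_of_nonneg_right e9 e8
    have e11 : δ * s ^ 2 < D * (s ^ 2 * (1 - 5 / 48 * s ^ 2)) := by
      have e12 : D * s ^ 2 ≤ γ := by nlinarith
      have e13 : δ < D * (1 - 5 / 48 * s ^ 2) := by
        have e14 : D = γ + δ := by simp only [hD, hγ]; ring
        nlinarith
      nlinarith
    nlinarith
  have hs0 : 0 < min 1 (γ / D) := lt_min one_pos (by positivity)
  have hfin := sb_trig hHc hs0 hloc hα0 hαβ hβπ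
  have hH0 : ‖x‖ * H 0 = g x := by
    simp only [hH, cp, Real.cos_zero, Real.sin_zero, one_smul, zero_smul, add_zero]
    rw [← hgh _ hxn.le, ← hxp]
  have hHβ : ‖y‖ * H β = g y := by
    simp only [hH, cp]
    rw [← hgh _ hyn0.le, smul_add, smul_smul, smul_smul, hβ1, hβ2, ← hyb]
  have hHα : ‖x + y‖ * H α = g (x + y) := by
    simp only [hH, cp]
    rw [← hgh _ hxyn0.le, smul_add, smul_smul, smul_smul, hα1, hα2, ← hxy]
  have hmul : Real.sin β * g (x + y) ≤ Real.sin β * (g x + g y) := by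
    calc Real.sin β * g (x + y) = ‖x + y‖ * (Real.sin β * H α) := by rw [← hHα]; ring
      _ ≤ ‖x + y‖ * (Real.sin (β - α) * H 0 + Real.sin α * H β) :=
          mul_le_mul_of_nonneg_left hfin hxyn0.le
      _ = (‖x + y‖ * Real.sin (β - α)) * H 0 + (‖x + y‖ * Real.sin α) * H β := by ring
      _ = (‖x‖ * Real.sin β) * H 0 + (‖y‖ * Real.sin β) * H β := by rw [hsub, hα2, hβ2]
      _ = Real.sin β * (‖x‖ * H 0 + ‖y‖ * H β) := by ring
      _ = Real.sin β * (g x + g y) := by rw [hH0, hHβ]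
  exact le_of_mul_le_mul_left hmul hsβ

end PB3
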