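import Mathlib
import Pool.Agent.Lib.MP_03c723_gt.Defs
import Pool.Agent.Lib.MP_03c723_gt.Sub

/-!
# Gradients of small perturbations of the norm (MP_03c723_gt)
-/

set_option autoImplicit false

namespace PB3
open MeasureTheory Real
open scoped InnerProductSpace Pointwise

/-- a sublinear functional is the maximum of linear functionals -/
private theorem gr_support (N : E → ℝ) (hN : ∀ c : ℝ, 0 ≤ c → ∀ x, N (c • x) = c * N x)
    (hadd : ∀ x y, N (x + y) ≤ N x + N y) {x : E} (hx : x ≠ 0) :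
    ∃ v : E, ⟪v, x⟫_ℝ = N x ∧ ∀ y, ⟪v, y⟫_ℝ ≤ N y := by
  have hN0 : N 0 = 0 := by
    have := hN 0 le_rfl 0
    simpa using this
  obtain ⟨g, hg1, hg2⟩ := exists_extension_of_le_sublinear
    (LinearPMap.mkSpanSingleton (σ := RingHom.id ℝ) x (N x) hx) N
    (fun c hc y => hN c hc.le y) hadd (by
      rintro ⟨y, hy⟩
      obtain ⟨c, rfl⟩ := Submodule.mem_span_singleton.1 hy
      rw [LinearPMap.mkSpanSingleton'_apply]
      simp only [RingHom.id_apply, smul_eq_mul]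
      rcases le_total 0 c with hc | hc
      · rw [hN c hc]
      · have h1 : N (c • x) = -c * N (-x) := by
          rw [← hN (-c) (by linarith)]
          simp
        rw [h1]
        have h2 : 0 ≤ N x + N (-x) := by
          have := hadd x (-x)
          rw [add_neg_cancel, hN0] at this
          exact this
        nlinarith)
  refine ⟨(InnerProductSpace.toDual ℝ E).symm g.toContinuousLinearMap, ?_, fun y => ?_⟩
  · rw [InnerProductSpace.toDual_symm_apply]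
    have := hg1 ⟨x, Submodule.mem_span_singleton_self x⟩
    exact this.trans (LinearPMap.mkSpanSingleton_apply ℝ ℝ hx (N x))
  · rw [InnerProductSpace.toDual_symm_apply]
    exact hg2 y

theorem exists_HQ {ζ : E → ℝ} {δ : ℝ} (hδ : 0 < δ)
    (hh : ∀ c : ℝ, 0 ≤ c → ∀ x, ζ (c • x) = c * ζ x)
    (h1 : ∀ x y, δ * ‖x + y‖ + ζ (x + y) ≤ (δ * ‖x‖ + ζ x) + (δ * ‖y‖ + ζ y))
    (h2 : ∀ x y, δ * ‖x + y‖ - ζ (x + y) ≤ (δ * ‖x‖ - ζ x) + (δ * ‖y‖ - ζ y)) :
    ∃ G : E → E, HQ ζ G δ := by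
  have key : ∀ x : E, ∃ g : E, x ≠ 0 → ∀ y : E,
      |ζ y - ⟪g, y⟫_ℝ| ≤ δ * (‖y‖ - ⟪x, y⟫_ℝ / ‖x‖) := by
    intro x
    by_cases hx : x = 0
    · exact ⟨0, fun h => absurd hx h⟩
    obtain ⟨p, hp1, hp2⟩ := gr_support (fun y => δ * ‖y‖ + ζ y) (by
      intro c hc y
      rw [norm_smul, Real.norm_eq_abs, abs_of_nonneg hc, hh c hc]
      ring) h1 hx
    obtain ⟨q, hq1, hq2⟩ := gr_support (fun y => δ * ‖y‖ - ζ y) (by
      intro c hc y
      rw [norm_smul, Real.norm_eq_abs, abs_of_nonneg hc, hh c hc]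
      ring) h2 hx
    have hxn : 0 < ‖x‖ := norm_pos_iff.2 hx
    have hle : ∀ y, ⟪p + q, y⟫_ℝ ≤ 2 * δ * ‖y‖ := by
      intro y
      rw [inner_add_left]
      linarith [hp2 y, hq2 y]
    have heq : ⟪p + q, x⟫_ℝ = 2 * δ * ‖x‖ := by
      rw [inner_add_left]
      linarith
    have hn : ‖p + q‖ ≤ 2 * δ := by
      have h3 := hle (p + q)
      rw [real_inner_self_eq_norm_sq] at h3
      by_contra hc
      push Not at hc
      have : 0 < ‖p + q‖ := by linarith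
      nlinarith
    have hz : p + q = (2 * δ / ‖x‖) • x := by
      rw [← sub_eq_zero, ← norm_eq_zero]
      have h3 : ‖p + q - (2 * δ / ‖x‖) • x‖ ^ 2 = ‖p + q‖ ^ 2 - (2 * δ) ^ 2 := by
        rw [norm_sub_sq_real, inner_smul_right, heq, norm_smul, Real.norm_eq_abs,
          abs_of_pos (by positivity : 0 < 2 * δ / ‖x‖)]
        field_simp
        ring
      have h4 : ‖p + q - (2 * δ / ‖x‖) • x‖ ^ 2 ≤ 0 := by
        rw [h3]
        have := norm_nonneg (p + q)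
        nlinarith
      exact pow_eq_zero_iff (two_ne_zero) |>.1 (le_antisymm h4 (by positivity))
    refine ⟨p - (δ / ‖x‖) • x, fun _ y => ?_⟩
    have h5 : ⟪p, y⟫_ℝ + ⟪q, y⟫_ℝ = 2 * (δ * (⟪x, y⟫_ℝ / ‖x‖)) := by
      rw [← inner_add_left, hz, inner_smul_left]
      simp only [conj_trivial]
      ring
    have h6 : ⟪p - (δ / ‖x‖) • x, y⟫_ℝ = ⟪p, y⟫_ℝ - δ * (⟪x, y⟫_ℝ / ‖x‖) := by
      rw [inner_sub_left, inner_smul_left]
      simp only [conj_trivial]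
      ring
    rw [h6, abs_le]
    have h7 := hp2 y
    have h8 := hq2 y
    constructor <;> nlinarith
  choose G hG using key
  exact ⟨G, fun x hx y => hG x hx y⟩

theorem HQ.self {ζ : E → ℝ} {G : E → E} {δ : ℝ} (h : HQ ζ G δ) {x : E} (hx : x ≠ 0) :
    ⟪G x, x⟫_ℝ = ζ x := by
  have h1 := h x hx x
  have hxn : 0 < ‖x‖ := norm_pos_iff.2 hx
  have h2 : ‖x‖ - ⟪x, x⟫_ℝ / ‖x‖ = 0 := by
    rw [real_inner_self_eq_norm_sq]
    field_simp
    ring
  rw [h2, mul_zero] at h1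
  have := abs_nonpos_iff.1 h1
  linarith

private theorem gr_amgm {x : E} (hx : x ≠ 0) (y : E) :
    ‖y‖ - ⟪x, y⟫_ℝ / ‖x‖ ≤ ‖y - x‖ ^ 2 / (2 * ‖x‖) := by
  have hxn : 0 < ‖x‖ := norm_pos_iff.2 hx
  rw [le_div_iff₀ (by positivity)]
  have h1 : (‖y‖ - ⟪x, y⟫_ℝ / ‖x‖) * (2 * ‖x‖) = 2 * ‖x‖ * ‖y‖ - 2 * ⟪x, y⟫_ℝ := by
    field_simp
  rw [h1, norm_sub_sq_real, real_inner_comm]
  nlinarith [sq_nonneg (‖x‖ - ‖y‖)]

theorem HQ.quad {ζ : E → ℝ} {G : E → E} {δ : ℝ} (hδ : 0 ≤ δ) (h : HQ ζ G δ) {x : E}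
    (hx : x ≠ 0) (y : E) : |ζ y - ζ x - ⟪G x, y - x⟫_ℝ| ≤ δ * ‖y - x‖ ^ 2 / (2 * ‖x‖) := by
  have h1 : ζ y - ζ x - ⟪G x, y - x⟫_ℝ = ζ y - ⟪G x, y⟫_ℝ := by
    rw [inner_sub_right, h.self hx]
    ring
  rw [h1, mul_div_assoc]
  exact (h x hx y).trans (mul_le_mul_of_nonneg_left (gr_amgm hx y) hδ)

/-- normalisation does not increase the distance outside the unit ball -/
private theorem gr_unit {x y : E} (hx : 1 ≤ ‖x‖) (hy : 1 ≤ ‖y‖) :
    ‖‖x‖⁻¹ • x - ‖y‖⁻¹ • y‖ ≤ ‖x - y‖ := by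
  have hx0 : 0 < ‖x‖ := by linarith
  have hy0 : 0 < ‖y‖ := by linarith
  have h0 : ‖‖x‖⁻¹ • x - ‖y‖⁻¹ • y‖ ^ 2 ≤ ‖x - y‖ ^ 2 := by
    rw [norm_sub_sq_real, norm_sub_sq_real, inner_smul_left, inner_smul_right, norm_smul,
      norm_smul, norm_inv, norm_inv, norm_norm, norm_norm, inv_mul_cancel₀ hx0.ne',
      inv_mul_cancel₀ hy0.ne']
    simp only [conj_trivial]
    set c := ⟪x, y⟫_ℝ with hc
    have hcs : c ≤ ‖x‖ * ‖y‖ := real_inner_le_norm x y
    set a := ‖x‖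
    set b := ‖y‖
    have hab : 1 ≤ a * b := by nlinarith
    have h1 : c * (1 - (a * b)⁻¹) ≤ a * b * (1 - (a * b)⁻¹) := by
      apply mul_le_mul_of_nonneg_right hcs
      have := inv_le_one_of_one_le₀ hab
      linarith
    have h2 : a * b * (a * b)⁻¹ = 1 := mul_inv_cancel₀ (by positivity)
    have h3 : a⁻¹ * (b⁻¹ * c) = c * (a * b)⁻¹ := by
      rw [mul_inv]
      ring
    rw [h3]
    nlinarith [sq_nonneg (a - b)]
  exact le_of_sq_le_sq h0 (norm_nonneg _)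

theorem HQ.lipG {ζ : E → ℝ} {G : E → E} {δ : ℝ} (hδ : 0 ≤ δ) (h : HQ ζ G δ) {x y : E}
    (hx : 1 ≤ ‖x‖) (hy : 1 ≤ ‖y‖) : ‖G x - G y‖ ≤ 3 / 2 * δ * ‖x - y‖ := by
  have hx0 : x ≠ 0 := by
    rintro rfl
    simp at hx
    linarith
  have hy0 : y ≠ 0 := by
    rintro rfl
    simp at hy
    linarith
  have hxp : 0 < ‖x‖ := by linarith
  have hyp : 0 < ‖y‖ := by linarith
  set X : E := ‖x‖⁻¹ • x with hX
  set Y : E := ‖y‖⁻¹ • y with hY
  have hXn : ‖X‖ = 1 := by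
    rw [hX, norm_smul, norm_inv, norm_norm, inv_mul_cancel₀ hxp.ne']
  have hYn : ‖Y‖ = 1 := by
    rw [hY, norm_smul, norm_inv, norm_norm, inv_mul_cancel₀ hyp.ne']
  have hX0 : X ≠ 0 := by
    rw [← norm_pos_iff, hXn]
    norm_num
  have hY0 : Y ≠ 0 := by
    rw [← norm_pos_iff, hYn]
    norm_num
  have hxX : ∀ z : E, ⟪x, z⟫_ℝ / ‖x‖ = ⟪X, z⟫_ℝ / ‖X‖ := by
    intro z
    rw [hXn, hX, inner_smul_left]
    simp only [conj_trivial]
    rw [div_one]
    ring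
  have hyY : ∀ z : E, ⟪y, z⟫_ℝ / ‖y‖ = ⟪Y, z⟫_ℝ / ‖Y‖ := by
    intro z
    rw [hYn, hY, inner_smul_left]
    simp only [conj_trivial]
    rw [div_one]
    ring
  have htest : ∀ z : E, |⟪G x - G y, z⟫_ℝ| ≤ δ * (‖z - X‖ ^ 2 / 2) + δ * (‖z - Y‖ ^ 2 / 2) := by
    intro z
    have h1 := h x hx0 z
    have h2 := h y hy0 z
    rw [hxX] at h1
    rw [hyY] at h2
    have h3 := mul_le_mul_of_nonneg_left (gr_amgm hX0 z) hδ
    have h4 := mul_le_mul_of_nonneg_left (gr_amgm hY0 z) hδ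
    have h3' := h1.trans h3
    have h4' := h2.trans h4
    rw [hXn] at h3'
    rw [hYn] at h4'
    rw [inner_sub_left, abs_le]
    rw [abs_le] at h3' h4'
    constructor <;> linarith [h3'.1, h3'.2, h4'.1, h4'.2]
  have htest2 : ∀ v : E, 2 * ⟪G x - G y, v⟫_ℝ ≤ δ * (2 * ‖v‖ ^ 2 + ‖X - Y‖ ^ 2) := by
    intro v
    have h1 := (abs_le.1 (htest (X + v))).2
    have h2 := (abs_le.1 (htest (X - v))).1
    rw [inner_add_right] at h1
    rw [inner_sub_right] at h2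
    have e1 : X + v - X = v := by abel
    have e2 : X - v - X = -v := by abel
    have e3 : X + v - Y = (X - Y) + v := by abel
    have e4 : X - v - Y = (X - Y) - v := by abel
    rw [e1, e3, norm_add_sq_real] at h1
    rw [e2, e4, norm_neg, norm_sub_sq_real] at h2
    nlinarith
  set D := G x - G y with hD
  have hlim : ∀ s : ℝ, ‖x - y‖ < s → ‖D‖ ≤ 3 / 2 * δ * s := by
    intro s hs
    have hs0 : 0 < s := lt_of_le_of_lt (norm_nonneg _) hs
    by_cases hD0 : D = 0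
    · rw [hD0, norm_zero]
      positivity
    have hDn : 0 < ‖D‖ := norm_pos_iff.2 hD0
    have h1 := htest2 ((s / ‖D‖) • D)
    rw [inner_smul_right, real_inner_self_eq_norm_sq, norm_smul, Real.norm_eq_abs,
      abs_of_pos (by positivity : 0 < s / ‖D‖)] at h1
    have h2 : s / ‖D‖ * ‖D‖ ^ 2 = s * ‖D‖ := by field_simp
    have h3 : s / ‖D‖ * ‖D‖ = s := by field_simp
    rw [h2, h3] at h1
    have h4 : ‖X - Y‖ ^ 2 ≤ s ^ 2 := by
      have := (gr_unit hx hy).trans hs.le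
      exact pow_le_pow_left₀ (norm_nonneg _) this 2
    have h5 : s * (2 * ‖D‖) ≤ s * (3 * δ * s) := by nlinarith
    have := le_of_mul_le_mul_left h5 hs0
    linarith
  have hcont : Filter.Tendsto (fun s : ℝ => 3 / 2 * δ * s) (nhdsWithin ‖x - y‖ (Set.Ioi ‖x - y‖))
      (nhds (3 / 2 * δ * ‖x - y‖)) :=
    ((continuous_const.mul continuous_id).tendsto _).mono_left nhdsWithin_le_nhds
  exact ge_of_tendsto hcont (eventually_nhdsWithin_of_forall fun s hs => hlim s hs)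

private theorem gr_zero {z : E → ℝ} (h : EH z) : z 0 = 0 := by
  have := h.hom 0 0
  simpa using this

private theorem gr_neg {z : E → ℝ} (h : EH z) (x : E) : z (-x) = z x := by
  have := h.hom (-1) x
  simpa using this

theorem Near.abs_le {z : E → ℝ} {δ : ℝ} (h : Near z δ) (x : E) :
    |z x - ‖x‖| ≤ δ * ‖x‖ := by
  obtain ⟨heh, G, hG⟩ := h
  by_cases hx : x = 0
  · rw [hx, gr_zero heh]
    simp
  have h1 := hG x hx (-x)
  have h2 := hG.self hx
  simp only at h1 h2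
  have hxn : 0 < ‖x‖ := norm_pos_iff.2 hx
  rw [gr_neg heh, norm_neg, inner_neg_right, inner_neg_right, h2, real_inner_self_eq_norm_sq] at h1
  have h3 : δ * (‖x‖ - -‖x‖ ^ 2 / ‖x‖) = 2 * (δ * ‖x‖) := by
    field_simp
    ring
  rw [h3] at h1
  rw [_root_.abs_le] at h1 ⊢
  constructor <;> linarith [h1.1, h1.2]

/-- the one-sided bound at the support point -/
private theorem gr_side {z : E → ℝ} {G : E → E} {δ : ℝ}
    (h : HQ (fun x => z x - ‖x‖) G δ) {x : E} (hx : x ≠ 0) (y : E) :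
    ⟪G x, y⟫_ℝ + δ * (⟪x, y⟫_ℝ / ‖x‖) ≤ (z y - ‖y‖) + δ * ‖y‖ := by
  have h1 := (_root_.abs_le.1 (h x hx y)).1
  simp only at h1
  linarith

theorem Near.normG {z : E → ℝ} {G : E → E} {δ : ℝ} (hδ : 0 ≤ δ) (hz : EH z)
    (h : HQ (fun x => z x - ‖x‖) G δ) {x : E} (hx : x ≠ 0) : ‖G x‖ ≤ 3 * δ := by
  have hn : Near z δ := ⟨hz, G, h⟩
  have h1 := gr_side h hx (G x)
  have h2 := (_root_.abs_le.1 (hn.abs_le (G x))).2
  have hxn : 0 < ‖x‖ := norm_pos_iff.2 hx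
  rw [real_inner_self_eq_norm_sq] at h1
  have h3 : -‖G x‖ ≤ ⟪x, G x⟫_ℝ / ‖x‖ := by
    rw [le_div_iff₀ hxn]
    have := (_root_.abs_le.1 (abs_real_inner_le_norm x (G x))).1
    linarith
  have h4 : δ * -‖G x‖ ≤ δ * (⟪x, G x⟫_ℝ / ‖x‖) := mul_le_mul_of_nonneg_left h3 hδ
  have h5 : ‖G x‖ * ‖G x‖ ≤ 3 * δ * ‖G x‖ := by nlinarith
  by_cases h6 : ‖G x‖ = 0
  · rw [h6]
    positivity
  · exact le_of_mul_le_mul_right h5 (lt_of_le_of_ne (norm_nonneg _) (Ne.symm h6))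

private theorem gr_lip1 {z : E → ℝ} {δ : ℝ} (hδ : 0 ≤ δ) (h : Near z δ) (x y : E) :
    (z x - ‖x‖) - (z y - ‖y‖) ≤ 3 * δ * ‖x - y‖ := by
  by_cases hx : x = 0
  · rw [hx, gr_zero h.eh]
    have := (_root_.abs_le.1 (h.abs_le y)).1
    simp only [norm_zero, sub_zero, zero_sub, norm_neg]
    have h1 := mul_nonneg hδ (norm_nonneg y)
    linarith
  obtain ⟨G, hG⟩ := h.hq
  have hxn : 0 < ‖x‖ := norm_pos_iff.2 hx
  have h1 := gr_side hG hx y
  have h2 := gr_side hG hx (x - y)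
  have h3 := (_root_.abs_le.1 (h.abs_le (x - y))).2
  have h4 := hG.self hx
  rw [inner_sub_right, inner_sub_right, h4, real_inner_self_eq_norm_sq] at h2
  have h5 : (‖x‖ ^ 2 - ⟪x, y⟫_ℝ) / ‖x‖ = ‖x‖ - ⟪x, y⟫_ℝ / ‖x‖ := by
    field_simp
  rw [h5] at h2
  have h6 : δ * (‖y‖ - ‖x‖) ≤ δ * ‖x - y‖ := by
    apply mul_le_mul_of_nonneg_left _ hδ
    rw [norm_sub_rev]
    exact norm_sub_norm_le y x
  linarith

theorem Near.lip {z : E → ℝ} {δ : ℝ} (hδ : 0 ≤ δ) (h : Near z δ) (x y : E) :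
    |(z x - ‖x‖) - (z y - ‖y‖)| ≤ 3 * δ * ‖x - y‖ := by
  rw [_root_.abs_le]
  have h1 := gr_lip1 hδ h x y
  have h2 := gr_lip1 hδ h y x
  rw [norm_sub_rev] at h2
  constructor <;> linarith

theorem Near.subadd {z : E → ℝ} {δ : ℝ} (hδ : δ ≤ 1) (h : Near z δ) (x y : E) :
    z (x + y) ≤ z x + z y := by
  obtain ⟨G, hG⟩ := h.hq
  by_cases hw : x + y = 0
  · rw [hw, gr_zero h.eh]
    have h1 : ∀ v : E, 0 ≤ z v := by
      intro v
      have := (_root_.abs_le.1 (h.abs_le v)).1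
      nlinarith [norm_nonneg v]
    linarith [h1 x, h1 y]
  have hwn : 0 < ‖x + y‖ := norm_pos_iff.2 hw
  have hb : ∀ v : E, ⟪x + y, v⟫_ℝ / ‖x + y‖ + ⟪G (x + y), v⟫_ℝ ≤ z v := by
    intro v
    have h1 := gr_side hG hw v
    have h2 : ⟪x + y, v⟫_ℝ / ‖x + y‖ ≤ ‖v‖ := by
      rw [div_le_iff₀ hwn]
      have := real_inner_le_norm (x + y) v
      linarith
    have h3 : (1 - δ) * (⟪x + y, v⟫_ℝ / ‖x + y‖) ≤ (1 - δ) * ‖v‖ :=
      mul_le_mul_of_nonneg_left h2 (by linarith)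
    linarith
  have h1 := hb x
  have h2 := hb y
  have h3 := hG.self hw
  have h4 : ⟪x + y, x⟫_ℝ / ‖x + y‖ + ⟪x + y, y⟫_ℝ / ‖x + y‖ = ‖x + y‖ := by
    rw [← add_div, ← inner_add_right, real_inner_self_eq_norm_sq]
    field_simp
  have h5 : ⟪G (x + y), x⟫_ℝ + ⟪G (x + y), y⟫_ℝ = z (x + y) - ‖x + y‖ := by
    rw [← inner_add_right, h3]
  linarith

/-! ### The class `Cls` -/

private theorem gr_flip (i : Fin 3) (x : E) (j : Fin 3) :
    flip i x j = if j = i then - x j else x j := by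
  unfold flip
  rw [Submodule.reflection_orthogonal_apply, Submodule.reflection_singleton_apply,
    EuclideanSpace.inner_single_left]
  simp only [map_one, one_mul, PiLp.norm_single, norm_one, PiLp.neg_apply,
    PiLp.sub_apply, PiLp.smul_apply, PiLp.single_apply, smul_eq_mul]
  split_ifs with h
  · subst h
    simp
    ring
  · simp

private theorem gr_e3_norm : ‖e3‖ = 1 := by
  unfold e3
  simp

private theorem gr_inner_e3 (x : E) : ⟪e3, x⟫_ℝ = x 2 := by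
  unfold e3
  rw [EuclideanSpace.inner_single_left]
  simp

private theorem gr_rotf_self {p q : E} (h : OP p q) (s : ℝ) : rotf p q s p = cp p q s := by
  unfold rotf cp
  rw [real_inner_self_eq_norm_sq, real_inner_comm p q, h.nw, h.wu]
  simp only [one_pow, one_smul, zero_smul, add_zero, sub_zero]
  module

private theorem gr_norm_cp {p q : E} (h : OP p q) (s : ℝ) : ‖cp p q s‖ = 1 := by
  have h1 : ‖cp p q s‖ ^ 2 = 1 := by
    unfold cp
    rw [norm_add_sq_real, inner_smul_left, inner_smul_right, h.wu, norm_smul, norm_smul, h.nw,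
      h.nu]
    simp only [Real.norm_eq_abs, mul_one, sq_abs, mul_zero, add_zero]
    linarith [Real.sin_sq_add_cos_sq s]
  have h2 := norm_nonneg (cp p q s)
  nlinarith

/-- the bound on the upper half sphere -/
private theorem gr_cls_upper {z : E → ℝ} {δ : ℝ} (h : Cls z δ) {x : E} (hx : ‖x‖ = 1)
    (hx2 : 0 ≤ x 2) : |z x - 1| ≤ 5 / 4 * δ := by
  have hδ : 0 ≤ δ := by
    have o : OP e3 (EuclideanSpace.single 0 1 : E) := by
      refine ⟨gr_e3_norm, by simp, ?_⟩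
      rw [gr_inner_e3]
      simp
    have h1 := h.n2 _ _ o 1 e3
    rw [gr_e3_norm] at h1
    have := (abs_nonneg _).trans h1
    linarith
  set k : E := x - (x 2) • e3 with hk
  have hkin : ⟪e3, k⟫_ℝ = 0 := by
    rw [hk, inner_sub_right, inner_smul_right, real_inner_self_eq_norm_sq, gr_e3_norm,
      gr_inner_e3]
    ring
  have hxk : x = (x 2) • e3 + k := by
    rw [hk]
    abel
  have hkn : ‖k‖ ^ 2 = 1 - (x 2) ^ 2 := by
    have h1 : ‖x‖ ^ 2 = ‖(x 2) • e3 + k‖ ^ 2 := by rw [← hxk]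
    rw [norm_add_sq_real, inner_smul_left, hkin, norm_smul, gr_e3_norm, hx] at h1
    simp only [Real.norm_eq_abs, mul_one, sq_abs, mul_zero, add_zero] at h1
    linarith
  by_cases hk0 : k = 0
  · rw [hk0, norm_zero] at hkn
    have h2 : x 2 = 1 := by nlinarith
    rw [hk0, h2, one_smul, add_zero] at hxk
    rw [hxk, h.one, sub_self, abs_zero]
    positivity
  have hkp : 0 < ‖k‖ := norm_pos_iff.2 hk0
  set b : E := ‖k‖⁻¹ • k with hb
  have hbn : ‖b‖ = 1 := by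
    rw [hb, norm_smul, norm_inv, norm_norm, inv_mul_cancel₀ hkp.ne']
  have o : OP e3 b := by
    refine ⟨gr_e3_norm, hbn, ?_⟩
    rw [hb, inner_smul_right, hkin, mul_zero]
  have hx21 : x 2 ≤ 1 := by nlinarith
  set α := Real.arccos (x 2) with hα
  have hcos : Real.cos α = x 2 := Real.cos_arccos (by linarith) hx21
  have hsin : Real.sin α = ‖k‖ := by
    rw [hα, Real.sin_arccos, ← hkn, Real.sqrt_sq hkp.le]
  have hα0 : 0 ≤ α := Real.arccos_nonneg _
  have hα1 : α ≤ π / 2 := Real.arccos_le_pi_div_two.2 hx2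
  have hcp : cp e3 b α = x := by
    unfold cp
    rw [hcos, hsin, hb, smul_smul, mul_inv_cancel₀ hkp.ne', one_smul]
    exact hxk.symm
  have hcp' : cp e3 b (-α) = flip 0 (flip 1 x) := by
    have h1 : cp e3 b (-α) = (x 2) • e3 - k := by
      unfold cp
      rw [Real.cos_neg, Real.sin_neg, hcos, hsin, hb, neg_smul, smul_smul,
        mul_inv_cancel₀ hkp.ne', one_smul]
      abel
    rw [h1, hk]
    ext j
    rw [gr_flip, gr_flip]
    unfold e3
    fin_cases j <;> simp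
  have h2 := h.n2 e3 b o α e3
  rw [gr_rotf_self o, gr_rotf_self o, hcp, hcp', h.inv.flip, h.inv.flip, h.one, gr_e3_norm] at h2
  have h3 : α ^ 2 ≤ 5 / 2 := by
    have h4 : π / 2 ≤ 1.575 := by linarith [Real.pi_lt_d2]
    nlinarith
  have h5 : δ * α ^ 2 * 1 ≤ δ * (5 / 2) := by
    rw [mul_one]
    exact mul_le_mul_of_nonneg_left h3 hδ
  have h6 := h2.trans h5
  rw [_root_.abs_le] at h6 ⊢
  constructor <;> linarith [h6.1, h6.2]

theorem Cls.abs_le {z : E → ℝ} {δ : ℝ} (h : Cls z δ) (x : E) :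
    |z x - ‖x‖| ≤ 5 / 4 * δ * ‖x‖ := by
  by_cases hx : x = 0
  · rw [hx, gr_zero h.eh]
    simp
  have hxn : 0 < ‖x‖ := norm_pos_iff.2 hx
  set u : E := ‖x‖⁻¹ • x with hu
  have hun : ‖u‖ = 1 := by
    rw [hu, norm_smul, norm_inv, norm_norm, inv_mul_cancel₀ hxn.ne']
  have hzx : z x = ‖x‖ * z u := by
    rw [hu, h.eh.hom, abs_inv, abs_norm, ← mul_assoc, mul_inv_cancel₀ hxn.ne', one_mul]
  have hmain : |z u - 1| ≤ 5 / 4 * δ := by
    rcases le_total 0 (u 2) with h2 | h2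
    · exact gr_cls_upper h hun h2
    · have := gr_cls_upper h (x := -u) (by rw [norm_neg, hun]) (by
        rw [PiLp.neg_apply]
        linarith)
      rwa [gr_neg h.eh] at this
  have h1 : z x - ‖x‖ = ‖x‖ * (z u - 1) := by
    rw [hzx]
    ring
  rw [h1, abs_mul, abs_norm]
  calc ‖x‖ * |z u - 1| ≤ ‖x‖ * (5 / 4 * δ) := mul_le_mul_of_nonneg_left hmain hxn.le
    _ = 5 / 4 * δ * ‖x‖ := by ring

theorem Cls.near {z : E → ℝ} {δ : ℝ} (hδ : 0 < δ) (h : Cls z δ) : Near z (3 * δ) := by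
  have hcont : Continuous fun x : E => z x - ‖x‖ := h.eh.cont.sub continuous_norm
  have hhom : ∀ c : ℝ, 0 ≤ c → ∀ x : E, z (c • x) - ‖c • x‖ = c * (z x - ‖x‖) := by
    intro c hc x
    rw [h.eh.hom, norm_smul, Real.norm_eq_abs, abs_of_nonneg hc]
    ring
  have hdiff : ∀ p q, OP p q → ∀ s : ℝ,
      |(z (cp p q s) - ‖cp p q s‖) + (z (cp p q (-s)) - ‖cp p q (-s)‖) - 2 * (z p - ‖p‖)| ≤
        δ * s ^ 2 := by
    intro p q o s
    have h1 := h.n2 p q o s p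
    rw [gr_rotf_self o, gr_rotf_self o, o.nw, mul_one] at h1
    rw [gr_norm_cp o, gr_norm_cp o, o.nw]
    refine le_trans (le_of_eq ?_) h1
    congr 1
    ring
  have hs1 := subadd_of_diff hcont hhom hdiff h.abs_le (C := 3 * δ) (by linarith)
  have hs2 := subadd_of_diff (F := fun x => -(z x - ‖x‖)) hcont.neg
    (by
      intro c hc x
      rw [hhom c hc]
      ring) (δ := δ) (δ' := 5 / 4 * δ) (C := 3 * δ)
    (by
      intro p q o s
      have := hdiff p q o s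
      rw [← abs_neg] at this
      refine le_trans (le_of_eq ?_) this
      congr 1
      ring)
    (by
      intro x
      rw [abs_neg]
      exact h.abs_le x) (by linarith)
  refine ⟨h.eh, exists_HQ (by positivity) hhom hs1 ?_⟩
  intro x y
  have := hs2 x y
  linarith

end PB3
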