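import Pool.Agent.Lib.MP_03c723_gt.Defs
import Pool.Agent.Lib.MP_03c723_gt.Grad

/-!
# The convex body with a prescribed odd part of the support function
-/

namespace PB3
open MeasureTheory Real
open scoped InnerProductSpace Pointwise

/-! ### support functions of compact sets -/

theorem bd_img {S : Set E} (hS : IsCompact S) (ν : E) :
    IsCompact ((fun x => ⟪x, ν⟫_ℝ) '' S) := hS.image (by fun_prop)

theorem bd_le {S : Set E} (hS : IsCompact S) {x : E} (hx : x ∈ S) (ν : E) :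
    ⟪x, ν⟫_ℝ ≤ suppFn S ν :=
  le_csSup (bd_img hS ν).bddAbove ⟨x, hx, rfl⟩

theorem bd_att {S : Set E} (hS : IsCompact S) (hn : S.Nonempty) (ν : E) :
    ∃ x ∈ S, ⟪x, ν⟫_ℝ = suppFn S ν := by
  obtain ⟨x, hx, h⟩ := (bd_img hS ν).sSup_mem (hn.image _)
  exact ⟨x, hx, h⟩

theorem bd_dual (f : E →L[ℝ] ℝ) : ∃ ν : E, ∀ y, f y = ⟪y, ν⟫_ℝ := by
  refine ⟨(InnerProductSpace.toDual ℝ E).symm f, fun y => ?_⟩
  rw [real_inner_comm, InnerProductSpace.toDual_symm_apply]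

theorem bd_mem {S : Set E} (hS : IsCompact S) (hn : S.Nonempty) (hc : Convex ℝ S) {x : E}
    (h : ∀ ν, ⟪x, ν⟫_ℝ ≤ suppFn S ν) : x ∈ S := by
  by_contra hx
  obtain ⟨f, u, h1, h2⟩ := geometric_hahn_banach_closed_point hc hS.isClosed hx
  obtain ⟨ν, hf⟩ := bd_dual f
  obtain ⟨y, hy, hy'⟩ := bd_att hS hn ν
  have h3 := h1 y hy
  rw [hf, hy'] at h3
  rw [hf] at h2
  linarith [h ν]

/-- a sublinear function is the support function of something, at each point -/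
theorem bd_hb {N : E → ℝ} (hh : ∀ c : ℝ, 0 < c → ∀ x, N (c • x) = c * N x)
    (ha : ∀ x y, N (x + y) ≤ N x + N y) (x : E) :
    ∃ v : E, ⟪v, x⟫_ℝ = N x ∧ ∀ y, ⟪v, y⟫_ℝ ≤ N y := by
  have hN0 : N 0 = 0 := by
    have := hh 2 (by norm_num) 0
    rw [smul_zero] at this
    linarith
  have key : ∀ x : E, x ≠ 0 → ∃ v : E, ⟪v, x⟫_ℝ = N x ∧ ∀ y, ⟪v, y⟫_ℝ ≤ N y := by
    intro x hx
    obtain ⟨g, hg1, hg2⟩ := exists_extension_of_le_sublinear
      (LinearPMap.mkSpanSingleton (σ := RingHom.id ℝ) x (N x) hx) N hh ha (by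
        rintro ⟨y, hy⟩
        obtain ⟨c, rfl⟩ := Submodule.mem_span_singleton.1 hy
        rw [LinearPMap.mkSpanSingleton'_apply]
        simp only [RingHom.id_apply, smul_eq_mul]
        rcases lt_trichotomy c 0 with hc | hc | hc
        · have h1 := hh (-c) (by linarith) x
          have h2 := ha (c • x) ((-c) • x)
          rw [← add_smul, add_neg_cancel, zero_smul, hN0, h1] at h2
          linarith
        · rw [hc, zero_smul, zero_mul, hN0]
        · rw [hh c hc x])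
    obtain ⟨v, hv⟩ := bd_dual (LinearMap.toContinuousLinearMap g)
    have hv' : ∀ y, g y = ⟪v, y⟫_ℝ := by
      intro y
      rw [real_inner_comm, ← hv y]
      rfl
    refine ⟨v, ?_, fun y => ?_⟩
    · rw [← hv', hg1 ⟨x, Submodule.mem_span_singleton_self x⟩]
      exact LinearPMap.mkSpanSingleton_apply ℝ ℝ hx (N x)
    · rw [← hv']; exact hg2 y
  by_cases hx : x = 0
  · obtain ⟨v, -, hv⟩ := key (EuclideanSpace.single 2 1) (by simp)
    refine ⟨v, ?_, hv⟩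
    rw [hx, inner_zero_right, hN0]
  · exact key x hx

/-! ### the body `{z ≤ 1}` -/

section M

variable {z : E → ℝ} {δ : ℝ}

theorem bd_lower (hδ : δ ≤ 1 / 100) (h : Near z δ) (x : E) : 99 / 100 * ‖x‖ ≤ z x := by
  have h1 := (abs_le.1 (h.abs_le x)).1
  have h2 : δ * ‖x‖ ≤ 1 / 100 * ‖x‖ := mul_le_mul_of_nonneg_right hδ (norm_nonneg _)
  linarith

theorem bd_upper (hδ : δ ≤ 1 / 100) (h : Near z δ) (x : E) : z x ≤ 101 / 100 * ‖x‖ := by
  have h1 := (abs_le.1 (h.abs_le x)).2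
  have h2 : δ * ‖x‖ ≤ 1 / 100 * ‖x‖ := mul_le_mul_of_nonneg_right hδ (norm_nonneg _)
  linarith

theorem bd_compact (hδ : δ ≤ 1 / 100) (h : Near z δ) : IsCompact {x | z x ≤ 1} := by
  refine Metric.isCompact_of_isClosed_isBounded (isClosed_le h.eh.cont continuous_const) ?_
  refine (Metric.isBounded_closedBall (x := (0 : E)) (r := 2)).subset ?_
  intro x hx
  rw [mem_closedBall_zero_iff]
  have := bd_lower hδ h x
  have hx' : z x ≤ 1 := hx
  linarith

theorem bd_ball (hδ : δ ≤ 1 / 100) (h : Near z δ) {x : E} (hx : ‖x‖ ≤ 100 / 101) :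
    x ∈ {x | z x ≤ 1} := by
  have := bd_upper hδ h x
  show z x ≤ 1
  linarith

theorem bd_convex (hδ : δ ≤ 1 / 100) (h : Near z δ) : Convex ℝ {x | z x ≤ 1} := by
  intro x hx y hy s t hs ht hst
  have hx' : z x ≤ 1 := hx
  have hy' : z y ≤ 1 := hy
  have h1 := h.subadd (by linarith) (s • x) (t • y)
  rw [h.eh.hom, h.eh.hom, abs_of_nonneg hs, abs_of_nonneg ht] at h1
  show z (s • x + t • y) ≤ 1
  nlinarith

theorem bd_even (h : Near z δ) (x : E) : z (-x) = z x := by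
  have := h.eh.hom (-1) x
  rwa [neg_one_smul, abs_neg, abs_one, one_mul] at this

/-- a ball of radius `1/4` rolls freely inside -/
theorem bd_roll (hδ0 : 0 ≤ δ) (hδ : δ ≤ 1 / 100) (h : Near z δ) {p : E} (hp : z p = 1) :
    ∃ c : E, ‖p - c‖ ≤ 1 / 4 ∧ ∀ y, ‖y - c‖ ≤ 1 / 4 → z y ≤ 1 := by
  have hp0 : p ≠ 0 := by
    rintro rfl
    have := bd_upper hδ h 0
    rw [hp, norm_zero] at this
    linarith
  have hn0 : 0 < ‖p‖ := norm_pos_iff.2 hp0
  obtain ⟨G, hG⟩ := h.hq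
  have hself := hG.self hp0
  have hGn := Near.normG hδ0 h.eh hG hp0
  set g : E := ‖p‖⁻¹ • p + G p with hg
  have hpn : ‖(‖p‖⁻¹ • p : E)‖ = 1 := by
    rw [norm_smul, norm_inv, norm_norm, inv_mul_cancel₀ hn0.ne']
  have hgn : 97 / 100 ≤ ‖g‖ := by
    have h1 := norm_sub_norm_le (‖p‖⁻¹ • p : E) (-G p)
    rw [sub_neg_eq_add, norm_neg, hpn] at h1
    linarith
  have hg0 : 0 < ‖g‖ := by linarith
  have hlow : 100 / 101 ≤ ‖p‖ := by
    have := bd_upper hδ h p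
    rw [hp] at this
    linarith
  -- upper bound for z
  have hub : ∀ y, z y ≤ 1 + ⟪g, y - p⟫_ℝ + (1 + δ) * (‖y - p‖ ^ 2 / (2 * ‖p‖)) := by
    intro y
    have h1 := (abs_le.1 (hG p hp0 y)).2
    have h2 : ⟪g, y⟫_ℝ = ⟪p, y⟫_ℝ / ‖p‖ + ⟪G p, y⟫_ℝ := by
      rw [hg, inner_add_left, real_inner_smul_left]; ring
    have h3 : ⟪g, p⟫_ℝ = 1 := by
      rw [hg, inner_add_left, real_inner_smul_left, real_inner_self_eq_norm_sq, hself, hp]
      field_simp
      ring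
    have h4 : ‖y‖ - ⟪p, y⟫_ℝ / ‖p‖ ≤ ‖y - p‖ ^ 2 / (2 * ‖p‖) := by
      rw [norm_sub_sq_real, real_inner_comm p y]
      rw [le_div_iff₀ (by positivity)]
      have e : (‖y‖ - ⟪p, y⟫_ℝ / ‖p‖) * (2 * ‖p‖) = 2 * ‖y‖ * ‖p‖ - 2 * ⟪p, y⟫_ℝ := by
        field_simp
      rw [e]
      nlinarith [sq_nonneg (‖y‖ - ‖p‖)]
    have h5 : (1 + δ) * (‖y‖ - ⟪p, y⟫_ℝ / ‖p‖) ≤ (1 + δ) * (‖y - p‖ ^ 2 / (2 * ‖p‖)) :=
      mul_le_mul_of_nonneg_left h4 (by linarith)
    rw [inner_sub_right, h3, h2]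
    simp only at h1
    linarith
  refine ⟨p - (1 / 4 * ‖g‖⁻¹) • g, ?_, ?_⟩
  · rw [sub_sub_cancel, norm_smul, norm_mul, norm_inv, norm_norm, mul_assoc,
      inv_mul_cancel₀ hg0.ne']
    norm_num
  · intro y hy
    have e1 : y - (p - (1 / 4 * ‖g‖⁻¹) • g) = (y - p) + (1 / 4 * ‖g‖⁻¹) • g := by abel
    rw [e1] at hy
    have h1 : ‖(y - p) + (1 / 4 * ‖g‖⁻¹) • g‖ ^ 2 ≤ (1 / 4) ^ 2 :=
      pow_le_pow_left₀ (norm_nonneg _) hy 2
    rw [norm_add_sq_real, real_inner_smul_right, norm_smul, norm_mul, norm_inv, norm_norm] at h1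
    have e2 : (‖(1 / 4 : ℝ)‖ * ‖g‖⁻¹ * ‖g‖) = 1 / 4 := by
      rw [mul_assoc, inv_mul_cancel₀ hg0.ne']; norm_num
    rw [e2] at h1
    -- `⟪y - p, g⟫ ≤ - 2 ‖g‖ ‖y - p‖²`
    have h2 : ⟪g, y - p⟫_ℝ ≤ - (2 * ‖g‖ * ‖y - p‖ ^ 2) := by
      rw [real_inner_comm]
      have h3 : 2 * (1 / 4 * ‖g‖⁻¹ * ⟪y - p, g⟫_ℝ) ≤ - ‖y - p‖ ^ 2 := by linarith
      have h4 := mul_le_mul_of_nonneg_left h3 (by positivity : 0 ≤ 2 * ‖g‖)
      have e3 : 2 * ‖g‖ * (2 * (1 / 4 * ‖g‖⁻¹ * ⟪y - p, g⟫_ℝ)) = ⟪y - p, g⟫_ℝ := by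
        field_simp
        ring
      rw [e3] at h4
      linarith
    have h5 := hub y
    have h6 : (1 + δ) * (‖y - p‖ ^ 2 / (2 * ‖p‖)) ≤ 1 * ‖y - p‖ ^ 2 := by
      have e4 : (1 + δ) * (‖y - p‖ ^ 2 / (2 * ‖p‖)) = (1 + δ) / (2 * ‖p‖) * ‖y - p‖ ^ 2 := by
        ring
      rw [e4]
      apply mul_le_mul_of_nonneg_right _ (sq_nonneg _)
      rw [div_le_one (by positivity)]
      linarith
    have h7 : 97 / 50 * ‖y - p‖ ^ 2 ≤ 2 * ‖g‖ * ‖y - p‖ ^ 2 := by
      apply mul_le_mul_of_nonneg_right _ (sq_nonneg _)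
      linarith
    have h8 := sq_nonneg ‖y - p‖
    linarith

/-- the support function is subadditive even after subtracting the one of a ball -/
theorem bd_supp_sub (hδ0 : 0 ≤ δ) (hδ : δ ≤ 1 / 100) (h : Near z δ) (ν₁ ν₂ : E) :
    suppFn {x | z x ≤ 1} (ν₁ + ν₂) - 1 / 4 * ‖ν₁ + ν₂‖ ≤
      (suppFn {x | z x ≤ 1} ν₁ - 1 / 4 * ‖ν₁‖) + (suppFn {x | z x ≤ 1} ν₂ - 1 / 4 * ‖ν₂‖) := by
  have hM := bd_compact hδ h
  have hne : ({x | z x ≤ 1} : Set E).Nonempty := ⟨0, bd_ball hδ h (by norm_num)⟩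
  -- a ball inside gives a lower bound
  have hball : ∀ c : E, (∀ y, ‖y - c‖ ≤ 1 / 4 → z y ≤ 1) → ∀ ν : E,
      ⟪c, ν⟫_ℝ + 1 / 4 * ‖ν‖ ≤ suppFn {x | z x ≤ 1} ν := by
    intro c hc ν
    rcases eq_or_ne ν 0 with rfl | hν
    · have := bd_le hM (hc c (by simp)) 0
      simpa using this
    · have hν0 : 0 < ‖ν‖ := norm_pos_iff.2 hν
      have h1 : z (c + (1 / 4 * ‖ν‖⁻¹) • ν) ≤ 1 := by
        apply hc
        rw [add_sub_cancel_left, norm_smul, norm_mul, norm_inv, norm_norm, mul_assoc,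
          inv_mul_cancel₀ hν0.ne']
        norm_num
      have h2 := bd_le hM (x := c + (1 / 4 * ‖ν‖⁻¹) • ν) h1 ν
      rw [inner_add_left, real_inner_smul_left, real_inner_self_eq_norm_sq] at h2
      have e : 1 / 4 * ‖ν‖⁻¹ * ‖ν‖ ^ 2 = 1 / 4 * ‖ν‖ := by field_simp
      rwa [e] at h2
  have hzero : ∀ ν : E, 1 / 4 * ‖ν‖ ≤ suppFn {x | z x ≤ 1} ν := by
    intro ν
    have := hball 0 (fun y hy => bd_ball hδ h (by rw [sub_zero] at hy; linarith)) ν
    simpa using this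
  rcases eq_or_ne (ν₁ + ν₂) 0 with h0 | h0
  · rw [h0, norm_zero]
    have h1 := hzero ν₁
    have h2 := hzero ν₂
    have h3 : suppFn {x | z x ≤ 1} (0 : E) = 0 := by
      obtain ⟨x, hx, hx'⟩ := bd_att hM hne 0
      rw [← hx', inner_zero_right]
    rw [h3]
    linarith
  · obtain ⟨p, hpM, hp⟩ := bd_att hM hne (ν₁ + ν₂)
    have hpM' : z p ≤ 1 := hpM
    have hν0 : 0 < ‖ν₁ + ν₂‖ := norm_pos_iff.2 h0
    have hpos : 0 < ⟪p, ν₁ + ν₂⟫_ℝ := by
      rw [hp]
      have := hzero (ν₁ + ν₂)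
      have h2 : 0 < 1 / 4 * ‖ν₁ + ν₂‖ := by positivity
      linarith
    have hp0 : p ≠ 0 := by
      rintro rfl
      rw [inner_zero_left] at hpos
      exact lt_irrefl _ hpos
    have hzp : 0 < z p := by
      have h1 := bd_lower hδ h p
      have h2 : 0 < ‖p‖ := norm_pos_iff.2 hp0
      linarith
    have hz1 : z p = 1 := by
      refine le_antisymm hpM' ?_
      have h1 : z ((z p)⁻¹ • p) ≤ 1 := by
        rw [h.eh.hom, abs_of_pos (inv_pos.2 hzp), inv_mul_cancel₀ hzp.ne']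
      have h2 := bd_le hM (x := (z p)⁻¹ • p) h1 (ν₁ + ν₂)
      rw [real_inner_smul_left, ← hp] at h2
      have h3 : (z p)⁻¹ ≤ 1 := by
        by_contra hcon
        push Not at hcon
        have := mul_lt_mul_of_pos_right hcon hpos
        linarith
      exact (inv_le_one₀ hzp).1 h3
    obtain ⟨c, hc1, hc2⟩ := bd_roll hδ0 hδ h hz1
    have k1 := hball c hc2 ν₁
    have k2 := hball c hc2 ν₂
    have k3 : ⟪p, ν₁ + ν₂⟫_ℝ ≤ ⟪c, ν₁ + ν₂⟫_ℝ + 1 / 4 * ‖ν₁ + ν₂‖ := by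
      have h1 := real_inner_le_norm (p - c) (ν₁ + ν₂)
      rw [inner_sub_left] at h1
      have h2 := mul_le_mul_of_nonneg_right hc1 hν0.le
      linarith
    rw [hp, inner_add_right] at k3
    linarith

theorem bd_supp_hom (hδ : δ ≤ 1 / 100) (h : Near z δ) {c : ℝ} (hc : 0 < c) (ν : E) :
    suppFn {x | z x ≤ 1} (c • ν) = c * suppFn {x | z x ≤ 1} ν := by
  have hM := bd_compact hδ h
  have hne : ({x | z x ≤ 1} : Set E).Nonempty := ⟨0, bd_ball hδ h (by norm_num)⟩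
  apply le_antisymm
  · obtain ⟨x, hx, hx'⟩ := bd_att hM hne (c • ν)
    rw [← hx', real_inner_smul_right]
    exact mul_le_mul_of_nonneg_left (bd_le hM hx ν) hc.le
  · obtain ⟨x, hx, hx'⟩ := bd_att hM hne ν
    rw [← hx', ← real_inner_smul_right]
    exact bd_le hM hx (c • ν)

theorem bd_supp_neg (hδ : δ ≤ 1 / 100) (h : Near z δ) (ν : E) :
    suppFn {x | z x ≤ 1} (-ν) = suppFn {x | z x ≤ 1} ν := by
  have hM := bd_compact hδ h
  have hne : ({x | z x ≤ 1} : Set E).Nonempty := ⟨0, bd_ball hδ h (by norm_num)⟩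
  have key : ∀ ν : E, suppFn {x | z x ≤ 1} (-ν) ≤ suppFn {x | z x ≤ 1} ν := by
    intro ν
    obtain ⟨x, hx, hx'⟩ := bd_att hM hne (-ν)
    rw [← hx', inner_neg_right, ← inner_neg_left]
    refine bd_le hM ?_ ν
    show z (-x) ≤ 1
    rw [bd_even h]; exact hx
  refine le_antisymm (key ν) ?_
  have := key (-ν)
  rwa [neg_neg] at this

end M

/-! ### the body -/

theorem exists_body {z : E → ℝ} {δ : ℝ} (hδ0 : 0 ≤ δ) (hδ : δ ≤ 1 / 100) (h : Near z δ)
    {f : E → ℝ} (hh : ∀ c : ℝ, 0 ≤ c → ∀ x, f (c • x) = c * f x) (ho : ∀ x, f (-x) = - f x)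
    (hs : ∀ x y, 1 / 4 * ‖x + y‖ + f (x + y) ≤ (1 / 4 * ‖x‖ + f x) + (1 / 4 * ‖y‖ + f y)) :
    ∃ K : Set E, Convex ℝ K ∧ IsCompact K ∧ (interior K).Nonempty ∧
      (∀ ν, suppFn K ν = suppFn {x | z x ≤ 1} ν + f ν) ∧ K - K = (2 : ℝ) • {x | z x ≤ 1} := by
  have hM := bd_compact hδ h
  have hMne : ({x | z x ≤ 1} : Set E).Nonempty := ⟨0, bd_ball hδ h (by norm_num)⟩
  have hMc := bd_convex hδ h
  set M : Set E := {x | z x ≤ 1} with hMdef
  set H : E → ℝ := fun ν => suppFn M ν + f ν with hH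
  have hHh : ∀ c : ℝ, 0 < c → ∀ x, H (c • x) = c * H x := by
    intro c hc x
    simp only [hH]
    rw [bd_supp_hom hδ h hc, hh c hc.le]
    ring
  have hHa : ∀ x y, H (x + y) ≤ H x + H y := by
    intro x y
    have h1 := bd_supp_sub hδ0 hδ h x y
    have h2 := hs x y
    simp only [hH]
    linarith
  set K : Set E := {x | ∀ ν, ⟪x, ν⟫_ℝ ≤ H ν} with hK
  have hKc : Convex ℝ K := by
    intro x hx y hy s t hs ht hst ν
    have h1 := hx ν
    have h2 := hy ν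
    rw [inner_add_left, real_inner_smul_left, real_inner_smul_left]
    have h3 := mul_le_mul_of_nonneg_left h1 hs
    have h4 := mul_le_mul_of_nonneg_left h2 ht
    have h5 : s * H ν + t * H ν = H ν := by rw [← add_mul, hst, one_mul]
    linarith
  have hKcl : IsClosed K := by
    have : K = ⋂ ν : E, {x | ⟪x, ν⟫_ℝ ≤ H ν} := by
      ext x
      simp [hK]
    rw [this]
    exact isClosed_iInter fun ν => isClosed_le (by fun_prop) continuous_const
  have hKb : Bornology.IsBounded K := by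
    have hsub : K ⊆ {x : E | ∀ i : Fin 3, |x i| ≤ max (H (EuclideanSpace.single i 1))
        (H (-(EuclideanSpace.single i 1)))} := by
      intro x hx i
      have h1 := hx (EuclideanSpace.single i 1)
      have h2 := hx (-(EuclideanSpace.single i 1))
      rw [inner_neg_right] at h2
      have h3 : ⟪x, EuclideanSpace.single i (1 : ℝ)⟫_ℝ = x i := by
        rw [real_inner_comm, EuclideanSpace.inner_single_left]
        simp
      rw [h3] at h1 h2
      rw [abs_le]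
      have h4 := le_max_right (H (EuclideanSpace.single i 1)) (H (-(EuclideanSpace.single i 1)))
      exact ⟨by linarith, h1.trans (le_max_left _ _)⟩
    set C : ℝ := ∑ i : Fin 3, |max (H (EuclideanSpace.single i 1))
        (H (-(EuclideanSpace.single i 1)))| with hC
    refine (Metric.isBounded_closedBall (x := (0 : E)) (r := C)).subset ?_
    intro x hx
    rw [mem_closedBall_zero_iff]
    have h1 := hsub hx
    have h2 : ‖x‖ ≤ ∑ i : Fin 3, |x i| := by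
      have h3 : x = ∑ i : Fin 3, x i • EuclideanSpace.single i (1 : ℝ) := by
        ext j
        simp [Finset.sum_apply, Pi.single_apply]
      calc ‖x‖ = ‖∑ i : Fin 3, x i • EuclideanSpace.single i (1 : ℝ)‖ := by rw [← h3]
        _ ≤ ∑ i : Fin 3, ‖x i • EuclideanSpace.single i (1 : ℝ)‖ := norm_sum_le _ _
        _ = ∑ i : Fin 3, |x i| := by
            refine Finset.sum_congr rfl fun i _ => ?_
            rw [norm_smul, PiLp.norm_single]
            simp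
    refine h2.trans ?_
    rw [hC]
    exact Finset.sum_le_sum fun i _ => (h1 i).trans (le_abs_self _)
  have hKcomp : IsCompact K := Metric.isCompact_of_isClosed_isBounded hKcl hKb
  have hKne : K.Nonempty := by
    obtain ⟨v, -, hv⟩ := bd_hb hHh hHa 0
    exact ⟨v, hv⟩
  have hKs : ∀ ν, suppFn K ν = H ν := by
    intro ν
    apply le_antisymm
    · obtain ⟨x, hx, hx'⟩ := bd_att hKcomp hKne ν
      rw [← hx']
      exact hx ν
    · obtain ⟨v, hv1, hv2⟩ := bd_hb hHh hHa ν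
      rw [← hv1]
      exact bd_le hKcomp (x := v) hv2 ν
  have hKint : (interior K).Nonempty := by
    obtain ⟨v, -, hv⟩ := bd_hb (N := fun x => 1 / 4 * ‖x‖ + f x) (by
      intro c hc x
      rw [norm_smul, Real.norm_of_nonneg hc.le, hh c hc.le]
      ring) hs 0
    refine ⟨v, mem_interior.2 ⟨Metric.ball v (1 / 2), ?_, Metric.isOpen_ball,
      Metric.mem_ball_self (by norm_num)⟩⟩
    intro x hx ν
    rw [mem_ball_iff_norm] at hx
    have h1 := hv ν
    have h2 := real_inner_le_norm (x - v) ν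
    rw [inner_sub_left] at h2
    have h3 := mul_le_mul_of_nonneg_right hx.le (norm_nonneg ν)
    have h4 : 3 / 4 * ‖ν‖ ≤ suppFn M ν := by
      rcases eq_or_ne ν 0 with rfl | hν
      · have := bd_le hM (bd_ball hδ h (x := 0) (by norm_num)) 0
        simpa using this
      · have hν0 : 0 < ‖ν‖ := norm_pos_iff.2 hν
        have h5 := bd_le hM (x := (3 / 4 * ‖ν‖⁻¹) • ν) (bd_ball hδ h (by
          rw [norm_smul, norm_mul, norm_inv, norm_norm, mul_assoc, inv_mul_cancel₀ hν0.ne']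
          norm_num)) ν
        rw [real_inner_smul_left, real_inner_self_eq_norm_sq] at h5
        have e : 3 / 4 * ‖ν‖⁻¹ * ‖ν‖ ^ 2 = 3 / 4 * ‖ν‖ := by field_simp
        rwa [e] at h5
    simp only [hH]
    linarith
  refine ⟨K, hKc, hKcomp, hKint, hKs, ?_⟩
  -- the difference body
  have hneg : ∀ ν, H ν + H (-ν) = 2 * suppFn M ν := by
    intro ν
    simp only [hH]
    rw [bd_supp_neg hδ h, ho]
    ring
  apply Set.Subset.antisymm
  · rintro w ⟨x, hx, y, hy, rfl⟩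
    rw [Set.mem_smul_set]
    refine ⟨(1 / 2 : ℝ) • (x - y), ?_, by
      simp only
      rw [smul_smul]; norm_num⟩
    refine bd_mem hM hMne hMc ?_
    intro ν
    have h1 := hx ν
    have h2 := hy (-ν)
    rw [inner_neg_right] at h2
    have h3 := hneg ν
    rw [real_inner_smul_left, inner_sub_left]
    linarith
  · intro w hw
    rw [Set.mem_smul_set] at hw
    obtain ⟨x, hx, rfl⟩ := hw
    have hcomp : IsCompact (K - K) := by
      rw [sub_eq_add_neg]
      exact hKcomp.add hKcomp.neg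
    have hconv : Convex ℝ (K - K) := hKc.sub hKc
    have hne : (K - K).Nonempty := hKne.sub hKne
    refine bd_mem hcomp hne hconv ?_
    intro ν
    obtain ⟨p, hp, hp'⟩ := bd_att hKcomp hKne ν
    obtain ⟨q, hq, hq'⟩ := bd_att hKcomp hKne (-ν)
    have h1 := bd_le hcomp (Set.sub_mem_sub hp hq) ν
    rw [inner_sub_left] at h1
    rw [inner_neg_right] at hq'
    rw [hKs] at hp' hq'
    have h2 := hneg ν
    have h3 := bd_le hM hx ν
    rw [real_inner_smul_left]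
    linarith

end PB3
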