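import Pool.Agent.Lib.MP_03c723_gt.Defs

/-!
The definitions `D2` and `tb` of the skeleton of MP_03c723_gt, in a file of their own.
-/

namespace PB3

/-- second difference along a rotation -/
noncomputable def D2 (p q : E) (s : ℝ) (z : E → ℝ) (x : E) : ℝ :=
  z (rotf p q s x) + z (rotf p q (-s) x) - 2 * z x

/-- mean of the minimisers for `z ∘ ρ` and `z ∘ ρ⁻¹` -/
noncomputable def tb (p q : E) (s : ℝ) (z : E → ℝ) (w u : E) : ℝ :=
  (tz z (rotf p q s w) (rotf p q s u) + tz z (rotf p q (-s) w) (rotf p q (-s) u)) / 2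

end PB3
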