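import Pool.Agent.Lib.MP_03c723_gt.Defs
import Pool.Agent.Lib.MP_03c723_gt.Grad

/-!
# The minimum of a near-round gauge along a line
-/

namespace PB3
open MeasureTheory Real Set
open scoped InnerProductSpace

private theorem mn_norm_sq {w u : E} (o : OP w u) (t : ℝ) : ‖w + t • u‖ ^ 2 = 1 + t ^ 2 := by
  rw [norm_add_sq_real, norm_smul, o.nw, o.nu, inner_smul_right, o.wu]
  simp

private theorem mn_norm {w u : E} (o : OP w u) (t : ℝ) : ‖w + t • u‖ = Real.sqrt (1 + t ^ 2) := by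
  rw [← mn_norm_sq o t, Real.sqrt_sq (norm_nonneg _)]

private theorem mn_one_le {w u : E} (o : OP w u) (t : ℝ) : 1 ≤ ‖w + t • u‖ := by
  rw [mn_norm o]
  exact Real.one_le_sqrt.2 (by nlinarith [sq_nonneg t])

private theorem mn_ne {w u : E} (o : OP w u) (t : ℝ) : w + t • u ≠ 0 := by
  intro h
  have := mn_one_le o t
  rw [h, norm_zero] at this
  linarith

private theorem mn_abs_le {w u : E} (o : OP w u) (t : ℝ) : |t| ≤ ‖w + t • u‖ := by
  rw [mn_norm o, ← Real.sqrt_sq_eq_abs]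
  exact Real.sqrt_le_sqrt (by linarith)

private theorem mn_cont {z : E → ℝ} {δ : ℝ} (h : Near z δ) (w u : E) :
    Continuous fun t : ℝ => z (w + t • u) :=
  h.eh.cont.comp (continuous_const.add (continuous_id.smul continuous_const))

private theorem mn_exists {z : E → ℝ} {δ : ℝ} (hδ0 : 0 ≤ δ) (hδ : δ ≤ 1 / 100) (h : Near z δ)
    {w u : E} (o : OP w u) : ∃ t : ℝ, ∀ s : ℝ, z (w + t • u) ≤ z (w + s • u) := by
  obtain ⟨t, ht, hmin⟩ := (isCompact_Icc (a := (-2 : ℝ)) (b := 2)).exists_isMinOn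
    ⟨0, by norm_num, by norm_num⟩ (mn_cont h w u).continuousOn
  refine ⟨t, fun s => ?_⟩
  by_cases hs : s ∈ Icc (-2 : ℝ) 2
  · exact hmin hs
  · have hs2 : 2 ≤ |s| := by
      by_contra hcon
      exact hs (_root_.abs_le.1 (not_le.1 hcon).le)
    have h0 : z (w + t • u) ≤ z (w + (0 : ℝ) • u) := hmin (by constructor <;> norm_num)
    rw [zero_smul, add_zero] at h0
    have h1 := (_root_.abs_le.1 (h.abs_le w)).2
    rw [o.nw] at h1
    have h2 := (_root_.abs_le.1 (h.abs_le (w + s • u))).1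
    have h3 := mn_abs_le o s
    nlinarith

theorem Near.tz_le {z : E → ℝ} {δ : ℝ} (hδ0 : 0 ≤ δ) (hδ : δ ≤ 1 / 100) (h : Near z δ)
    {w u : E} (o : OP w u) (s : ℝ) : z (w + tz z w u • u) ≤ z (w + s • u) := by
  have h1 := Classical.epsilon_spec (mn_exists hδ0 hδ h o)
  exact h1 s

/-- a minimiser is small -/
private theorem mn_small {z : E → ℝ} {δ : ℝ} (hδ0 : 0 ≤ δ) (hδ : δ ≤ 1 / 100) (h : Near z δ)
    {w u : E} (o : OP w u) {t : ℝ} (ht : ∀ s : ℝ, z (w + t • u) ≤ z (w + s • u)) :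
    |t| ≤ 7 * δ := by
  have h0 := ht 0
  rw [zero_smul, add_zero] at h0
  have h1 := (_root_.abs_le.1 (h.lip hδ0 w (w + t • u))).2
  rw [o.nw] at h1
  have h2 : ‖w - (w + t • u)‖ = |t| := by
    rw [sub_add_cancel_left, norm_neg, norm_smul, o.nu, mul_one, Real.norm_eq_abs]
  rw [h2] at h1
  set R : ℝ := ‖w + t • u‖ with hR
  have hR2 : R ^ 2 = 1 + t ^ 2 := mn_norm_sq o t
  have hR1 : 1 ≤ R := mn_one_le o t
  have h3 : R - 1 ≤ 3 * δ * |t| := by linarith
  have h4 : t ^ 2 = |t| ^ 2 := (sq_abs t).symm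
  have h5 : 0 ≤ |t| := abs_nonneg t
  have h6 : R ≤ 1 + |t| := by nlinarith
  rcases h5.eq_or_lt with h7 | h7
  · rw [← h7]; positivity
  · have h8 : |t| ^ 2 ≤ 3 * δ * |t| * (2 + |t|) := by
      have h9 : |t| ^ 2 = (R - 1) * (R + 1) := by nlinarith
      rw [h9]
      have h10 : 0 ≤ 3 * δ * |t| := by positivity
      calc (R - 1) * (R + 1) ≤ 3 * δ * |t| * (R + 1) :=
            mul_le_mul_of_nonneg_right h3 (by linarith)
        _ ≤ 3 * δ * |t| * (2 + |t|) := mul_le_mul_of_nonneg_left (by linarith) h10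
    have h11 : |t| ≤ 3 * δ * (2 + |t|) := by
      have : |t| * |t| ≤ |t| * (3 * δ * (2 + |t|)) := by nlinarith
      exact le_of_mul_le_mul_left this h7
    nlinarith

/-- strong convexity of `t ↦ √(1+t²)` on `[-1,1]` -/
private theorem mn_sqrt {s t : ℝ} (hs : |s| ≤ 1) (ht : |t| ≤ 1) :
    22 / 250 * (s - t) ^ 2 ≤ Real.sqrt (1 + s ^ 2) + Real.sqrt (1 + t ^ 2) -
      2 * Real.sqrt (1 + ((s + t) / 2) ^ 2) := by
  set a := Real.sqrt (1 + s ^ 2) with ha
  set b := Real.sqrt (1 + t ^ 2) with hb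
  set m := Real.sqrt (1 + ((s + t) / 2) ^ 2) with hm
  have ha2 : a ^ 2 = 1 + s ^ 2 := Real.sq_sqrt (by positivity)
  have hb2 : b ^ 2 = 1 + t ^ 2 := Real.sq_sqrt (by positivity)
  have hm2 : m ^ 2 = 1 + ((s + t) / 2) ^ 2 := Real.sq_sqrt (by positivity)
  have ha0 : 0 ≤ a := Real.sqrt_nonneg _
  have hb0 : 0 ≤ b := Real.sqrt_nonneg _
  have hm0 : 0 ≤ m := Real.sqrt_nonneg _
  have hs2 : s ^ 2 ≤ 1 := by rw [← sq_abs]; exact pow_le_one₀ (abs_nonneg _) hs
  have ht2 : t ^ 2 ≤ 1 := by rw [← sq_abs]; exact pow_le_one₀ (abs_nonneg _) ht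
  have ha1 : a ≤ 1.4143 := by nlinarith
  have hb1 : b ≤ 1.4143 := by nlinarith
  have hst : s * t ≤ 1 := by nlinarith [sq_nonneg (s - t)]
  have hst2 : -1 ≤ s * t := by nlinarith [sq_nonneg (s + t)]
  have hm1 : m ≤ 1.4143 := by nlinarith [sq_nonneg (s - t)]
  have hab : a * b ≤ 2.0003 := by nlinarith
  have ha1' : 1 ≤ a := by nlinarith [sq_nonneg s]
  have hb1' : 1 ≤ b := by nlinarith [sq_nonneg t]
  have hm1' : 1 ≤ m := by nlinarith [sq_nonneg ((s + t) / 2)]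
  have hab1 : 1 ≤ a * b := by nlinarith
  -- the identity
  have e1 : (a + b - 2 * m) * (a + b + 2 * m) = 2 * (a * b - (1 + s * t)) := by nlinarith
  have e2 : (a * b - (1 + s * t)) * (a * b + (1 + s * t)) = (s - t) ^ 2 := by
    have : (a * b) ^ 2 = (1 + s ^ 2) * (1 + t ^ 2) := by rw [mul_pow, ha2, hb2]
    nlinarith
  set X := a * b - (1 + s * t) with hX
  have hY0 : 0 < a * b + (1 + s * t) := by linarith
  have hY1 : a * b + (1 + s * t) ≤ 4.0003 := by linarith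
  have hX0 : 0 ≤ X := by
    by_contra hcon
    have : X * (a * b + (1 + s * t)) < 0 := mul_neg_of_neg_of_pos (not_le.1 hcon) hY0
    nlinarith [sq_nonneg (s - t)]
  have hX1 : (s - t) ^ 2 ≤ 4.0003 * X := by
    rw [← e2, mul_comm X]
    exact mul_le_mul_of_nonneg_right hY1 hX0
  have hZ0 : 0 < a + b + 2 * m := by linarith
  have hZ1 : a + b + 2 * m ≤ 5.6572 := by linarith
  have hW0 : 0 ≤ a + b - 2 * m := by
    by_contra hcon
    have : (a + b - 2 * m) * (a + b + 2 * m) < 0 := mul_neg_of_neg_of_pos (not_le.1 hcon) hZ0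
    linarith
  have hW1 : 2 * X ≤ 5.6572 * (a + b - 2 * m) := by
    rw [← e1, mul_comm (a + b - 2 * m)]
    exact mul_le_mul_of_nonneg_right hZ1 hW0
  generalize a + b - 2 * m = W at *
  generalize (s - t) ^ 2 = Q at *
  linarith

/-- strong convexity along the line -/
private theorem mn_convex {z : E → ℝ} {δ : ℝ} (hδ0 : 0 ≤ δ) (hδ : δ ≤ 1 / 100) (h : Near z δ)
    {w u : E} (o : OP w u) {s t : ℝ} (hs : |s| ≤ 1) (ht : |t| ≤ 1) :
    87 / 1000 * (s - t) ^ 2 ≤ z (w + s • u) + z (w + t • u) - 2 * z (w + ((s + t) / 2) • u) := by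
  obtain ⟨G, hG⟩ := h.hq
  set x : E := w + ((s + t) / 2) • u with hx
  have hx0 : x ≠ 0 := mn_ne o _
  have hxn : 0 < ‖x‖ := norm_pos_iff.2 hx0
  have h1 := (_root_.abs_le.1 (hG x hx0 (w + s • u))).1
  have h2 := (_root_.abs_le.1 (hG x hx0 (w + t • u))).1
  have h3 := hG.self hx0
  simp only at h1 h2 h3
  have hsum : (w + s • u) + (w + t • u) = (2 : ℝ) • x := by
    rw [hx]
    module
  have h4 : ⟪G x, w + s • u⟫_ℝ + ⟪G x, w + t • u⟫_ℝ = 2 * (z x - ‖x‖) := by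
    rw [← inner_add_right, hsum, inner_smul_right, h3]
  have h5 : ⟪x, w + s • u⟫_ℝ / ‖x‖ + ⟪x, w + t • u⟫_ℝ / ‖x‖ = 2 * ‖x‖ := by
    rw [← add_div, ← inner_add_right, hsum, inner_smul_right, real_inner_self_eq_norm_sq]
    field_simp
  have h6 := mn_sqrt hs ht
  have n1 := mn_norm o s
  have n2 := mn_norm o t
  have n3 := mn_norm o ((s + t) / 2)
  rw [← n1, ← n2, ← n3] at h6
  have h7 : (s - t) ^ 2 * (87 / 1000) ≤ (1 - δ) * (22 / 250 * (s - t) ^ 2) := by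
    nlinarith [sq_nonneg (s - t)]
  have h8 : (1 - δ) * (22 / 250 * (s - t) ^ 2) ≤ (1 - δ) * (‖w + s • u‖ + ‖w + t • u‖ -
      2 * ‖x‖) := mul_le_mul_of_nonneg_left h6 (by linarith)
  have h9 : δ * (⟪x, w + s • u⟫_ℝ / ‖x‖) + δ * (⟪x, w + t • u⟫_ℝ / ‖x‖) = 2 * δ * ‖x‖ := by
    rw [← mul_add, h5]; ring
  nlinarith

theorem Near.tz_unique {z : E → ℝ} {δ : ℝ} (hδ0 : 0 ≤ δ) (hδ : δ ≤ 1 / 100) (h : Near z δ)
    {w u : E} (o : OP w u) {t : ℝ} (ht : ∀ s : ℝ, z (w + t • u) ≤ z (w + s • u)) :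
    tz z w u = t := by
  have h1 := h.tz_le hδ0 hδ o
  have h2 := mn_small hδ0 hδ h o h1
  have h3 := mn_small hδ0 hδ h o ht
  have h4 := mn_convex hδ0 hδ h o (s := tz z w u) (t := t) (by linarith) (by linarith)
  have h5 := h1 ((tz z w u + t) / 2)
  have h6 := ht ((tz z w u + t) / 2)
  have h7 : (tz z w u - t) ^ 2 ≤ 0 := by linarith
  have h8 : tz z w u - t = 0 := by
    have := sq_nonneg (tz z w u - t)
    exact pow_eq_zero_iff (two_ne_zero) |>.1 (le_antisymm h7 this)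
  linarith

theorem Near.mu_eq {z : E → ℝ} {δ : ℝ} (hδ0 : 0 ≤ δ) (hδ : δ ≤ 1 / 100) (h : Near z δ)
    {w u : E} (o : OP w u) : mu z w u = z (w + tz z w u • u) := by
  have h1 := h.tz_le hδ0 hδ o
  refine le_antisymm ?_ ?_
  · exact ciInf_le ⟨_, by rintro _ ⟨s, rfl⟩; exact h1 s⟩ _
  · exact le_ciInf h1

theorem Near.mu_bd {z : E → ℝ} {δ : ℝ} (hδ0 : 0 ≤ δ) (hδ : δ ≤ 1 / 100) (h : Near z δ)
    {w u : E} (o : OP w u) : |mu z w u - 1| ≤ δ := by
  rw [h.mu_eq hδ0 hδ o, _root_.abs_le]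
  constructor
  · have h1 := (_root_.abs_le.1 (h.abs_le (w + tz z w u • u))).1
    have h2 := mn_one_le o (tz z w u)
    nlinarith
  · have h1 := h.tz_le hδ0 hδ o 0
    rw [zero_smul, add_zero] at h1
    have h2 := (_root_.abs_le.1 (h.abs_le w)).2
    rw [o.nw] at h2
    linarith

theorem Near.growth {z : E → ℝ} {δ : ℝ} (hδ0 : 0 ≤ δ) (hδ : δ ≤ 1 / 100) (h : Near z δ)
    {w u : E} (o : OP w u) (s : ℝ) :
    z (w + s • u) ≤ z (w + tz z w u • u) + (s - tz z w u) ^ 2 := by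
  obtain ⟨G, hG⟩ := h.hq
  set t : ℝ := tz z w u with ht
  set x : E := w + t • u with hx
  have hx0 : x ≠ 0 := mn_ne o _
  have hxn : 1 ≤ ‖x‖ := mn_one_le o _
  have hxn0 : 0 < ‖x‖ := by linarith
  have h1 := h.tz_le hδ0 hδ o
  rw [← ht, ← hx] at h1
  set g : ℝ := ⟪x, u⟫_ℝ / ‖x‖ + ⟪G x, u⟫_ℝ with hg
  -- quadratic upper bound
  have hq : ∀ r : ℝ, z (w + r • u) ≤ z x + (r - t) * g + 51 / 100 * (r - t) ^ 2 := by
    intro r
    have e1 : w + r • u = x + (r - t) • u := by rw [hx]; module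
    have e2 := (_root_.abs_le.1 (hG x hx0 (w + r • u))).2
    have e3 := hG.self hx0
    simp only at e2 e3
    have e4 : ⟪G x, w + r • u⟫_ℝ = (z x - ‖x‖) + (r - t) * ⟪G x, u⟫_ℝ := by
      rw [e1, inner_add_right, e3, inner_smul_right]
    have e5 : ⟪x, w + r • u⟫_ℝ / ‖x‖ = ‖x‖ + (r - t) * (⟪x, u⟫_ℝ / ‖x‖) := by
      rw [e1, inner_add_right, real_inner_self_eq_norm_sq, inner_smul_right]
      field_simp
    have e6 : ‖w + r • u‖ - ⟪x, w + r • u⟫_ℝ / ‖x‖ ≤ (r - t) ^ 2 / 2 := by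
      have e7 : ‖w + r • u‖ ^ 2 = ‖x‖ ^ 2 + 2 * (r - t) * ⟪x, u⟫_ℝ + (r - t) ^ 2 := by
        rw [e1, norm_add_sq_real, norm_smul, o.nu, inner_smul_right, mul_one, Real.norm_eq_abs,
          sq_abs]
        ring
      have e8 : ‖w + r • u‖ ≤ (‖w + r • u‖ ^ 2 + ‖x‖ ^ 2) / (2 * ‖x‖) := by
        rw [le_div_iff₀ (by positivity)]
        nlinarith [sq_nonneg (‖w + r • u‖ - ‖x‖)]
      have e9 : (‖w + r • u‖ ^ 2 + ‖x‖ ^ 2) / (2 * ‖x‖) =
          ‖x‖ + (r - t) * (⟪x, u⟫_ℝ / ‖x‖) + (r - t) ^ 2 / 2 * (1 / ‖x‖) := by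
        rw [e7]
        field_simp
        ring
      have e10 : (r - t) ^ 2 / 2 * (1 / ‖x‖) ≤ (r - t) ^ 2 / 2 * 1 := by
        refine mul_le_mul_of_nonneg_left ?_ (by positivity)
        rw [div_le_one hxn0]
        exact hxn
      rw [e5]
      linarith
    have e11 : 0 ≤ (r - t) ^ 2 := sq_nonneg _
    have e12 : δ * (‖w + r • u‖ - ⟪x, w + r • u⟫_ℝ / ‖x‖) ≤ δ * ((r - t) ^ 2 / 2) :=
      mul_le_mul_of_nonneg_left e6 hδ0
    have e13 : δ * ((r - t) ^ 2 / 2) ≤ 1 / 100 * (r - t) ^ 2 := by nlinarith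
    rw [e4] at e2
    rw [e5] at e6
    simp only [hg]
    nlinarith
  -- the slope vanishes
  have hg0 : g = 0 := by
    by_contra hcon
    have e1 := hq (t - g)
    have e2 := h1 (t - g)
    have e3 : 0 < g ^ 2 := by positivity
    have e4 : t - g - t = -g := by ring
    rw [e4] at e1
    nlinarith
  have := hq s
  rw [hg0, mul_zero, add_zero] at this
  nlinarith [sq_nonneg (s - t)]

theorem Near.tz_comp {z : E → ℝ} {δ : ℝ} (hδ0 : 0 ≤ δ) (hδ : δ ≤ 1 / 100) (h : Near z δ)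
    (ρ : E ≃ₗᵢ[ℝ] E) {w u : E} (o : OP w u) :
    tz (fun x => z (ρ x)) w u = tz z (ρ w) (ρ u) := by
  unfold tz
  simp only [map_add, map_smul]

private theorem mn_hasDerivAt {f : ℝ → ℝ} {c r C : ℝ}
    (h : ∀ s, |f s - f r - c * (s - r)| ≤ C * (s - r) ^ 2) : HasDerivAt f c r := by
  rw [hasDerivAt_iff_isLittleO]
  have h1 : (fun x => f x - f r - (x - r) • c) =O[nhds r] fun x => ‖x - r‖ ^ 2 := by
    refine Asymptotics.IsBigO.of_bound C (Filter.Eventually.of_forall fun x => ?_)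
    rw [norm_pow, norm_norm, Real.norm_eq_abs, Real.norm_eq_abs, sq_abs, smul_eq_mul,
      mul_comm (x - r) c]
    exact h x
  exact h1.trans_isLittleO (Asymptotics.isLittleO_pow_sub_sub r one_lt_two)

theorem Near.tz_good {z : E → ℝ} {δ : ℝ} (hδ0 : 0 ≤ δ) (hδ : δ ≤ 1 / 100) (h : Near z δ) :
    Good (tz z) (30 * δ) := by
  refine ⟨fun w u o => ?_, fun w u w' u' o o' => ?_, fun w u o => ?_⟩
  · have := mn_small hδ0 hδ h o (h.tz_le hδ0 hδ o)
    linarith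
  · obtain ⟨G, hG⟩ := h.hq
    set t : ℝ := tz z w u with ht
    set t' : ℝ := tz z w' u' with ht'
    have b1 : |t| ≤ 7 * δ := mn_small hδ0 hδ h o (h.tz_le hδ0 hδ o)
    have b2 : |t'| ≤ 7 * δ := mn_small hδ0 hδ h o' (h.tz_le hδ0 hδ o')
    have b3 : |t| ≤ 1 := by linarith
    have b4 : |t'| ≤ 1 := by linarith
    have c1 := mn_convex hδ0 hδ h o b4 b3
    have c2 := mn_convex hδ0 hδ h o' b3 b4
    have c3 := h.tz_le hδ0 hδ o ((t' + t) / 2)
    have c4 := h.tz_le hδ0 hδ o' ((t + t') / 2)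
    rw [← ht] at c3
    rw [← ht'] at c4
    set L : ℝ := δ * (9 / 2 * (‖w - w'‖ + ‖u - u'‖)) with hL
    have hL0 : 0 ≤ L := by positivity
    -- the difference of the two restrictions of `ζ`
    set ψ : ℝ → ℝ := fun r => (z (w + r • u) - ‖w + r • u‖) - (z (w' + r • u') - ‖w' + r • u'‖)
      with hψ
    have hd : ∀ (w u : E) (o : OP w u) (r : ℝ),
        HasDerivAt (fun r : ℝ => z (w + r • u) - ‖w + r • u‖) (⟪G (w + r • u), u⟫_ℝ) r := by
      intro w u o r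
      refine mn_hasDerivAt (C := δ / 2) fun s => ?_
      have e1 := hG.quad hδ0 (mn_ne o r) (w + s • u)
      have e2 : (w + s • u) - (w + r • u) = (s - r) • u := by module
      rw [e2, inner_smul_right, norm_smul, o.nu, mul_one, Real.norm_eq_abs, sq_abs] at e1
      rw [mul_comm (s - r) _] at e1
      refine e1.trans ?_
      have e3 := mn_one_le o r
      rw [div_le_iff₀ (by linarith)]
      have e4 : 0 ≤ δ * (s - r) ^ 2 := by positivity
      nlinarith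
    have hψd : ∀ r : ℝ, HasDerivAt ψ (⟪G (w + r • u), u⟫_ℝ - ⟪G (w' + r • u'), u'⟫_ℝ) r :=
      fun r => (hd w u o r).sub (hd w' u' o' r)
    have hψb : ∀ r ∈ Icc (-1 : ℝ) 1, ‖⟪G (w + r • u), u⟫_ℝ - ⟪G (w' + r • u'), u'⟫_ℝ‖ ≤ L := by
      intro r hr
      have hr1 : |r| ≤ 1 := _root_.abs_le.2 hr
      have e1 : ⟪G (w + r • u), u⟫_ℝ - ⟪G (w' + r • u'), u'⟫_ℝ =
          ⟪G (w + r • u) - G (w' + r • u'), u⟫_ℝ + ⟪G (w' + r • u'), u - u'⟫_ℝ := by
        rw [inner_sub_left, inner_sub_right]; ring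
      have e2 : ‖⟪G (w + r • u) - G (w' + r • u'), u⟫_ℝ‖ ≤
          3 / 2 * δ * (‖w - w'‖ + ‖u - u'‖) := by
        refine (norm_inner_le_norm _ _).trans ?_
        rw [o.nu, mul_one]
        refine (hG.lipG hδ0 (mn_one_le o r) (mn_one_le o' r)).trans ?_
        refine mul_le_mul_of_nonneg_left ?_ (by positivity)
        have e3 : w + r • u - (w' + r • u') = (w - w') + r • (u - u') := by module
        rw [e3]
        refine (norm_add_le _ _).trans ?_
        rw [norm_smul, Real.norm_eq_abs]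
        have := norm_nonneg (u - u')
        nlinarith
      have e4 : ‖⟪G (w' + r • u'), u - u'⟫_ℝ‖ ≤ 3 * δ * ‖u - u'‖ := by
        refine (norm_inner_le_norm _ _).trans ?_
        exact mul_le_mul_of_nonneg_right (Near.normG hδ0 h.eh hG (mn_ne o' r)) (norm_nonneg _)
      rw [e1]
      refine (norm_add_le _ _).trans ((add_le_add e2 e4).trans ?_)
      have := norm_nonneg (w - w')
      have := norm_nonneg (u - u')
      simp only [hL]
      nlinarith [mul_nonneg hδ0 (norm_nonneg (w - w'))]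
    have hMV := Convex.norm_image_sub_le_of_norm_hasDerivWithin_le (f := ψ)
      (f' := fun r => ⟪G (w + r • u), u⟫_ℝ - ⟪G (w' + r • u'), u'⟫_ℝ) (s := Icc (-1 : ℝ) 1)
      (x := t) (y := t') (C := L) (fun r _ => (hψd r).hasDerivWithinAt) hψb (convex_Icc _ _)
      (_root_.abs_le.1 b3) (_root_.abs_le.1 b4)
    rw [Real.norm_eq_abs, Real.norm_eq_abs] at hMV
    have hMV' := (_root_.abs_le.1 hMV).2
    simp only [hψ] at hMV'
    rw [mn_norm o, mn_norm o, mn_norm o', mn_norm o'] at hMV'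
    rw [show (t + t') / 2 = (t' + t) / 2 by ring] at c2 c4
    have e5 : (t' - t) ^ 2 = |t' - t| ^ 2 := (sq_abs _).symm
    have e6 : (t - t') ^ 2 = |t' - t| ^ 2 := by rw [← e5]; ring
    rw [e5] at c1
    rw [e6] at c2
    have e7 : 174 / 1000 * |t' - t| ^ 2 ≤ L * |t' - t| := by linarith
    rw [abs_sub_comm]
    rcases (abs_nonneg (t' - t)).eq_or_lt with h0 | h0
    · rw [← h0]; positivity
    · have e8 : 174 / 1000 * |t' - t| ≤ L := by
        have : |t' - t| * (174 / 1000 * |t' - t|) ≤ |t' - t| * L := by nlinarith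
        exact le_of_mul_le_mul_left this h0
      have e9 : 0 ≤ δ * (‖w - w'‖ + ‖u - u'‖) := by positivity
      simp only [hL] at e8
      nlinarith
  · have o' : OP (-w) u := ⟨by rw [norm_neg, o.nw], o.nu, by rw [inner_neg_left, o.wu, neg_zero]⟩
    refine h.tz_unique hδ0 hδ o' fun s => ?_
    have e1 : ∀ r : ℝ, z (-w + r • u) = z (w + (-r) • u) := by
      intro r
      have e2 : -w + r • u = (-1 : ℝ) • (w + (-r) • u) := by module
      rw [e2, h.eh.hom, abs_neg, abs_one, one_mul]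
    rw [e1, e1, neg_neg]
    exact h.tz_le hδ0 hδ o _

end PB3
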