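import Pool.Agent.Lib.MP_03c723_gt.Basic
import Pool.Agent.Lib.MP_03c723_gt.Min

/-!
# Differences of the operator `P`
-/

namespace PB3
open MeasureTheory Real
open scoped InnerProductSpace

theorem env_cp_cont (a b : E) : Continuous (cp a b) := by
  unfold cp
  fun_prop

/-- the minimisers along the circle are continuous -/
theorem env_t_cont {t : E → E → ℝ} {δ : ℝ} (hδ : 0 ≤ δ) (h : Good t δ) {a b u : E}
    (hf : Fr a b u) : Continuous fun θ => t (cp a b θ) u := by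
  rw [Metric.continuous_iff]
  intro θ ε hε
  obtain ⟨r, hr, hr'⟩ := Metric.continuous_iff.1 (env_cp_cont a b) θ (ε / (δ + 1)) (by positivity)
  refine ⟨r, hr, fun θ' hθ' => ?_⟩
  have h1 := h.lip (cp a b θ') u (cp a b θ) u (hf.op θ') (hf.op θ)
  have h2 := hr' θ' hθ'
  rw [dist_eq_norm] at h2
  rw [sub_self, norm_zero, add_zero] at h1
  rw [Real.dist_eq]
  have h3 : δ * ‖cp a b θ' - cp a b θ‖ ≤ δ * (ε / (δ + 1)) :=
    mul_le_mul_of_nonneg_left h2.le hδ
  have h4 : δ * (ε / (δ + 1)) < ε := by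
    rw [mul_div_assoc', div_lt_iff₀ (by positivity)]
    nlinarith
  linarith

/-- continuous functions of the moved point are continuous in the angle -/
theorem env_cont {t : E → E → ℝ} {δ : ℝ} (hδ : 0 ≤ δ) (h : Good t δ) {a b u : E}
    (hf : Fr a b u) {φ : E → ℝ} (hφ : Continuous φ) :
    Continuous fun θ => φ (cp a b θ + t (cp a b θ) u • u) :=
  hφ.comp ((env_cp_cont a b).add ((env_t_cont hδ h hf).smul continuous_const))

theorem env_norm {t : E → E → ℝ} {δ : ℝ} (hδ : δ ≤ 3 / 10) (h : Good t δ) {w u : E}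
    (o : OP w u) : ‖w + t w u • u‖ ≤ 11 / 10 := by
  have h1 : ‖w + t w u • u‖ ^ 2 = 1 + (t w u) ^ 2 := by
    rw [norm_add_sq_real, norm_smul, o.nw, o.nu, real_inner_smul_right, o.wu]
    rw [Real.norm_eq_abs, mul_one, sq_abs]
    ring
  have h2 := h.bd w u o
  have h3 : (t w u) ^ 2 ≤ (3 / 10) ^ 2 := sq_le_sq' (by linarith [neg_abs_le (t w u)])
    (by linarith [le_abs_self (t w u)])
  have h4 := norm_nonneg (w + t w u • u)
  nlinarith

/-- the function `m⁻²` near `1` -/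
theorem env_inv_sq {δ m m' : ℝ} (hδ0 : 0 ≤ δ) (hδ : δ ≤ 1 / 100) (h : |m - 1| ≤ δ)
    (h' : |m' - 1| ≤ δ) :
    |(m' ^ 2)⁻¹ - (m ^ 2)⁻¹ + 2 * (m' - m)| ≤ 7 * δ * |m' - m| := by
  rw [abs_le] at h h'
  have hm : 0 < m := by linarith
  have hm' : 0 < m' := by linarith
  have e1 : (m' ^ 2)⁻¹ - (m ^ 2)⁻¹ + 2 * (m' - m) =
      (2 - (m + m') / (m ^ 2 * m' ^ 2)) * (m' - m) := by
    field_simp
    ring
  rw [e1, abs_mul]
  refine mul_le_mul_of_nonneg_right ?_ (abs_nonneg _)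
  have hp : 0 < m ^ 2 * m' ^ 2 := by positivity
  have hu : (m + m') / (m ^ 2 * m' ^ 2) ≤ 2 + 7 * δ := by
    have q1 : 1 - δ ≤ m := by linarith
    have q2 : 1 - δ ≤ m' := by linarith
    have hd : 0 < 1 - δ := by linarith
    have e2 : (m + m') / (m ^ 2 * m' ^ 2) = (m * m' ^ 2)⁻¹ + (m ^ 2 * m')⁻¹ := by
      field_simp
    have i1 : (m * m' ^ 2)⁻¹ ≤ ((1 - δ) ^ 3)⁻¹ := by
      apply inv_anti₀ (by positivity)
      calc (1 - δ) ^ 3 = (1 - δ) * (1 - δ) ^ 2 := by ring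
        _ ≤ m * m' ^ 2 := by gcongr
    have i2 : (m ^ 2 * m')⁻¹ ≤ ((1 - δ) ^ 3)⁻¹ := by
      apply inv_anti₀ (by positivity)
      calc (1 - δ) ^ 3 = (1 - δ) ^ 2 * (1 - δ) := by ring
        _ ≤ m ^ 2 * m' := by gcongr
    have i3 : ((1 - δ) ^ 3)⁻¹ ≤ 1 + 7 / 2 * δ := by
      rw [inv_le_iff_one_le_mul₀ (by positivity)]
      have i4 : 1 - 3 * δ ≤ (1 - δ) ^ 3 := by nlinarith [mul_nonneg hδ0 hδ0]
      nlinarith
    rw [e2]
    linarith
  have hl : 2 - 7 * δ ≤ (m + m') / (m ^ 2 * m' ^ 2) := by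
    have q1 : m ≤ 1 + δ := by linarith
    have q2 : m' ≤ 1 + δ := by linarith
    have hd : 0 < 1 + δ := by linarith
    have e2 : (m + m') / (m ^ 2 * m' ^ 2) = (m * m' ^ 2)⁻¹ + (m ^ 2 * m')⁻¹ := by
      field_simp
    have i1 : ((1 + δ) ^ 3)⁻¹ ≤ (m * m' ^ 2)⁻¹ := by
      apply inv_anti₀ (by positivity)
      calc m * m' ^ 2 ≤ (1 + δ) * (1 + δ) ^ 2 := by gcongr
        _ = (1 + δ) ^ 3 := by ring
    have i2 : ((1 + δ) ^ 3)⁻¹ ≤ (m ^ 2 * m')⁻¹ := by
      apply inv_anti₀ (by positivity)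
      calc m ^ 2 * m' ≤ (1 + δ) ^ 2 * (1 + δ) := by gcongr
        _ = (1 + δ) ^ 3 := by ring
    have i3 : 1 - 7 / 2 * δ ≤ ((1 + δ) ^ 3)⁻¹ := by
      rw [le_inv_comm₀ (by linarith) (by positivity), ← one_div,
        le_div_iff₀ (by linarith)]
      nlinarith [mul_nonneg hδ0 hδ0, mul_nonneg (mul_nonneg hδ0 hδ0) hδ0,
        mul_nonneg (mul_nonneg hδ0 hδ0) (mul_nonneg hδ0 hδ0)]
    rw [e2]
    linarith
  rw [abs_le]
  constructor <;> linarith

/-- pointwise comparison of the gauges of the shadows -/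
theorem env_pt {z z' : E → ℝ} {δ S : ℝ} (hδ0 : 0 ≤ δ) (hδ : δ ≤ 1 / 100) (h : Near z δ)
    (h' : Near z' δ) (hS0 : 0 ≤ S) (hS : ∀ x, |z' x - z x| ≤ S * ‖x‖) {w u : E} (o : OP w u) :
    (1 / 2) * ((mu z' w u ^ 2)⁻¹ - (mu z w u ^ 2)⁻¹) ≤
      -(z' (w + tz z' w u • u) - z (w + tz z' w u • u)) + 4 * δ * S ∧
    -(z' (w + tz z w u • u) - z (w + tz z w u • u)) - 4 * δ * S ≤
      (1 / 2) * ((mu z' w u ^ 2)⁻¹ - (mu z w u ^ 2)⁻¹) := by
  have e := h.mu_eq hδ0 hδ o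
  have e' := h'.mu_eq hδ0 hδ o
  have b := h.mu_bd hδ0 hδ o
  have b' := h'.mu_bd hδ0 hδ o
  have t1 := h.tz_le hδ0 hδ o (tz z' w u)
  have t2 := h'.tz_le hδ0 hδ o (tz z w u)
  have g := h.tz_good hδ0 hδ
  have g' := h'.tz_good hδ0 hδ
  have n1 := env_norm (by linarith) g o
  have n2 := env_norm (by linarith) g' o
  have s1 := (hS (w + tz z w u • u)).trans (mul_le_mul_of_nonneg_left n1 hS0)
  have s2 := (hS (w + tz z' w u • u)).trans (mul_le_mul_of_nonneg_left n2 hS0)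
  rw [← e] at t1
  rw [← e'] at t2
  have q := env_inv_sq hδ0 hδ b b'
  rw [← e] at s1 ⊢
  rw [← e'] at s2 ⊢
  rw [abs_le] at s1 s2 q
  have hd : |mu z' w u - mu z w u| ≤ S * (11 / 10) := by
    rw [abs_le]
    constructor <;> linarith
  have hd2 : 7 * δ * |mu z' w u - mu z w u| ≤ 7 * δ * (S * (11 / 10)) :=
    mul_le_mul_of_nonneg_left hd (by positivity)
  have hd3 : 7 * δ * (S * (11 / 10)) ≤ 8 * δ * S := by
    have := mul_nonneg hδ0 hS0
    linarith
  constructor <;> linarith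

theorem env_int {f : ℝ → ℝ} (hf : Continuous f) (k : ℝ) :
    ∫ θ in (-π)..π, (-(f θ) + k) = -(∫ θ in (-π)..π, f θ) + 2 * π * k := by
  have h1 : IntervalIntegrable (fun θ => -(f θ)) volume (-π) π := (hf.neg).intervalIntegrable _ _
  rw [intervalIntegral.integral_add h1 (continuous_const.intervalIntegrable _ _),
    intervalIntegral.integral_neg, intervalIntegral.integral_const, smul_eq_mul]
  ring

theorem P_diff {z z' : E → ℝ} {δ S : ℝ} (hδ0 : 0 ≤ δ) (hδ : δ ≤ 1 / 100) (h : Near z δ)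
    (h' : Near z' δ) (hS : ∀ x, |z' x - z x| ≤ S * ‖x‖) {a b u : E} (hf : Fr a b u) :
    P z' u - P z u ≤
      -(∫ θ in (-π)..π, (fun x => z' x - z x) (cp a b θ + tz z' (cp a b θ) u • u))
        + 100 * δ * S ∧
    -(∫ θ in (-π)..π, (fun x => z' x - z x) (cp a b θ + tz z (cp a b θ) u • u))
        - 100 * δ * S ≤ P z' u - P z u := by
  have hS0 : 0 ≤ S := by
    have := hS a
    rw [hf.na, mul_one] at this
    exact (abs_nonneg _).trans this
  have g := h.tz_good hδ0 hδ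
  have g' := h'.tz_good hδ0 hδ
  have h30 : 0 ≤ 30 * δ := by positivity
  have cη : Continuous fun x => z' x - z x := h'.eh.cont.sub h.eh.cont
  have c1 := env_cont h30 g hf cη
  have c2 := env_cont h30 g' hf cη
  have m1 : Continuous fun θ => mu z (cp a b θ) u := by
    have : (fun θ => mu z (cp a b θ) u) = fun θ => z (cp a b θ + tz z (cp a b θ) u • u) := by
      funext θ
      exact h.mu_eq hδ0 hδ (hf.op θ)
    rw [this]
    exact env_cont h30 g hf h.eh.cont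
  have m2 : Continuous fun θ => mu z' (cp a b θ) u := by
    have : (fun θ => mu z' (cp a b θ) u) = fun θ => z' (cp a b θ + tz z' (cp a b θ) u • u) := by
      funext θ
      exact h'.mu_eq hδ0 hδ (hf.op θ)
    rw [this]
    exact env_cont h30 g' hf h'.eh.cont
  have p1 : ∀ θ, 0 < mu z (cp a b θ) u := fun θ => by
    have := (abs_le.1 (h.mu_bd hδ0 hδ (hf.op θ))).1
    linarith
  have p2 : ∀ θ, 0 < mu z' (cp a b θ) u := fun θ => by
    have := (abs_le.1 (h'.mu_bd hδ0 hδ (hf.op θ))).1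
    linarith
  have i1 : Continuous fun θ => ((mu z (cp a b θ) u) ^ 2)⁻¹ :=
    (m1.pow 2).inv₀ fun θ => (pow_pos (p1 θ) 2).ne'
  have i2 : Continuous fun θ => ((mu z' (cp a b θ) u) ^ 2)⁻¹ :=
    (m2.pow 2).inv₀ fun θ => (pow_pos (p2 θ) 2).ne'
  have hπ : (-π : ℝ) ≤ π := by linarith [Real.pi_pos]
  have eP : P z' u - P z u = ∫ θ in (-π)..π,
      (1 / 2) * (((mu z' (cp a b θ) u) ^ 2)⁻¹ - ((mu z (cp a b θ) u) ^ 2)⁻¹) := by
    rw [P_eq z' hf, P_eq z hf, PF, PF, intervalIntegral.integral_const_mul,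
      intervalIntegral.integral_sub (i2.intervalIntegrable _ _) (i1.intervalIntegrable _ _)]
    ring
  have cP : Continuous fun θ =>
      (1 / 2) * (((mu z' (cp a b θ) u) ^ 2)⁻¹ - ((mu z (cp a b θ) u) ^ 2)⁻¹) :=
    continuous_const.mul (i2.sub i1)
  have hbig : 2 * π * (4 * δ * S) ≤ 100 * δ * S := by
    have h1 := mul_nonneg hδ0 hS0
    have h2 := Real.pi_le_four
    nlinarith
  constructor
  · have k1 : ∫ θ in (-π)..π,
        (1 / 2) * (((mu z' (cp a b θ) u) ^ 2)⁻¹ - ((mu z (cp a b θ) u) ^ 2)⁻¹) ≤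
        ∫ θ in (-π)..π, (-((fun x => z' x - z x) (cp a b θ + tz z' (cp a b θ) u • u)) +
          4 * δ * S) := by
      refine intervalIntegral.integral_mono_on hπ (cP.intervalIntegrable _ _)
        ((c2.neg.add continuous_const).intervalIntegrable _ _) fun θ _ => ?_
      exact (env_pt hδ0 hδ h h' hS0 hS (hf.op θ)).1
    have k2 := k1.trans_eq (env_int c2 (4 * δ * S))
    rw [eP]
    linarith
  · have k1 : ∫ θ in (-π)..π, (-((fun x => z' x - z x) (cp a b θ + tz z (cp a b θ) u • u)) +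
          -(4 * δ * S)) ≤ ∫ θ in (-π)..π,
        (1 / 2) * (((mu z' (cp a b θ) u) ^ 2)⁻¹ - ((mu z (cp a b θ) u) ^ 2)⁻¹) := by
      refine intervalIntegral.integral_mono_on hπ
        ((c1.neg.add continuous_const).intervalIntegrable _ _) (cP.intervalIntegrable _ _)
        fun θ _ => ?_
      exact (env_pt hδ0 hδ h h' hS0 hS (hf.op θ)).2
    have k2 := (env_int c1 (-(4 * δ * S))).symm.trans_le k1
    rw [eP]
    linarith

end PB3
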