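import Pool.Agent.Lib.MP_03c723_gt.Basic
import Pool.Agent.Lib.MP_03c723_gt.Grad
import Pool.Agent.Lib.MP_03c723_gt.Min
import Pool.Agent.Lib.MP_03c723_gt.D2Def
import Pool.Agent.Lib.MP_03c723_gt.Env

/-!
# Second differences of the operator `P`
-/

namespace PB3
open MeasureTheory Real
open scoped InnerProductSpace

theorem env2_op (ρ : E ≃ₗᵢ[ℝ] E) {w u : E} (o : OP w u) : OP (ρ w) (ρ u) :=
  ⟨by rw [ρ.norm_map, o.nw], by rw [ρ.norm_map, o.nu], by rw [ρ.inner_map_map, o.wu]⟩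

theorem tb_good {z : E → ℝ} {δ : ℝ} (hδ0 : 0 ≤ δ) (hδ : δ ≤ 1 / 100) (h : Near z δ)
    {p q : E} (o : OP p q) (s : ℝ) : Good (tb p q s z) (30 * δ) := by
  obtain ⟨ρ, h1, h2⟩ := exists_rot o s
  have g := h.tz_good hδ0 hδ
  have e : ∀ w u, tb p q s z w u = (tz z (ρ w) (ρ u) + tz z (ρ.symm w) (ρ.symm u)) / 2 := by
    intro w u
    rw [tb, h1, h1, h2, h2]
  refine ⟨fun w u hw => ?_, fun w u w' u' hw hw' => ?_, fun w u hw => ?_⟩
  · have b1 := abs_le.1 (g.bd _ _ (env2_op ρ hw))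
    have b2 := abs_le.1 (g.bd _ _ (env2_op ρ.symm hw))
    rw [e, abs_le]
    constructor <;> linarith
  · have b1 := abs_le.1 (g.lip _ _ _ _ (env2_op ρ hw) (env2_op ρ hw'))
    have b2 := abs_le.1 (g.lip _ _ _ _ (env2_op ρ.symm hw) (env2_op ρ.symm hw'))
    rw [← map_sub, ← map_sub, ρ.norm_map, ρ.norm_map] at b1
    rw [← map_sub, ← map_sub, ρ.symm.norm_map, ρ.symm.norm_map] at b2
    rw [e, e, abs_le]
    constructor <;> linarith
  · rw [e, e, map_neg, map_neg, g.odd _ _ (env2_op ρ hw), g.odd _ _ (env2_op ρ.symm hw)]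
    ring

/-- Taylor's formula for `m⁻²` -/
theorem env2_taylor {δ m m₁ m₂ : ℝ} (hδ0 : 0 ≤ δ) (hδ : δ ≤ 1 / 1000) (h : |m - 1| ≤ 3 * δ)
    (h₁ : |m₁ - 1| ≤ 3 * δ) (h₂ : |m₂ - 1| ≤ 3 * δ) :
    |(m₁ ^ 2)⁻¹ + (m₂ ^ 2)⁻¹ - 2 * (m ^ 2)⁻¹ + 2 * ((m₁ - m) + (m₂ - m))| ≤
      21 * δ * |(m₁ - m) + (m₂ - m)| + 4 * ((m₁ - m) ^ 2 + (m₂ - m) ^ 2) := by
  rw [abs_le] at h h₁ h₂
  have hm : 997 / 1000 ≤ m := by linarith
  have hm₁ : 997 / 1000 ≤ m₁ := by linarith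
  have hm₂ : 997 / 1000 ≤ m₂ := by linarith
  have pm : 0 < m := by linarith
  have pm₁ : 0 < m₁ := by linarith
  have pm₂ : 0 < m₂ := by linarith
  have e : (m₁ ^ 2)⁻¹ + (m₂ ^ 2)⁻¹ - 2 * (m ^ 2)⁻¹ + 2 * ((m₁ - m) + (m₂ - m)) =
      (m₁ - m) ^ 2 * ((m + 2 * m₁) / (m ^ 3 * m₁ ^ 2)) +
        (m₂ - m) ^ 2 * ((m + 2 * m₂) / (m ^ 3 * m₂ ^ 2)) +
        (2 - 2 / m ^ 3) * ((m₁ - m) + (m₂ - m)) := by
    field_simp
    ring
  have key : ∀ n : ℝ, 997 / 1000 ≤ n → n ≤ 1003 / 1000 →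
      0 ≤ (m + 2 * n) / (m ^ 3 * n ^ 2) ∧ (m + 2 * n) / (m ^ 3 * n ^ 2) ≤ 4 := by
    intro n hn hn'
    have pn : 0 < n := by linarith
    refine ⟨by positivity, ?_⟩
    rw [div_le_iff₀ (by positivity)]
    have : (997 / 1000 : ℝ) ^ 3 * (997 / 1000) ^ 2 ≤ m ^ 3 * n ^ 2 := by gcongr
    have h4 : (985 / 1000 : ℝ) ≤ (997 / 1000 : ℝ) ^ 3 * (997 / 1000) ^ 2 := by norm_num
    linarith
  have k1 := key m₁ hm₁ (by linarith)
  have k2 := key m₂ hm₂ (by linarith)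
  have k3 : |2 - 2 / m ^ 3| ≤ 21 * δ := by
    have hu : 2 / m ^ 3 ≤ 2 + 21 * δ := by
      rw [div_le_iff₀ (by positivity)]
      have i1 : (1 - 3 * δ) ^ 3 ≤ m ^ 3 := by
        have : 0 ≤ 1 - 3 * δ := by linarith
        have : 1 - 3 * δ ≤ m := by linarith
        gcongr
      have i2 : 1 - 9 * δ ≤ (1 - 3 * δ) ^ 3 := by nlinarith [mul_nonneg hδ0 hδ0]
      have i3 : (2 + 21 * δ) * (1 - 9 * δ) ≤ (2 + 21 * δ) * m ^ 3 :=
        mul_le_mul_of_nonneg_left (i2.trans i1) (by positivity)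
      nlinarith
    have hl : 2 - 21 * δ ≤ 2 / m ^ 3 := by
      rw [le_div_iff₀ (by positivity)]
      have i1 : m ^ 3 ≤ (1 + 3 * δ) ^ 3 := by
        have : m ≤ 1 + 3 * δ := by linarith
        gcongr
      have i3 : (2 - 21 * δ) * m ^ 3 ≤ (2 - 21 * δ) * (1 + 3 * δ) ^ 3 :=
        mul_le_mul_of_nonneg_left i1 (by linarith)
      have i4 : (2 - 21 * δ) * (1 + 3 * δ) ^ 3 ≤ 2 := by
        nlinarith [mul_nonneg hδ0 hδ0, mul_nonneg (mul_nonneg hδ0 hδ0) hδ0,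
          mul_nonneg (mul_nonneg hδ0 hδ0) (mul_nonneg hδ0 hδ0)]
      linarith
    rw [abs_le]
    constructor <;> linarith
  rw [e]
  have a1 : |(m₁ - m) ^ 2 * ((m + 2 * m₁) / (m ^ 3 * m₁ ^ 2))| ≤ 4 * (m₁ - m) ^ 2 := by
    rw [abs_of_nonneg (mul_nonneg (sq_nonneg _) k1.1), mul_comm]
    exact mul_le_mul_of_nonneg_right k1.2 (sq_nonneg _)
  have a2 : |(m₂ - m) ^ 2 * ((m + 2 * m₂) / (m ^ 3 * m₂ ^ 2))| ≤ 4 * (m₂ - m) ^ 2 := by
    rw [abs_of_nonneg (mul_nonneg (sq_nonneg _) k2.1), mul_comm]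
    exact mul_le_mul_of_nonneg_right k2.2 (sq_nonneg _)
  have a3 : |(2 - 2 / m ^ 3) * ((m₁ - m) + (m₂ - m))| ≤ 21 * δ * |(m₁ - m) + (m₂ - m)| := by
    rw [abs_mul]
    exact mul_le_mul_of_nonneg_right k3 (abs_nonneg _)
  have t1 := abs_add_le ((m₁ - m) ^ 2 * ((m + 2 * m₁) / (m ^ 3 * m₁ ^ 2)) +
        (m₂ - m) ^ 2 * ((m + 2 * m₂) / (m ^ 3 * m₂ ^ 2)))
        ((2 - 2 / m ^ 3) * ((m₁ - m) + (m₂ - m)))
  have t2 := abs_add_le ((m₁ - m) ^ 2 * ((m + 2 * m₁) / (m ^ 3 * m₁ ^ 2)))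
        ((m₂ - m) ^ 2 * ((m + 2 * m₂) / (m ^ 3 * m₂ ^ 2)))
  linarith

/-- the minimum does not change much under a small rotation -/
theorem env2_x {z : E → ℝ} {δ : ℝ} (hδ0 : 0 < δ) (hδ : δ ≤ 1 / 1000) (h : Near z (3 * δ))
    (ρ : E ≃ₗᵢ[ℝ] E) {s : ℝ} (hs : ∀ x, ‖ρ x - x‖ ≤ |s| * ‖x‖) {w u : E} (o : OP w u) :
    (mu (fun x => z (ρ x)) w u - mu z w u) ^ 2 ≤ 100 * δ ^ 2 * s ^ 2 := by
  have d0 : 0 ≤ 3 * δ := by positivity
  have d1 : 3 * δ ≤ 1 / 100 := by linarith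
  have h' := h.comp ρ
  have e := h.mu_eq d0 d1 o
  have e' := h'.mu_eq d0 d1 o
  have t1 := h.tz_le d0 d1 o (tz (fun x => z (ρ x)) w u)
  have t2 := h'.tz_le d0 d1 o (tz z w u)
  have n1 := env_norm (by linarith) (h.tz_good d0 d1) o
  have n2 := env_norm (by linarith) (h'.tz_good d0 d1) o
  have key : ∀ v : E, ‖v‖ ≤ 11 / 10 → |z (ρ v) - z v| ≤ 10 * δ * |s| := by
    intro v hv
    have l := h.lip d0 (ρ v) v
    rw [ρ.norm_map] at l
    have l2 : 3 * (3 * δ) * ‖ρ v - v‖ ≤ 3 * (3 * δ) * (|s| * ‖v‖) :=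
      mul_le_mul_of_nonneg_left (hs v) (by positivity)
    have l3 : 3 * (3 * δ) * (|s| * ‖v‖) ≤ 3 * (3 * δ) * (|s| * (11 / 10)) := by gcongr
    have l4 : 0 ≤ δ * |s| := by positivity
    have l5 : (z (ρ v) - ‖v‖) - (z v - ‖v‖) = z (ρ v) - z v := by ring
    rw [l5] at l
    linarith
  have k1 := abs_le.1 (key _ n1)
  have k2 := abs_le.1 (key _ n2)
  rw [← e] at t1 k1
  rw [← e'] at t2 k2
  have hx : |mu (fun x => z (ρ x)) w u - mu z w u| ≤ 10 * δ * |s| := by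
    rw [abs_le]
    constructor <;> linarith
  calc (mu (fun x => z (ρ x)) w u - mu z w u) ^ 2
      = |mu (fun x => z (ρ x)) w u - mu z w u| ^ 2 := (sq_abs _).symm
    _ ≤ (10 * δ * |s|) ^ 2 := by gcongr
    _ = 100 * δ ^ 2 * s ^ 2 := by rw [mul_pow, sq_abs]; ring

theorem env2_pt {z : E → ℝ} {δ : ℝ} (hδ0 : 0 < δ) (hδ : δ ≤ 1 / 1000) (hz : Cls z δ)
    {p q : E} (o : OP p q) (s : ℝ) (ρ : E ≃ₗᵢ[ℝ] E) (h1 : ∀ x, ρ x = rotf p q s x)
    (h2 : ∀ x, ρ.symm x = rotf p q (-s) x) {w u : E} (ow : OP w u) :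
    (1 / 2) * ((mu (fun x => z (ρ x)) w u ^ 2)⁻¹ + (mu (fun x => z (ρ.symm x)) w u ^ 2)⁻¹ -
        2 * (mu z w u ^ 2)⁻¹) ≤
      -(D2 p q s z (w + tb p q s z w u • u)) + 66000 * δ ^ 2 * s ^ 2 ∧
    -(D2 p q s z (w + tz z w u • u)) - 66000 * δ ^ 2 * s ^ 2 ≤
      (1 / 2) * ((mu (fun x => z (ρ x)) w u ^ 2)⁻¹ + (mu (fun x => z (ρ.symm x)) w u ^ 2)⁻¹ -
        2 * (mu z w u ^ 2)⁻¹) := by
  have d0 : 0 ≤ 3 * δ := by positivity
  have d1 : 3 * δ ≤ 1 / 100 := by linarith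
  have h := hz.near hδ0
  have hp := h.comp ρ
  have hm := h.comp ρ.symm
  have rp : ∀ x, ‖ρ x - x‖ ≤ |s| * ‖x‖ := fun x => by
    rw [h1]
    exact norm_rotf_sub_le o s x
  have rm : ∀ x, ‖ρ.symm x - x‖ ≤ |s| * ‖x‖ := fun x => by
    have := norm_rotf_sub_le o (-s) x
    rw [abs_neg] at this
    rwa [h2]
  have x1 := env2_x hδ0 hδ h ρ rp ow
  have x2 := env2_x hδ0 hδ h ρ.symm rm ow
  have e := h.mu_eq d0 d1 ow
  have ep := hp.mu_eq d0 d1 ow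
  have em := hm.mu_eq d0 d1 ow
  have b := h.mu_bd d0 d1 ow
  have bp := hp.mu_bd d0 d1 ow
  have bm := hm.mu_bd d0 d1 ow
  have T := env2_taylor hδ0.le hδ b bp bm
  have tp := h.tz_comp d0 d1 ρ ow
  have tm := h.tz_comp d0 d1 ρ.symm ow
  have et : tb p q s z w u =
      (tz (fun x => z (ρ x)) w u + tz (fun x => z (ρ.symm x)) w u) / 2 := by
    rw [tp, tm, tb, h1, h1, h2, h2]
  have eD : ∀ x, D2 p q s z x = z (ρ x) + z (ρ.symm x) - 2 * z x := fun x => by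
    rw [D2, h1, h2]
  -- upper bound for the sum
  have A1 := hp.tz_le d0 d1 ow (tz z w u)
  have A2 := hm.tz_le d0 d1 ow (tz z w u)
  have A3 := h.tz_le d0 d1 ow (tb p q s z w u)
  have A4 := hp.growth d0 d1 ow (tb p q s z w u)
  have A5 := hm.growth d0 d1 ow (tb p q s z w u)
  rw [← ep] at A1 A4
  rw [← em] at A2 A5
  rw [← e] at A3
  have dt : |tz (fun x => z (ρ x)) w u - tz (fun x => z (ρ.symm x)) w u| ≤ 360 * δ * |s| := by
    rw [tp, tm]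
    have g := (h.tz_good d0 d1).lip _ _ _ _ (env2_op ρ ow) (env2_op ρ.symm ow)
    have q1 : ∀ x : E, ‖x‖ = 1 → ‖ρ x - ρ.symm x‖ ≤ 2 * |s| := by
      intro x hx
      have r1 := rp x
      have r2 := rm x
      rw [hx, mul_one] at r1 r2
      have : ρ x - ρ.symm x = (ρ x - x) - (ρ.symm x - x) := by abel
      rw [this]
      exact (norm_sub_le _ _).trans (by linarith)
    have q2 := q1 w ow.nw
    have q3 := q1 u ow.nu
    have q4 : 30 * (3 * δ) * (‖ρ w - ρ.symm w‖ + ‖ρ u - ρ.symm u‖) ≤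
        30 * (3 * δ) * (2 * |s| + 2 * |s|) :=
      mul_le_mul_of_nonneg_left (add_le_add q2 q3) (by positivity)
    linarith
  have dt2 : (tz (fun x => z (ρ x)) w u - tz (fun x => z (ρ.symm x)) w u) ^ 2 ≤
      129600 * δ ^ 2 * s ^ 2 := by
    calc (tz (fun x => z (ρ x)) w u - tz (fun x => z (ρ.symm x)) w u) ^ 2
        = |tz (fun x => z (ρ x)) w u - tz (fun x => z (ρ.symm x)) w u| ^ 2 := (sq_abs _).symm
      _ ≤ (360 * δ * |s|) ^ 2 := by gcongr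
      _ = 129600 * δ ^ 2 * s ^ 2 := by rw [mul_pow, sq_abs]; ring
  have c1 : (tb p q s z w u - tz (fun x => z (ρ x)) w u) ^ 2 =
      (tz (fun x => z (ρ x)) w u - tz (fun x => z (ρ.symm x)) w u) ^ 2 / 4 := by
    rw [et]
    ring
  have c2 : (tb p q s z w u - tz (fun x => z (ρ.symm x)) w u) ^ 2 =
      (tz (fun x => z (ρ x)) w u - tz (fun x => z (ρ.symm x)) w u) ^ 2 / 4 := by
    rw [et]
    ring
  rw [c1] at A4
  rw [c2] at A5
  have Dv := eD (w + tz z w u • u)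
  rw [← e] at Dv
  have Db := eD (w + tb p q s z w u • u)
  -- bounds for the second differences of `z`
  have n1 := env_norm (by linarith) (h.tz_good d0 d1) ow
  have n2 := env_norm (by linarith) (tb_good d0 d1 h o s) ow
  have N1 : |D2 p q s z (w + tz z w u • u)| ≤ δ * s ^ 2 * (11 / 10) :=
    (hz.n2 p q o s _).trans (mul_le_mul_of_nonneg_left n1 (by positivity))
  have N2' : |D2 p q s z (w + tb p q s z w u • u)| ≤ δ * s ^ 2 * (11 / 10) :=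
    (hz.n2 p q o s _).trans (mul_le_mul_of_nonneg_left n2 (by positivity))
  rw [abs_le] at N1 N2'
  set X := mu (fun x => z (ρ x)) w u with hX
  set Z := mu (fun x => z (ρ.symm x)) w u with hZ
  set M := mu z w u with hM
  have up : (X - M) + (Z - M) ≤ D2 p q s z (w + tz z w u • u) := by linarith
  have lo : D2 p q s z (w + tb p q s z w u • u) - 64800 * δ ^ 2 * s ^ 2 ≤
      (X - M) + (Z - M) := by linarith
  have hds : 0 ≤ δ * s ^ 2 := by positivity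
  have hd2 : δ ^ 2 * s ^ 2 ≤ 1 / 1000 * (δ * s ^ 2) := by
    have : δ ^ 2 * s ^ 2 = δ * (δ * s ^ 2) := by ring
    rw [this]
    exact mul_le_mul_of_nonneg_right hδ hds
  have hsum : |(X - M) + (Z - M)| ≤ 66 * (δ * s ^ 2) := by
    rw [abs_le]
    constructor <;> linarith
  have T2 : 21 * δ * |(X - M) + (Z - M)| ≤ 1386 * (δ ^ 2 * s ^ 2) := by
    calc 21 * δ * |(X - M) + (Z - M)| ≤ 21 * δ * (66 * (δ * s ^ 2)) :=
          mul_le_mul_of_nonneg_left hsum (by positivity)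
      _ = 1386 * (δ ^ 2 * s ^ 2) := by ring
  rw [abs_le] at T
  constructor
  · linarith [T.2]
  · linarith [T.1, mul_nonneg (sq_nonneg δ) (sq_nonneg s)]

/-- the gauge of the shadow is continuous in the angle -/
theorem env2_mu_cont {z : E → ℝ} {δ : ℝ} (hδ0 : 0 ≤ δ) (hδ : δ ≤ 1 / 100) (h : Near z δ)
    {a b u : E} (hf : Fr a b u) : Continuous fun θ => ((mu z (cp a b θ) u) ^ 2)⁻¹ := by
  have g := h.tz_good hδ0 hδ
  have m1 : Continuous fun θ => mu z (cp a b θ) u := by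
    have : (fun θ => mu z (cp a b θ) u) = fun θ => z (cp a b θ + tz z (cp a b θ) u • u) := by
      funext θ
      exact h.mu_eq hδ0 hδ (hf.op θ)
    rw [this]
    exact env_cont (by positivity) g hf h.eh.cont
  refine (m1.pow 2).inv₀ fun θ => (pow_pos ?_ 2).ne'
  have := (abs_le.1 (h.mu_bd hδ0 hδ (hf.op θ))).1
  linarith

theorem P_diff2 {z : E → ℝ} {δ : ℝ} (hδ0 : 0 < δ) (hδ : δ ≤ 1 / 1000) (h : Cls z δ)
    {p q : E} (o : OP p q) (s : ℝ) {a b u : E} (hf : Fr a b u) :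
    D2 p q s (P z) u ≤
      -(∫ θ in (-π)..π, D2 p q s z (cp a b θ + tb p q s z (cp a b θ) u • u))
        + 10 ^ 6 * δ ^ 2 * s ^ 2 ∧
    -(∫ θ in (-π)..π, D2 p q s z (cp a b θ + tz z (cp a b θ) u • u))
        - 10 ^ 6 * δ ^ 2 * s ^ 2 ≤ D2 p q s (P z) u := by
  obtain ⟨ρ, h1, h2⟩ := exists_rot o s
  have d0 : 0 ≤ 3 * δ := by positivity
  have d1 : 3 * δ ≤ 1 / 100 := by linarith
  have hn := h.near hδ0
  have hp := hn.comp ρ
  have hm := hn.comp ρ.symm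
  have i0 := env2_mu_cont d0 d1 hn hf
  have i1 := env2_mu_cont d0 d1 hp hf
  have i2 := env2_mu_cont d0 d1 hm hf
  have eD : D2 p q s z = fun x => z (ρ x) + z (ρ.symm x) - 2 * z x := by
    funext x
    rw [D2, h1, h2]
  have cD : Continuous (D2 p q s z) := by
    rw [eD]
    exact ((h.eh.cont.comp ρ.continuous).add (h.eh.cont.comp ρ.symm.continuous)).sub
      (continuous_const.mul h.eh.cont)
  have h30 : 0 ≤ 30 * (3 * δ) := by positivity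
  have c1 := env_cont h30 (hn.tz_good d0 d1) hf cD
  have c2 := env_cont h30 (tb_good d0 d1 hn o s) hf cD
  have hπ : (-π : ℝ) ≤ π := by linarith [Real.pi_pos]
  have eP : D2 p q s (P z) u = ∫ θ in (-π)..π,
      (1 / 2) * ((mu (fun x => z (ρ x)) (cp a b θ) u ^ 2)⁻¹ +
        (mu (fun x => z (ρ.symm x)) (cp a b θ) u ^ 2)⁻¹ - 2 * (mu z (cp a b θ) u ^ 2)⁻¹) := by
    have j0 : IntervalIntegrable (fun θ => 2 * ((mu z (cp a b θ) u) ^ 2)⁻¹) volume (-π) π :=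
      (continuous_const.mul i0).intervalIntegrable _ _
    have j3 : IntervalIntegrable (fun θ => (mu (fun x => z (ρ x)) (cp a b θ) u ^ 2)⁻¹ +
        (mu (fun x => z (ρ.symm x)) (cp a b θ) u ^ 2)⁻¹) volume (-π) π :=
      (i1.add i2).intervalIntegrable _ _
    rw [D2, ← h1, ← h2, P_comp z ρ hf.nu, P_comp z ρ.symm hf.nu, P_eq _ hf, P_eq _ hf,
      P_eq _ hf, PF, PF, PF, intervalIntegral.integral_const_mul,
      intervalIntegral.integral_sub j3 j0,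
      intervalIntegral.integral_add (i1.intervalIntegrable _ _) (i2.intervalIntegrable _ _),
      intervalIntegral.integral_const_mul]
    ring
  have cP : Continuous fun θ => (1 / 2) * ((mu (fun x => z (ρ x)) (cp a b θ) u ^ 2)⁻¹ +
        (mu (fun x => z (ρ.symm x)) (cp a b θ) u ^ 2)⁻¹ - 2 * (mu z (cp a b θ) u ^ 2)⁻¹) :=
    continuous_const.mul ((i1.add i2).sub (continuous_const.mul i0))
  have hbig : 2 * π * (66000 * δ ^ 2 * s ^ 2) ≤ 10 ^ 6 * δ ^ 2 * s ^ 2 := by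
    have q1 : 0 ≤ δ ^ 2 * s ^ 2 := by positivity
    have q2 := Real.pi_le_four
    nlinarith
  constructor
  · have k1 : ∫ θ in (-π)..π,
        (1 / 2) * ((mu (fun x => z (ρ x)) (cp a b θ) u ^ 2)⁻¹ +
        (mu (fun x => z (ρ.symm x)) (cp a b θ) u ^ 2)⁻¹ - 2 * (mu z (cp a b θ) u ^ 2)⁻¹) ≤
        ∫ θ in (-π)..π, (-(D2 p q s z (cp a b θ + tb p q s z (cp a b θ) u • u)) +
          66000 * δ ^ 2 * s ^ 2) := by
      refine intervalIntegral.integral_mono_on hπ (cP.intervalIntegrable _ _)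
        ((c2.neg.add continuous_const).intervalIntegrable _ _) fun θ _ => ?_
      exact (env2_pt hδ0 hδ h o s ρ h1 h2 (hf.op θ)).1
    have k2 := k1.trans_eq (env_int c2 (66000 * δ ^ 2 * s ^ 2))
    rw [eP]
    linarith
  · have k1 : ∫ θ in (-π)..π, (-(D2 p q s z (cp a b θ + tz z (cp a b θ) u • u)) +
          -(66000 * δ ^ 2 * s ^ 2)) ≤ ∫ θ in (-π)..π,
        (1 / 2) * ((mu (fun x => z (ρ x)) (cp a b θ) u ^ 2)⁻¹ +
        (mu (fun x => z (ρ.symm x)) (cp a b θ) u ^ 2)⁻¹ - 2 * (mu z (cp a b θ) u ^ 2)⁻¹) := by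
      refine intervalIntegral.integral_mono_on hπ
        ((c1.neg.add continuous_const).intervalIntegrable _ _) (cP.intervalIntegrable _ _)
        fun θ _ => ?_
      exact (env2_pt hδ0 hδ h o s ρ h1 h2 (hf.op θ)).2
    have k2 := (env_int c1 (-(66000 * δ ^ 2 * s ^ 2))).symm.trans_le k1
    rw [eP]
    linarith

end PB3
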