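import Pool.Agent.Lib.MP_03c723_gt.Defs
import Pool.Agent.Lib.MP_03c723_gt.Sub

/-!
The 1-homogeneous extension of a `C²` function on the sphere becomes sublinear after adding a
multiple of the norm.
-/

namespace PB3
open MeasureTheory Real
open scoped InnerProductSpace Pointwise

/-- the 1-homogeneous extension of the restriction of `f₀` to the unit sphere -/
noncomputable def ext1 (f₀ : E → ℝ) (x : E) : ℝ := ‖x‖ * f₀ (‖x‖⁻¹ • x)

namespace Ext1

theorem norm_inv_smul_self_le (x : E) : ‖(‖x‖⁻¹ : ℝ) • x‖ ≤ 1 := by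
  rw [norm_smul, norm_inv, norm_norm]
  rcases eq_or_ne ‖x‖ 0 with h | h
  · simp [h]
  · rw [inv_mul_cancel₀ h]

theorem norm_cp' {a b : E} (h : OP a b) (θ : ℝ) : ‖cp a b θ‖ = 1 := by
  have h1 : ‖cp a b θ‖ ^ 2 = 1 := by
    unfold cp
    rw [norm_add_sq_real]
    rw [norm_smul, norm_smul, inner_smul_left, inner_smul_right, h.nw, h.nu, h.wu]
    simp only [norm_eq_abs, mul_one, sq_abs, mul_zero]
    linarith [Real.cos_sq_add_sin_sq θ]
  have h2 : 0 ≤ ‖cp a b θ‖ := norm_nonneg _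
  nlinarith

theorem ext1_of_norm_one (f₀ : E → ℝ) {x : E} (hx : ‖x‖ = 1) : ext1 f₀ x = f₀ x := by
  simp [ext1, hx]

theorem ext1_hom (f₀ : E → ℝ) (c : ℝ) (hc : 0 ≤ c) (x : E) : ext1 f₀ (c • x) = c * ext1 f₀ x := by
  rcases hc.eq_or_lt with h | h
  · subst h; simp [ext1]
  · unfold ext1
    rw [norm_smul, Real.norm_of_nonneg hc, mul_inv, smul_smul]
    have : c⁻¹ * ‖x‖⁻¹ * c = ‖x‖⁻¹ := by field_simp
    rw [this]; ring

theorem ext1_bound {f₀ : E → ℝ} {M : ℝ} (hM : ∀ x : E, ‖x‖ ≤ 1 → |f₀ x| ≤ M) (x : E) :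
    |ext1 f₀ x| ≤ M * ‖x‖ := by
  unfold ext1
  rw [abs_mul, abs_norm, mul_comm]
  exact mul_le_mul_of_nonneg_right (hM _ (norm_inv_smul_self_le x)) (norm_nonneg _)

theorem ext1_cont {f₀ : E → ℝ} (hf : Continuous f₀) {M : ℝ}
    (hM : ∀ x : E, ‖x‖ ≤ 1 → |f₀ x| ≤ M) : Continuous (ext1 f₀) := by
  rw [continuous_iff_continuousAt]
  intro x
  by_cases hx : x = 0
  · subst hx
    have h0 : ext1 f₀ 0 = 0 := by simp [ext1]
    unfold ContinuousAt
    rw [h0]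
    refine squeeze_zero_norm (a := fun x : E => M * ‖x‖) (fun x => ?_) ?_
    · rw [Real.norm_eq_abs]; exact ext1_bound hM x
    · have : Filter.Tendsto (fun x : E => M * ‖x‖) (nhds 0) (nhds (M * ‖(0 : E)‖)) :=
        (continuous_const.mul continuous_norm).tendsto _
      simpa using this
  · have h1 : ‖x‖ ≠ 0 := norm_ne_zero_iff.mpr hx
    unfold ext1
    refine continuous_norm.continuousAt.mul ?_
    refine hf.continuousAt.comp ?_
    exact (continuous_norm.continuousAt.inv₀ h1).smul continuousAt_id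

/-- derivative of `cp` -/
theorem hasDerivAt_cp (p q : E) (s : ℝ) :
    HasDerivAt (fun t => cp p q t) (cp p q (s + π / 2)) s := by
  have h1 : HasDerivAt (fun t : ℝ => Real.cos t • p) ((-Real.sin s) • p) s :=
    (Real.hasDerivAt_cos s).smul_const p
  have h2 : HasDerivAt (fun t : ℝ => Real.sin t • q) ((Real.cos s) • q) s :=
    (Real.hasDerivAt_sin s).smul_const q
  have h3 := h1.add h2
  unfold cp
  rw [Real.cos_add_pi_div_two, Real.sin_add_pi_div_two]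
  exact h3

theorem norm_cp_sub_le {p q : E} (o : OP p q) (s t : ℝ) :
    ‖cp p q s - cp p q t‖ ≤ |s - t| := by
  have h := Convex.norm_image_sub_le_of_norm_hasDerivWithin_le (f := fun t => cp p q t)
    (f' := fun s => cp p q (s + π / 2)) (s := Set.univ) (C := 1) (x := t) (y := s)
    (fun x _ => (hasDerivAt_cp p q x).hasDerivWithinAt)
    (fun x _ => (norm_cp' o _).le) convex_univ (Set.mem_univ _) (Set.mem_univ _)
  simpa [Real.norm_eq_abs] using h

theorem second_diff {f₀ : E → ℝ} (hf : ContDiff ℝ 2 f₀) {L M : ℝ}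
    (hL : ∀ x y : E, ‖x‖ ≤ 1 → ‖y‖ ≤ 1 → ‖fderiv ℝ f₀ x - fderiv ℝ f₀ y‖ ≤ L * ‖x - y‖)
    (hM : ∀ x : E, ‖x‖ ≤ 1 → ‖fderiv ℝ f₀ x‖ ≤ M) (hL0 : 0 ≤ L) (hM0 : 0 ≤ M)
    {p q : E} (o : OP p q) (s : ℝ) :
    |f₀ (cp p q s) + f₀ (cp p q (-s)) - 2 * f₀ p| ≤ (2 * (L + M)) * s ^ 2 := by
  have hd : ∀ t, HasDerivAt (fun t => f₀ (cp p q t))
      (fderiv ℝ f₀ (cp p q t) (cp p q (t + π / 2))) t := by
    intro t
    have h1 : HasFDerivAt f₀ (fderiv ℝ f₀ (cp p q t)) (cp p q t) :=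
      ((hf.differentiable (by norm_num)) _).hasFDerivAt
    exact h1.comp_hasDerivAt t (hasDerivAt_cp p q t)
  have hd' : ∀ t, HasDerivAt (fun t => f₀ (cp p q (-t)))
      (-(fderiv ℝ f₀ (cp p q (-t)) (cp p q (-t + π / 2)))) t := by
    intro t
    have h2 := (hd (-t)).comp t (hasDerivAt_neg t)
    have h3 : HasDerivAt (fun t => f₀ (cp p q (-t)))
        ((fderiv ℝ f₀ (cp p q (-t)) (cp p q (-t + π / 2))) * (-1)) t := h2
    rw [mul_neg_one] at h3
    exact h3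
  have hψ : ∀ t, HasDerivAt (fun t => f₀ (cp p q t) + f₀ (cp p q (-t)))
      (fderiv ℝ f₀ (cp p q t) (cp p q (t + π / 2))
        + -(fderiv ℝ f₀ (cp p q (-t)) (cp p q (-t + π / 2)))) t := fun t => (hd t).add (hd' t)
  have hb : ∀ t, |t| ≤ |s| → ‖fderiv ℝ f₀ (cp p q t) (cp p q (t + π / 2))
        + -(fderiv ℝ f₀ (cp p q (-t)) (cp p q (-t + π / 2)))‖ ≤ 2 * (L + M) * |s| := by
    intro t ht
    have e1 : fderiv ℝ f₀ (cp p q t) (cp p q (t + π / 2))
        + -(fderiv ℝ f₀ (cp p q (-t)) (cp p q (-t + π / 2)))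
        = (fderiv ℝ f₀ (cp p q t) - fderiv ℝ f₀ (cp p q (-t))) (cp p q (t + π / 2))
          + fderiv ℝ f₀ (cp p q (-t)) (cp p q (t + π / 2) - cp p q (-t + π / 2)) := by
      rw [show (fderiv ℝ f₀ (cp p q t) - fderiv ℝ f₀ (cp p q (-t))) (cp p q (t + π / 2))
        = fderiv ℝ f₀ (cp p q t) (cp p q (t + π / 2))
          - fderiv ℝ f₀ (cp p q (-t)) (cp p q (t + π / 2)) from rfl, map_sub]; ring
    rw [e1]
    have n1 : ‖cp p q t - cp p q (-t)‖ ≤ 2 * |t| := by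
      refine (norm_cp_sub_le o t (-t)).trans ?_
      rw [show t - -t = 2 * t by ring, abs_mul]; norm_num
    have n2 : ‖cp p q (t + π / 2) - cp p q (-t + π / 2)‖ ≤ 2 * |t| := by
      refine (norm_cp_sub_le o _ _).trans ?_
      rw [show t + π / 2 - (-t + π / 2) = 2 * t by ring, abs_mul]; norm_num
    have b1 : ‖(fderiv ℝ f₀ (cp p q t) - fderiv ℝ f₀ (cp p q (-t))) (cp p q (t + π / 2))‖
        ≤ L * (2 * |t|) := by
      refine (ContinuousLinearMap.le_opNorm _ _).trans ?_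
      rw [norm_cp' o, mul_one]
      exact (hL _ _ (norm_cp' o _).le (norm_cp' o _).le).trans
        (mul_le_mul_of_nonneg_left n1 hL0)
    have b2 : ‖fderiv ℝ f₀ (cp p q (-t)) (cp p q (t + π / 2) - cp p q (-t + π / 2))‖
        ≤ M * (2 * |t|) := by
      refine (ContinuousLinearMap.le_opNorm _ _).trans ?_
      exact mul_le_mul (hM _ (norm_cp' o _).le) n2 (norm_nonneg _) hM0
    refine (norm_add_le _ _).trans ?_
    have hLM : 0 ≤ L + M := by positivity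
    nlinarith [mul_le_mul_of_nonneg_left ht hLM]
  have key := Convex.norm_image_sub_le_of_norm_hasDerivWithin_le
    (f := fun t => f₀ (cp p q t) + f₀ (cp p q (-t)))
    (f' := fun t => fderiv ℝ f₀ (cp p q t) (cp p q (t + π / 2))
        + -(fderiv ℝ f₀ (cp p q (-t)) (cp p q (-t + π / 2))))
    (s := Set.Icc (-|s|) |s|) (C := 2 * (L + M) * |s|) (x := 0) (y := s)
    (fun x _ => (hψ x).hasDerivWithinAt)
    (fun x hx => hb x (abs_le.mpr ⟨hx.1, hx.2⟩)) (convex_Icc _ _)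
    (by constructor <;> simp) (by constructor <;> [exact neg_abs_le s; exact le_abs_self s])
  have e0 : cp p q 0 = p := by simp [cp]
  have e0' : cp p q (-0) = p := by simp [cp]
  simp only [e0, e0', sub_zero] at key
  rw [Real.norm_eq_abs, Real.norm_eq_abs] at key
  have e3 : 2 * (L + M) * |s| * |s| = (2 * (L + M)) * s ^ 2 := by
    rw [mul_assoc, ← abs_mul, ← sq, abs_of_nonneg (sq_nonneg s)]
  rw [e3] at key
  calc |f₀ (cp p q s) + f₀ (cp p q (-s)) - 2 * f₀ p|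
      = |f₀ (cp p q s) + f₀ (cp p q (-s)) - (f₀ p + f₀ p)| := by ring_nf
    _ ≤ _ := key

end Ext1

open Ext1 in
theorem ext1_subadd {f₀ : E → ℝ} (hf : ContDiff ℝ 2 f₀) : ∃ C : ℝ, 0 < C ∧ (∀ x, |ext1 f₀ x| ≤ C * ‖x‖) ∧
    ∀ ε : ℝ, |ε| ≤ 1 → ∀ x y : E,
      C * |ε| * ‖x + y‖ + ε * ext1 f₀ (x + y) ≤
        (C * |ε| * ‖x‖ + ε * ext1 f₀ x) + (C * |ε| * ‖y‖ + ε * ext1 f₀ y) := by
  have hK : IsCompact (Metric.closedBall (0 : E) 1) := isCompact_closedBall _ _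
  have hmem : ∀ x : E, ‖x‖ ≤ 1 → x ∈ Metric.closedBall (0 : E) 1 := fun x hx => by
    simpa using hx
  -- bound for `f₀`
  obtain ⟨M₀, hM₀⟩ := hK.exists_bound_of_continuousOn hf.continuous.continuousOn
  have hf1 : ContDiff ℝ 1 (fderiv ℝ f₀) := hf.fderiv_right (by norm_num)
  obtain ⟨M, hM⟩ := hK.exists_bound_of_continuousOn hf1.continuous.continuousOn
  have hf0 : Continuous (fun x => ‖fderiv ℝ (fderiv ℝ f₀) x‖) :=
    (hf1.continuous_fderiv (by norm_num)).norm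
  obtain ⟨L, hL'⟩ := hK.exists_bound_of_continuousOn hf0.continuousOn
  have hL : ∀ x ∈ Metric.closedBall (0 : E) 1, ‖fderiv ℝ (fderiv ℝ f₀) x‖ ≤ L := fun x hx => by
    exact (le_abs_self _).trans (hL' x hx)
  have z1 : (0 : E) ∈ Metric.closedBall (0 : E) 1 := hmem 0 (by simp)
  have hM₀0 : 0 ≤ M₀ := (norm_nonneg _).trans (hM₀ 0 z1)
  have hM0 : 0 ≤ M := (norm_nonneg _).trans (hM 0 z1)
  have hL0 : 0 ≤ L := (abs_nonneg _).trans (hL' 0 z1)
  have hLip : ∀ x y : E, ‖x‖ ≤ 1 → ‖y‖ ≤ 1 →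
      ‖fderiv ℝ f₀ x - fderiv ℝ f₀ y‖ ≤ L * ‖x - y‖ := by
    intro x y hx hy
    exact (convex_closedBall (0 : E) 1).norm_image_sub_le_of_norm_fderiv_le
      (fun z _ => (hf1.differentiable (by norm_num)) z) (fun z hz => hL z hz)
      (hmem y hy) (hmem x hx)
  have hM₀' : ∀ x : E, ‖x‖ ≤ 1 → |f₀ x| ≤ M₀ := fun x hx => by
    rw [← Real.norm_eq_abs]; exact hM₀ x (hmem x hx)
  have hM' : ∀ x : E, ‖x‖ ≤ 1 → ‖fderiv ℝ f₀ x‖ ≤ M := fun x hx => hM x (hmem x hx)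
  have hD : ∀ p q, OP p q → ∀ s : ℝ,
      |ext1 f₀ (cp p q s) + ext1 f₀ (cp p q (-s)) - 2 * ext1 f₀ p| ≤ (2 * (L + M)) * s ^ 2 := by
    intro p q o s
    rw [ext1_of_norm_one f₀ (norm_cp' o s), ext1_of_norm_one f₀ (norm_cp' o (-s)),
      ext1_of_norm_one f₀ o.nw]
    exact second_diff hf hLip hM' hL0 hM0 o s
  have hbd : ∀ x, |ext1 f₀ x| ≤ M₀ * ‖x‖ := ext1_bound hM₀'
  have hcont : Continuous (ext1 f₀) := ext1_cont hf.continuous hM₀'
  set C : ℝ := 2 * (L + M) + M₀ + 1 with hCdef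
  have hC : 2 * (L + M) + M₀ < C := by rw [hCdef]; linarith
  have S1 : ∀ x y : E, C * ‖x + y‖ + ext1 f₀ (x + y) ≤
      (C * ‖x‖ + ext1 f₀ x) + (C * ‖y‖ + ext1 f₀ y) :=
    subadd_of_diff hcont (ext1_hom f₀) hD hbd hC
  have S2 : ∀ x y : E, C * ‖x + y‖ + (-ext1 f₀ (x + y)) ≤
      (C * ‖x‖ + (-ext1 f₀ x)) + (C * ‖y‖ + (-ext1 f₀ y)) := by
    refine subadd_of_diff (F := fun x => -ext1 f₀ x) (δ := 2 * (L + M)) (δ' := M₀) hcont.neg ?_ ?_ ?_ hC
    · intro c hc x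
      rw [ext1_hom f₀ c hc x]; ring
    · intro p q o s
      have h := hD p q o s
      rw [← abs_neg] at h
      refine le_trans (le_of_eq ?_) h
      congr 1; ring
    · intro x; rw [abs_neg]; exact hbd x
  refine ⟨C, by positivity, fun x => (hbd x).trans ?_, ?_⟩
  · exact mul_le_mul_of_nonneg_right (by rw [hCdef]; linarith) (norm_nonneg _)
  · intro ε _ x y
    rcases le_total 0 ε with h | h
    · rw [abs_of_nonneg h]
      have := mul_le_mul_of_nonneg_left (S1 x y) h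
      nlinarith
    · rw [abs_of_nonpos h]
      have := mul_le_mul_of_nonneg_left (S2 x y) (neg_nonneg.mpr h)
      nlinarith

end PB3
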