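import Pool.Agent.Lib.MP_03c723_gt.Plane

/-!
Area of a planar convex set in terms of its support function, difference form: mollification by
twofold averages.
-/

namespace PB3
open MeasureTheory Real Set
open scoped InnerProductSpace Pointwise

/-- trigonometric convexity -/
def TC (H : ℝ → ℝ) : Prop := ∀ θ s : ℝ, 2 * Real.cos s * H θ ≤ H (θ + s) + H (θ - s)

namespace Moll

theorem unif {g : ℝ → ℝ} (hg : Continuous g) (hp : ∀ θ, g (θ + 2 * π) = g θ) {ε : ℝ}
    (hε : 0 < ε) : ∃ h₀ : ℝ, 0 < h₀ ∧ ∀ x s : ℝ, |s| ≤ h₀ → |g (x + s) - g x| ≤ ε := by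
  have hu := (isCompact_Icc (a := -π - 1) (b := π + 1)).uniformContinuousOn_of_continuous
    hg.continuousOn
  rw [Metric.uniformContinuousOn_iff] at hu
  obtain ⟨δ, hδ, h⟩ := hu ε hε
  refine ⟨min (δ / 2) 1, by positivity, fun x s hs => ?_⟩
  have hs1 : |s| < δ := by
    have := hs.trans (min_le_left _ _)
    linarith
  have hs2 : |s| ≤ 1 := hs.trans (min_le_right _ _)
  have hper : Function.Periodic (fun x => g (x + s) - g x) (2 * π) := by
    intro x
    show g (x + 2 * π + s) - g (x + 2 * π) = g (x + s) - g x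
    rw [hp, show x + 2 * π + s = x + s + 2 * π by ring, hp]
  obtain ⟨y, hy, hxy⟩ := hper.exists_mem_Ico (by positivity) x (-π)
  have hxy' : g (x + s) - g x = g (y + s) - g y := hxy
  rw [hxy']
  have := abs_le.1 hs2
  have h3 := h (y + s) ⟨by linarith [hy.1], by linarith [hy.2]⟩ y
    ⟨by linarith [hy.1], by linarith [hy.2]⟩ (by rw [Real.dist_eq]; simpa using hs1)
  rw [Real.dist_eq] at h3
  exact h3.le

/-- average over an interval of length `2h` -/
noncomputable def A (h : ℝ) (g : ℝ → ℝ) (θ : ℝ) : ℝ := (2 * h)⁻¹ * ∫ s in (θ - h)..(θ + h), g s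

theorem A_hasDerivAt {g : ℝ → ℝ} (hg : Continuous g) (h θ : ℝ) :
    HasDerivAt (A h g) ((2 * h)⁻¹ * (g (θ + h) - g (θ - h))) θ := by
  have hF : ∀ x, HasDerivAt (fun x => ∫ s in (0 : ℝ)..x, g s) (g x) x := fun x =>
    intervalIntegral.integral_hasDerivAt_right (hg.intervalIntegrable _ _)
      hg.aestronglyMeasurable.stronglyMeasurableAtFilter hg.continuousAt
  have h1 : HasDerivAt (fun x => ∫ s in (0 : ℝ)..(x + h), g s) (g (θ + h)) θ := by
    have := (hF (θ + h)).comp_add_const θ h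
    exact this
  have h2 : HasDerivAt (fun x => ∫ s in (0 : ℝ)..(x - h), g s) (g (θ - h)) θ := by
    have := (hF (θ - h)).comp_sub_const θ h
    exact this
  have h3 := (h1.sub h2).const_mul (2 * h)⁻¹
  have h4 : A h g = fun x => (2 * h)⁻¹ *
      ((∫ s in (0 : ℝ)..(x + h), g s) - ∫ s in (0 : ℝ)..(x - h), g s) := by
    funext x
    unfold A
    rw [intervalIntegral.integral_interval_sub_left (hg.intervalIntegrable _ _)
      (hg.intervalIntegrable _ _)]
  rw [h4]
  exact h3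

theorem A_deriv {g : ℝ → ℝ} (hg : Continuous g) (h : ℝ) :
    deriv (A h g) = fun θ => (2 * h)⁻¹ * (g (θ + h) - g (θ - h)) :=
  funext fun θ => (A_hasDerivAt hg h θ).deriv

theorem A_contDiff {g : ℝ → ℝ} (n : ℕ) (hg : ContDiff ℝ n g) (h : ℝ) :
    ContDiff ℝ (n + 1 : ℕ) (A h g) := by
  have hc := hg.continuous
  rw [Nat.cast_add, Nat.cast_one, contDiff_succ_iff_deriv]
  refine ⟨fun θ => (A_hasDerivAt hc h θ).differentiableAt, fun hn => ?_, ?_⟩
  · exact absurd hn (by simp)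
  · rw [A_deriv hc]
    exact contDiff_const.mul ((hg.comp (contDiff_id.add contDiff_const)).sub
      (hg.comp (contDiff_id.sub contDiff_const)))

theorem A_continuous {g : ℝ → ℝ} (hg : Continuous g) (h : ℝ) : Continuous (A h g) :=
  continuous_iff_continuousAt.2 fun θ => (A_hasDerivAt hg h θ).continuousAt

theorem A_add {g k : ℝ → ℝ} (hg : Continuous g) (hk : Continuous k) (h θ : ℝ) :
    A h (fun x => g x + k x) θ = A h g θ + A h k θ := by
  unfold A
  rw [intervalIntegral.integral_add (hg.intervalIntegrable _ _) (hk.intervalIntegrable _ _)]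
  ring

theorem A_sub {g k : ℝ → ℝ} (hg : Continuous g) (hk : Continuous k) (h θ : ℝ) :
    A h (fun x => g x - k x) θ = A h g θ - A h k θ := by
  unfold A
  rw [intervalIntegral.integral_sub (hg.intervalIntegrable _ _) (hk.intervalIntegrable _ _)]
  ring

theorem A_shift (g : ℝ → ℝ) (h θ d : ℝ) : A h g (θ + d) = A h (fun x => g (x + d)) θ := by
  unfold A
  rw [intervalIntegral.integral_comp_add_right]
  congr 2 <;> ring

theorem A_neg (g : ℝ → ℝ) (h θ : ℝ) : A h (fun x => - g x) θ = - A h g θ := by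
  unfold A
  rw [intervalIntegral.integral_neg]
  ring

theorem A_abs_le {g : ℝ → ℝ} {h ε : ℝ} (hh : 0 < h) {θ : ℝ}
    (hg : ∀ s, |s| ≤ h → |g (θ + s)| ≤ ε) : |A h g θ| ≤ ε := by
  unfold A
  have h1 : ‖∫ s in (θ - h)..(θ + h), g s‖ ≤ ε * |θ + h - (θ - h)| := by
    refine intervalIntegral.norm_integral_le_of_norm_le_const fun s hs => ?_
    rw [uIoc_of_le (by linarith)] at hs
    have := hg (s - θ) (abs_le.2 ⟨by linarith [hs.1], by linarith [hs.2]⟩)
    rw [add_sub_cancel] at this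
    exact this
  rw [abs_mul, abs_of_pos (by positivity : 0 < (2 * h)⁻¹)]
  rw [Real.norm_eq_abs, show θ + h - (θ - h) = 2 * h by ring,
    abs_of_pos (by linarith : (0 : ℝ) < 2 * h)] at h1
  calc (2 * h)⁻¹ * |∫ s in (θ - h)..(θ + h), g s| ≤ (2 * h)⁻¹ * (ε * (2 * h)) := by gcongr
    _ = ε := by field_simp

theorem A_const (c : ℝ) {h : ℝ} (hh : 0 < h) (θ : ℝ) : A h (fun _ => c) θ = c := by
  unfold A
  rw [intervalIntegral.integral_const, smul_eq_mul]
  field_simp
  ring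

theorem A_close {g : ℝ → ℝ} (hg : Continuous g) {h ε : ℝ} (hh : 0 < h)
    (hu : ∀ x s : ℝ, |s| ≤ h → |g (x + s) - g x| ≤ ε) (θ : ℝ) : |A h g θ - g θ| ≤ ε := by
  have h1 : A h g θ - g θ = A h (fun x => g x - g θ) θ := by
    rw [A_sub hg continuous_const, A_const _ hh]
  rw [h1]
  exact A_abs_le hh fun s hs => hu θ s hs

/-- twofold average -/
noncomputable def B (h : ℝ) (g : ℝ → ℝ) : ℝ → ℝ := A h (A h g)

theorem B_close {g : ℝ → ℝ} (hg : Continuous g) {h ε : ℝ} (hh : 0 < h)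
    (hu : ∀ x s : ℝ, |s| ≤ h → |g (x + s) - g x| ≤ ε) (θ : ℝ) : |B h g θ - g θ| ≤ 2 * ε := by
  have h1 : |A h (A h g) θ - A h g θ| ≤ ε := by
    rw [← A_sub (A_continuous hg h) hg]
    exact A_abs_le hh fun s _ => A_close hg hh hu _
  have h2 := A_close hg hh hu θ
  unfold B
  calc |A h (A h g) θ - g θ| ≤ |A h (A h g) θ - A h g θ| + |A h g θ - g θ| :=
        abs_sub_le _ _ _
    _ ≤ 2 * ε := by linarith

theorem B_contDiff {g : ℝ → ℝ} (hg : Continuous g) (h : ℝ) : ContDiff ℝ 2 (B h g) := by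
  have h1 : ContDiff ℝ (0 + 1 : ℕ) (A h g) := A_contDiff 0 (contDiff_zero.2 hg) h
  exact A_contDiff 1 h1 h

theorem B_shift (g : ℝ → ℝ) (h θ d : ℝ) : B h g (θ + d) = B h (fun x => g (x + d)) θ := by
  unfold B
  rw [A_shift]
  congr 1
  funext x
  exact A_shift g h x d

theorem B_neg (g : ℝ → ℝ) (h θ : ℝ) : B h (fun x => - g x) θ = - B h g θ := by
  unfold B
  rw [← A_neg]
  congr 1
  funext x
  exact A_neg g h x

theorem B_add {g k : ℝ → ℝ} (hg : Continuous g) (hk : Continuous k) (h θ : ℝ) :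
    B h (fun x => g x + k x) θ = B h g θ + B h k θ := by
  unfold B
  rw [← A_add (A_continuous hg h) (A_continuous hk h)]
  congr 1
  funext x
  exact A_add hg hk h x

theorem A_of_deriv {g : ℝ → ℝ} (hg : ContDiff ℝ 1 g) (h θ : ℝ) :
    A h (deriv g) θ = (2 * h)⁻¹ * (g (θ + h) - g (θ - h)) := by
  have hd : Differentiable ℝ g := hg.differentiable (by norm_num)
  have hdc : Continuous (deriv g) := hg.continuous_deriv (by norm_num)
  unfold A
  rw [intervalIntegral.integral_deriv_eq_sub (fun x _ => hd x)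
    (hdc.intervalIntegrable _ _)]

theorem B_deriv {g : ℝ → ℝ} (hg : ContDiff ℝ 2 g) (h : ℝ) :
    deriv (B h g) = B h (deriv g) := by
  have h2 : deriv (A h g) = A h (deriv g) := by
    rw [A_deriv hg.continuous]
    funext θ
    rw [A_of_deriv (hg.of_le (by norm_num))]
  have h3 : ContDiff ℝ (0 + 1 : ℕ) (A h g) := A_contDiff 0 (contDiff_zero.2 hg.continuous) h
  have h4 : ContDiff ℝ 1 (A h g) := h3
  unfold B
  rw [← h2, A_deriv (A_continuous hg.continuous h)]
  funext θ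
  rw [A_of_deriv h4]

theorem B_deriv2 {g : ℝ → ℝ} (hg : Continuous g) (h θ : ℝ) :
    deriv (deriv (B h g)) θ = (2 * h)⁻¹ * ((2 * h)⁻¹ *
      (g (θ + 2 * h) + g (θ - 2 * h) - 2 * g θ)) := by
  unfold B
  rw [A_deriv (A_continuous hg h)]
  have h1 : HasDerivAt (fun θ => A h g (θ + h)) ((2 * h)⁻¹ * (g (θ + h + h) - g (θ + h - h))) θ :=
    (A_hasDerivAt hg h (θ + h)).comp_add_const θ h
  have h2 : HasDerivAt (fun θ => A h g (θ - h)) ((2 * h)⁻¹ * (g (θ - h + h) - g (θ - h - h))) θ :=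
    (A_hasDerivAt hg h (θ - h)).comp_sub_const θ h
  have h3 : HasDerivAt (fun θ => (2 * h)⁻¹ * (A h g (θ + h) - A h g (θ - h)))
      ((2 * h)⁻¹ * ((2 * h)⁻¹ * (g (θ + h + h) - g (θ + h - h)) -
        (2 * h)⁻¹ * (g (θ - h + h) - g (θ - h - h)))) θ := (h1.sub h2).const_mul (2 * h)⁻¹
  rw [h3.deriv]
  rw [show θ + h + h = θ + 2 * h by ring, show θ + h - h = θ by ring,
    show θ - h + h = θ by ring, show θ - h - h = θ - 2 * h by ring]
  ring

theorem B_deriv2_ge {g : ℝ → ℝ} (hg : Continuous g) (tg : TC g) (hg0 : ∀ θ, 0 ≤ g θ) {h : ℝ}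
    (hh : 0 < h) (θ : ℝ) : - g θ ≤ deriv (deriv (B h g)) θ := by
  rw [B_deriv2 hg]
  have h1 := tg θ (2 * h)
  have h2 : 1 - (2 * h) ^ 2 / 2 ≤ Real.cos (2 * h) := Real.one_sub_sq_div_two_le_cos
  have h3 : -(4 * h ^ 2) * g θ ≤ g (θ + 2 * h) + g (θ - 2 * h) - 2 * g θ := by
    nlinarith [hg0 θ]
  calc - g θ = (2 * h)⁻¹ * ((2 * h)⁻¹ * (-(4 * h ^ 2) * g θ)) := by field_simp; ring
    _ ≤ _ := by gcongr

theorem bdd {g : ℝ → ℝ} (hg : Continuous g) (hp : ∀ θ, g (θ + 2 * π) = g θ) :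
    ∃ M : ℝ, 1 ≤ M ∧ ∀ θ, |g θ| ≤ M := by
  obtain ⟨M, hM⟩ := (isCompact_Icc (a := -π) (b := π)).exists_bound_of_continuousOn
    hg.continuousOn
  refine ⟨max M 1, le_max_right _ _, fun θ => ?_⟩
  have hper : Function.Periodic g (2 * π) := hp
  obtain ⟨y, hy, hxy⟩ := hper.exists_mem_Ico (by positivity) θ (-π)
  rw [hxy]
  exact (hM y ⟨hy.1, by linarith [hy.2]⟩).trans (le_max_left _ _)

theorem anti_int {k : ℝ → ℝ} (hk : Continuous k) (ha : ∀ θ, k (θ + π) = - k θ) :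
    ∫ θ in (-π)..π, k θ = 0 := by
  rw [← intervalIntegral.integral_add_adjacent_intervals (hk.intervalIntegrable (-π) 0)
    (hk.intervalIntegrable 0 π)]
  have h1 : ∫ θ in (0 : ℝ)..π, k θ = ∫ θ in (-π)..0, k (θ + π) := by
    rw [intervalIntegral.integral_comp_add_right]
    congr 1 <;> ring
  rw [h1]
  simp only [ha]
  rw [intervalIntegral.integral_neg]
  ring

theorem LH_mono {H H' : ℝ → ℝ} (h : ∀ θ, H θ ≤ H' θ) : LH H ⊆ LH H' :=
  fun _ hx θ => (hx θ).trans (h θ)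

theorem LH_smul {H : ℝ → ℝ} {c : ℝ} (hc : 0 < c) : LH (fun θ => c * H θ) = c • LH H := by
  ext x
  rw [Set.mem_smul_set_iff_inv_smul_mem₀ hc.ne']
  constructor
  · intro hx θ
    have := hx θ
    simp only [Prod.smul_fst, Prod.smul_snd, smul_eq_mul]
    calc c⁻¹ * x.1 * Real.cos θ + c⁻¹ * x.2 * Real.sin θ
        = c⁻¹ * (x.1 * Real.cos θ + x.2 * Real.sin θ) := by ring
      _ ≤ c⁻¹ * (c * H θ) := by gcongr
      _ = H θ := by field_simp
  · intro hx θ
    have := hx θ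
    simp only [Prod.smul_fst, Prod.smul_snd, smul_eq_mul] at this
    calc x.1 * Real.cos θ + x.2 * Real.sin θ
        = c * (c⁻¹ * x.1 * Real.cos θ + c⁻¹ * x.2 * Real.sin θ) := by field_simp
      _ ≤ c * H θ := by gcongr

theorem vol_smul {H : ℝ → ℝ} {c : ℝ} (hc : 0 < c) :
    (volume (LH (fun θ => c * H θ))).toReal = c ^ 2 * (volume (LH H)).toReal := by
  rw [LH_smul hc, Measure.addHaar_smul, ENNReal.toReal_mul]
  have : Module.finrank ℝ (ℝ × ℝ) = 2 := by simp
  rw [this, ENNReal.toReal_ofReal (abs_nonneg _), abs_of_pos (by positivity)]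

theorem vol_ne_top {H : ℝ → ℝ} {M : ℝ} (hM : ∀ θ, H θ ≤ M) : volume (LH H) ≠ ⊤ := by
  have hsub : LH H ⊆ Icc ((-M, -M) : ℝ × ℝ) (M, M) := by
    intro x hx
    have h0 := (hx 0).trans (hM 0)
    have h1 := (hx π).trans (hM π)
    have h2 := (hx (π / 2)).trans (hM (π / 2))
    have h3 := (hx (-(π / 2))).trans (hM (-(π / 2)))
    simp only [Real.cos_zero, Real.sin_zero, Real.cos_pi, Real.sin_pi, Real.cos_pi_div_two,
      Real.sin_pi_div_two, Real.cos_neg, Real.sin_neg] at h0 h1 h2 h3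
    exact ⟨⟨by linarith, by linarith⟩, ⟨by linarith, by linarith⟩⟩
  exact ne_top_of_le_ne_top isCompact_Icc.measure_lt_top.ne (measure_mono hsub)

theorem vol_pos {H : ℝ → ℝ} {r : ℝ} (hr : 0 < r) (h : ∀ θ, r ≤ H θ) : 0 < volume (LH H) := by
  have hsub : Ioo (-(r / 2)) (r / 2) ×ˢ Ioo (-(r / 2)) (r / 2) ⊆ LH H := by
    rintro ⟨x, y⟩ ⟨hx, hy⟩ θ
    have h1 : |x| < r / 2 := abs_lt.2 hx
    have h2 : |y| < r / 2 := abs_lt.2 hy
    have h3 : x * Real.cos θ ≤ |x| := by
      calc x * Real.cos θ ≤ |x * Real.cos θ| := le_abs_self _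
        _ = |x| * |Real.cos θ| := abs_mul _ _
        _ ≤ |x| * 1 := by gcongr; exact Real.abs_cos_le_one θ
        _ = |x| := mul_one _
    have h4 : y * Real.sin θ ≤ |y| := by
      calc y * Real.sin θ ≤ |y * Real.sin θ| := le_abs_self _
        _ = |y| * |Real.sin θ| := abs_mul _ _
        _ ≤ |y| * 1 := by gcongr; exact Real.abs_sin_le_one θ
        _ = |y| := mul_one _
    have := h θ
    show x * Real.cos θ + y * Real.sin θ ≤ H θ
    linarith
  refine lt_of_lt_of_le ?_ (measure_mono hsub)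
  rw [Measure.volume_eq_prod, Measure.prod_prod, Real.volume_Ioo]
  have : (0 : ENNReal) < ENNReal.ofReal (r / 2 - -(r / 2)) := ENNReal.ofReal_pos.2 (by linarith)
  exact ENNReal.mul_pos this.ne' this.ne'

theorem vol_close {H H' : ℝ → ℝ} {r M δ : ℝ} (hr : 0 < r) (h : ∀ θ, r ≤ H θ)
    (hM : ∀ θ, H θ ≤ M) (hδ0 : 0 < δ) (hδ1 : δ < 1) (hc : ∀ θ, |H' θ - H θ| ≤ δ * r) :
    |(volume (LH H')).toReal - (volume (LH H)).toReal| ≤ 3 * δ * (volume (LH H)).toReal := by
  have hV0 : 0 ≤ (volume (LH H)).toReal := ENNReal.toReal_nonneg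
  have hle : ∀ θ, δ * r ≤ δ * H θ := fun θ => by
    have := h θ
    gcongr
  have hup : ∀ θ, H' θ ≤ (1 + δ) * H θ := fun θ => by
    have := (abs_le.1 (hc θ)).2
    have := hle θ
    linarith
  have hlo : ∀ θ, (1 - δ) * H θ ≤ H' θ := fun θ => by
    have := (abs_le.1 (hc θ)).1
    have := hle θ
    linarith
  have hf : volume (LH fun θ => (1 + δ) * H θ) ≠ ⊤ :=
    vol_ne_top (M := (1 + δ) * M) fun θ => by
      have := hM θ
      gcongr
  have hf' : volume (LH H') ≠ ⊤ := ne_top_of_le_ne_top hf (measure_mono (LH_mono hup))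
  have h1 : (volume (LH H')).toReal ≤ (1 + δ) ^ 2 * (volume (LH H)).toReal := by
    rw [← vol_smul (by linarith)]
    exact ENNReal.toReal_mono hf (measure_mono (LH_mono hup))
  have h2 : (1 - δ) ^ 2 * (volume (LH H)).toReal ≤ (volume (LH H')).toReal := by
    rw [← vol_smul (by linarith)]
    exact ENNReal.toReal_mono hf' (measure_mono (LH_mono hlo))
  rw [abs_le]
  constructor
  · nlinarith [mul_nonneg (sq_nonneg δ) hV0, mul_nonneg hδ0.le hV0]
  · have h3 : δ ^ 2 * (volume (LH H)).toReal ≤ δ * (volume (LH H)).toReal := by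
      gcongr
      nlinarith
    nlinarith [mul_nonneg (sq_nonneg δ) hV0, mul_nonneg hδ0.le hV0]

/-- the real form of `area_LH_smooth` -/
theorem area_real {H : ℝ → ℝ} (hH : ContDiff ℝ 2 H) (hp : ∀ θ, H (θ + 2 * π) = H θ)
    {r : ℝ} (hr : 0 < r) (h0 : ∀ θ, r ≤ H θ) (h2 : ∀ θ, 0 < H θ + deriv (deriv H) θ) :
    (volume (LH H)).toReal = (1 / 2) * ∫ θ in (-π)..π, (H θ ^ 2 - (deriv H θ) ^ 2) := by
  have h1 := area_LH_smooth hH hp (fun θ => hr.trans_le (h0 θ)) h2
  have h3 := vol_pos hr h0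
  rw [h1] at h3 ⊢
  exact ENNReal.toReal_ofReal (ENNReal.ofReal_pos.1 h3).le

theorem int_close {F F' G G' : ℝ → ℝ} (hF : Continuous F) (hF' : Continuous F')
    (hG : Continuous G) (hG' : Continuous G') {M ε : ℝ} (hM : 1 ≤ M) (hε0 : 0 < ε) (hε1 : ε ≤ 1)
    (b : ∀ θ, |F θ| ≤ M) (b' : ∀ θ, |F' θ| ≤ M) (c : ∀ θ, |G θ - F θ| ≤ 2 * ε)
    (c' : ∀ θ, |G' θ - F' θ| ≤ 2 * ε) :
    |(∫ θ in (-π)..π, (G θ ^ 2 - G' θ ^ 2)) - ∫ θ in (-π)..π, (F θ ^ 2 - F' θ ^ 2)| ≤
      32 * π * M * ε := by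
  have hsq : ∀ x y : ℝ, |x| ≤ M → |y - x| ≤ 2 * ε → |y ^ 2 - x ^ 2| ≤ 8 * M * ε := by
    intro x y hx hy
    have h1 : |y + x| ≤ 4 * M := by
      calc |y + x| = |(y - x) + 2 * x| := by ring_nf
        _ ≤ |y - x| + |2 * x| := abs_add_le _ _
        _ = |y - x| + 2 * |x| := by rw [abs_mul, abs_of_pos (by norm_num : (0 : ℝ) < 2)]
        _ ≤ 4 * M := by linarith
    calc |y ^ 2 - x ^ 2| = |y - x| * |y + x| := by rw [← abs_mul]; congr 1; ring
      _ ≤ 2 * ε * (4 * M) := by gcongr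
      _ = 8 * M * ε := by ring
  have i1 : IntervalIntegrable (fun θ => G θ ^ 2 - G' θ ^ 2) volume (-π) π :=
    ((hG.pow 2).sub (hG'.pow 2)).intervalIntegrable _ _
  have i2 : IntervalIntegrable (fun θ => F θ ^ 2 - F' θ ^ 2) volume (-π) π :=
    ((hF.pow 2).sub (hF'.pow 2)).intervalIntegrable _ _
  rw [← intervalIntegral.integral_sub i1 i2]
  have h1 : ‖∫ θ in (-π)..π, (G θ ^ 2 - G' θ ^ 2 - (F θ ^ 2 - F' θ ^ 2))‖ ≤
      16 * M * ε * |π - -π| := by
    refine intervalIntegral.norm_integral_le_of_norm_le_const fun θ _ => ?_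
    rw [Real.norm_eq_abs]
    have h2 := hsq _ _ (b θ) (c θ)
    have h3 := hsq _ _ (b' θ) (c' θ)
    calc |G θ ^ 2 - G' θ ^ 2 - (F θ ^ 2 - F' θ ^ 2)|
        = |(G θ ^ 2 - F θ ^ 2) - (G' θ ^ 2 - F' θ ^ 2)| := by ring_nf
      _ ≤ |G θ ^ 2 - F θ ^ 2| + |G' θ ^ 2 - F' θ ^ 2| := abs_sub _ _
      _ ≤ 16 * M * ε := by linarith
  rw [Real.norm_eq_abs, show π - -π = 2 * π by ring, abs_of_pos (by positivity : 0 < 2 * π)] at h1
  linarith

end Moll

theorem area_LH_diff {H f : ℝ → ℝ} (hc : Continuous H) (he : ∀ θ, H (θ + π) = H θ)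
    (hf : ContDiff ℝ 2 f) (ho : ∀ θ, f (θ + π) = - f θ) {r : ℝ} (hr : 0 < r)
    (h1 : ∀ θ, r ≤ H θ) (h2 : ∀ θ, r ≤ H θ + f θ) (t1 : TC H) (t2 : TC (fun θ => H θ + f θ)) :
    (volume (LH (fun θ => H θ + f θ))).toReal = (volume (LH H)).toReal
      + (1 / 2) * ∫ θ in (-π)..π, (f θ ^ 2 - (deriv f θ) ^ 2) := by
  have hfc : Continuous f := hf.continuous
  have hfd : Continuous (deriv f) := hf.continuous_deriv (by norm_num)
  have hgc : Continuous (fun θ => H θ + f θ) := hc.add hfc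
  have hod : ∀ θ, deriv f (θ + π) = - deriv f θ := by
    intro θ
    rw [← deriv_comp_add_const, ← deriv.fun_neg]
    congr 1
    funext x
    exact ho x
  have pH : ∀ θ, H (θ + 2 * π) = H θ := fun θ => by
    rw [show θ + 2 * π = θ + π + π by ring, he, he]
  have pf : ∀ θ, f (θ + 2 * π) = f θ := fun θ => by
    rw [show θ + 2 * π = θ + π + π by ring, ho, ho, neg_neg]
  have pfd : ∀ θ, deriv f (θ + 2 * π) = deriv f θ := fun θ => by
    rw [show θ + 2 * π = θ + π + π by ring, hod, hod, neg_neg]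
  have pg : ∀ θ, H (θ + 2 * π) + f (θ + 2 * π) = H θ + f θ := fun θ => by rw [pH, pf]
  obtain ⟨M₁, -, bH⟩ := Moll.bdd hc pH
  obtain ⟨M₂, -, bg⟩ := Moll.bdd hgc pg
  obtain ⟨M₃, hM₃, bf⟩ := Moll.bdd hfc pf
  obtain ⟨M₄, hM₄, bfd⟩ := Moll.bdd hfd pfd
  set V := (volume (LH H)).toReal with hV
  set W := (volume (LH (fun θ => H θ + f θ))).toReal with hW
  set I := ∫ θ in (-π)..π, (f θ ^ 2 - (deriv f θ) ^ 2) with hI
  set M := max M₃ M₄ with hMd
  have hM : 1 ≤ M := hM₃.trans (le_max_left _ _)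
  have hV0 : 0 ≤ V := ENNReal.toReal_nonneg
  have hW0 : 0 ≤ W := ENNReal.toReal_nonneg
  -- main estimate
  have key : ∀ ε : ℝ, 0 < ε → ε ≤ 1 → 5 * ε < r →
      |W - V - 1 / 2 * I| ≤ (15 * W / r + 15 * V / r + 16 * π * M) * ε := by
    intro ε hε0 hε1 hεr
    obtain ⟨k₁, hk₁, u₁⟩ := Moll.unif hc pH hε0
    obtain ⟨k₂, hk₂, u₂⟩ := Moll.unif hgc pg hε0
    obtain ⟨k₃, hk₃, u₃⟩ := Moll.unif hfc pf hε0
    obtain ⟨k₄, hk₄, u₄⟩ := Moll.unif hfd pfd hε0
    set h := min (min k₁ k₂) (min k₃ k₄) with hh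
    have hh0 : 0 < h := by
      rw [hh]
      exact lt_min (lt_min hk₁ hk₂) (lt_min hk₃ hk₄)
    have c₁ := Moll.B_close hc hh0 fun x s hs => u₁ x s
      (hs.trans ((min_le_left _ _).trans (min_le_left _ _)))
    have c₂ := Moll.B_close hgc hh0 fun x s hs => u₂ x s
      (hs.trans ((min_le_left _ _).trans (min_le_right _ _)))
    have c₃ := Moll.B_close hfc hh0 fun x s hs => u₃ x s
      (hs.trans ((min_le_right _ _).trans (min_le_left _ _)))
    have c₄ := Moll.B_close hfd hh0 fun x s hs => u₄ x s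
      (hs.trans ((min_le_right _ _).trans (min_le_right _ _)))
    -- smooth approximations
    set P₁ : ℝ → ℝ := fun θ => Moll.B h H θ + 3 * ε with hP₁
    set P₂ : ℝ → ℝ := fun θ => Moll.B h (fun θ => H θ + f θ) θ + 3 * ε with hP₂
    set Q : ℝ → ℝ := Moll.B h f with hQ
    have dP₁ : ContDiff ℝ 2 P₁ := (Moll.B_contDiff hc h).add contDiff_const
    have dP₂ : ContDiff ℝ 2 P₂ := (Moll.B_contDiff hgc h).add contDiff_const
    have dQ : ContDiff ℝ 2 Q := Moll.B_contDiff hfc h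
    have e12 : ∀ θ, P₂ θ = P₁ θ + Q θ := fun θ => by
      simp only [hP₁, hP₂, hQ]
      rw [Moll.B_add hc hfc]
      ring
    have per₁ : ∀ θ, P₁ (θ + π) = P₁ θ := fun θ => by
      simp only [hP₁]
      rw [Moll.B_shift]
      simp only [he]
    have antQ : ∀ θ, Q (θ + π) = - Q θ := fun θ => by
      simp only [hQ]
      rw [Moll.B_shift]
      simp only [ho]
      exact Moll.B_neg f h θ
    have per₂ : ∀ θ, P₂ (θ + 2 * π) = P₂ θ := fun θ => by
      rw [e12, e12, show θ + 2 * π = θ + π + π by ring, per₁, per₁, antQ, antQ, neg_neg]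
    have per₁' : ∀ θ, P₁ (θ + 2 * π) = P₁ θ := fun θ => by
      rw [show θ + 2 * π = θ + π + π by ring, per₁, per₁]
    have cl₁ : ∀ θ, |P₁ θ - H θ| ≤ 5 * ε / r * r := fun θ => by
      have := abs_le.1 (c₁ θ)
      rw [div_mul_cancel₀ _ hr.ne', abs_le]
      constructor
      · simp only [hP₁]; linarith
      · simp only [hP₁]; linarith
    have cl₂ : ∀ θ, |P₂ θ - (H θ + f θ)| ≤ 5 * ε / r * r := fun θ => by
      have := abs_le.1 (c₂ θ)
      rw [div_mul_cancel₀ _ hr.ne', abs_le]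
      constructor
      · simp only [hP₂]; linarith
      · simp only [hP₂]; linarith
    have lo₁ : ∀ θ, r ≤ P₁ θ := fun θ => by
      have := abs_le.1 (c₁ θ)
      have := h1 θ
      simp only [hP₁]; linarith
    have lo₂ : ∀ θ, r ≤ P₂ θ := fun θ => by
      have := abs_le.1 (c₂ θ)
      have := h2 θ
      simp only [hP₂]; linarith
    have cv₁ : ∀ θ, 0 < P₁ θ + deriv (deriv P₁) θ := fun θ => by
      have e : deriv P₁ = deriv (Moll.B h H) := by
        funext x
        simp only [hP₁]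
        exact deriv_add_const _
      rw [e]
      have a1 := Moll.B_deriv2_ge hc t1 (fun θ => hr.le.trans (h1 θ)) hh0 θ
      have a2 := abs_le.1 (c₁ θ)
      simp only [hP₁]; linarith
    have cv₂ : ∀ θ, 0 < P₂ θ + deriv (deriv P₂) θ := fun θ => by
      have e : deriv P₂ = deriv (Moll.B h (fun θ => H θ + f θ)) := by
        funext x
        simp only [hP₂]
        exact deriv_add_const _
      rw [e]
      have a1 := Moll.B_deriv2_ge hgc t2 (fun θ => hr.le.trans (h2 θ)) hh0 θ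
      have a2 := abs_le.1 (c₂ θ)
      simp only [hP₂]; linarith
    have A₁ := Moll.area_real dP₁ per₁' hr lo₁ cv₁
    have A₂ := Moll.area_real dP₂ per₂ hr lo₂ cv₂
    have hδ : 5 * ε / r < 1 := (div_lt_one hr).2 hεr
    have hδ0 : 0 < 5 * ε / r := by positivity
    have V₁ := Moll.vol_close hr h1 (fun θ => (abs_le.1 (bH θ)).2) hδ0 hδ cl₁
    have V₂ := Moll.vol_close hr h2 (fun θ => (abs_le.1 (bg θ)).2) hδ0 hδ cl₂
    -- the difference of the areas
    have cP₁ := dP₁.continuous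
    have cQ := dQ.continuous
    have cP₁d : Continuous (deriv P₁) := dP₁.continuous_deriv (by norm_num)
    have cQd : Continuous (deriv Q) := dQ.continuous_deriv (by norm_num)
    have dd : ∀ θ, deriv P₂ θ = deriv P₁ θ + deriv Q θ := fun θ => by
      have : P₂ = fun θ => P₁ θ + Q θ := funext e12
      rw [this]
      exact deriv_add (dP₁.differentiable (by norm_num) θ) (dQ.differentiable (by norm_num) θ)
    have perd : ∀ θ, deriv P₁ (θ + π) = deriv P₁ θ := fun θ => by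
      rw [← deriv_comp_add_const]
      congr 1
      funext x
      exact per₁ x
    have antd : ∀ θ, deriv Q (θ + π) = - deriv Q θ := fun θ => by
      rw [← deriv_comp_add_const, ← deriv.fun_neg]
      congr 1
      funext x
      exact antQ x
    have z1 : ∫ θ in (-π)..π, (2 * (P₁ θ * Q θ) - 2 * (deriv P₁ θ * deriv Q θ)) = 0 := by
      refine Moll.anti_int ((continuous_const.mul (cP₁.mul cQ)).sub
        (continuous_const.mul (cP₁d.mul cQd))) fun θ => ?_
      rw [per₁, antQ, perd, antd]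
      ring
    have dA : (volume (LH P₂)).toReal - (volume (LH P₁)).toReal =
        1 / 2 * ∫ θ in (-π)..π, (Q θ ^ 2 - deriv Q θ ^ 2) := by
      rw [A₁, A₂]
      have e : (fun θ => P₂ θ ^ 2 - deriv P₂ θ ^ 2) = fun θ =>
          ((P₁ θ ^ 2 - deriv P₁ θ ^ 2) + (Q θ ^ 2 - deriv Q θ ^ 2)) +
            (2 * (P₁ θ * Q θ) - 2 * (deriv P₁ θ * deriv Q θ)) := by
        funext θ
        rw [e12, dd]
        ring
      rw [e, intervalIntegral.integral_add, intervalIntegral.integral_add, z1]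
      · ring
      · exact ((cP₁.pow 2).sub (cP₁d.pow 2)).intervalIntegrable _ _
      · exact ((cQ.pow 2).sub (cQd.pow 2)).intervalIntegrable _ _
      · exact (((cP₁.pow 2).sub (cP₁d.pow 2)).add
          ((cQ.pow 2).sub (cQd.pow 2))).intervalIntegrable _ _
      · exact ((continuous_const.mul (cP₁.mul cQ)).sub
          (continuous_const.mul (cP₁d.mul cQd))).intervalIntegrable _ _
    have eQd : deriv Q = Moll.B h (deriv f) := Moll.B_deriv hf h
    have IC := Moll.int_close hfc hfd cQ cQd hM hε0 hε1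
      (fun θ => (bf θ).trans (le_max_left _ _)) (fun θ => (bfd θ).trans (le_max_right _ _))
      c₃ (fun θ => by rw [eQd]; exact c₄ θ)
    have q1 : 3 * (5 * ε / r) * V = 15 * V / r * ε := by ring
    have q2 : 3 * (5 * ε / r) * W = 15 * W / r * ε := by ring
    rw [q1] at V₁
    rw [q2] at V₂
    rw [abs_le] at V₁ V₂ IC ⊢
    constructor
    · linarith [V₁.1, V₁.2, V₂.1, V₂.2, IC.1, IC.2]
    · linarith [V₁.1, V₁.2, V₂.1, V₂.2, IC.1, IC.2]
  -- conclusion
  set C := 15 * W / r + 15 * V / r + 16 * π * M with hC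
  have hC0 : 0 < C := by positivity
  by_contra hne
  have hX : 0 < |W - V - 1 / 2 * I| := by
    refine abs_pos.2 fun h0 => hne ?_
    linarith
  set ε := min (min 1 (r / 10)) (|W - V - 1 / 2 * I| / (2 * C)) with hε
  have hε0 : 0 < ε := lt_min (lt_min one_pos (by positivity)) (by positivity)
  have h3 := key ε hε0 ((min_le_left _ _).trans (min_le_left _ _))
    (by
      have : ε ≤ r / 10 := (min_le_left _ _).trans (min_le_right _ _)
      linarith)
  have h4 : C * ε ≤ |W - V - 1 / 2 * I| / 2 := by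
    calc C * ε ≤ C * (|W - V - 1 / 2 * I| / (2 * C)) := by
          gcongr
          exact min_le_right _ _
      _ = _ := by field_simp
  linarith

end PB3
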