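import Pool.Agent.Lib.MP_03c723_gt.Defs

/-!
Shadows: the projection of a convex set along the third vector of a frame.
-/

set_option autoImplicit false

namespace PB3

open MeasureTheory Real Set Filter Topology
open scoped InnerProductSpace ENNReal

/-- the projection of `K` along `u` in the coordinates of the frame `(a, b, u)` -/
noncomputable def shadow (a b : E) (K : Set E) : Set (ℝ × ℝ) :=
  (fun x : E => (⟪a, x⟫_ℝ, ⟪b, x⟫_ℝ)) '' K

/-! ### elementary facts -/

theorem shad_orthonormal {a b u : E} (hf : Fr a b u) : Orthonormal ℝ ![a, b, u] := by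
  have hab := hf.ab
  have hau := hf.au
  have hbu := hf.bu
  have hba : ⟪b, a⟫_ℝ = 0 := by rw [real_inner_comm]; exact hab
  have hua : ⟪u, a⟫_ℝ = 0 := by rw [real_inner_comm]; exact hau
  have hub : ⟪u, b⟫_ℝ = 0 := by rw [real_inner_comm]; exact hbu
  constructor
  · intro i
    fin_cases i
    · exact hf.na
    · exact hf.nb
    · exact hf.nu
  · intro i j hij
    fin_cases i <;> fin_cases j
    · exact absurd rfl hij
    · exact hab
    · exact hau
    · exact hba
    · exact absurd rfl hij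
    · exact hbu
    · exact hua
    · exact hub
    · exact absurd rfl hij

theorem shad_expand {a b u : E} (hf : Fr a b u) (x : E) :
    x = ⟪a, x⟫_ℝ • a + ⟪b, x⟫_ℝ • b + ⟪u, x⟫_ℝ • u := by
  have ho := shad_orthonormal hf
  have hr : Orthonormal ℝ ((Set.univ : Set (Fin 3)).domRestrict ![a, b, u]) :=
    ho.comp _ Subtype.val_injective
  obtain ⟨B, hB⟩ := hr.exists_orthonormalBasis_extension_of_card_eq (by simp)
  have h1 := B.sum_repr' x
  rw [Fin.sum_univ_three, hB 0 (Set.mem_univ _), hB 1 (Set.mem_univ _), hB 2 (Set.mem_univ _)]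
    at h1
  exact h1.symm

theorem shad_inner {a b u : E} (hf : Fr a b u) (r s t : ℝ) :
    ⟪a, r • a + s • b + t • u⟫_ℝ = r ∧ ⟪b, r • a + s • b + t • u⟫_ℝ = s := by
  have haa : ⟪a, a⟫_ℝ = 1 := by rw [real_inner_self_eq_norm_sq, hf.na]; norm_num
  have hbb : ⟪b, b⟫_ℝ = 1 := by rw [real_inner_self_eq_norm_sq, hf.nb]; norm_num
  have hba : ⟪b, a⟫_ℝ = 0 := by rw [real_inner_comm]; exact hf.ab
  constructor
  · simp only [inner_add_right, inner_smul_right, haa, hf.ab, hf.au]
    ring
  · simp only [inner_add_right, inner_smul_right, hbb, hba, hf.bu]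
    ring

theorem shad_abs {z : E → ℝ} {δ : ℝ} (h : Near z δ) (x : E) : |z x - ‖x‖| ≤ δ * ‖x‖ := by
  obtain ⟨G, hG⟩ := h.hq
  rcases eq_or_ne x 0 with rfl | hx
  · have h0 : z 0 = 0 := by
      have := h.eh.hom 0 0
      simpa using this
    simp [h0]
  · have hn : 0 < ‖x‖ := norm_pos_iff.2 hx
    have h1 := hG x hx x
    have h2 := hG x hx (-x)
    simp only [real_inner_self_eq_norm_sq, inner_neg_right, norm_neg] at h1 h2
    have e1 : ‖x‖ ^ 2 / ‖x‖ = ‖x‖ := by field_simp
    rw [e1, sub_self, mul_zero] at h1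
    rw [neg_div, e1] at h2
    have h3 : z (-x) = z x := by
      have := h.eh.hom (-1) x
      simpa using this
    rw [h3] at h2
    have h4 : z x - ‖x‖ = ⟪G x, x⟫_ℝ := by
      have := abs_nonpos_iff.1 h1
      linarith
    rw [h4] at h2 ⊢
    have h5 : |⟪G x, x⟫_ℝ - -⟪G x, x⟫_ℝ| = 2 * |⟪G x, x⟫_ℝ| := by
      rw [sub_neg_eq_add, ← two_mul, abs_mul, abs_two]
    rw [h5] at h2
    linarith

/-- the minimum of the gauge on a line -/
theorem shad_min {z : E → ℝ} {δ : ℝ} (hδ : δ ≤ 1 / 100) (h : Near z δ) {w u : E}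
    (hw : ‖w‖ = 1) (hu : ‖u‖ = 1) (hwu : ⟪w, u⟫_ℝ = 0) :
    ∃ t : ℝ, (∀ s : ℝ, z (w + t • u) ≤ z (w + s • u)) ∧ mu z w u = z (w + t • u) ∧
      0 < mu z w u := by
  have hnorm : ∀ t : ℝ, ‖w + t • u‖ ^ 2 = 1 + t ^ 2 := by
    intro t
    rw [norm_add_sq_real, inner_smul_right, hwu, hw, norm_smul, hu, Real.norm_eq_abs]
    rw [mul_one, sq_abs]
    ring
  have hlow : ∀ x : E, (99 / 100 : ℝ) * ‖x‖ ≤ z x := by
    intro x
    have h1 := (abs_le.1 (shad_abs h x)).1
    have h2 := norm_nonneg x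
    nlinarith
  have hge1 : ∀ t : ℝ, 1 ≤ ‖w + t • u‖ := by
    intro t
    have := hnorm t
    have h2 := norm_nonneg (w + t • u)
    nlinarith [sq_nonneg t]
  have habs : ∀ t : ℝ, |t| ≤ ‖w + t • u‖ := by
    intro t
    apply abs_le_of_sq_le_sq _ (norm_nonneg _)
    rw [hnorm]
    linarith
  have hcont : Continuous fun t : ℝ => z (w + t • u) :=
    h.eh.cont.comp (continuous_const.add (continuous_id.smul continuous_const))
  have hlim : Tendsto (fun t : ℝ => z (w + t • u)) (cocompact ℝ) atTop := by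
    have h1 : Tendsto (fun t : ℝ => (99 / 100 : ℝ) * ‖t‖) (cocompact ℝ) atTop :=
      (tendsto_norm_cocompact_atTop).const_mul_atTop (by norm_num)
    refine tendsto_atTop_mono (fun t => ?_) h1
    refine le_trans ?_ (hlow _)
    rw [Real.norm_eq_abs]
    exact mul_le_mul_of_nonneg_left (habs t) (by norm_num)
  obtain ⟨t, ht⟩ := hcont.exists_forall_le hlim
  have hmu : mu z w u = z (w + t • u) := by
    apply le_antisymm
    · exact ciInf_le ⟨z (w + t • u), by rintro _ ⟨s, rfl⟩; exact ht s⟩ t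
    · exact le_ciInf ht
  refine ⟨t, ht, hmu, ?_⟩
  rw [hmu]
  have h1 := hlow (w + t • u)
  have h2 := hge1 t
  linarith

theorem shad_cp {a b u : E} (hf : Fr a b u) (θ : ℝ) :
    ‖cp a b θ‖ = 1 ∧ ⟪cp a b θ, u⟫_ℝ = 0 := by
  have hba : ⟪b, a⟫_ℝ = 0 := by rw [real_inner_comm]; exact hf.ab
  constructor
  · have h1 : ‖cp a b θ‖ ^ 2 = 1 := by
      unfold cp
      rw [norm_add_sq_real, inner_smul_left, inner_smul_right, hf.ab, norm_smul, norm_smul,
        hf.na, hf.nb]
      simp only [Real.norm_eq_abs, mul_one, sq_abs, mul_zero, add_zero]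
      exact Real.cos_sq_add_sin_sq θ
    have h2 := norm_nonneg (cp a b θ)
    nlinarith
  · unfold cp
    rw [inner_add_left, inner_smul_left, inner_smul_left, hf.au, hf.bu]
    simp

/-! ### the area of a shadow -/

theorem shad_compact {z : E → ℝ} {δ : ℝ} (hδ : δ ≤ 1 / 100) (h : Near z δ) :
    IsCompact {x : E | z x ≤ 1} := by
  apply Metric.isCompact_of_isClosed_isBounded
  · exact isClosed_le h.eh.cont continuous_const
  · rw [isBounded_iff_forall_norm_le]
    refine ⟨2, fun x hx => ?_⟩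
    have h1 := (abs_le.1 (shad_abs h x)).1
    have h2 := norm_nonneg x
    have h3 : z x ≤ 1 := hx
    nlinarith

theorem shad_continuous (a b : E) : Continuous fun x : E => (⟪a, x⟫_ℝ, ⟪b, x⟫_ℝ) :=
  (continuous_const.inner continuous_id).prodMk (continuous_const.inner continuous_id)

/-- membership in polar coordinates -/
theorem shad_polar {z : E → ℝ} {δ : ℝ} (hδ : δ ≤ 1 / 100) (h : Near z δ)
    {a b u : E} (hf : Fr a b u) {r : ℝ} (hr : 0 < r) (θ : ℝ) :
    (r * Real.cos θ, r * Real.sin θ) ∈ shadow a b {x | z x ≤ 1} ↔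
      r ≤ (mu z (cp a b θ) u)⁻¹ := by
  obtain ⟨hc1, hc2⟩ := shad_cp hf θ
  obtain ⟨t, ht, hmu, hpos⟩ := shad_min hδ h hc1 hf.nu hc2
  have hhom : ∀ x : E, z (r • x) = r * z x := fun x => by rw [h.eh.hom, abs_of_pos hr]
  constructor
  · rintro ⟨x, hx, hxe⟩
    simp only [Prod.mk.injEq] at hxe
    have hx1 : z x ≤ 1 := hx
    have hxx : x = r • (cp a b θ + (⟪u, x⟫_ℝ / r) • u) := by
      have h1 := shad_expand hf x
      rw [hxe.1, hxe.2] at h1
      rw [smul_add, smul_smul, mul_div_cancel₀ _ hr.ne']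
      unfold cp
      rw [smul_add, smul_smul, smul_smul]
      exact h1
    rw [hxx, hhom] at hx1
    have h2 := ht (⟪u, x⟫_ℝ / r)
    rw [← hmu] at h2
    rw [← one_div, le_div_iff₀ hpos]
    exact (mul_le_mul_of_nonneg_left h2 hr.le).trans hx1
  · intro hle
    rw [← one_div, le_div_iff₀ hpos] at hle
    refine ⟨r • (cp a b θ + t • u), ?_, ?_⟩
    · show z (r • (cp a b θ + t • u)) ≤ 1
      rw [hhom, ← hmu]
      exact hle
    · have e : r • (cp a b θ + t • u) =
          (r * Real.cos θ) • a + (r * Real.sin θ) • b + (r * t) • u := by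
        unfold cp
        rw [smul_add, smul_add, smul_smul, smul_smul, smul_smul]
      simp only [e, Prod.mk.injEq]
      exact shad_inner hf _ _ _

theorem shad_inner_integral {ρ : ℝ} (hρ : 0 ≤ ρ) :
    ∫⁻ r in Set.Ioi (0 : ℝ), (Set.Iic ρ).indicator (fun r => ENNReal.ofReal r) r =
      ENNReal.ofReal ((1 / 2) * ρ ^ 2) := by
  rw [lintegral_indicator measurableSet_Iic, Measure.restrict_restrict measurableSet_Iic,
    Set.inter_comm, Set.Ioi_inter_Iic]
  have hint : Integrable (fun r : ℝ => r) (volume.restrict (Set.Ioc 0 ρ)) :=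
    ((continuous_id (X := ℝ)).integrableOn_Icc (a := 0) (b := ρ)).mono_set Set.Ioc_subset_Icc_self
  rw [← ofReal_integral_eq_lintegral_ofReal hint]
  · rw [← intervalIntegral.integral_of_le hρ, integral_id]
    congr 1
    ring
  · filter_upwards [ae_restrict_mem measurableSet_Ioc] with r hr
    exact hr.1.le

theorem area_shadow {z : E → ℝ} {δ : ℝ} (hδ0 : 0 ≤ δ) (hδ : δ ≤ 1 / 100) (h : Near z δ)
    {a b u : E} (hf : Fr a b u) :
    (volume (shadow a b {x | z x ≤ 1})).toReal = PF z a b u := by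
  set S := shadow a b {x | z x ≤ 1} with hS
  have hSm : MeasurableSet S :=
    ((shad_compact hδ h).image (shad_continuous a b)).isClosed.measurableSet
  have hpos : ∀ θ, 0 < mu z (cp a b θ) u := by
    intro θ
    obtain ⟨hc1, hc2⟩ := shad_cp hf θ
    obtain ⟨t, _, _, h3⟩ := shad_min hδ h hc1 hf.nu hc2
    exact h3
  set g : ℝ → ℝ := fun θ => (1 / 2) * ((mu z (cp a b θ) u) ^ 2)⁻¹ with hg
  have hg0 : ∀ θ, 0 ≤ g θ := fun θ => by
    have := hpos θ
    rw [hg]
    positivity
  -- polar coordinates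
  set f : ℝ × ℝ → ℝ≥0∞ := fun p => ENNReal.ofReal p.1 •
    S.indicator (fun _ => (1 : ℝ≥0∞)) (p.1 * Real.cos p.2, p.1 * Real.sin p.2) with hfdef
  have hfm : Measurable f := by
    have h1 : Measurable fun p : ℝ × ℝ => (p.1 * Real.cos p.2, p.1 * Real.sin p.2) :=
      (measurable_fst.mul (Real.measurable_cos.comp measurable_snd)).prodMk
        (measurable_fst.mul (Real.measurable_sin.comp measurable_snd))
    exact (ENNReal.measurable_ofReal.comp measurable_fst).mul
      ((measurable_const.indicator hSm).comp h1)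
  have hinner : ∀ θ, ∫⁻ r in Set.Ioi (0 : ℝ), f (r, θ) = ENNReal.ofReal (g θ) := by
    intro θ
    have e1 : ∫⁻ r in Set.Ioi (0 : ℝ), f (r, θ) = ∫⁻ r in Set.Ioi (0 : ℝ),
        (Set.Iic (mu z (cp a b θ) u)⁻¹).indicator (fun r => ENNReal.ofReal r) r := by
      apply setLIntegral_congr_fun measurableSet_Ioi
      intro r hr
      simp only [hfdef]
      by_cases hm : r ≤ (mu z (cp a b θ) u)⁻¹
      · rw [Set.indicator_of_mem ((shad_polar hδ h hf hr θ).2 hm),
          Set.indicator_of_mem (show r ∈ Set.Iic (mu z (cp a b θ) u)⁻¹ from hm), smul_eq_mul,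
          mul_one]
      · rw [Set.indicator_of_notMem (fun hc => hm ((shad_polar hδ h hf hr θ).1 hc)),
          Set.indicator_of_notMem (show r ∉ Set.Iic (mu z (cp a b θ) u)⁻¹ from hm), smul_zero]
    rw [e1, shad_inner_integral (inv_nonneg.2 (hpos θ).le), inv_pow]
  have hvol : volume S = ∫⁻ θ in Set.Ioo (-π) π, ENNReal.ofReal (g θ) := by
    have e1 : volume S = ∫⁻ p : ℝ × ℝ, S.indicator (fun _ => (1 : ℝ≥0∞)) p := by
      rw [lintegral_indicator hSm, lintegral_const, one_mul, Measure.restrict_apply_univ]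
    rw [e1, ← lintegral_comp_polarCoord_symm]
    have e2 : ∫⁻ p in polarCoord.target, ENNReal.ofReal p.1 •
        S.indicator (fun _ => (1 : ℝ≥0∞)) (polarCoord.symm p) =
        ∫⁻ p in Set.Ioi (0 : ℝ) ×ˢ Set.Ioo (-π) π, f p := rfl
    rw [e2, Measure.volume_eq_prod, ← Measure.prod_restrict, lintegral_prod_symm' _ hfm]
    exact lintegral_congr fun θ => hinner θ
  have hgm : Measurable g := by
    have h1 : Measurable fun θ => ∫⁻ r in Set.Ioi (0 : ℝ), f (r, θ) :=
      hfm.lintegral_prod_left'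
    have h2 : g = fun θ => (∫⁻ r in Set.Ioi (0 : ℝ), f (r, θ)).toReal := by
      funext θ
      rw [hinner, ENNReal.toReal_ofReal (hg0 θ)]
    rw [h2]
    exact h1.ennreal_toReal
  rw [hvol, ← integral_eq_lintegral_of_nonneg_ae (Eventually.of_forall hg0)
    hgm.aestronglyMeasurable]
  unfold PF
  rw [← intervalIntegral.integral_const_mul,
    intervalIntegral.integral_of_le (by linarith [Real.pi_pos]), integral_Ioc_eq_integral_Ioo]

/-! ### the shadow as a set cut out by a support function -/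

theorem shadow_eq_LH {K : Set E} (hK : Convex ℝ K) (hc : IsCompact K) (hn : K.Nonempty)
    {a b u : E} (hf : Fr a b u) :
    shadow a b K = LH (fun θ => suppFn K (cp a b θ)) := by
  have hcp : ∀ (x : E) (θ : ℝ), ⟪x, cp a b θ⟫_ℝ =
      ⟪a, x⟫_ℝ * Real.cos θ + ⟪b, x⟫_ℝ * Real.sin θ := by
    intro x θ
    unfold cp
    rw [inner_add_right, inner_smul_right, inner_smul_right, real_inner_comm, real_inner_comm b x]
    ring
  have hbdd : ∀ v : E, BddAbove ((fun x => ⟪x, v⟫_ℝ) '' K) := fun v =>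
    (hc.image (continuous_id.inner continuous_const)).bddAbove
  apply Set.Subset.antisymm
  · rintro _ ⟨x, hx, rfl⟩ θ
    rw [← hcp]
    exact le_csSup (hbdd _) ⟨x, hx, rfl⟩
  · intro y hy
    by_contra hyn
    have hconv : Convex ℝ (shadow a b K) := by
      have hlin : IsLinearMap ℝ (fun x : E => (⟪a, x⟫_ℝ, ⟪b, x⟫_ℝ)) := by
        constructor
        · intro x y
          simp only [inner_add_right, Prod.mk_add_mk]
        · intro c x
          simp only [inner_smul_right, Prod.smul_mk, smul_eq_mul]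
      exact hK.is_linear_image hlin
    have hclosed : IsClosed (shadow a b K) := (hc.image (shad_continuous a b)).isClosed
    obtain ⟨f, v, h1, h2⟩ := geometric_hahn_banach_closed_point hconv hclosed hyn
    set α := f (1, 0) with hα
    set γ := f (0, 1) with hγ
    have hfe : ∀ p : ℝ × ℝ, f p = p.1 * α + p.2 * γ := by
      intro p
      have e : p = p.1 • ((1 : ℝ), (0 : ℝ)) + p.2 • ((0 : ℝ), (1 : ℝ)) := by
        ext <;> simp
      conv_lhs => rw [e]
      rw [map_add, map_smul, map_smul, smul_eq_mul, smul_eq_mul]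
    -- polar coordinates of the functional
    set r := ‖(⟨α, γ⟩ : ℂ)‖ with hr
    set θ := Complex.arg ⟨α, γ⟩ with hθ
    have hre : α = r * Real.cos θ := (Complex.norm_mul_cos_arg ⟨α, γ⟩).symm
    have him : γ = r * Real.sin θ := (Complex.norm_mul_sin_arg ⟨α, γ⟩).symm
    have hr0 : 0 ≤ r := norm_nonneg _
    have hfx : ∀ p : ℝ × ℝ, f p = r * (p.1 * Real.cos θ + p.2 * Real.sin θ) := by
      intro p
      rw [hfe, hre, him]
      ring
    have hsup : r * suppFn K (cp a b θ) ≤ v := by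
      rcases eq_or_lt_of_le hr0 with h0 | h0
      · obtain ⟨x, hx⟩ := hn
        have h3 := h1 _ ⟨x, hx, rfl⟩
        rw [hfx, ← h0, zero_mul] at h3
        rw [← h0, zero_mul]
        exact h3.le
      · rw [mul_comm, ← le_div_iff₀ h0]
        apply csSup_le (hn.image _)
        rintro _ ⟨x, hx, rfl⟩
        have h3 := h1 _ ⟨x, hx, rfl⟩
        rw [hfx] at h3
        simp only at h3 ⊢
        rw [hcp, le_div_iff₀ h0, mul_comm]
        exact h3.le
    have h4 : f y ≤ r * suppFn K (cp a b θ) := by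
      rw [hfx]
      exact mul_le_mul_of_nonneg_left (hy θ) hr0
    linarith

/-! ### the volume of a projection -/

theorem volume_proj (K : Set E) {a b u : E} (hf : Fr a b u) :
    volume ((ℝ ∙ u)ᗮ.orthogonalProjectionOnto '' K) = volume (shadow a b K) := by
  have hba : ⟪b, a⟫_ℝ = 0 := by rw [real_inner_comm]; exact hf.ab
  have hua : ⟪u, a⟫_ℝ = 0 := by rw [real_inner_comm]; exact hf.au
  have hub : ⟪u, b⟫_ℝ = 0 := by rw [real_inner_comm]; exact hf.bu
  have ha : a ∈ (ℝ ∙ u)ᗮ := Submodule.mem_orthogonal_singleton_iff_inner_right.2 hua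
  have hb : b ∈ (ℝ ∙ u)ᗮ := Submodule.mem_orthogonal_singleton_iff_inner_right.2 hub
  set v : Fin 2 → (ℝ ∙ u)ᗮ := ![⟨a, ha⟩, ⟨b, hb⟩] with hv
  have hon : Orthonormal ℝ v := by
    constructor
    · intro i
      fin_cases i
      · exact hf.na
      · exact hf.nb
    · intro i j hij
      fin_cases i <;> fin_cases j
      · exact absurd rfl hij
      · exact hf.ab
      · exact hba
      · exact absurd rfl hij
  have hspan : ⊤ ≤ Submodule.span ℝ (Set.range v) := by
    intro x _
    have hx0 : ⟪u, (x : E)⟫_ℝ = 0 :=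
      Submodule.mem_orthogonal_singleton_iff_inner_right.1 x.2
    have h1 := shad_expand hf (x : E)
    rw [hx0, zero_smul, add_zero] at h1
    have h2 : x = ⟪a, (x : E)⟫_ℝ • v 0 + ⟪b, (x : E)⟫_ℝ • v 1 := by
      apply Subtype.ext
      exact h1
    rw [h2]
    exact Submodule.add_mem _
      (Submodule.smul_mem _ _ (Submodule.subset_span ⟨0, rfl⟩))
      (Submodule.smul_mem _ _ (Submodule.subset_span ⟨1, rfl⟩))
  set B : OrthonormalBasis (Fin 2) ℝ (ℝ ∙ u)ᗮ := OrthonormalBasis.mk hon hspan with hB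
  have hBv : ∀ i, B i = v i := fun i => by rw [hB, OrthonormalBasis.coe_mk]
  -- the measure preserving equivalence with the plane
  set e : (ℝ ∙ u)ᗮ ≃ᵐ ℝ × ℝ := (B.measurableEquiv.trans
    (MeasurableEquiv.toLp 2 (Fin 2 → ℝ)).symm).trans MeasurableEquiv.finTwoArrow with he
  have hmp : MeasurePreserving e volume volume :=
    (volume_preserving_finTwoArrow ℝ).comp
      ((EuclideanSpace.volume_preserving_symm_measurableEquiv_toLp (Fin 2)).comp
        B.measurePreserving_measurableEquiv)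
  have hev : ∀ x : E, e ((ℝ ∙ u)ᗮ.orthogonalProjectionOnto x) = (⟪a, x⟫_ℝ, ⟪b, x⟫_ℝ) := by
    intro x
    have e1 : e ((ℝ ∙ u)ᗮ.orthogonalProjectionOnto x) =
        (B.repr ((ℝ ∙ u)ᗮ.orthogonalProjectionOnto x) 0,
          B.repr ((ℝ ∙ u)ᗮ.orthogonalProjectionOnto x) 1) := rfl
    rw [e1, B.repr_apply_apply, B.repr_apply_apply, hBv, hBv,
      Submodule.inner_orthogonalProjectionOnto_eq_of_mem_left,
      Submodule.inner_orthogonalProjectionOnto_eq_of_mem_left]
    rfl
  have hpre : (ℝ ∙ u)ᗮ.orthogonalProjectionOnto '' K = e ⁻¹' (shadow a b K) := by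
    ext y
    constructor
    · rintro ⟨x, hx, rfl⟩
      exact ⟨x, hx, (hev x).symm⟩
    · rintro ⟨x, hx, hxe⟩
      refine ⟨x, hx, e.injective ?_⟩
      rw [hev]
      exact hxe
  rw [hpre]
  exact hmp.measure_preimage_equiv _

end PB3
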