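import Pool.Agent.Lib.MP_03c723_gt.Defs

/-! General facts on support functions of convex bodies in `E`. -/

namespace PB3
open MeasureTheory Real
open scoped InnerProductSpace Pointwise

/-- Hahn–Banach: a sublinear function is supported at every point. -/
theorem exists_support {g : E → ℝ} (hh : ∀ c : ℝ, 0 ≤ c → ∀ x, g (c • x) = c * g x)
    (ha : ∀ x y, g (x + y) ≤ g x + g y) (x : E) :
    ∃ p : E, (∀ y, ⟪p, y⟫_ℝ ≤ g y) ∧ ⟪p, x⟫_ℝ = g x := by
  have g0 : g 0 = 0 := by have := hh 0 le_rfl 0; simpa using this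
  have key : ∃ L : E →ₗ[ℝ] ℝ, (∀ y, L y ≤ g y) ∧ L x = g x := by
    by_cases hx : x = 0
    · obtain ⟨L, -, hL⟩ := exists_extension_of_le_sublinear (⊥ : E →ₗ.[ℝ] ℝ) g
        (fun c hc y => hh c hc.le y) ha (by
          rintro ⟨y, hy⟩
          have hy' : y ∈ (⊥ : Submodule ℝ E) := hy
          have : y = 0 := (Submodule.mem_bot ℝ).1 hy'
          subst this
          have : (⊥ : E →ₗ.[ℝ] ℝ) ⟨0, hy⟩ = 0 := by
            exact LinearPMap.map_zero _
          rw [this, g0])
      refine ⟨L, hL, ?_⟩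
      rw [hx, g0, map_zero]
    · obtain ⟨L, hL1, hL⟩ := exists_extension_of_le_sublinear
        (LinearPMap.mkSpanSingleton x (g x) hx) g
        (fun c hc y => hh c hc.le y) ha (by
          rintro ⟨y, hy⟩
          obtain ⟨c, rfl⟩ := Submodule.mem_span_singleton.1 hy
          have e : (LinearPMap.mkSpanSingleton x (g x) hx) ⟨c • x, hy⟩ = c • g x :=
            LinearPMap.mkSpanSingleton'_apply _ _ _ _ _
          rw [e, smul_eq_mul]
          rcases le_or_gt 0 c with hc | hc
          · exact (hh c hc x).ge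
          · have h1 : g ((-c) • x) = (-c) * g x := hh (-c) (by linarith) x
            have h2 : g (c • x + (-c) • x) ≤ g (c • x) + g ((-c) • x) := ha _ _
            have h3 : c • x + (-c) • x = 0 := by rw [← add_smul]; simp
            rw [h3, g0, h1] at h2
            show c * g x ≤ g (c • x)
            linarith)
      refine ⟨L, hL, ?_⟩
      have := hL1 ⟨x, Submodule.mem_span_singleton_self x⟩
      rw [this]
      exact LinearPMap.mkSpanSingleton_apply ℝ ℝ hx (g x)
  obtain ⟨L, hL, hLx⟩ := key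
  refine ⟨(InnerProductSpace.toDual ℝ E).symm L.toContinuousLinearMap, fun y => ?_, ?_⟩
  · rw [InnerProductSpace.toDual_symm_apply]; exact hL y
  · rw [InnerProductSpace.toDual_symm_apply]; exact hLx

theorem bddAbove_supp {K : Set E} (hK : IsCompact K) (u : E) :
    BddAbove ((fun x => ⟪x, u⟫_ℝ) '' K) :=
  (hK.image (by fun_prop)).bddAbove

theorem le_suppFn {K : Set E} (hK : IsCompact K) {x : E} (hx : x ∈ K) (u : E) :
    ⟪x, u⟫_ℝ ≤ suppFn K u := le_csSup (bddAbove_supp hK u) ⟨x, hx, rfl⟩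

theorem suppFn_le {K : Set E} (hn : K.Nonempty) {u : E} {r : ℝ} (h : ∀ x ∈ K, ⟪x, u⟫_ℝ ≤ r) :
    suppFn K u ≤ r := by
  apply csSup_le (hn.image _)
  rintro _ ⟨x, hx, rfl⟩
  exact h x hx

theorem suppFn_add_le {K : Set E} (hK : IsCompact K) (hn : K.Nonempty) (u v : E) :
    suppFn K (u + v) ≤ suppFn K u + suppFn K v := by
  apply suppFn_le hn
  intro x hx
  rw [inner_add_right]
  exact add_le_add (le_suppFn hK hx u) (le_suppFn hK hx v)

theorem suppFn_smul {K : Set E} (hK : IsCompact K) (hn : K.Nonempty) {c : ℝ} (hc : 0 ≤ c) (u : E) :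
    suppFn K (c • u) = c * suppFn K u := by
  apply le_antisymm
  · apply suppFn_le hn
    intro x hx
    rw [inner_smul_right]
    exact mul_le_mul_of_nonneg_left (le_suppFn hK hx u) hc
  · rcases hc.eq_or_lt with rfl | hc'
    · obtain ⟨x, hx⟩ := hn
      have := le_suppFn hK hx ((0 : ℝ) • u)
      simpa using this
    · have : suppFn K u ≤ c⁻¹ * suppFn K (c • u) := by
        apply suppFn_le hn
        intro x hx
        have := le_suppFn hK hx (c • u)
        rw [inner_smul_right] at this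
        rw [inv_mul_eq_div, le_div_iff₀ hc']
        linarith
      calc c * suppFn K u ≤ c * (c⁻¹ * suppFn K (c • u)) := mul_le_mul_of_nonneg_left this hc
        _ = suppFn K (c • u) := by field_simp

/-- the convex body with support function `g` -/
def bodyOf (g : E → ℝ) : Set E := {x | ∀ y, ⟪x, y⟫_ℝ ≤ g y}

theorem suppFn_bodyOf {g : E → ℝ} (hh : ∀ c : ℝ, 0 ≤ c → ∀ x, g (c • x) = c * g x)
    (ha : ∀ x y, g (x + y) ≤ g x + g y) (u : E) : suppFn (bodyOf g) u = g u := by
  obtain ⟨p, hp, hpu⟩ := exists_support hh ha u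
  apply le_antisymm
  · exact suppFn_le (K := bodyOf g) ⟨p, hp⟩ (fun x hx => hx u)
  · rw [← hpu]
    refine le_csSup ⟨g u, ?_⟩ ⟨p, hp, rfl⟩
    rintro _ ⟨x, hx, rfl⟩
    exact hx u

theorem convex_bodyOf (g : E → ℝ) : Convex ℝ (bodyOf g) := by
  intro x hx y hy a b ha hb hab z
  rw [inner_add_left, inner_smul_left, inner_smul_left]
  have h1 := mul_le_mul_of_nonneg_left (hx z) ha
  have h2 := mul_le_mul_of_nonneg_left (hy z) hb
  simp only [conj_trivial]
  calc a * ⟪x, z⟫_ℝ + b * ⟪y, z⟫_ℝ ≤ a * g z + b * g z := add_le_add h1 h2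
    _ = g z := by rw [← add_mul, hab, one_mul]

theorem isClosed_bodyOf (g : E → ℝ) : IsClosed (bodyOf g) := by
  have : bodyOf g = ⋂ y : E, {x | ⟪x, y⟫_ℝ ≤ g y} := by ext x; simp [bodyOf]
  rw [this]
  exact isClosed_iInter fun y => isClosed_le (by fun_prop) continuous_const

theorem isCompact_bodyOf {g : E → ℝ} {R : ℝ} (hR : ∀ y, g y ≤ R * ‖y‖) :
    IsCompact (bodyOf g) := by
  apply Metric.isCompact_of_isClosed_isBounded (isClosed_bodyOf g)
  apply (Metric.isBounded_closedBall (x := (0 : E)) (r := |R|)).subset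
  intro x hx
  rw [mem_closedBall_zero_iff]
  have h1 := (hx x).trans (hR x)
  rw [real_inner_self_eq_norm_sq] at h1
  by_cases h0 : ‖x‖ = 0
  · rw [h0]; exact abs_nonneg R
  · have h2 : 0 < ‖x‖ := lt_of_le_of_ne (norm_nonneg x) (Ne.symm h0)
    have h3 : ‖x‖ * ‖x‖ ≤ R * ‖x‖ := by nlinarith
    exact (le_of_mul_le_mul_right h3 h2).trans (le_abs_self R)

theorem ball_subset_bodyOf {g : E → ℝ} {r : ℝ} (hr : ∀ y, r * ‖y‖ ≤ g y) :
    Metric.closedBall (0 : E) r ⊆ bodyOf g := by
  intro x hx y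
  rw [mem_closedBall_zero_iff] at hx
  calc ⟪x, y⟫_ℝ ≤ ‖x‖ * ‖y‖ := real_inner_le_norm x y
    _ ≤ r * ‖y‖ := mul_le_mul_of_nonneg_right hx (norm_nonneg y)
    _ ≤ g y := hr y

theorem interior_bodyOf {g : E → ℝ} {r : ℝ} (hr0 : 0 < r) (hr : ∀ y, r * ‖y‖ ≤ g y) :
    (interior (bodyOf g)).Nonempty := by
  refine ⟨0, interior_mono (ball_subset_bodyOf hr) ?_⟩
  rw [mem_interior_iff_mem_nhds]
  exact Metric.closedBall_mem_nhds _ hr0

/-- a compact convex set is determined by its support function -/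
theorem eq_bodyOf {K : Set E} (hc : Convex ℝ K) (hK : IsCompact K) (hn : K.Nonempty) :
    K = bodyOf (suppFn K) := by
  apply Set.Subset.antisymm
  · intro x hx y
    exact le_suppFn hK hx y
  · intro x hx
    by_contra hxK
    obtain ⟨f, u, hfu, hux⟩ := geometric_hahn_banach_closed_point hc hK.isClosed hxK
    set y := (InnerProductSpace.toDual ℝ E).symm f with hy
    have hf : ∀ v, f v = ⟪v, y⟫_ℝ := by
      intro v
      rw [real_inner_comm, hy, InnerProductSpace.toDual_symm_apply]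
    have h1 : suppFn K y ≤ u := by
      apply suppFn_le hn
      intro v hv
      rw [← hf]; exact (hfu v hv).le
    have h2 := hx y
    rw [← hf] at h2
    linarith

end PB3
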