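import Pool.Agent.Lib.MP_03c723_gt.Defs

/-!
The structure `TauOK` of the skeleton of MP_03c723_gt, in a file of its own.
-/

namespace PB3

/-- hypotheses on the right-hand side `τ` -/
structure TauOK (τ : E → ℝ) (κ : ℝ) : Prop where
  eh : EH τ
  inv : Inv τ
  n2 : N2 τ κ
  e3 : |τ e3| ≤ κ

end PB3
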