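import Pool.Agent.Lib.MP_03c723_gt.Basic
import Pool.Agent.Lib.MP_03c723_gt.TauDef

/-!
MP_03c723_gt: the right-hand side `τ` of the fixed point equation.
-/

namespace PB3
open MeasureTheory Real
open scoped InnerProductSpace

theorem second_diff_boundT {V : Type*} [NormedAddCommGroup V] [NormedSpace ℝ V]
    [FiniteDimensional ℝ V] {Φ : V → ℝ} (hΦ : ContDiff ℝ 2 Φ) :
    ∃ K : ℝ, 0 ≤ K ∧ (∀ y ∈ Metric.closedBall (0 : V) 1, |Φ y| ≤ K) ∧
      (∀ y ∈ Metric.closedBall (0 : V) 1, ∀ y' ∈ Metric.closedBall (0 : V) 1,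
        |Φ y' - Φ y| ≤ K * ‖y' - y‖) ∧
      (∀ y ∈ Metric.closedBall (0 : V) 1, ∀ y₁ ∈ Metric.closedBall (0 : V) 1,
        ∀ y₂ ∈ Metric.closedBall (0 : V) 1,
        |Φ y₁ + Φ y₂ - 2 * Φ y| ≤
          K * (‖y₁ + y₂ - (2 : ℝ) • y‖ + ‖y₁ - y‖ ^ 2 + ‖y₂ - y‖ ^ 2)) := by
  have hcomp : IsCompact (Metric.closedBall (0 : V) 1) := isCompact_closedBall _ _
  have hconv : Convex ℝ (Metric.closedBall (0 : V) 1) := convex_closedBall _ _
  have hd1 : ContDiff ℝ 1 (fderiv ℝ Φ) := hΦ.fderiv_right (by norm_num)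
  have hc0 : Continuous Φ := hΦ.continuous
  have hc1 : Continuous (fderiv ℝ Φ) := hd1.continuous
  have hc2 : Continuous (fderiv ℝ (fderiv ℝ Φ)) := hd1.continuous_fderiv (by simp)
  obtain ⟨K0, hK0⟩ := hcomp.exists_bound_of_continuousOn hc0.continuousOn
  obtain ⟨K1, hK1⟩ := hcomp.exists_bound_of_continuousOn hc1.continuousOn
  have hn2 : Continuous fun x => ‖fderiv ℝ (fderiv ℝ Φ) x‖ := by
    have := continuous_norm (E := V →L[ℝ] V →L[ℝ] ℝ)
    exact this.comp hc2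
  obtain ⟨K2, hK2'⟩ := hcomp.exists_bound_of_continuousOn hn2.continuousOn
  have hK2 : ∀ x ∈ Metric.closedBall (0 : V) 1, ‖fderiv ℝ (fderiv ℝ Φ) x‖ ≤ K2 :=
    fun x hx => (le_abs_self _).trans (by simpa using hK2' x hx)
  have h00 : (0 : V) ∈ Metric.closedBall (0 : V) 1 := by simp
  have k0 : 0 ≤ K0 := (norm_nonneg _).trans (hK0 0 h00)
  have k1 : 0 ≤ K1 := (norm_nonneg _).trans (hK1 0 h00)
  have k2 : 0 ≤ K2 := (norm_nonneg _).trans (hK2' 0 h00)
  have dΦ : ∀ x, DifferentiableAt ℝ Φ x := fun x => hΦ.differentiable (by norm_num) x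
  have dd : ∀ x, DifferentiableAt ℝ (fderiv ℝ Φ) x := fun x => hd1.differentiable (by norm_num) x
  have taylor : ∀ y ∈ Metric.closedBall (0 : V) 1, ∀ y' ∈ Metric.closedBall (0 : V) 1,
      ‖Φ y' - Φ y - fderiv ℝ Φ y (y' - y)‖ ≤ (K2 * ‖y' - y‖) * ‖y' - y‖ := by
    intro y hy y' hy'
    have hseg : segment ℝ y y' ⊆ Metric.closedBall (0 : V) 1 := hconv.segment_subset hy hy'
    refine Convex.norm_image_sub_le_of_norm_fderiv_le' (s := segment ℝ y y')
      (fun x _ => dΦ x) (fun z hz => ?_) (convex_segment y y') (left_mem_segment ℝ y y')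
      (right_mem_segment ℝ y y')
    have h1 : ‖fderiv ℝ Φ z - fderiv ℝ Φ y‖ ≤ K2 * ‖z - y‖ :=
      Convex.norm_image_sub_le_of_norm_fderiv_le (s := Metric.closedBall (0 : V) 1)
        (fun x _ => dd x) (fun x hx => hK2 x hx) hconv hy (hseg hz)
    refine h1.trans (mul_le_mul_of_nonneg_left ?_ k2)
    exact norm_sub_le_of_mem_segment hz
  refine ⟨K0 + K1 + K2, by positivity, ?_, ?_, ?_⟩
  · intro y hy
    have := hK0 y hy
    rw [Real.norm_eq_abs] at this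
    linarith
  · intro y hy y' hy'
    have h1 : ‖Φ y' - Φ y‖ ≤ K1 * ‖y' - y‖ :=
      Convex.norm_image_sub_le_of_norm_fderiv_le (s := Metric.closedBall (0 : V) 1)
        (fun x _ => dΦ x) (fun x hx => hK1 x hx) hconv hy hy'
    rw [Real.norm_eq_abs] at h1
    refine h1.trans ?_
    have := norm_nonneg (y' - y)
    nlinarith
  · intro y hy y₁ hy₁ y₂ hy₂
    have t1 := taylor y hy y₁ hy₁
    have t2 := taylor y hy y₂ hy₂
    have t3 : ‖fderiv ℝ Φ y (y₁ + y₂ - (2 : ℝ) • y)‖ ≤ K1 * ‖y₁ + y₂ - (2 : ℝ) • y‖ :=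
      ((fderiv ℝ Φ y).le_opNorm _).trans
        (mul_le_mul_of_nonneg_right (hK1 y hy) (norm_nonneg _))
    have e : Φ y₁ + Φ y₂ - 2 * Φ y = (Φ y₁ - Φ y - fderiv ℝ Φ y (y₁ - y))
        + (Φ y₂ - Φ y - fderiv ℝ Φ y (y₂ - y)) + fderiv ℝ Φ y (y₁ + y₂ - (2 : ℝ) • y) := by
      have : y₁ + y₂ - (2 : ℝ) • y = (y₁ - y) + (y₂ - y) := by
        rw [two_smul]; abel
      rw [this, map_add]
      ring
    rw [e, ← Real.norm_eq_abs]
    have n1 := norm_add_le ((Φ y₁ - Φ y - fderiv ℝ Φ y (y₁ - y))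
        + (Φ y₂ - Φ y - fderiv ℝ Φ y (y₂ - y))) (fderiv ℝ Φ y (y₁ + y₂ - (2 : ℝ) • y))
    have n2 := norm_add_le (Φ y₁ - Φ y - fderiv ℝ Φ y (y₁ - y))
        (Φ y₂ - Φ y - fderiv ℝ Φ y (y₂ - y))
    have p1 := norm_nonneg (y₁ - y)
    have p2 := norm_nonneg (y₂ - y)
    have p3 := norm_nonneg (y₁ + y₂ - (2 : ℝ) • y)
    have q1 : 0 ≤ (K0 + K1) * ‖y₁ - y‖ ^ 2 := by positivity
    have q2 : 0 ≤ (K0 + K1) * ‖y₂ - y‖ ^ 2 := by positivity
    have q3 : 0 ≤ (K0 + K2) * ‖y₁ + y₂ - (2 : ℝ) • y‖ := by positivity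
    nlinarith

/-- the gradient in coordinates -/
noncomputable def grT (f : E → ℝ) (x : E) : E :=
  WithLp.toLp 2 (fun i => fderiv ℝ f x (EuclideanSpace.single i (1 : ℝ)))

theorem inner_grT (f : E → ℝ) (x h : E) : ⟪grT f x, h⟫_ℝ = fderiv ℝ f x h := by
  have hh : h = ∑ i, h i • EuclideanSpace.single i (1 : ℝ) := by
    ext j
    simp [Finset.sum_apply, Pi.single_apply]
  conv_rhs => rw [hh, map_sum]
  simp only [map_smul, smul_eq_mul]
  simp [grT, PiLp.inner_apply]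

theorem contDiff_grT {f : E → ℝ} (hf : ContDiff ℝ 3 f) : ContDiff ℝ 2 (grT f) := by
  rw [contDiff_euclidean]
  intro i
  exact (hf.fderiv_right (m := 2) (by norm_num)).clm_apply contDiff_const

/-- the integrand -/
noncomputable def PhT (f : E → ℝ) (y : E × E) : ℝ :=
  f y.1 ^ 2 - ‖grT f y.1‖ ^ 2 + ⟪grT f y.1, y.1⟫_ℝ ^ 2 + ⟪grT f y.1, y.2⟫_ℝ ^ 2

theorem contDiff_PhT {f : E → ℝ} (hf : ContDiff ℝ 3 f) : ContDiff ℝ 2 (PhT f) := by
  have h0 : ContDiff ℝ 2 (fun y : E × E => f y.1) :=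
    (hf.of_le (by norm_num)).comp contDiff_fst
  have h1 : ContDiff ℝ 2 (fun y : E × E => grT f y.1) := (contDiff_grT hf).comp contDiff_fst
  exact (((h0.pow 2).sub (h1.norm_sq ℝ)).add ((h1.inner ℝ contDiff_fst).pow 2)).add
    ((h1.inner ℝ contDiff_snd).pow 2)

theorem gr_isomT {f : E → ℝ} (hf : Differentiable ℝ f) (ρ : E ≃ₗᵢ[ℝ] E) {σ : ℝ}
    (h : ∀ x, f (ρ x) = σ * f x) (x : E) : grT f (ρ x) = σ • ρ (grT f x) := by
  have key : ∀ k : E, ⟪grT f (ρ x), ρ k⟫_ℝ = ⟪σ • ρ (grT f x), ρ k⟫_ℝ := by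
    intro k
    rw [inner_grT, real_inner_smul_left, ρ.inner_map_map, inner_grT]
    have h1 : HasFDerivAt (fun y => f (ρ y))
        ((fderiv ℝ f (ρ x)).comp (ρ.toContinuousLinearEquiv : E →L[ℝ] E)) x :=
      (hf (ρ x)).hasFDerivAt.comp x ρ.toContinuousLinearEquiv.hasFDerivAt
    have h2 : HasFDerivAt (fun y => f (ρ y)) (σ • fderiv ℝ f x) x := by
      have : (fun y => f (ρ y)) = fun y => σ * f y := funext h
      rw [this]
      exact (hf x).hasFDerivAt.const_mul σ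
    have h3 := h1.unique h2
    have h4 := congrArg (fun L : E →L[ℝ] ℝ => L k) h3
    simpa using h4
  refine ext_inner_right ℝ fun v => ?_
  have := key (ρ.symm v)
  simpa using this

theorem Ph_isomT {f : E → ℝ} (hf : Differentiable ℝ f) (ρ : E ≃ₗᵢ[ℝ] E) {σ : ℝ}
    (hσ : σ ^ 2 = 1) (h : ∀ x, f (ρ x) = σ * f x) (w u : E) :
    PhT f (ρ w, ρ u) = PhT f (w, u) := by
  unfold PhT
  simp only [gr_isomT hf ρ h, h, real_inner_smul_left, ρ.inner_map_map, norm_smul,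
    ρ.norm_map, mul_pow, Real.norm_eq_abs, sq_abs, hσ, one_mul]

theorem Ph_negT (f : E → ℝ) (w u : E) : PhT f (w, -u) = PhT f (w, u) := by
  unfold PhT
  simp only [inner_neg_right, neg_sq]

theorem cp_add_pi_div_twoT (a b : E) (θ : ℝ) :
    cp a b (θ + π / 2) = (-Real.sin θ) • a + Real.cos θ • b := by
  unfold cp
  rw [Real.cos_add_pi_div_two, Real.sin_add_pi_div_two]

theorem Fr.cpT {a b u : E} (hF : Fr a b u) (θ : ℝ) :
    Fr (cp a b θ) (cp a b (θ + π / 2)) u := by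
  have hba : ⟪b, a⟫_ℝ = 0 := by rw [real_inner_comm]; exact hF.ab
  have h1 := Real.sin_sq_add_cos_sq θ
  have haa : ⟪a, a⟫_ℝ = 1 := by rw [real_inner_self_eq_norm_sq, hF.na]; norm_num
  have hbb : ⟪b, b⟫_ℝ = 1 := by rw [real_inner_self_eq_norm_sq, hF.nb]; norm_num
  refine ⟨norm_cp ⟨hF.na, hF.nb, hF.ab⟩ _, norm_cp ⟨hF.na, hF.nb, hF.ab⟩ _, hF.nu, ?_, ?_, ?_⟩
  · rw [cp_add_pi_div_twoT]
    unfold PB3.cp
    simp only [inner_add_left, inner_add_right, real_inner_smul_left, real_inner_smul_right,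
      haa, hbb, hF.ab, hba]
    ring
  · unfold PB3.cp
    simp only [inner_add_left, real_inner_smul_left, hF.au, hF.bu]
    ring
  · rw [cp_add_pi_div_twoT]
    simp only [inner_add_left, real_inner_smul_left, hF.au, hF.bu]
    ring

theorem Fr.parsevalT {a b u : E} (hF : Fr a b u) (x : E) :
    ‖x‖ ^ 2 = ⟪x, a⟫_ℝ ^ 2 + ⟪x, b⟫_ℝ ^ 2 + ⟪x, u⟫_ℝ ^ 2 := by
  have h := hF.expand x
  have h2 : ⟪x, x⟫_ℝ = ⟪x, ⟪a, x⟫_ℝ • a + ⟪b, x⟫_ℝ • b + ⟪u, x⟫_ℝ • u⟫_ℝ := by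
    rw [← h]
  rw [← real_inner_self_eq_norm_sq, h2]
  simp only [inner_add_right, real_inner_smul_right]
  rw [real_inner_comm x a, real_inner_comm x b, real_inner_comm x u]
  ring

/-- the integrand in terms of the angle -/
theorem Ph_cpT {f : E → ℝ} (hf : Differentiable ℝ f) {a b u : E} (hF : Fr a b u) (θ : ℝ) :
    f (cp a b θ) ^ 2 - (deriv (fun θ => f (cp a b θ)) θ) ^ 2 = PhT f (cp a b θ, u) := by
  have hd : HasDerivAt (fun θ : ℝ => cp a b θ) (cp a b (θ + π / 2)) θ := by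
    rw [cp_add_pi_div_twoT]
    exact ((Real.hasDerivAt_cos θ).smul_const a).add ((Real.hasDerivAt_sin θ).smul_const b)
  have h1 : HasDerivAt (fun θ : ℝ => f (cp a b θ)) (fderiv ℝ f (cp a b θ) (cp a b (θ + π / 2))) θ :=
    (hf (cp a b θ)).hasFDerivAt.comp_hasDerivAt θ hd
  rw [h1.deriv, ← inner_grT]
  unfold PhT
  have := (hF.cpT θ).parsevalT (grT f (cp a b θ))
  simp only
  rw [this]
  ring

/-- the function on unit vectors -/
noncomputable def Tf (f : E → ℝ) (u : E) : ℝ :=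
  (1 / 2) * ∫ θ in (-π)..π, PhT f (cp (fr u).1 (fr u).2 θ, u)

theorem fr_specT {u : E} (hu : ‖u‖ = 1) : Fr (fr u).1 (fr u).2 u := by
  obtain ⟨a, b, h⟩ := exists_frame hu
  have : ∃ ab : E × E, Fr ab.1 ab.2 u := ⟨(a, b), h⟩
  exact Classical.epsilon_spec this

theorem Tf_eq (f : E → ℝ) {a b u : E} (hF : Fr a b u) :
    Tf f u = (1 / 2) * ∫ θ in (-π)..π, PhT f (cp a b θ, u) := by
  unfold Tf
  rw [integral_cp_frame (fr_specT hF.nu) hF (fun w => PhT f (w, u))]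

theorem cp_mapT (ρ : E ≃ₗᵢ[ℝ] E) (a b : E) (θ : ℝ) : ρ (cp a b θ) = cp (ρ a) (ρ b) θ := by
  unfold cp
  simp

theorem Tf_map (f : E → ℝ) {a b u : E} (hF : Fr a b u) (ρ : E ≃ₗᵢ[ℝ] E) :
    Tf f (ρ u) = (1 / 2) * ∫ θ in (-π)..π, PhT f (ρ (cp a b θ), ρ u) := by
  rw [Tf_eq f (hF.map ρ)]
  simp only [cp_mapT]

theorem Tf_isom {f : E → ℝ} (hf : Differentiable ℝ f) (ρ : E ≃ₗᵢ[ℝ] E) {σ : ℝ}
    (hσ : σ ^ 2 = 1) (h : ∀ x, f (ρ x) = σ * f x) {u : E} (hu : ‖u‖ = 1) :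
    Tf f (ρ u) = Tf f u := by
  rw [Tf_map f (fr_specT hu) ρ, Tf_eq f (fr_specT hu)]
  simp only [Ph_isomT hf ρ hσ h]

theorem Tf_neg (f : E → ℝ) {u : E} (hu : ‖u‖ = 1) : Tf f (-u) = Tf f u := by
  have h := fr_specT hu
  have h' : Fr (fr u).1 (fr u).2 (-u) :=
    ⟨h.na, h.nb, by rw [norm_neg]; exact h.nu, h.ab, by rw [inner_neg_right, h.au, neg_zero],
      by rw [inner_neg_right, h.bu, neg_zero]⟩
  rw [Tf_eq f h', Tf_eq f h]
  simp only [Ph_negT]

theorem continuous_cpT (a b : E) : Continuous (cp a b) := by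
  unfold cp
  fun_prop

theorem cp_memT {a b u : E} (h : Fr a b u) (θ : ℝ) :
    (cp a b θ, u) ∈ Metric.closedBall (0 : E × E) 1 := by
  rw [mem_closedBall_zero_iff, Prod.norm_def]
  simp only [norm_cp ⟨h.na, h.nb, h.ab⟩ θ, h.nu, max_self, le_refl]

theorem intervalIntegrable_PhT {f : E → ℝ} (hf : ContDiff ℝ 3 f) (a b u : E)
    (ρ : E ≃ₗᵢ[ℝ] E) :
    IntervalIntegrable (fun θ => PhT f (ρ (cp a b θ), ρ u)) volume (-π) π := by
  apply Continuous.intervalIntegrable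
  exact (contDiff_PhT hf).continuous.comp
    ((ρ.continuous.comp (continuous_cpT a b)).prodMk continuous_const)

theorem Fr.memT {a b u : E} (h : Fr a b u) (ρ : E ≃ₗᵢ[ℝ] E) (θ : ℝ) :
    (ρ (PB3.cp a b θ), ρ u) ∈ Metric.closedBall (0 : E × E) 1 := by
  rw [cp_mapT]
  exact cp_memT (h.map ρ) θ

theorem norm_sub_sq_rotT {p q : E} (o : OP p q) (s : ℝ) (x : E) :
    ‖rotf p q s x + rotf p q (-s) x - (2 : ℝ) • x‖ ≤ s ^ 2 * ‖x‖ := by
  have hpp : ⟪p, p⟫_ℝ = 1 := by rw [real_inner_self_eq_norm_sq, o.nw]; norm_num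
  have hqq : ⟪q, q⟫_ℝ = 1 := by rw [real_inner_self_eq_norm_sq, o.nu]; norm_num
  have hqp : ⟪q, p⟫_ℝ = 0 := by rw [real_inner_comm]; exact o.wu
  have e1 : rotf p q s x + rotf p q (-s) x - (2 : ℝ) • x =
      (2 * (Real.cos s - 1)) • (⟪p, x⟫_ℝ • p + ⟪q, x⟫_ℝ • q) := by
    unfold rotf
    rw [Real.cos_neg, Real.sin_neg]
    module
  have e2 : ‖⟪p, x⟫_ℝ • p + ⟪q, x⟫_ℝ • q‖ ≤ ‖x‖ := by
    have h1 : 0 ≤ ‖x - (⟪p, x⟫_ℝ • p + ⟪q, x⟫_ℝ • q)‖ ^ 2 := by positivity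
    have h2 : ‖x - (⟪p, x⟫_ℝ • p + ⟪q, x⟫_ℝ • q)‖ ^ 2 = ‖x‖ ^ 2 -
        ‖⟪p, x⟫_ℝ • p + ⟪q, x⟫_ℝ • q‖ ^ 2 := by
      rw [← real_inner_self_eq_norm_sq, ← real_inner_self_eq_norm_sq,
        ← real_inner_self_eq_norm_sq]
      simp only [inner_sub_left, inner_sub_right, inner_add_left, inner_add_right,
        real_inner_smul_left, real_inner_smul_right, hpp, hqq, hqp, o.wu]
      rw [real_inner_comm p x, real_inner_comm q x]
      ring
    rw [h2] at h1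
    exact le_of_sq_le_sq (by linarith) (norm_nonneg _)
  have e3 : |2 * (Real.cos s - 1)| ≤ s ^ 2 := by
    have h1 := Real.one_sub_sq_div_two_le_cos (x := s)
    have h2 := Real.cos_le_one s
    rw [abs_of_nonpos (by linarith)]
    linarith
  rw [e1, norm_smul, Real.norm_eq_abs]
  exact mul_le_mul e3 e2 (norm_nonneg _) (sq_nonneg s)

/-- second differences of `Tf` along rotations, and Lipschitz bound -/
theorem Tf_bounds {f : E → ℝ} (hf : ContDiff ℝ 3 f) :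
    ∃ K : ℝ, 0 ≤ K ∧ (∀ u : E, ‖u‖ = 1 → |Tf f u| ≤ K) ∧
      (∀ p q : E, OP p q → ∀ (s : ℝ) (u : E), ‖u‖ = 1 →
        |Tf f (rotf p q s u) - Tf f u| ≤ K * |s|) ∧
      (∀ p q : E, OP p q → ∀ (s : ℝ) (u : E), ‖u‖ = 1 →
        |Tf f (rotf p q s u) + Tf f (rotf p q (-s) u) - 2 * Tf f u| ≤ K * s ^ 2) := by
  obtain ⟨K, hK, hb, hl, h2⟩ := second_diff_boundT (contDiff_PhT hf)
  have hint : ∀ {φ : ℝ → ℝ} {M : ℝ}, 0 ≤ M → (∀ θ, |φ θ| ≤ M) →
      |(1 / 2) * ∫ θ in (-π)..π, φ θ| ≤ π * M := by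
    intro φ M hM hφ
    have h := intervalIntegral.norm_integral_le_of_norm_le_const (a := -π) (b := π) (f := φ)
      (C := M) (fun θ _ => by rw [Real.norm_eq_abs]; exact hφ θ)
    rw [Real.norm_eq_abs, abs_of_nonneg (by linarith [Real.pi_pos] : (0 : ℝ) ≤ π - -π)] at h
    rw [abs_mul, abs_of_nonneg (by norm_num : (0 : ℝ) ≤ 1 / 2)]
    linarith
  have Fid : ∀ {a b u : E}, Fr a b u → ∀ θ, (cp a b θ, u) ∈ Metric.closedBall (0 : E × E) 1 :=
    fun h θ => cp_memT h θ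
  have Iid : ∀ a b u : E, IntervalIntegrable (fun θ => PhT f (cp a b θ, u)) volume (-π) π :=
    fun a b u => intervalIntegrable_PhT hf a b u (LinearIsometryEquiv.refl ℝ E)
  refine ⟨π * (3 * K), by positivity, ?_, ?_, ?_⟩
  · intro u hu
    refine (hint hK fun θ => hb _ (Fid (fr_specT hu) θ)).trans ?_
    have := Real.pi_pos
    nlinarith
  · intro p q o s u hu
    obtain ⟨ρ, hρ, -⟩ := exists_rot o s
    have hF := fr_specT hu
    have n1 : ∀ x : E, ‖ρ x - x‖ ≤ |s| * ‖x‖ := fun x => by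
      rw [hρ]; exact norm_rotf_sub_le o s x
    rw [← hρ u, Tf_map f hF ρ, Tf_eq f hF, ← mul_sub,
      ← intervalIntegral.integral_sub (intervalIntegrable_PhT hf _ _ _ ρ) (Iid _ _ _)]
    refine (hint (M := K * |s|) (by positivity) fun θ => ?_).trans ?_
    · refine (hl _ (Fid hF θ) _ (hF.memT ρ θ)).trans (mul_le_mul_of_nonneg_left ?_ hK)
      rw [Prod.norm_def]
      refine max_le ?_ ?_
      · have := n1 (cp (fr u).1 (fr u).2 θ)
        rw [norm_cp ⟨hF.na, hF.nb, hF.ab⟩ θ, mul_one] at this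
        exact this
      · have := n1 u
        rw [hu, mul_one] at this
        exact this
    · have := Real.pi_pos
      have h3 : 0 ≤ π * (K * |s|) := by positivity
      nlinarith
  · intro p q o s u hu
    obtain ⟨ρ, hρ, hρ'⟩ := exists_rot o s
    have hF := fr_specT hu
    have n1 : ∀ x : E, ‖ρ x - x‖ ≤ |s| * ‖x‖ := fun x => by
      rw [hρ]; exact norm_rotf_sub_le o s x
    have n2 : ∀ x : E, ‖ρ.symm x - x‖ ≤ |s| * ‖x‖ := fun x => by
      rw [hρ', ← abs_neg s]; exact norm_rotf_sub_le o (-s) x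
    have n3 : ∀ x : E, ‖ρ x + ρ.symm x - (2 : ℝ) • x‖ ≤ s ^ 2 * ‖x‖ := fun x => by
      rw [hρ, hρ']; exact norm_sub_sq_rotT o s x
    have e : Tf f (ρ u) + Tf f (ρ.symm u) - 2 * Tf f u = (1 / 2) * ∫ θ in (-π)..π,
        (PhT f (ρ (cp (fr u).1 (fr u).2 θ), ρ u) + PhT f (ρ.symm (cp (fr u).1 (fr u).2 θ), ρ.symm u)
          - 2 * PhT f (cp (fr u).1 (fr u).2 θ, u)) := by
      rw [intervalIntegral.integral_sub ((intervalIntegrable_PhT hf _ _ _ ρ).add
          (intervalIntegrable_PhT hf _ _ _ ρ.symm)) ((Iid _ _ _).const_mul 2),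
        intervalIntegral.integral_add (intervalIntegrable_PhT hf _ _ _ ρ)
          (intervalIntegrable_PhT hf _ _ _ ρ.symm), intervalIntegral.integral_const_mul,
        Tf_map f hF ρ, Tf_map f hF ρ.symm, Tf_eq f hF]
      ring
    rw [← hρ u, ← hρ' u, e]
    refine (hint (M := 3 * K * s ^ 2) (by positivity) fun θ => ?_).trans ?_
    · have hw : ‖cp (fr u).1 (fr u).2 θ‖ = 1 := norm_cp ⟨hF.na, hF.nb, hF.ab⟩ θ
      refine (h2 _ (Fid hF θ) _ (hF.memT ρ θ) _ (hF.memT ρ.symm θ)).trans ?_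
      have a1 : ‖(ρ (cp (fr u).1 (fr u).2 θ), ρ u) + (ρ.symm (cp (fr u).1 (fr u).2 θ), ρ.symm u)
          - (2 : ℝ) • (cp (fr u).1 (fr u).2 θ, u)‖ ≤ s ^ 2 := by
        rw [Prod.norm_def]
        refine max_le ?_ ?_
        · have := n3 (cp (fr u).1 (fr u).2 θ)
          rw [hw, mul_one] at this
          exact this
        · have := n3 u
          rw [hu, mul_one] at this
          exact this
      have a2 : ‖(ρ (cp (fr u).1 (fr u).2 θ), ρ u) - (cp (fr u).1 (fr u).2 θ, u)‖ ≤ |s| := by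
        rw [Prod.norm_def]
        refine max_le ?_ ?_
        · have := n1 (cp (fr u).1 (fr u).2 θ)
          rw [hw, mul_one] at this
          exact this
        · have := n1 u
          rw [hu, mul_one] at this
          exact this
      have a3 : ‖(ρ.symm (cp (fr u).1 (fr u).2 θ), ρ.symm u) - (cp (fr u).1 (fr u).2 θ, u)‖
          ≤ |s| := by
        rw [Prod.norm_def]
        refine max_le ?_ ?_
        · have := n2 (cp (fr u).1 (fr u).2 θ)
          rw [hw, mul_one] at this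
          exact this
        · have := n2 u
          rw [hu, mul_one] at this
          exact this
      have b2 := pow_le_pow_left₀ (norm_nonneg _) a2 2
      have b3 := pow_le_pow_left₀ (norm_nonneg _) a3 2
      rw [sq_abs] at b2 b3
      calc _ ≤ K * (s ^ 2 + s ^ 2 + s ^ 2) := by
            apply mul_le_mul_of_nonneg_left _ hK
            linarith
        _ = 3 * K * s ^ 2 := by ring
    · apply le_of_eq; ring

/-- two unit vectors are joined by a small rotation -/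
theorem exists_cp_eqT {u v : E} (hu : ‖u‖ = 1) (hv : ‖v‖ = 1) :
    ∃ (q : E) (s : ℝ), OP u q ∧ cp u q s = v ∧ |s| ≤ π / 2 * ‖u - v‖ := by
  set c : ℝ := ⟪u, v⟫_ℝ with hc
  have huu : ⟪u, u⟫_ℝ = 1 := by rw [real_inner_self_eq_norm_sq, hu]; norm_num
  have hvv : ⟪v, v⟫_ℝ = 1 := by rw [real_inner_self_eq_norm_sq, hv]; norm_num
  have hc1 : c ≤ 1 := by
    have := real_inner_le_norm u v
    rw [hu, hv] at this; linarith
  have hc2 : -1 ≤ c := by
    have := neg_le_of_abs_le (abs_real_inner_le_norm u v)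
    rw [hu, hv] at this; linarith
  set r : E := v - c • u with hr
  have hur : ⟪u, r⟫_ℝ = 0 := by
    rw [hr, inner_sub_right, real_inner_smul_right, huu, ← hc]; ring
  have hr2 : ‖r‖ ^ 2 = 1 - c ^ 2 := by
    rw [← real_inner_self_eq_norm_sq]
    have : ⟪r, r⟫_ℝ = ⟪r, v⟫_ℝ - c * ⟪u, r⟫_ℝ := by
      conv_lhs => rw [hr, inner_sub_right, real_inner_smul_right]
      rw [← hr, real_inner_comm u r]
    rw [this, hur, hr, inner_sub_left, real_inner_smul_left, hvv, ← hc]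
    ring
  have hs0 := Real.arccos_nonneg c
  have hspi := Real.arccos_le_pi c
  have hcos : Real.cos (Real.arccos c) = c := Real.cos_arccos hc2 hc1
  have hsin : Real.sin (Real.arccos c) = ‖r‖ := by
    rw [Real.sin_arccos, ← hr2, Real.sqrt_sq (norm_nonneg _)]
  have hbound : |Real.arccos c| ≤ π / 2 * ‖u - v‖ := by
    rw [abs_of_nonneg hs0]
    have h1 := Real.mul_le_sin (x := Real.arccos c / 2) (by linarith) (by linarith)
    have h2 : ‖u - v‖ ^ 2 = (2 * Real.sin (Real.arccos c / 2)) ^ 2 := by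
      rw [← real_inner_self_eq_norm_sq]
      simp only [inner_sub_left, inner_sub_right, huu, hvv]
      rw [real_inner_comm u v, ← hc]
      have h3 := Real.cos_sq_add_sin_sq (Real.arccos c / 2)
      have h4 := Real.cos_two_mul (Real.arccos c / 2)
      rw [show 2 * (Real.arccos c / 2) = Real.arccos c by ring, hcos] at h4
      nlinarith
    have h5 : 0 ≤ Real.sin (Real.arccos c / 2) :=
      Real.sin_nonneg_of_nonneg_of_le_pi (by linarith) (by linarith)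
    have h6 : ‖u - v‖ = 2 * Real.sin (Real.arccos c / 2) :=
      (sq_eq_sq₀ (norm_nonneg _) (by positivity)).1 h2
    rw [h6]
    have hpi := Real.pi_pos
    have h7 : π / 2 * (2 * (2 / π * (Real.arccos c / 2))) = Real.arccos c := by
      field_simp
    calc Real.arccos c = π / 2 * (2 * (2 / π * (Real.arccos c / 2))) := h7.symm
      _ ≤ π / 2 * (2 * Real.sin (Real.arccos c / 2)) := by
        apply mul_le_mul_of_nonneg_left _ (by positivity)
        linarith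
  by_cases hr0 : r = 0
  · obtain ⟨a, b, hF⟩ := exists_frame hu
    refine ⟨a, Real.arccos c, ⟨hu, hF.na, ?_⟩, ?_, hbound⟩
    · rw [real_inner_comm]; exact hF.au
    · unfold cp
      rw [hsin, hcos, hr0, norm_zero, zero_smul, add_zero]
      exact (sub_eq_zero.1 (hr.symm.trans hr0)).symm
  · have hrn : ‖r‖ ≠ 0 := norm_ne_zero_iff.2 hr0
    refine ⟨‖r‖⁻¹ • r, Real.arccos c, ⟨hu, ?_, ?_⟩, ?_, hbound⟩
    · rw [norm_smul, norm_inv, norm_norm, inv_mul_cancel₀ hrn]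
    · rw [real_inner_smul_right, hur, mul_zero]
    · unfold cp
      rw [hsin, hcos, smul_smul, mul_inv_cancel₀ hrn, one_smul, hr]
      abel

/-- the homogeneous function `τ` -/
noncomputable def tauF (f : E → ℝ) (x : E) : ℝ := ‖x‖ * Tf f (‖x‖⁻¹ • x)

theorem norm_normalizeT {x : E} (hx : x ≠ 0) : ‖‖x‖⁻¹ • x‖ = 1 := by
  rw [norm_smul, norm_inv, norm_norm, inv_mul_cancel₀ (norm_ne_zero_iff.2 hx)]

theorem tauF_zero (f : E → ℝ) : tauF f 0 = 0 := by simp [tauF]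

theorem tauF_unit (f : E → ℝ) {u : E} (hu : ‖u‖ = 1) : tauF f u = Tf f u := by
  simp [tauF, hu]

theorem tauF_hom (f : E → ℝ) (c : ℝ) (x : E) : tauF f (c • x) = |c| * tauF f x := by
  rcases eq_or_ne x 0 with rfl | hx
  · simp [tauF_zero]
  rcases lt_trichotomy c 0 with hc | rfl | hc
  · unfold tauF
    have h1 : (‖c • x‖⁻¹ • (c • x)) = -(‖x‖⁻¹ • x) := by
      rw [norm_smul, Real.norm_eq_abs, abs_of_neg hc, smul_smul, ← neg_smul]
      congr 1
      have := norm_ne_zero_iff.2 hx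
      have hc' := hc.ne
      field_simp
    rw [h1, Tf_neg f (norm_normalizeT hx), norm_smul, Real.norm_eq_abs]
    ring
  · simp [tauF_zero]
  · unfold tauF
    have h1 : (‖c • x‖⁻¹ • (c • x)) = (‖x‖⁻¹ • x) := by
      rw [norm_smul, Real.norm_eq_abs, abs_of_pos hc, smul_smul]
      congr 1
      have := norm_ne_zero_iff.2 hx
      field_simp
    rw [h1, norm_smul, Real.norm_eq_abs]
    ring

theorem tauF_isom {f : E → ℝ} (hf : Differentiable ℝ f) (ρ : E ≃ₗᵢ[ℝ] E) {σ : ℝ}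
    (hσ : σ ^ 2 = 1) (h : ∀ x, f (ρ x) = σ * f x) (x : E) :
    tauF f (ρ x) = tauF f x := by
  rcases eq_or_ne x 0 with rfl | hx
  · simp
  · unfold tauF
    rw [ρ.norm_map, ← map_smul ρ, Tf_isom hf ρ hσ h (norm_normalizeT hx)]

theorem tauF_cont {f : E → ℝ} (hf : ContDiff ℝ 3 f) : Continuous (tauF f) := by
  obtain ⟨K, hK, hb, hl, -⟩ := Tf_bounds hf
  have hlip : ∀ u v : E, ‖u‖ = 1 → ‖v‖ = 1 → |Tf f v - Tf f u| ≤ K * (π / 2 * ‖u - v‖) := by
    intro u v hu hv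
    obtain ⟨q, s, o, hs, hsb⟩ := exists_cp_eqT hu hv
    have h1 := hl u q o s u hu
    rw [rotf_self o s, hs] at h1
    exact h1.trans (mul_le_mul_of_nonneg_left hsb hK)
  have hT : ContinuousOn (Tf f) (Metric.sphere (0 : E) 1) := by
    have : LipschitzOnWith (K * (π / 2)).toNNReal (Tf f) (Metric.sphere (0 : E) 1) := by
      refine LipschitzOnWith.of_dist_le_mul fun u hu v hv => ?_
      rw [Real.coe_toNNReal _ (by positivity), Real.dist_eq, dist_eq_norm, mul_assoc]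
      rw [abs_sub_comm]
      exact hlip u v (by simpa using hu) (by simpa using hv)
    exact this.continuousOn
  rw [continuous_iff_continuousAt]
  intro x
  rcases eq_or_ne x 0 with rfl | hx
  · have h0 : Filter.Tendsto (fun x : E => K * ‖x‖) (nhds 0) (nhds 0) := by
      have : Continuous fun x : E => K * ‖x‖ := by fun_prop
      simpa using this.tendsto 0
    have h1 : Filter.Tendsto (tauF f) (nhds 0) (nhds 0) := by
      refine squeeze_zero_norm (fun x => ?_) h0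
      rcases eq_or_ne x 0 with rfl | hx
      · simp [tauF_zero]
      · unfold tauF
        rw [norm_mul, norm_norm, Real.norm_eq_abs, mul_comm]
        exact mul_le_mul_of_nonneg_right (hb _ (norm_normalizeT hx)) (norm_nonneg _)
    unfold ContinuousAt
    rw [tauF_zero]
    exact h1
  · have hn : ContinuousOn (fun x : E => ‖x‖⁻¹ • x) {x | x ≠ 0} :=
      (continuous_norm.continuousOn.inv₀ fun x hx => norm_ne_zero_iff.2 hx).smul
        continuousOn_id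
    have h1 : ContinuousOn (fun x : E => Tf f (‖x‖⁻¹ • x)) {x | x ≠ 0} :=
      hT.comp hn fun x hx => by simpa using norm_normalizeT hx
    have h2 : ContinuousOn (tauF f) {x | x ≠ 0} := continuous_norm.continuousOn.mul h1
    exact h2.continuousAt (isOpen_ne.mem_nhds hx)

theorem tau_exists {f₀ : E → ℝ} (hf : ContDiff ℝ 3 f₀) (h1 : ∀ i x, f₀ (flip i x) = - f₀ x)
    (h2 : ∀ x, f₀ (cyc x) = f₀ x) :
    ∃ (τ : E → ℝ) (C : ℝ), TauOK τ C ∧
      ∀ a b u : E, Fr a b u →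
        τ u = (1 / 2) * ∫ θ in (-π)..π,
          (f₀ (cp a b θ) ^ 2 - (deriv (fun θ => f₀ (cp a b θ)) θ) ^ 2) := by
  have hd : Differentiable ℝ f₀ := hf.differentiable (by norm_num)
  obtain ⟨K, hK, hb, -, hs⟩ := Tf_bounds hf
  refine ⟨tauF f₀, K, ⟨⟨tauF_cont hf, tauF_hom f₀⟩, ⟨fun i x => ?_, fun x => ?_⟩, ?_, ?_⟩, ?_⟩
  · exact tauF_isom hd (flip i) (σ := -1) (by norm_num) (fun x => by rw [h1]; ring) x
  · exact tauF_isom hd cyc (σ := 1) (by norm_num) (fun x => by rw [h2]; ring) x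
  · intro p q o s x
    rcases eq_or_ne x 0 with rfl | hx
    · obtain ⟨ρ, hρ, hρ'⟩ := exists_rot o s
      rw [← hρ, ← hρ']
      simp [tauF_zero]
    · have hu := norm_normalizeT hx
      have hx0 : ‖x‖ ≠ 0 := norm_ne_zero_iff.2 hx
      have ex : x = ‖x‖ • (‖x‖⁻¹ • x) := by rw [smul_smul, mul_inv_cancel₀ hx0, one_smul]
      obtain ⟨ρ, hρ, hρ'⟩ := exists_rot o s
      have hsu := hs p q o s _ hu
      rw [← hρ, ← hρ'] at hsu ⊢
      have e1 : tauF f₀ (ρ x) = ‖x‖ * Tf f₀ (ρ (‖x‖⁻¹ • x)) := by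
        unfold tauF
        rw [ρ.norm_map, map_smul]
      have e2 : tauF f₀ (ρ.symm x) = ‖x‖ * Tf f₀ (ρ.symm (‖x‖⁻¹ • x)) := by
        unfold tauF
        rw [ρ.symm.norm_map, map_smul]
      have e3 : tauF f₀ x = ‖x‖ * Tf f₀ (‖x‖⁻¹ • x) := rfl
      have e4 : tauF f₀ (ρ x) + tauF f₀ (ρ.symm x) - 2 * tauF f₀ x =
          (Tf f₀ (ρ (‖x‖⁻¹ • x)) + Tf f₀ (ρ.symm (‖x‖⁻¹ • x)) - 2 * Tf f₀ (‖x‖⁻¹ • x)) * ‖x‖ := by
        rw [e1, e2, e3]; ring
      rw [e4, abs_mul, abs_norm]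
      exact mul_le_mul_of_nonneg_right hsu (norm_nonneg _)
  · have h3 : ‖(PB3.e3 : E)‖ = 1 := by simp [PB3.e3]
    rw [tauF_unit f₀ h3]
    exact hb _ h3
  · intro a b u hF
    rw [tauF_unit f₀ hF.nu, Tf_eq f₀ hF]
    simp only [Ph_cpT hd hF]

end PB3
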