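import Pool.Agent.Lib.MP_03c723_gt.Fixed
import Pool.Agent.Lib.MP_03c723_gt.Tau
import Pool.Agent.Lib.MP_03c723_gt.Ext1
import Pool.Agent.Lib.MP_03c723_gt.PlaneMoll
import Pool.Agent.Lib.MP_03c723_gt.Shadow
import Pool.Agent.Lib.MP_03c723_gt.Body
import Pool.Agent.Lib.MP_03c723_gt.Supp

/-! Assembly: the solutions near the ball with prescribed odd part. -/

namespace PB3
open MeasureTheory Real
open scoped InnerProductSpace Pointwise

/-- a convex body in `E` -/
structure IsBody (K : Set E) : Prop where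
  convex : Convex ℝ K
  compact : IsCompact K
  interior : (interior K).Nonempty

/-- `Q` is the projection body of `K`: its support function at a unit vector `u` is the area of
the orthogonal projection of `K` onto the plane orthogonal to `u`; the area is computed in the
coordinates of an orthonormal basis `a, b` of this plane. -/
structure IsProjBody (Q K : Set E) : Prop where
  body : IsBody Q
  supp : ∀ a b u : E, Fr a b u → suppFn Q u = (volume (shadow a b K)).toReal

/-- the polar body -/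
def polarBody (Q : Set E) : Set E := {x | ∀ y ∈ Q, ⟪x, y⟫_ℝ ≤ 1}

/-- `B` is homothetic to `A`: `B = v + t A` with `t > 0`. -/
def Homoth (A B : Set E) : Prop := ∃ (v : E) (t : ℝ), 0 < t ∧ B = (fun x => v + t • x) '' A

/-- The property of the problem: the polar projection body of `K` is homothetic to the
difference body of `K`. -/
def Sol (K : Set E) : Prop := ∃ Q : Set E, IsProjBody Q K ∧ Homoth (K - K) (polarBody Q)

/-- the odd part of the support function of `K` on the unit sphere is `g` -/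
def OddPart (K : Set E) (g : E → ℝ) : Prop :=
  ∀ u : E, ‖u‖ = 1 → suppFn K u - suppFn K (-u) = 2 * g u

/-- `(K - K)/2` is the unit ball of a norm `z` which is invariant under sign changes and cyclic
permutations of the coordinates, normalised by `z e3 = 1`, and whose second differences along
rotations by the angle `s` are at most `δ s²` (so `z` is `C^{1,1}`-close to the euclidean norm). -/
def NearBall (K : Set E) (δ : ℝ) : Prop :=
  ∃ z : E → ℝ, Cls z δ ∧ K - K = (2 : ℝ) • {x : E | z x ≤ 1}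

/-- `f` is a `C³` function on `ℝ³` which changes sign under the reflections in the coordinate
planes and is invariant under the cyclic permutation of the coordinates. -/
structure SymOdd (f : E → ℝ) : Prop where
  smooth : ContDiff ℝ 3 f
  flip : ∀ i x, f (flip i x) = - f x
  cyc : ∀ x, f (cyc x) = f x

/-- `K` is a convex body near the ball with odd part `g` which solves the problem. -/
structure NearSol (K : Set E) (g : E → ℝ) (δ : ℝ) : Prop where
  body : IsBody K
  odd : OddPart K g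
  near : NearBall K δ
  sol : Sol K

/-- the support function of `K` is within `η` of that of the unit ball -/
def CloseToBall (K : Set E) (η : ℝ) : Prop := ∀ u : E, ‖u‖ = 1 → |suppFn K u - 1| ≤ η

/-- `K` is not the convex hull of a finite set -/
def NotPolytope (K : Set E) : Prop := ∀ s : Set E, s.Finite → K ≠ convexHull ℝ s

/-- `K` has no centre of symmetry -/
def NoCentre (K : Set E) : Prop := ∀ p : E, (fun x => p - x) '' K ≠ K

theorem cp_add_pi (a b : E) (θ : ℝ) : cp a b (θ + π) = - cp a b θ := by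
  simp only [cp, Real.cos_add_pi, Real.sin_add_pi]
  module

theorem Fr.toOP {a b u : E} (h : Fr a b u) : OP a b := ⟨h.na, h.nb, h.ab⟩

theorem TC_of_sublinear {g : E → ℝ} (hh : ∀ c : ℝ, 0 ≤ c → ∀ x, g (c • x) = c * g x)
    (ha : ∀ x y, g (x + y) ≤ g x + g y) (a b : E) : TC (fun θ => g (cp a b θ)) := by
  intro θ s
  have g0 : g 0 = 0 := by have := hh 0 le_rfl 0; simpa using this
  have e : cp a b (θ + s) + cp a b (θ - s) = (2 * Real.cos s) • cp a b θ := by
    simp only [cp, Real.cos_add, Real.sin_add, Real.cos_sub, Real.sin_sub]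
    module
  have h1 := ha (cp a b (θ + s)) (cp a b (θ - s))
  rw [e] at h1
  rcases le_or_gt 0 (2 * Real.cos s) with hc | hc
  · rw [hh _ hc] at h1
    exact h1
  · have h2 : g (-(2 * Real.cos s) • cp a b θ) = -(2 * Real.cos s) * g (cp a b θ) :=
      hh _ (by linarith) _
    have h3 := ha ((2 * Real.cos s) • cp a b θ) (-(2 * Real.cos s) • cp a b θ)
    rw [← add_smul, add_neg_cancel, zero_smul, g0, h2] at h3
    show 2 * Real.cos s * g (cp a b θ) ≤ _
    linarith

theorem continuous_suppFn {K : Set E} (hK : IsCompact K) (hn : K.Nonempty) :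
    Continuous (suppFn K) := by
  obtain ⟨R, hR⟩ := hK.isBounded.exists_norm_le
  have hR0 : 0 ≤ R := by
    obtain ⟨x, hx⟩ := hn
    exact (norm_nonneg x).trans (hR x hx)
  have key : ∀ u v, suppFn K u - suppFn K v ≤ R * ‖u - v‖ := by
    intro u v
    have h1 := suppFn_add_le hK hn (u - v) v
    rw [sub_add_cancel] at h1
    have h2 : suppFn K (u - v) ≤ R * ‖u - v‖ := by
      apply suppFn_le hn
      intro x hx
      exact (real_inner_le_norm _ _).trans (mul_le_mul_of_nonneg_right (hR x hx) (norm_nonneg _))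
    linarith
  have : LipschitzWith (Real.toNNReal R) (suppFn K) := by
    apply LipschitzWith.of_dist_le_mul
    intro u v
    rw [Real.dist_eq, dist_eq_norm, Real.coe_toNNReal R hR0]
    have h1 := key u v
    have h2 := key v u
    rw [norm_sub_rev] at h2
    exact abs_le.2 ⟨by linarith, h1⟩
  exact this.continuous

/-! ### The unit ball `M` of `z` -/

section M

variable {z : E → ℝ} {δ : ℝ}

theorem M_hom (hn : Near z δ) : ∀ c : ℝ, 0 ≤ c → ∀ x, z (c • x) = c * z x := fun c hc x => by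
  rw [hn.eh.hom, abs_of_nonneg hc]

theorem M_low (hn : Near z δ) (x : E) : (1 - δ) * ‖x‖ ≤ z x := by
  have := (abs_le.1 (hn.abs_le x)).1; nlinarith

theorem M_up (hn : Near z δ) (x : E) : z x ≤ (1 + δ) * ‖x‖ := by
  have := (abs_le.1 (hn.abs_le x)).2; nlinarith

theorem M_zero (hn : Near z δ) : z 0 = 0 := by
  have := M_hom hn 0 le_rfl 0; simpa using this

theorem M_compact (hδ : δ ≤ 1 / 100) (hn : Near z δ) : IsCompact {x : E | z x ≤ 1} := by
  apply Metric.isCompact_of_isClosed_isBounded (isClosed_le hn.eh.cont continuous_const)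
  apply (Metric.isBounded_closedBall (x := (0 : E)) (r := 2)).subset
  intro x hx
  rw [mem_closedBall_zero_iff]
  have h5 : z x ≤ 1 := hx
  nlinarith [M_low hn x, norm_nonneg x]

theorem M_convex (hδ : δ ≤ 1 / 100) (hn : Near z δ) : Convex ℝ {x : E | z x ≤ 1} := by
  intro x hx y hy a b ha hb hab
  have hx' : z x ≤ 1 := hx
  have hy' : z y ≤ 1 := hy
  show z (a • x + b • y) ≤ 1
  calc z (a • x + b • y) ≤ z (a • x) + z (b • y) := hn.subadd (by linarith) _ _
    _ = a * z x + b * z y := by rw [M_hom hn a ha, M_hom hn b hb]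
    _ ≤ a * 1 + b * 1 := by gcongr
    _ = 1 := by linarith

theorem M_nonempty (hn : Near z δ) : ({x : E | z x ≤ 1}).Nonempty :=
  ⟨0, by show z 0 ≤ 1; rw [M_zero hn]; norm_num⟩

theorem M_symm (hδ : δ ≤ 1 / 100) (hn : Near z δ) (u : E) :
    suppFn {x : E | z x ≤ 1} (-u) = suppFn {x : E | z x ≤ 1} u := by
  have key : ∀ u, suppFn {x : E | z x ≤ 1} (-u) ≤ suppFn {x : E | z x ≤ 1} u := by
    intro u
    apply suppFn_le (M_nonempty hn)
    intro x hx
    have hx' : -x ∈ {x : E | z x ≤ 1} := by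
      show z (-x) ≤ 1
      have := hn.eh.hom (-1) x
      simp at this
      rw [this]; exact hx
    have := le_suppFn (M_compact hδ hn) hx' u
    rw [inner_neg_left] at this
    rwa [inner_neg_right]
  apply le_antisymm (key u)
  have := key (-u)
  rwa [neg_neg] at this

theorem M_supp_le (hδ : δ ≤ 1 / 100) (hn : Near z δ) {u : E} (hu : ‖u‖ = 1) :
    suppFn {x : E | z x ≤ 1} u ≤ 1 / (1 - δ) := by
  apply suppFn_le (M_nonempty hn)
  intro x hx
  have hx' : z x ≤ 1 := hx
  have h5 : ⟪x, u⟫_ℝ ≤ ‖x‖ * ‖u‖ := real_inner_le_norm x u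
  rw [hu, mul_one] at h5
  rw [le_div_iff₀ (by linarith)]
  nlinarith [M_low hn x]

theorem M_le_supp (hδ0 : 0 ≤ δ) (hδ : δ ≤ 1 / 100) (hn : Near z δ) {u : E} (hu : ‖u‖ = 1) :
    1 / (1 + δ) ≤ suppFn {x : E | z x ≤ 1} u := by
  have hx : ((1 + δ)⁻¹ • u) ∈ {x : E | z x ≤ 1} := by
    show z _ ≤ 1
    have h6 := M_up hn ((1 + δ)⁻¹ • u)
    rw [norm_smul, hu, Real.norm_of_nonneg (by positivity)] at h6
    have h7 : (1 + δ) * ((1 + δ)⁻¹ * 1) = 1 := by field_simp
    linarith
  have := le_suppFn (M_compact hδ hn) hx u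
  rw [inner_smul_left, real_inner_self_eq_norm_sq, hu] at this
  simpa using this

end M

theorem suppFn_sub {K : Set E} (hK : IsCompact K) (hn : K.Nonempty) (u : E) :
    suppFn (K - K) u = suppFn K u + suppFn K (-u) := by
  have hKK : IsCompact (K - K) := by rw [sub_eq_add_neg]; exact hK.add hK.neg
  have hnn : (K - K).Nonempty := hn.sub hn
  apply le_antisymm
  · apply suppFn_le hnn
    rintro _ ⟨x, hx, y, hy, rfl⟩
    have h1 := le_suppFn hK hx u
    have h2 := le_suppFn hK hy (-u)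
    rw [inner_neg_right] at h2
    rw [inner_sub_left]
    linarith
  · have h1 : ∀ y ∈ K, suppFn K u ≤ suppFn (K - K) u + ⟪y, u⟫_ℝ := by
      intro y hy
      apply suppFn_le hn
      intro x hx
      have := le_suppFn hKK (Set.sub_mem_sub hx hy) u
      rw [inner_sub_left] at this
      linarith
    have h2 : suppFn K (-u) ≤ suppFn (K - K) u - suppFn K u := by
      apply suppFn_le hn
      intro y hy
      have := h1 y hy
      rw [inner_neg_right]
      linarith
    linarith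

theorem suppFn_smul_set {K : Set E} (hK : IsCompact K) (hn : K.Nonempty) {c : ℝ} (hc : 0 ≤ c)
    (u : E) : suppFn (c • K) u = c * suppFn K u := by
  rw [← suppFn_smul hK hn hc]
  unfold suppFn
  congr 1
  ext r
  simp only [Set.mem_image, Set.mem_smul_set]
  constructor
  · rintro ⟨_, ⟨x, hx, rfl⟩, rfl⟩
    exact ⟨x, hx, by rw [inner_smul_left, inner_smul_right]; rfl⟩
  · rintro ⟨x, hx, rfl⟩
    exact ⟨c • x, ⟨x, hx, rfl⟩, by rw [inner_smul_left, inner_smul_right]; rfl⟩

/-- A body with given `(K-K)/2` and given odd part has the expected support function. -/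
theorem supp_of {K : Set E} (hK : IsBody K) {z : E → ℝ} {δ : ℝ} (hδ : δ ≤ 1 / 100)
    (hn : Near z δ) (hKM : K - K = (2 : ℝ) • {x : E | z x ≤ 1}) {g : E → ℝ} (ho : OddPart K g)
    {u : E} (hu : ‖u‖ = 1) : suppFn K u = suppFn {x : E | z x ≤ 1} u + g u := by
  have hKn := hK.interior.mono interior_subset
  have h1 := suppFn_sub hK.compact hKn u
  rw [hKM, suppFn_smul_set (M_compact hδ hn) (M_nonempty hn) (by norm_num)] at h1
  have h2 := ho u hu
  linarith

/-- area of the projections of a body with prescribed odd part `ε f₀` -/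
theorem area_eq {f₀ : E → ℝ} (hf : ContDiff ℝ 3 f₀) (hodd : ∀ x, f₀ (-x) = - f₀ x)
    {τ₀ : E → ℝ}
    (hτi : ∀ a b u : E, Fr a b u → τ₀ u = (1 / 2) * ∫ θ in (-π)..π,
      (f₀ (cp a b θ) ^ 2 - (deriv (fun θ => f₀ (cp a b θ)) θ) ^ 2))
    {ε C : ℝ} (hC : ∀ u : E, ‖u‖ = 1 → |f₀ u| ≤ C) (hεC : C * |ε| ≤ 1 / 4)
    {z : E → ℝ} {δ : ℝ} (hδ0 : 0 ≤ δ) (hδ : δ ≤ 1 / 100) (hn : Near z δ) {K : Set E}
    (hK : IsBody K) (hKM : K - K = (2 : ℝ) • {x : E | z x ≤ 1})
    (ho : OddPart K (fun x => ε * f₀ x)) {a b u : E} (hfr : Fr a b u) :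
    (volume (shadow a b K)).toReal = P z u + ε ^ 2 * τ₀ u := by
  set M : Set E := {x | z x ≤ 1} with hM
  have hMc := M_compact hδ hn
  have hMn := M_nonempty hn
  have hKn := hK.interior.mono interior_subset
  have hcpn : ∀ θ, ‖cp a b θ‖ = 1 := fun θ => norm_cp hfr.toOP θ
  have hcps : ContDiff ℝ 3 (fun θ => cp a b θ) := by
    unfold cp
    exact (Real.contDiff_cos.smul contDiff_const).add (Real.contDiff_sin.smul contDiff_const)
  have hfcp : ContDiff ℝ 3 (fun θ => f₀ (cp a b θ)) := hf.comp hcps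
  rw [shadow_eq_LH hK.convex hK.compact hKn hfr]
  have hHeq : (fun θ => suppFn K (cp a b θ)) =
      fun θ => suppFn M (cp a b θ) + ε * f₀ (cp a b θ) := by
    funext θ; exact supp_of hK hδ hn hKM ho (hcpn θ)
  rw [hHeq]
  have hHc : Continuous fun θ => suppFn M (cp a b θ) :=
    (continuous_suppFn hMc hMn).comp hcps.continuous
  rw [area_LH_diff (H := fun θ => suppFn M (cp a b θ)) (f := fun θ => ε * f₀ (cp a b θ)) hHc
    (fun θ => by rw [cp_add_pi, M_symm hδ hn])
    (contDiff_const.mul (hfcp.of_le (by norm_num)))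
    (fun θ => by rw [cp_add_pi, hodd]; ring)
    (r := 1 / 2) (by norm_num) (fun θ => by
      have := M_le_supp hδ0 hδ hn (hcpn θ)
      have h5 : (1 : ℝ) / 2 ≤ 1 / (1 + δ) := by
        rw [div_le_div_iff₀ (by norm_num) (by linarith)]; linarith
      linarith) (fun θ => by
      have := M_le_supp hδ0 hδ hn (hcpn θ)
      have h5 : (3 : ℝ) / 4 ≤ 1 / (1 + δ) := by
        rw [div_le_div_iff₀ (by norm_num) (by linarith)]; linarith
      have h6 : |ε * f₀ (cp a b θ)| ≤ 1 / 4 := by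
        rw [abs_mul]
        calc |ε| * |f₀ (cp a b θ)| ≤ |ε| * C :=
              mul_le_mul_of_nonneg_left (hC _ (hcpn θ)) (abs_nonneg _)
          _ = C * |ε| := by ring
          _ ≤ 1 / 4 := hεC
      have := (abs_le.1 h6).1
      linarith)
    (TC_of_sublinear (fun c hc x => suppFn_smul hMc hMn hc x) (suppFn_add_le hMc hMn) a b)
    (by
      have := TC_of_sublinear (g := suppFn K) (fun c hc x =>
        suppFn_smul hK.compact hKn hc x) (suppFn_add_le hK.compact hKn) a b
      rw [hHeq] at this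
      exact this)]
  rw [← shadow_eq_LH (M_convex hδ hn) hMc hMn hfr, area_shadow hδ0 hδ hn hfr, ← P_eq z hfr]
  have hderiv : ∀ θ, deriv (fun θ => ε * f₀ (cp a b θ)) θ
      = ε * deriv (fun θ => f₀ (cp a b θ)) θ := fun θ =>
    deriv_const_mul _ (hfcp.differentiable (by norm_num) θ)
  congr 1
  rw [hτi a b u hfr]
  have : ∀ θ, (ε * f₀ (cp a b θ)) ^ 2 - (deriv (fun θ => ε * f₀ (cp a b θ)) θ) ^ 2
      = ε ^ 2 * (f₀ (cp a b θ) ^ 2 - (deriv (fun θ => f₀ (cp a b θ)) θ) ^ 2) := by
    intro θ; rw [hderiv]; ring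
  simp only [this]
  rw [intervalIntegral.integral_const_mul]; ring

/-- from the functional equation to the property -/
theorem sol_of_eq {z : E → ℝ} {δ : ℝ} (hδ : δ ≤ 1 / 100) (hn : Near z δ)
    {K : Set E} (hKM : K - K = (2 : ℝ) • {x : E | z x ≤ 1}) {c : ℝ} (hc : 0 < c)
    (harea : ∀ a b u : E, Fr a b u → (volume (shadow a b K)).toReal = c * z u) : Sol K := by
  have hzh := M_hom hn
  have hgh : ∀ t : ℝ, 0 ≤ t → ∀ x, c * z (t • x) = t * (c * z x) := fun t ht x => by
    rw [hzh t ht]; ring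
  have hga : ∀ x y, c * z (x + y) ≤ c * z x + c * z y := fun x y => by
    have := hn.subadd (by linarith) x y
    nlinarith
  refine ⟨bodyOf (fun x => c * z x), ⟨⟨convex_bodyOf _,
    isCompact_bodyOf (R := c * (1 + δ)) (fun y => ?_),
      interior_bodyOf (r := c * (1 - δ)) (by nlinarith) (fun y => ?_)⟩, fun a b u hfr => ?_⟩, ?_⟩
  · have := mul_le_mul_of_nonneg_left (M_up hn y) hc.le; linarith
  · have := mul_le_mul_of_nonneg_left (M_low hn y) hc.le; linarith
  · rw [suppFn_bodyOf hgh hga, harea a b u hfr]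
  · refine ⟨0, (2 * c)⁻¹, by positivity, ?_⟩
    rw [hKM]
    have hpol : polarBody (bodyOf (fun x => c * z x)) = {x | c * z x ≤ 1} := by
      ext x
      constructor
      · intro hx
        obtain ⟨p, hp, hpx⟩ := exists_support (g := fun x => c * z x) hgh hga x
        have := hx p hp
        rw [real_inner_comm, hpx] at this
        exact this
      · intro hx y hy
        have := hy x
        rw [real_inner_comm] at this
        exact this.trans hx
    rw [hpol]
    ext x
    constructor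
    · intro hx
      have hx' : c * z x ≤ 1 := hx
      refine ⟨(2 : ℝ) • (c • x), ⟨c • x, ?_, rfl⟩, ?_⟩
      · show z (c • x) ≤ 1
        rw [hzh c hc.le]; exact hx'
      · simp only [zero_add, smul_smul]
        have : (2 * c)⁻¹ * (2 * c) = 1 := by field_simp
        rw [this, one_smul]
    · rintro ⟨_, ⟨m, hm, rfl⟩, rfl⟩
      have hm' : z m ≤ 1 := hm
      show c * z (0 + (2 * c)⁻¹ • (2 : ℝ) • m) ≤ 1
      rw [zero_add, smul_smul, hzh _ (by positivity)]
      have : c * ((2 * c)⁻¹ * 2 * z m) = z m := by field_simp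
      rw [this]; exact hm'

/-- from the property to the functional equation -/
theorem eq_of_sol {z : E → ℝ} {δ : ℝ} (hδ : δ ≤ 1 / 100) (hn : Near z δ)
    {K : Set E} (hKM : K - K = (2 : ℝ) • {x : E | z x ≤ 1}) (hs : Sol K) :
    ∃ c : ℝ, 0 < c ∧ ∀ a b u : E, Fr a b u → (volume (shadow a b K)).toReal = c * z u := by
  obtain ⟨Q, hQ, v, t, ht, hpol⟩ := hs
  have hQn := hQ.body.interior.mono interior_subset
  have hzh := M_hom hn
  have hQsym1 : ∀ u : E, ‖u‖ = 1 → suppFn Q (-u) = suppFn Q u := fun u hu => by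
    obtain ⟨a, b, hfr⟩ := exists_frame hu
    have hfr' : Fr a b (-u) := ⟨hfr.na, hfr.nb, by rw [norm_neg, hu], hfr.ab,
      by rw [inner_neg_right, hfr.au, neg_zero], by rw [inner_neg_right, hfr.bu, neg_zero]⟩
    rw [hQ.supp a b (-u) hfr', hQ.supp a b u hfr]
  have hQh := fun (c : ℝ) (hc : 0 ≤ c) (x : E) => suppFn_smul hQ.body.compact hQn hc x
  have hQsym : ∀ x : E, suppFn Q (-x) = suppFn Q x := by
    intro x
    by_cases hx : x = 0
    · subst hx; rw [neg_zero]
    · have hxn : ‖x‖ ≠ 0 := norm_ne_zero_iff.2 hx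
      have e : x = ‖x‖ • (‖x‖⁻¹ • x) := by rw [smul_smul, mul_inv_cancel₀ hxn, one_smul]
      have h1 := hQsym1 (‖x‖⁻¹ • x) (by rw [norm_smul, norm_inv, norm_norm, inv_mul_cancel₀ hxn])
      rw [e, ← smul_neg, hQh _ (norm_nonneg x), hQh _ (norm_nonneg x), h1]
  have hpolar : ∀ x, x ∈ polarBody Q ↔ suppFn Q x ≤ 1 := by
    intro x
    constructor
    · intro hx
      exact suppFn_le hQn (fun y hy => by rw [real_inner_comm]; exact hx y hy)
    · intro hx y hy
      have := le_suppFn hQ.body.compact hy x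
      rw [real_inner_comm] at this
      exact this.trans hx
  have hmem2 : ∀ x : E, x ∈ (2 : ℝ) • {x : E | z x ≤ 1} ↔ z x ≤ 2 := by
    intro x
    rw [Set.mem_smul_set_iff_inv_smul_mem₀ (by norm_num)]
    show z ((2 : ℝ)⁻¹ • x) ≤ 1 ↔ _
    rw [hzh _ (by norm_num)]
    constructor <;> intro h <;> linarith
  have hchar : ∀ x, suppFn Q x ≤ 1 ↔ z (x - v) ≤ 2 * t := by
    intro x
    rw [← hpolar, hpol, hKM]
    constructor
    · rintro ⟨y, hy, rfl⟩
      rw [hmem2] at hy
      show z (v + t • y - v) ≤ 2 * t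
      rw [add_sub_cancel_left, hzh t ht.le]
      nlinarith
    · intro hx
      refine ⟨t⁻¹ • (x - v), ?_, ?_⟩
      · rw [hmem2, hzh _ (by positivity), inv_mul_le_iff₀ ht]; linarith
      · show v + t • t⁻¹ • (x - v) = x
        rw [smul_smul, mul_inv_cancel₀ ht.ne', one_smul]; abel
  -- v = 0
  have hv : v = 0 := by
    by_contra hv
    have hvn : 0 < ‖v‖ := norm_pos_iff.2 hv
    -- the point v + (2t / z v) v
    have hzv : 0 < z v := lt_of_lt_of_le (by
      have : 0 < (1 - δ) * ‖v‖ := by apply mul_pos; linarith; exact hvn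
      exact this) (M_low hn v)
    have h1 : suppFn Q (v + (2 * t / z v) • v) ≤ 1 := by
      rw [hchar, add_sub_cancel_left, hzh _ (by positivity)]
      field_simp
      exact le_rfl
    have h2 : suppFn Q (-(v + (2 * t / z v) • v)) ≤ 1 := by rw [hQsym]; exact h1
    rw [hchar] at h2
    have e : -(v + (2 * t / z v) • v) - v = (-(2 + 2 * t / z v)) • v := by module
    rw [e, hn.eh.hom, abs_neg, abs_of_pos (by positivity)] at h2
    have : (2 + 2 * t / z v) * z v = 2 * z v + 2 * t := by field_simp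
    rw [this] at h2
    linarith
  subst hv
  refine ⟨(2 * t)⁻¹, by positivity, fun a b u hfr => ?_⟩
  have hu : ‖u‖ = 1 := hfr.nu
  rw [← hQ.supp a b u hfr]
  have hu0 : 0 < ‖u‖ := by rw [hu]; norm_num
  have hzu : 0 < z u := lt_of_lt_of_le (by
    have : 0 < (1 - δ) * ‖u‖ := by apply mul_pos; linarith; exact hu0
    exact this) (M_low hn u)
  simp only [sub_zero] at hchar
  -- suppFn Q u > 0
  have hle : suppFn Q u ≤ (2 * t)⁻¹ * z u := by
    have h1 := (hchar ((2 * t / z u) • u)).2 (by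
      rw [hzh _ (by positivity)]; field_simp; exact le_rfl)
    rw [hQh _ (by positivity)] at h1
    have h2 : 2 * t / z u * suppFn Q u ≤ 1 := h1
    rw [div_mul_eq_mul_div, div_le_one hzu] at h2
    rw [inv_mul_eq_div, le_div_iff₀ (by positivity)]
    linarith
  have hge : (2 * t)⁻¹ * z u ≤ suppFn Q u := by
    by_contra hlt
    push Not at hlt
    have hspos : ∀ s : ℝ, 0 < s → s * suppFn Q u ≤ 1 → s * z u ≤ 2 * t := by
      intro s hs h1
      have h2 := (hchar (s • u)).1 (by rw [hQh _ hs.le]; exact h1)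
      rwa [hzh _ hs.le] at h2
    by_cases hpos : 0 < suppFn Q u
    · have h1 := hspos (suppFn Q u)⁻¹ (by positivity) (by rw [inv_mul_cancel₀ hpos.ne'])
      rw [inv_mul_le_iff₀ hpos] at h1
      rw [lt_inv_mul_iff₀ (by positivity)] at hlt
      linarith
    · push Not at hpos
      have h1 := hspos (4 * t / z u) (by positivity) (by
        have : 4 * t / z u * suppFn Q u ≤ 0 := mul_nonpos_of_nonneg_of_nonpos (by positivity) hpos
        linarith)
      have h2 : 4 * t / z u * z u = 4 * t := by field_simp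
      rw [h2] at h1
      linarith
  exact le_antisymm hle hge


/-! ### Every boundary point of `K - K` is extreme; `K` is not a polytope -/

theorem extreme_of_unit {z : E → ℝ} {δ : ℝ} (hδ : δ ≤ 1 / 100) (h : Near z δ) {u : E}
    (hu : ‖u‖ = 1) : (2 / z u) • u ∈ ((2 : ℝ) • {x : E | z x ≤ 1}).extremePoints ℝ := by
  obtain ⟨heh, G, hG⟩ := h
  have hn : Near z δ := ⟨heh, G, hG⟩
  have hzu : 1 / 2 < z u := by
    have := (abs_le.1 (hn.abs_le u)).1
    rw [hu, mul_one] at this
    linarith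
  have hzu0 : z u ≠ 0 := by linarith
  have hu0 : u ≠ 0 := by intro h0; rw [h0, norm_zero] at hu; norm_num at hu
  have hmem : ∀ x : E, x ∈ (2 : ℝ) • {x : E | z x ≤ 1} ↔ z x ≤ 2 := by
    intro x
    rw [Set.mem_smul_set_iff_inv_smul_mem₀ (by norm_num)]
    show z ((2 : ℝ)⁻¹ • x) ≤ 1 ↔ _
    rw [heh.hom, abs_of_pos (by norm_num : (0 : ℝ) < 2⁻¹)]
    constructor <;> intro h <;> linarith
  set g : E := u + G u with hg
  have hgle : ∀ y, ⟪g, y⟫_ℝ + (1 - δ) * (‖y‖ - ⟪u, y⟫_ℝ) ≤ z y := by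
    intro y
    have h1 := (abs_le.1 (hG u hu0 y)).1
    rw [hu, div_one] at h1
    have h2 : ⟪g, y⟫_ℝ = ⟪u, y⟫_ℝ + ⟪G u, y⟫_ℝ := by rw [hg, inner_add_left]
    rw [h2]
    simp only at h1
    nlinarith
  have hgu : ⟪g, u⟫_ℝ = z u := by
    have h1 := hG.self hu0
    simp only [hu] at h1
    rw [hg, inner_add_left, real_inner_self_eq_norm_sq, hu, h1]; ring
  refine mem_extremePoints.2 ⟨?_, ?_⟩
  · rw [hmem, heh.hom, abs_of_pos (by positivity)]
    field_simp
    exact le_rfl
  · intro x hx y hy hxy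
    rw [hmem] at hx hy
    have key : ∀ x : E, z x ≤ 2 → ⟪g, x⟫_ℝ = 2 → x = (2 / z u) • u := by
      intro x hx hgx
      have h1 := hgle x
      have h2 : ⟪u, x⟫_ℝ ≤ ‖u‖ * ‖x‖ := real_inner_le_norm u x
      rw [hu, one_mul] at h2
      have h3 : ‖x‖ - ⟪u, x⟫_ℝ = 0 := by
        have : (1 - δ) * (‖x‖ - ⟪u, x⟫_ℝ) ≤ 0 := by linarith
        nlinarith
      have h4 : ⟪u, x⟫_ℝ = ‖u‖ * ‖x‖ := by rw [hu, one_mul]; linarith
      have h5 : x = ‖x‖ • u := by
        have := (inner_eq_norm_mul_iff_real).1 h4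
        rw [hu, one_smul] at this
        exact this.symm
      have h6 : ‖x‖ * z u = 2 := by
        rw [h5, inner_smul_right, hgu] at hgx
        exact hgx
      rw [h5]
      congr 1
      rw [eq_div_iff hzu0]
      exact h6
    obtain ⟨a, b, ha, hb, hab, hp⟩ := hxy
    have hgx : ⟪g, x⟫_ℝ ≤ 2 := by
      have h2 : ⟪u, x⟫_ℝ ≤ ‖u‖ * ‖x‖ := real_inner_le_norm u x
      rw [hu, one_mul] at h2
      nlinarith [hgle x]
    have hgy : ⟪g, y⟫_ℝ ≤ 2 := by
      have h2 : ⟪u, y⟫_ℝ ≤ ‖u‖ * ‖y‖ := real_inner_le_norm u y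
      rw [hu, one_mul] at h2
      nlinarith [hgle y]
    have hgp : ⟪g, (2 / z u) • u⟫_ℝ = 2 := by
      rw [inner_smul_right, hgu]; field_simp
    rw [← hp, inner_add_right, inner_smul_right, inner_smul_right] at hgp
    have e1 : ⟪g, x⟫_ℝ = 2 := by nlinarith
    have e2 : ⟪g, y⟫_ℝ = 2 := by nlinarith
    exact ⟨key x hx e1, key y hy e2⟩

theorem not_polytope {z : E → ℝ} {δ : ℝ} (hδ : δ ≤ 1 / 100) (h : Near z δ) {K : Set E}
    (hK : K - K = (2 : ℝ) • {x : E | z x ≤ 1}) (s : Set E) (hs : s.Finite) :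
    K ≠ convexHull ℝ s := by
  intro hKs
  have h1 : K - K = convexHull ℝ (s - s) := by rw [hKs, convexHull_sub]
  have hfin : (s - s).Finite := hs.sub hs
  have hsub : ∀ u : E, ‖u‖ = 1 → (2 / z u) • u ∈ s - s := by
    intro u hu
    have := extreme_of_unit hδ h hu
    rw [← hK, h1] at this
    exact extremePoints_convexHull_subset this
  have hinj : Set.InjOn (fun u : E => (2 / z u) • u) (Metric.sphere (0 : E) 1) := by
    intro u hu v hv huv
    have hu' : ‖u‖ = 1 := by simpa using hu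
    have hv' : ‖v‖ = 1 := by simpa using hv
    have zpos : ∀ w : E, ‖w‖ = 1 → 0 < z w := fun w hw => by
      have := (abs_le.1 (h.abs_le w)).1
      rw [hw, mul_one] at this
      linarith
    have h2 : ‖(2 / z u) • u‖ = ‖(2 / z v) • v‖ := by
      have : (fun u : E => (2 / z u) • u) u = (fun u : E => (2 / z u) • u) v := huv
      simp only at this
      rw [this]
    rw [norm_smul, norm_smul, hu', hv', mul_one, mul_one, Real.norm_of_nonneg (by
      have := zpos u hu'; positivity), Real.norm_of_nonneg (by have := zpos v hv'; positivity)] at h2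
    have h3 : (2 / z u) • u = (2 / z v) • v := huv
    rw [h2] at h3
    exact smul_right_injective E (by have := zpos v hv'; positivity) h3
  have himg : ((fun u : E => (2 / z u) • u) '' Metric.sphere (0 : E) 1).Finite :=
    hfin.subset (by
      rintro _ ⟨u, hu, rfl⟩
      exact hsub u (by simpa using hu))
  have hsph : (Metric.sphere (0 : E) 1).Finite := Set.Finite.of_finite_image himg hinj
  -- the sphere is infinite
  obtain ⟨a, b, hfr⟩ := exists_frame norm_e3
  have hop : OP a b := hfr.toOP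
  have hcp : Set.InjOn (fun θ : ℝ => cp a b θ)
      (Set.Icc 0 1) := by
    intro θ hθ φ hφ h4
    have h5 := congrArg (fun x : E => ⟪a, x⟫_ℝ) h4
    simp only [cp, inner_add_right, inner_smul_right, real_inner_self_eq_norm_sq, hop.nw,
      hop.wu] at h5
    norm_num at h5
    have hpi := Real.pi_gt_three
    exact Real.injOn_cos ⟨hθ.1, by linarith [hθ.2]⟩ ⟨hφ.1, by linarith [hφ.2]⟩ h5
  have hinf : (Set.Icc (0 : ℝ) 1).Finite := by
    apply Set.Finite.of_finite_image (hsph.subset _) hcp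
    rintro _ ⟨θ, _, rfl⟩
    simpa using norm_cp hop θ
  exact (Set.Icc_infinite (by norm_num : (0 : ℝ) < 1)) hinf


theorem not_symmetric {f₀ : E → ℝ} (h1 : ∀ i x, f₀ (flip i x) = - f₀ x) {ε : ℝ} (hε : ε ≠ 0)
    {u₀ : E} (hu₀ : ‖u₀‖ = 1) (hf : f₀ u₀ ≠ 0) {K : Set E} (hK : IsBody K)
    (ho : OddPart K (fun x => ε * f₀ x)) (p : E) : (fun x => p - x) '' K ≠ K := by
  intro hsym
  have hKn := hK.interior.mono interior_subset
  have key : ∀ u : E, suppFn K u - suppFn K (-u) = ⟪p, u⟫_ℝ := by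
    intro u
    have a1 : suppFn K u ≤ ⟪p, u⟫_ℝ + suppFn K (-u) := by
      apply suppFn_le hKn
      intro x hx
      rw [← hsym] at hx
      obtain ⟨y, hy, rfl⟩ := hx
      have := le_suppFn hK.compact hy (-u)
      rw [inner_neg_right] at this
      show ⟪p - y, u⟫_ℝ ≤ _
      rw [inner_sub_left]; linarith
    have a2 : suppFn K (-u) ≤ suppFn K u - ⟪p, u⟫_ℝ := by
      apply suppFn_le hKn
      intro x hx
      have hx' : p - x ∈ K := by rw [← hsym]; exact ⟨x, hx, rfl⟩
      have := le_suppFn hK.compact hx' u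
      rw [inner_sub_left] at this
      rw [inner_neg_right]; linarith
    linarith
  have hp : ∀ u : E, ‖u‖ = 1 → 2 * (ε * f₀ u) = ⟪p, u⟫_ℝ := fun u hu => by
    rw [← ho u hu, key]
  have hpi : ∀ i : Fin 3, p i = 0 := by
    intro i
    have h3 := hp (EuclideanSpace.single i 1) (by simp)
    have h4 : f₀ (EuclideanSpace.single i 1) = 0 := by
      have e : flip (i + 1) (EuclideanSpace.single i 1 : E) = EuclideanSpace.single i 1 := by
        ext j
        rw [flip_apply]
        by_cases hj : j = i + 1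
        · subst hj; fin_cases i <;> simp
        · rw [if_neg hj]
      have := h1 (i + 1) (EuclideanSpace.single i 1)
      rw [e] at this
      linarith
    rw [h4] at h3
    rw [real_inner_comm] at h3
    simp [EuclideanSpace.inner_single_left] at h3
    exact h3.symm
  have hp0 : p = 0 := by ext i; simpa using hpi i
  have := hp u₀ hu₀
  rw [hp0, inner_zero_left] at this
  have : ε * f₀ u₀ = 0 := by linarith
  rcases mul_eq_zero.1 this with h | h
  · exact hε h
  · exact hf h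

/-- Fixed points of `F τ` in the class are unique. -/
theorem fixed_unique : ∃ δ₀ : ℝ, 0 < δ₀ ∧ ∀ δ : ℝ, 0 < δ → δ ≤ δ₀ → ∀ τ : E → ℝ,
    TauOK τ (δ / 100) → ∀ z z' : E → ℝ, Cls z (3 * δ) → Cls z' (3 * δ) → F τ z = z →
      F τ z' = z' → z = z' := by
  obtain ⟨δ₀, h0, hc⟩ := F_contr
  refine ⟨min δ₀ (1 / 1000), by positivity, ?_⟩
  intro δ hδ hδ0 τ hτ z z' hz hz' hf hf'
  have hcon := hc δ hδ (hδ0.trans (min_le_left _ _)) τ hτ z z' hz hz'
  rw [hf, hf', hf, hf'] at hcon
  have hd : δ ≤ 1 / 1000 := hδ0.trans (min_le_right _ _)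
  have hit : ∀ n : ℕ, ∀ u v : E, ‖u‖ = 1 → ‖v‖ = 1 →
      (z' u - z u) - (z' v - z v) ≤ (19 / 20) ^ n * 1 := by
    intro n
    induction n with
    | zero =>
      intro u v hu hv
      have a1 := abs_le.1 (hz.abs_le u)
      have a2 := abs_le.1 (hz.abs_le v)
      have a3 := abs_le.1 (hz'.abs_le u)
      have a4 := abs_le.1 (hz'.abs_le v)
      rw [hu, mul_one] at a1 a3
      rw [hv, mul_one] at a2 a4
      rw [pow_zero, one_mul]
      linarith [a1.1, a1.2, a2.1, a2.2, a3.1, a3.2, a4.1, a4.2]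
    | succ n ih =>
      intro u v hu hv
      have := hcon _ ih u v hu hv
      rw [pow_succ]; linarith
  have hle : ∀ u v : E, ‖u‖ = 1 → ‖v‖ = 1 → (z' u - z u) - (z' v - z v) ≤ 0 := by
    intro u v hu hv
    have hlim : Filter.Tendsto (fun n : ℕ => ((19 : ℝ) / 20) ^ n * 1) Filter.atTop (nhds 0) := by
      have := tendsto_pow_atTop_nhds_zero_of_lt_one (r := (19 : ℝ) / 20) (by norm_num) (by norm_num)
      simpa using this
    exact ge_of_tendsto' hlim (fun n => hit n u v hu hv)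
  have heq : ∀ u : E, ‖u‖ = 1 → z u = z' u := by
    intro u hu
    have b1 := hle u e3 hu norm_e3
    have b2 := hle e3 u norm_e3 hu
    rw [hz.one, hz'.one] at b1 b2
    linarith
  funext x
  rw [hz.eh.norm_smul_unit x, hz'.eh.norm_smul_unit x]
  by_cases hx : x = 0
  · subst hx; simp
  · have hxn : ‖x‖ ≠ 0 := norm_ne_zero_iff.2 hx
    rw [heq _ (by rw [norm_smul, norm_inv, norm_norm, inv_mul_cancel₀ hxn])]

theorem odd_of_flip {f₀ : E → ℝ} (h1 : ∀ i x, f₀ (flip i x) = - f₀ x) (x : E) :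
    f₀ (-x) = - f₀ x := by
  have e : flip 0 (flip 1 (flip 2 x)) = -x := by
    ext j
    fin_cases j <;> simp [flip_apply]
  rw [← e, h1, h1, h1]; ring

/-- **Main theorem.** -/
theorem main : ∃ δ₀ : ℝ, 0 < δ₀ ∧ ∀ f₀ : E → ℝ, ContDiff ℝ 3 f₀ →
    (∀ i x, f₀ (flip i x) = - f₀ x) → (∀ x, f₀ (cyc x) = f₀ x) →
    ∀ δ : ℝ, 0 < δ → δ ≤ δ₀ → ∃ ε₀ : ℝ, 0 < ε₀ ∧ ∀ ε : ℝ, |ε| ≤ ε₀ → ∃ K : Set E,
      IsBody K ∧ OddPart K (fun x => ε * f₀ x) ∧ NearBall K δ ∧ Sol K ∧
      (∀ u : E, ‖u‖ = 1 → |suppFn K u - 1| ≤ 10 * δ) ∧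
      (∀ K' : Set E, IsBody K' → OddPart K' (fun x => ε * f₀ x) → NearBall K' δ → Sol K' →
        K' = K) ∧
      (∀ s : Set E, s.Finite → K ≠ convexHull ℝ s) ∧
      (ε ≠ 0 → (∃ u : E, ‖u‖ = 1 ∧ f₀ u ≠ 0) → ∀ p : E, (fun x => p - x) '' K ≠ K) := by
  obtain ⟨δ₁, hδ₁, hfix⟩ := fixed_point
  obtain ⟨δ₂, hδ₂, huniq⟩ := fixed_unique
  refine ⟨min δ₁ (min δ₂ (1 / 400)), by positivity, ?_⟩
  intro f₀ hf h1 h2 δ hδ hδ0
  have hδ1 : δ ≤ δ₁ := hδ0.trans (min_le_left _ _)
  have hδ2 : δ ≤ δ₂ := hδ0.trans ((min_le_right _ _).trans (min_le_left _ _))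
  have hδ3 : δ ≤ 1 / 400 := hδ0.trans ((min_le_right _ _).trans (min_le_right _ _))
  obtain ⟨τ₀, Cτ, hτ₀, hτi⟩ := tau_exists hf h1 h2
  obtain ⟨C, hC0, hCb, hCs⟩ := ext1_subadd (hf.of_le (by norm_num))
  have hodd := odd_of_flip h1
  have hCτ : 0 ≤ Cτ := (abs_nonneg _).trans hτ₀.e3
  have hCu : ∀ u : E, ‖u‖ = 1 → |f₀ u| ≤ C := by
    intro u hu
    have := hCb u
    simpa [ext1, hu] using this
  refine ⟨min 1 (min (1 / (4 * C)) (min (δ / C) (δ / (100 * (Cτ + 1))))), by positivity, ?_⟩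
  intro ε hε
  have e1 : |ε| ≤ 1 := hε.trans (min_le_left _ _)
  have e2 : |ε| ≤ 1 / (4 * C) := hε.trans ((min_le_right _ _).trans (min_le_left _ _))
  have e3' : |ε| ≤ δ / C := hε.trans ((min_le_right _ _).trans ((min_le_right _ _).trans
    (min_le_left _ _)))
  have e4 : |ε| ≤ δ / (100 * (Cτ + 1)) := hε.trans ((min_le_right _ _).trans
    ((min_le_right _ _).trans (min_le_right _ _)))
  have e5 : C * |ε| ≤ 1 / 4 := by
    calc C * |ε| ≤ C * (1 / (4 * C)) := mul_le_mul_of_nonneg_left e2 hC0.le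
      _ = 1 / 4 := by field_simp
  have e6 : C * |ε| ≤ δ := by
    calc C * |ε| ≤ C * (δ / C) := mul_le_mul_of_nonneg_left e3' hC0.le
      _ = δ := by field_simp
  have e7 : ε ^ 2 * Cτ ≤ δ / 100 := by
    have : ε ^ 2 ≤ |ε| := by rw [← sq_abs]; nlinarith [abs_nonneg ε]
    calc ε ^ 2 * Cτ ≤ |ε| * (Cτ + 1) := by
          apply mul_le_mul this (by linarith) hCτ (abs_nonneg _)
      _ ≤ δ / (100 * (Cτ + 1)) * (Cτ + 1) := mul_le_mul_of_nonneg_right e4 (by linarith)
      _ = δ / 100 := by field_simp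
  -- τ
  have hτ : TauOK (fun x => ε ^ 2 * τ₀ x) (δ / 100) := by
    refine ⟨⟨hτ₀.eh.cont.const_mul _ |>.congr (fun _ => rfl), fun c x => ?_⟩,
      ⟨fun i x => ?_, fun x => ?_⟩, ?_, ?_⟩
    · simp only [hτ₀.eh.hom]; ring
    · simp only [hτ₀.inv.flip]
    · simp only [hτ₀.inv.cyc]
    · intro p q o s x
      have := hτ₀.n2 p q o s x
      have e : ε ^ 2 * τ₀ (rotf p q s x) + ε ^ 2 * τ₀ (rotf p q (-s) x) - 2 * (ε ^ 2 * τ₀ x)
          = ε ^ 2 * (τ₀ (rotf p q s x) + τ₀ (rotf p q (-s) x) - 2 * τ₀ x) := by ring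
      rw [e, abs_mul, abs_of_nonneg (sq_nonneg ε)]
      calc ε ^ 2 * _ ≤ ε ^ 2 * (Cτ * s ^ 2 * ‖x‖) := mul_le_mul_of_nonneg_left this (sq_nonneg _)
        _ = (ε ^ 2 * Cτ) * (s ^ 2 * ‖x‖) := by ring
        _ ≤ (δ / 100) * (s ^ 2 * ‖x‖) := mul_le_mul_of_nonneg_right e7 (by positivity)
        _ = δ / 100 * s ^ 2 * ‖x‖ := by ring
    · show |ε ^ 2 * τ₀ e3| ≤ δ / 100
      rw [abs_mul, abs_of_nonneg (sq_nonneg ε)]
      exact (mul_le_mul_of_nonneg_left hτ₀.e3 (sq_nonneg _)).trans e7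
  obtain ⟨z, c, hz, hc, hzc⟩ := hfix δ hδ hδ1 _ hτ
  have hn : Near z (3 * δ) := hz.near hδ
  have h3 : 3 * δ ≤ 1 / 100 := by linarith
  have h30 : 0 ≤ 3 * δ := by linarith
  -- f
  set f : E → ℝ := fun x => ε * ext1 f₀ x with hfdef
  have hfh : ∀ c : ℝ, 0 ≤ c → ∀ x, f (c • x) = c * f x := by
    intro c hc x
    simp only [hfdef, ext1]
    rcases hc.eq_or_lt with rfl | hc'
    · simp
    · rw [norm_smul, Real.norm_of_nonneg hc, smul_smul]
      by_cases hx : ‖x‖ = 0
      · rw [hx]; simp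
      · have : (c * ‖x‖)⁻¹ * c = ‖x‖⁻¹ := by field_simp
        rw [this]; ring
  have hfo : ∀ x, f (-x) = - f x := by
    intro x
    simp only [hfdef, ext1, norm_neg, smul_neg, hodd]; ring
  have hfs : ∀ x y, 1 / 4 * ‖x + y‖ + f (x + y) ≤ (1 / 4 * ‖x‖ + f x) + (1 / 4 * ‖y‖ + f y) := by
    intro x y
    have := hCs ε e1 x y
    have h4 := norm_add_le x y
    simp only [hfdef]
    nlinarith
  have hfb : ∀ u : E, ‖u‖ = 1 → f u = ε * f₀ u := by
    intro u hu
    simp only [hfdef, ext1, hu, inv_one, one_smul, one_mul]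
  obtain ⟨K, hK1, hK2, hK3, hK4, hK5⟩ := exists_body h30 h3 hn hfh hfo hfs
  have hK : IsBody K := ⟨hK1, hK2, hK3⟩
  have hKodd : OddPart K (fun x => ε * f₀ x) := by
    intro u hu
    rw [hK4, hK4, M_symm h3 hn, hfo, hfb u hu]; ring
  have hsol : Sol K := by
    apply sol_of_eq h3 hn hK5 hc
    intro a b u hfr
    rw [area_eq hf hodd hτi hCu e5 h30 h3 hn hK hK5 hKodd hfr]
    exact (hzc u hfr.nu).symm
  refine ⟨K, hK, hKodd, ⟨z, hz, hK5⟩, hsol, ?_, ?_, ?_, ?_⟩
  · -- closeness
    intro u hu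
    have h5 := M_supp_le h3 hn hu
    have h6 := M_le_supp h30 h3 hn hu
    have h7 : |f u| ≤ δ := by
      simp only [hfdef, abs_mul]
      calc |ε| * |ext1 f₀ u| ≤ |ε| * (C * ‖u‖) := mul_le_mul_of_nonneg_left (hCb u) (abs_nonneg _)
        _ = C * |ε| := by rw [hu]; ring
        _ ≤ δ := e6
    have h8 : 1 / (1 - 3 * δ) ≤ 1 + 4 * δ := by
      rw [div_le_iff₀ (by linarith)]; nlinarith
    have h9 : 1 - 3 * δ ≤ 1 / (1 + 3 * δ) := by
      rw [le_div_iff₀ (by linarith)]; nlinarith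
    rw [hK4, abs_le]
    have h10 := abs_le.1 h7
    constructor <;> linarith [h10.1, h10.2]
  · -- uniqueness
    rintro K' hK' hK'odd ⟨z', hz', hK'5⟩ hsol'
    have hn' : Near z' (3 * δ) := hz'.near hδ
    obtain ⟨c', hc', hzc'⟩ := eq_of_sol h3 hn' hK'5 hsol'
    have hfixz : ∀ (z : E → ℝ) (c : ℝ), Cls z δ → 0 < c →
        (∀ u : E, ‖u‖ = 1 → c * z u = P z u + ε ^ 2 * τ₀ u) →
        F (fun x => ε ^ 2 * τ₀ x) z = z := by
      intro z c hz hc hzc
      have he3 := hzc e3 norm_e3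
      rw [hz.one, mul_one] at he3
      funext x
      rw [hz.eh.norm_smul_unit x]
      unfold F
      by_cases hx : x = 0
      · subst hx; simp [hτ₀.eh.zero]
      · have hxn : ‖x‖ ≠ 0 := norm_ne_zero_iff.2 hx
        have hunit : ‖‖x‖⁻¹ • x‖ = 1 := by
          rw [norm_smul, norm_inv, norm_norm, inv_mul_cancel₀ hxn]
        have h5 := hzc _ hunit
        have h6 := hτ₀.eh.norm_smul_unit x
        simp only
        rw [← he3, h6]
        have : ‖x‖ * P z (‖x‖⁻¹ • x) + ε ^ 2 * (‖x‖ * τ₀ (‖x‖⁻¹ • x))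
            = ‖x‖ * (c * z (‖x‖⁻¹ • x)) := by rw [h5]; ring
        rw [this]
        field_simp
    have hzz : z = z' := by
      apply huniq δ hδ hδ2 _ hτ z z'
      · exact ⟨hz.eh, hz.inv, hz.one, fun p q o s x => (hz.n2 p q o s x).trans (by
          have : 0 ≤ s ^ 2 * ‖x‖ := by positivity
          nlinarith)⟩
      · exact ⟨hz'.eh, hz'.inv, hz'.one, fun p q o s x => (hz'.n2 p q o s x).trans (by
          have : 0 ≤ s ^ 2 * ‖x‖ := by positivity
          nlinarith)⟩
      · exact hfixz z c hz hc hzc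
      · refine hfixz z' c' hz' hc' (fun u hu => ?_)
        obtain ⟨a, b, hfr⟩ := exists_frame hu
        rw [← hzc' a b u hfr, area_eq hf hodd hτi hCu e5 h30 h3 hn' hK' hK'5 hK'odd hfr]
    subst hzz
    rw [eq_bodyOf hK'.convex hK'.compact (hK'.interior.mono interior_subset),
      eq_bodyOf hK1 hK2 (hK3.mono interior_subset)]
    congr 1
    funext x
    by_cases hx : x = 0
    · subst hx
      have a1 := suppFn_smul hK'.compact (hK'.interior.mono interior_subset) le_rfl (0 : E)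
      have a2 := suppFn_smul hK2 (hK3.mono interior_subset) le_rfl (0 : E)
      simp only [smul_zero, zero_mul] at a1 a2
      rw [a1, a2]
    · have hxn : ‖x‖ ≠ 0 := norm_ne_zero_iff.2 hx
      have hunit : ‖‖x‖⁻¹ • x‖ = 1 := by
        rw [norm_smul, norm_inv, norm_norm, inv_mul_cancel₀ hxn]
      have b1 := supp_of hK' h3 hn hK'5 hK'odd hunit
      have b2 := supp_of hK h3 hn hK5 hKodd hunit
      have e : x = ‖x‖ • (‖x‖⁻¹ • x) := by rw [smul_smul, mul_inv_cancel₀ hxn, one_smul]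
      rw [e, suppFn_smul hK'.compact (hK'.interior.mono interior_subset) (norm_nonneg x),
        suppFn_smul hK2 (hK3.mono interior_subset) (norm_nonneg x), b1, b2]
  · intro s hs
    exact not_polytope h3 hn hK5 s hs
  · rintro hε0 ⟨u, hu, hfu⟩ p
    exact not_symmetric h1 hε0 hu hfu hK hKodd p

end PB3
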