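import Mathlib
import Pool.Agent.Lib.MP_03c723_gt.Defs
import Pool.Agent.Lib.MP_03c723_gt.TauDef
import Pool.Agent.Lib.MP_03c723_gt.D2Def
import Pool.Agent.Lib.MP_03c723_gt.Basic
import Pool.Agent.Lib.MP_03c723_gt.Grad
import Pool.Agent.Lib.MP_03c723_gt.Min
import Pool.Agent.Lib.MP_03c723_gt.Env
import Pool.Agent.Lib.MP_03c723_gt.Env2

/-!
First part of the iteration: the map `F τ` sends the class with the constant `δ` into the class
with the constant `3 δ`.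
-/

namespace PB3
open MeasureTheory Real Filter Topology
open scoped InnerProductSpace

theorem iter1_exists_cp {u v : E} (hu : ‖u‖ = 1) (hv : ‖v‖ = 1) :
    ∃ (q : E) (s : ℝ), OP u q ∧ 0 ≤ s ∧ s ≤ π ∧ Real.cos s = ⟪u, v⟫_ℝ ∧ v = cp u q s := by
  have h1 : |⟪u, v⟫_ℝ| ≤ 1 := by
    have := abs_real_inner_le_norm u v
    rwa [hu, hv, one_mul] at this
  obtain ⟨h2, h3⟩ := abs_le.1 h1
  have huw : ⟪u, v - ⟪u, v⟫_ℝ • u⟫_ℝ = 0 := by
    rw [inner_sub_right, inner_smul_right, real_inner_self_eq_norm_sq, hu]; ring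
  have hwn : ‖v - ⟪u, v⟫_ℝ • u‖ ^ 2 = 1 - ⟪u, v⟫_ℝ ^ 2 := by
    rw [norm_sub_sq_real, norm_smul, inner_smul_right, real_inner_comm, hu, hv, Real.norm_eq_abs,
      mul_one, sq_abs]
    ring
  have hsin : Real.sin (Real.arccos ⟪u, v⟫_ℝ) = ‖v - ⟪u, v⟫_ℝ • u‖ := by
    rw [Real.sin_arccos, ← hwn, Real.sqrt_sq (norm_nonneg _)]
  have hcos := Real.cos_arccos h2 h3
  by_cases hw : v - ⟪u, v⟫_ℝ • u = 0
  · obtain ⟨a, b, hf⟩ := exists_frame hu
    refine ⟨a, Real.arccos ⟪u, v⟫_ℝ, ⟨hu, hf.na, ?_⟩, Real.arccos_nonneg _, Real.arccos_le_pi _,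
      hcos, ?_⟩
    · rw [real_inner_comm]; exact hf.au
    · rw [cp, hsin, hcos, hw, norm_zero, zero_smul, add_zero]
      exact sub_eq_zero.1 hw
  · have hw0 : ‖v - ⟪u, v⟫_ℝ • u‖ ≠ 0 := norm_ne_zero_iff.2 hw
    refine ⟨‖v - ⟪u, v⟫_ℝ • u‖⁻¹ • (v - ⟪u, v⟫_ℝ • u), Real.arccos ⟪u, v⟫_ℝ, ⟨hu, ?_, ?_⟩,
      Real.arccos_nonneg _, Real.arccos_le_pi _, hcos, ?_⟩
    · rw [norm_smul, norm_inv, norm_norm, inv_mul_cancel₀ hw0]
    · rw [inner_smul_right, huw, mul_zero]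
    · rw [cp, hsin, hcos, smul_smul, mul_inv_cancel₀ hw0, one_smul]
      abel

theorem iter1_norm_e3 : ‖e3‖ = 1 := by
  simp [e3]

theorem iter1_inner_e3 (x : E) : ⟪e3, x⟫_ℝ = x 2 := by
  rw [e3, EuclideanSpace.inner_single_left]; simp

theorem iter1_unit {x : E} (hx : x ≠ 0) : ‖‖x‖⁻¹ • x‖ = 1 := by
  rw [norm_smul, norm_inv, norm_norm, inv_mul_cancel₀ (norm_ne_zero_iff.2 hx)]

theorem iter1_eh_neg {z : E → ℝ} (hz : EH z) (x : E) : z (-x) = z x := by
  have h := hz.hom (-1) x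
  simpa using h

theorem iter1_eh_zero {z : E → ℝ} (hz : EH z) : z 0 = 0 := by
  have h := hz.hom 0 0
  simpa using h

theorem iter1_eh_unit {z : E → ℝ} (hz : EH z) {x : E} (hx : x ≠ 0) :
    z x = ‖x‖ * z (‖x‖⁻¹ • x) := by
  rw [hz.hom, abs_of_nonneg (inv_nonneg.2 (norm_nonneg _)), ← mul_assoc,
    mul_inv_cancel₀ (norm_ne_zero_iff.2 hx), one_mul]

theorem TauOK.abs_le {τ : E → ℝ} {κ : ℝ} (h : TauOK τ κ) (x : E) : |τ x| ≤ 3 * κ * ‖x‖ := by
  have hκ : 0 ≤ κ := (abs_nonneg _).trans h.e3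
  -- the case of unit vectors in the upper half sphere
  have h1 : ∀ u : E, ‖u‖ = 1 → 0 ≤ u 2 → |τ u| ≤ 3 * κ := by
    intro u hu hu2
    obtain ⟨b, s, hb, hs0, hs1, hs2, hs3⟩ := iter1_exists_cp iter1_norm_e3 hu
    rw [iter1_inner_e3] at hs2
    have hs4 : s ≤ π / 2 := by
      by_contra hc
      push Not at hc
      have := Real.cos_neg_of_pi_div_two_lt_of_lt hc (by linarith [Real.pi_pos])
      linarith
    have hb2 : b 2 = 0 := by rw [← iter1_inner_e3]; exact hb.wu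
    have h2 := h.n2 PB3.e3 b hb s PB3.e3
    rw [rotf_self hb, rotf_self hb, ← hs3, iter1_norm_e3, mul_one] at h2
    have h3 : cp PB3.e3 b (-s) = flip 0 (flip 1 u) := by
      ext j
      rw [flip_apply, flip_apply, hs3]
      fin_cases j
      · simp [cp, PB3.e3]
      · simp [cp, PB3.e3]
      · simp [cp, PB3.e3, hb2]
    rw [h3, h.inv.flip, h.inv.flip] at h2
    have h4 : s ^ 2 ≤ 2.5 := by
      have h5 : s ^ 2 ≤ (π / 2) ^ 2 := pow_le_pow_left₀ hs0 hs4 2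
      have h6 : π ^ 2 < 10 := by nlinarith [Real.pi_lt_d2, Real.pi_pos]
      nlinarith
    have h5 : κ * s ^ 2 ≤ κ * 2.5 := mul_le_mul_of_nonneg_left h4 hκ
    have h6 := _root_.abs_le.1 h2
    have h7 := _root_.abs_le.1 h.e3
    rw [_root_.abs_le]
    constructor <;> linarith [h6.1, h6.2, h7.1, h7.2]
  have h2 : ∀ u : E, ‖u‖ = 1 → |τ u| ≤ 3 * κ := by
    intro u hu
    rcases le_total 0 (u 2) with h3 | h3
    · exact h1 u hu h3
    · have := h1 (-u) (by rw [norm_neg, hu]) (by simpa using h3)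
      rwa [iter1_eh_neg h.eh] at this
  by_cases hx : x = 0
  · subst hx
    rw [iter1_eh_zero h.eh]
    simp
  · rw [iter1_eh_unit h.eh hx, abs_mul, abs_norm, mul_comm]
    exact mul_le_mul_of_nonneg_right (h2 _ (iter1_unit hx)) (norm_nonneg _)

theorem iter1_P_neg {z : E → ℝ} (hz : EH z) {u : E} (hu : ‖u‖ = 1) : P z (-u) = P z u := by
  have h := P_comp z (LinearIsometryEquiv.neg ℝ) hu
  simp only [LinearIsometryEquiv.coe_neg] at h
  rw [h]
  congr 1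
  funext x
  exact iter1_eh_neg hz x

theorem P_inv {z : E → ℝ} (hz : EH z) (hi : Inv z) {u : E} (hu : ‖u‖ = 1) :
    P z (-u) = P z u ∧ (∀ i, P z (flip i u) = P z u) ∧ P z (cyc u) = P z u := by
  refine ⟨iter1_P_neg hz hu, fun i => ?_, ?_⟩
  · rw [P_comp z (flip i) hu]
    congr 1
    funext x
    exact hi.flip i x
  · rw [P_comp z cyc hu]
    congr 1
    funext x
    exact hi.cyc x

theorem iter1_cp_cont (a b : E) : Continuous (cp a b) := by
  unfold cp; fun_prop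

theorem iter1_cont_t {t : E → E → ℝ} {δ : ℝ} (h : Good t δ) {a b u : E} (hf : Fr a b u) :
    Continuous fun θ => t (cp a b θ) u := by
  rw [continuous_iff_continuousAt]
  intro θ
  unfold ContinuousAt
  rw [tendsto_iff_norm_sub_tendsto_zero]
  have h1 : Tendsto (fun θ' => δ * ‖cp a b θ' - cp a b θ‖) (𝓝 θ) (𝓝 0) := by
    have h2 : Continuous fun θ' => δ * ‖cp a b θ' - cp a b θ‖ := by
      have := iter1_cp_cont a b
      fun_prop
    have h3 := h2.tendsto θ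
    simpa using h3
  refine squeeze_zero (fun _ => norm_nonneg _) (fun θ' => ?_) h1
  have h4 := h.lip _ _ _ _ (hf.op θ') (hf.op θ)
  rw [Real.norm_eq_abs]
  simpa using h4

theorem iter1_norm_add {w u : E} (o : OP w u) {t r : ℝ} (ht : |t| ≤ r) :
    ‖w + t • u‖ ≤ 1 + r := by
  refine (norm_add_le _ _).trans ?_
  rw [norm_smul, o.nw, o.nu, mul_one, Real.norm_eq_abs]
  linarith

theorem P_bd {z : E → ℝ} {δ : ℝ} (hδ0 : 0 ≤ δ) (hδ : δ ≤ 1 / 100) (h : Near z δ) {u : E}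
    (hu : ‖u‖ = 1) : |P z u - π| ≤ 10 * δ := by
  obtain ⟨a, b, hf⟩ := exists_frame hu
  rw [P_eq z hf, PF]
  have hm : ∀ θ, |mu z (cp a b θ) u - 1| ≤ δ := fun θ => h.mu_bd hδ0 hδ (hf.op θ)
  have hmc : Continuous fun θ => mu z (cp a b θ) u := by
    have h1 : (fun θ => mu z (cp a b θ) u) =
        fun θ => z (cp a b θ + tz z (cp a b θ) u • u) := by
      funext θ; exact h.mu_eq hδ0 hδ (hf.op θ)
    rw [h1]
    have h2 := iter1_cont_t (h.tz_good hδ0 hδ) hf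
    have h3 := iter1_cp_cont a b
    exact h.eh.cont.comp (h3.add (h2.smul continuous_const))
  have hpos : ∀ θ, 0 < mu z (cp a b θ) u := by
    intro θ
    have := abs_le.1 (hm θ)
    linarith [this.1]
  have hic : Continuous fun θ => ((mu z (cp a b θ) u) ^ 2)⁻¹ :=
    (hmc.pow 2).inv₀ fun θ => pow_ne_zero _ (hpos θ).ne'
  have h1 : ∫ θ in (-π)..π, (((mu z (cp a b θ) u) ^ 2)⁻¹ - 1) =
      (∫ θ in (-π)..π, ((mu z (cp a b θ) u) ^ 2)⁻¹) - 2 * π := by
    rw [intervalIntegral.integral_sub (hic.intervalIntegrable _ _)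
      (continuous_const.intervalIntegrable _ _)]
    rw [intervalIntegral.integral_const, smul_eq_mul, mul_one]
    ring
  have h2 : ‖∫ θ in (-π)..π, (((mu z (cp a b θ) u) ^ 2)⁻¹ - 1)‖ ≤ 3 * δ * |π - (-π)| := by
    apply intervalIntegral.norm_integral_le_of_norm_le_const
    intro θ _
    have h3 := abs_le.1 (hm θ)
    have h4 := hpos θ
    set m := mu z (cp a b θ) u
    have h5 : 0.98 ≤ m ^ 2 := by nlinarith
    rw [Real.norm_eq_abs]
    have h6 : (m ^ 2)⁻¹ - 1 = (1 - m ^ 2) / m ^ 2 := by field_simp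
    rw [h6, abs_div, abs_of_pos (pow_pos h4 2), div_le_iff₀ (pow_pos h4 2), _root_.abs_le]
    constructor <;> nlinarith
  rw [h1, Real.norm_eq_abs] at h2
  have h3 : |π - (-π)| = 2 * π := by
    rw [abs_of_pos (by linarith [Real.pi_pos])]; ring
  rw [h3] at h2
  have h4 := abs_le.1 h2
  have h5 := Real.pi_lt_d2
  rw [_root_.abs_le]
  constructor <;> nlinarith [h4.1, h4.2, Real.pi_pos]

theorem iter1_int_bd {η : E → ℝ} {S r : ℝ} (hS : ∀ x, |η x| ≤ S * ‖x‖) {t : ℝ → ℝ}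
    (ht : ∀ θ, |t θ| ≤ r) {a b u : E} (hf : Fr a b u) :
    |∫ θ in (-π)..π, η (cp a b θ + t θ • u)| ≤ S * (1 + r) * (2 * π) := by
  have hS0 : 0 ≤ S := by
    have h1 := (abs_nonneg _).trans (hS u)
    rwa [hf.nu, mul_one] at h1
  have h1 : ‖∫ θ in (-π)..π, η (cp a b θ + t θ • u)‖ ≤ S * (1 + r) * |π - (-π)| := by
    apply intervalIntegral.norm_integral_le_of_norm_le_const
    intro θ _
    rw [Real.norm_eq_abs]
    exact (hS _).trans (mul_le_mul_of_nonneg_left (iter1_norm_add (hf.op θ) (ht θ)) hS0)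
  have h2 : |π - (-π)| = 2 * π := by
    rw [abs_of_pos (by linarith [Real.pi_pos])]; ring
  rwa [h2, Real.norm_eq_abs] at h1

theorem P_lip {z : E → ℝ} {δ : ℝ} (hδ0 : 0 ≤ δ) (hδ : δ ≤ 1 / 100) (h : Near z δ) {u v : E}
    (hu : ‖u‖ = 1) (hv : ‖v‖ = 1) : |P z u - P z v| ≤ 100 * ‖u - v‖ := by
  obtain ⟨q, s, o, hs0, hs1, hcs, hv'⟩ := iter1_exists_cp hu hv
  obtain ⟨ρ, hρ, -⟩ := exists_rot o s
  have hρu : ρ u = v := by rw [hρ, rotf_self o, ← hv']
  have hs : s ≤ 2 * ‖u - v‖ := by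
    have h1 := Real.cos_le_one_sub_mul_cos_sq (x := s) (by rw [abs_of_nonneg hs0]; exact hs1)
    have h2 : ‖u - v‖ ^ 2 = 2 - 2 * Real.cos s := by
      rw [norm_sub_sq_real, hu, hv, hcs]; ring
    have h3 : 1 / 5 ≤ 2 / π ^ 2 := by
      rw [div_le_div_iff₀ (by norm_num) (by positivity)]
      nlinarith [Real.pi_lt_d2, Real.pi_pos]
    have h4 : 1 / 5 * s ^ 2 ≤ 2 / π ^ 2 * s ^ 2 := mul_le_mul_of_nonneg_right h3 (sq_nonneg s)
    have h5 : s ^ 2 ≤ (2 * ‖u - v‖) ^ 2 := by nlinarith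
    exact (pow_le_pow_iff_left₀ hs0 (by positivity) two_ne_zero).1 h5
  have hS : ∀ x, |(fun x => z (ρ x)) x - z x| ≤ 3 * δ * s * ‖x‖ := by
    intro x
    have h1 := h.lip hδ0 (ρ x) x
    have h2 : (z (ρ x) - ‖ρ x‖) - (z x - ‖x‖) = z (ρ x) - z x := by
      rw [ρ.norm_map]; ring
    rw [h2] at h1
    refine h1.trans ?_
    have h3 := norm_rotf_sub_le o s x
    rw [← hρ, abs_of_nonneg hs0] at h3
    calc 3 * δ * ‖ρ x - x‖ ≤ 3 * δ * (s * ‖x‖) := mul_le_mul_of_nonneg_left h3 (by positivity)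
      _ = 3 * δ * s * ‖x‖ := by ring
  obtain ⟨a, b, hf⟩ := exists_frame hu
  have hn := h.comp ρ
  obtain ⟨h1, h2⟩ := P_diff hδ0 hδ h hn hS hf
  have h3 := iter1_int_bd (η := fun x => (fun x => z (ρ x)) x - z x)
    (t := fun θ => tz (fun x => z (ρ x)) (cp a b θ) u) (r := 30 * δ) hS
    (fun θ => (hn.tz_good hδ0 hδ).bd _ _ (hf.op θ)) hf
  have h4 := iter1_int_bd (η := fun x => (fun x => z (ρ x)) x - z x)
    (t := fun θ => tz z (cp a b θ) u) (r := 30 * δ) hS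
    (fun θ => (h.tz_good hδ0 hδ).bd _ _ (hf.op θ)) hf
  have h5 : P (fun x => z (ρ x)) u = P z v := by rw [← P_comp z ρ hu, hρu]
  rw [h5] at h1 h2
  have h6 : 3 * δ * s * (1 + 30 * δ) * (2 * π) ≤ s := by
    have h7 : 3 * δ * (1 + 30 * δ) ≤ 0.04 := by nlinarith
    have h8 : 3 * δ * (1 + 30 * δ) * (2 * π) ≤ 0.04 * (2 * π) :=
      mul_le_mul_of_nonneg_right h7 (by linarith [Real.pi_pos])
    have h9 : 3 * δ * (1 + 30 * δ) * (2 * π) ≤ 1 := by linarith [Real.pi_lt_d2]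
    calc 3 * δ * s * (1 + 30 * δ) * (2 * π) = 3 * δ * (1 + 30 * δ) * (2 * π) * s := by ring
      _ ≤ 1 * s := mul_le_mul_of_nonneg_right h9 hs0
      _ = s := one_mul s
  have h7 : 100 * δ * (3 * δ * s) ≤ s := by
    have h8 : 100 * δ * (3 * δ) ≤ 1 := by nlinarith
    calc 100 * δ * (3 * δ * s) = 100 * δ * (3 * δ) * s := by ring
      _ ≤ 1 * s := mul_le_mul_of_nonneg_right h8 hs0
      _ = s := one_mul s
  have h8 := _root_.abs_le.1 (h3.trans h6)
  have h9 := _root_.abs_le.1 (h4.trans h6)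
  have h10 := norm_nonneg (u - v)
  rw [_root_.abs_le]
  constructor <;> linarith [h8.1, h8.2, h9.1, h9.2]

theorem F_eh {z τ : E → ℝ} {δ : ℝ} (hδ0 : 0 ≤ δ) (hδ : δ ≤ 1 / 100) (h : Near z δ)
    (hτ : EH τ) : EH (F τ z) := by
  have hz0 : ‖(0 : E)‖ * P z (‖(0 : E)‖⁻¹ • (0 : E)) = 0 := by rw [norm_zero, zero_mul]
  have hcont : Continuous fun x : E => ‖x‖ * P z (‖x‖⁻¹ • x) := by
    rw [continuous_iff_continuousAt]
    intro x
    by_cases hx : x = 0
    · subst hx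
      unfold ContinuousAt
      simp only []
      rw [hz0, tendsto_zero_iff_norm_tendsto_zero]
      have h1 : Tendsto (fun x : E => 4 * ‖x‖) (𝓝 0) (𝓝 0) := by
        have h2 : Continuous fun x : E => 4 * ‖x‖ := by fun_prop
        have h3 := h2.tendsto 0
        simpa using h3
      refine squeeze_zero (fun _ => norm_nonneg _) (fun x => ?_) h1
      by_cases hx : x = 0
      · subst hx
        rw [hz0]; simp
      · have h2 := _root_.abs_le.1 (P_bd hδ0 hδ h (iter1_unit hx))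
        rw [norm_mul, norm_norm, mul_comm, Real.norm_eq_abs]
        apply mul_le_mul_of_nonneg_right _ (norm_nonneg _)
        rw [_root_.abs_le]
        constructor <;> linarith [h2.1, h2.2, Real.pi_lt_d2, Real.pi_gt_three]
    · have h0 : ‖x‖ ≠ 0 := norm_ne_zero_iff.2 hx
      have h1 : ContinuousAt (fun y : E => ‖y‖⁻¹ • y) x :=
        (continuous_norm.continuousAt.inv₀ h0).smul continuousAt_id
      have h2 : ContinuousAt (fun y : E => P z (‖y‖⁻¹ • y)) x := by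
        unfold ContinuousAt
        rw [tendsto_iff_norm_sub_tendsto_zero]
        have h3 : Tendsto (fun y : E => 100 * ‖‖y‖⁻¹ • y - ‖x‖⁻¹ • x‖) (𝓝 x) (𝓝 0) := by
          have h5 : ContinuousAt (fun y : E => 100 * ‖‖y‖⁻¹ • y - ‖x‖⁻¹ • x‖) x :=
            continuousAt_const.mul (h1.sub continuousAt_const).norm
          have h4 := h5.tendsto
          simpa using h4
        refine squeeze_zero' (Eventually.of_forall fun _ => norm_nonneg _) ?_ h3
        filter_upwards [isOpen_ne.mem_nhds hx] with y hy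
        exact P_lip hδ0 hδ h (iter1_unit hy) (iter1_unit hx)
      exact continuous_norm.continuousAt.mul h2
  refine ⟨?_, fun c x => ?_⟩
  · unfold F
    exact (hcont.add hτ.cont).div_const _
  · unfold F
    have h1 : ‖c • x‖ * P z (‖c • x‖⁻¹ • (c • x)) = |c| * (‖x‖ * P z (‖x‖⁻¹ • x)) := by
      by_cases hx : x = 0
      · subst hx
        rw [smul_zero, hz0, mul_zero]
      · by_cases hc : c = 0
        · subst hc
          rw [zero_smul, hz0, abs_zero, zero_mul]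
        · have h2 : ‖c • x‖⁻¹ • (c • x) = (|c|⁻¹ * c) • (‖x‖⁻¹ • x) := by
            rw [norm_smul, Real.norm_eq_abs, smul_smul, smul_smul, mul_inv]
            congr 1
            ring
          rw [h2, norm_smul, Real.norm_eq_abs, mul_assoc]
          congr 2
          rcases lt_or_gt_of_ne hc with hc | hc
          · rw [abs_of_neg hc]
            have h3 : (-c)⁻¹ * c = -1 := by
              rw [inv_neg, neg_mul, inv_mul_cancel₀ hc.ne]
            rw [h3, neg_smul, one_smul, iter1_P_neg h.eh (iter1_unit hx)]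
          · rw [abs_of_pos hc, inv_mul_cancel₀ hc.ne', one_smul]
    rw [h1, hτ.hom]
    ring

theorem iter1_F_comp {z τ : E → ℝ} (ρ : E ≃ₗᵢ[ℝ] E) (hP : ∀ u : E, ‖u‖ = 1 → P z (ρ u) = P z u)
    (hτ : ∀ x, τ (ρ x) = τ x) (x : E) : F τ z (ρ x) = F τ z x := by
  unfold F
  by_cases hx : x = 0
  · subst hx; rw [map_zero]
  · rw [ρ.norm_map, hτ, ← map_smul, hP _ (iter1_unit hx)]

theorem iter1_F_D2 {z τ : E → ℝ} {p q : E} (o : OP p q) (s : ℝ) (x : E) :
    F τ z (rotf p q s x) + F τ z (rotf p q (-s) x) - 2 * F τ z x =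
      (‖x‖ * D2 p q s (P z) (‖x‖⁻¹ • x) +
        (τ (rotf p q s x) + τ (rotf p q (-s) x) - 2 * τ x)) / (P z e3 + τ e3) := by
  obtain ⟨ρ, h1, h2⟩ := exists_rot o s
  unfold F D2
  rw [← h1, ← h2, ← h1, ← h2, ρ.norm_map, ρ.symm.norm_map, map_smul, map_smul]
  ring

theorem iter1_D2P {z : E → ℝ} {δ : ℝ} (hδ0 : 0 < δ) (hδ : δ ≤ 1 / 1000) (h : Cls z δ)
    {p q : E} (o : OP p q) (s : ℝ) {u : E} (hu : ‖u‖ = 1) :
    |D2 p q s (P z) u| ≤ δ * s ^ 2 * (1 + 90 * δ) * (2 * π) + 10 ^ 6 * δ ^ 2 * s ^ 2 := by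
  obtain ⟨a, b, hf⟩ := exists_frame hu
  obtain ⟨h1, h2⟩ := P_diff2 hδ0 hδ h o s hf
  have hn := h.near hδ0
  have h30 : (0 : ℝ) ≤ 3 * δ := by positivity
  have h31 : 3 * δ ≤ 1 / 100 := by linarith
  have h3 := iter1_int_bd (η := D2 p q s z)
    (t := fun θ => tb p q s z (cp a b θ) u) (r := 90 * δ) (h.n2 p q o s)
    (fun θ => ((tb_good h30 h31 hn o s).bd _ _ (hf.op θ)).trans (by linarith)) hf
  have h4 := iter1_int_bd (η := D2 p q s z)
    (t := fun θ => tz z (cp a b θ) u) (r := 90 * δ) (h.n2 p q o s)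
    (fun θ => ((hn.tz_good h30 h31).bd _ _ (hf.op θ)).trans (by linarith)) hf
  have h5 := _root_.abs_le.1 h3
  have h6 := _root_.abs_le.1 h4
  rw [_root_.abs_le]
  constructor <;> linarith [h5.1, h5.2, h6.1, h6.2]

theorem F_cls1 : ∃ δ₀ : ℝ, 0 < δ₀ ∧ ∀ δ : ℝ, 0 < δ → δ ≤ δ₀ → ∀ τ : E → ℝ,
    TauOK τ (δ / 100) → ∀ z : E → ℝ, Cls z δ → Cls (F τ z) (3 * δ) := by
  refine ⟨1 / 10 ^ 6, by norm_num, fun δ hδ0 hδ τ hτ z h => ?_⟩
  have hn := h.near hδ0
  have h30 : (0 : ℝ) ≤ 3 * δ := by positivity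
  have h31 : 3 * δ ≤ 1 / 100 := by linarith
  have hc1 := _root_.abs_le.1 (P_bd h30 h31 hn iter1_norm_e3)
  have hc2 := _root_.abs_le.1 hτ.e3
  have hc : 3.1 ≤ P z e3 + τ e3 := by linarith [hc1.1, hc2.1, Real.pi_gt_d2]
  refine ⟨F_eh h30 h31 hn hτ.eh, ⟨fun i x => ?_, fun x => ?_⟩, ?_, ?_⟩
  · exact iter1_F_comp (flip i) (fun u hu => (P_inv h.eh h.inv hu).2.1 i) (hτ.inv.flip i) x
  · exact iter1_F_comp cyc (fun u hu => (P_inv h.eh h.inv hu).2.2) hτ.inv.cyc x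
  · unfold F
    rw [iter1_norm_e3, inv_one, one_smul, one_mul]
    exact div_self (by linarith)
  · intro p q o s x
    by_cases hx : x = 0
    · subst hx
      obtain ⟨ρ, h1, h2⟩ := exists_rot o s
      rw [← h1, ← h2, map_zero, map_zero]
      have h3 : F τ z 0 + F τ z 0 - 2 * F τ z 0 = 0 := by ring
      rw [h3]
      simp
    · rw [iter1_F_D2 o s x, abs_div, abs_of_pos (show 0 < P z e3 + τ e3 by linarith),
        div_le_iff₀ (by linarith)]
      have h1 := iter1_D2P hδ0 (by linarith) h o s (iter1_unit hx)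
      have h2 := hτ.n2 p q o s x
      have h3 : 0 ≤ ‖x‖ := norm_nonneg x
      have h4 : |‖x‖ * D2 p q s (P z) (‖x‖⁻¹ • x) +
          (τ (rotf p q s x) + τ (rotf p q (-s) x) - 2 * τ x)| ≤
          ‖x‖ * (δ * s ^ 2 * (1 + 90 * δ) * (2 * π) + 10 ^ 6 * δ ^ 2 * s ^ 2) +
            δ / 100 * s ^ 2 * ‖x‖ := by
        refine (abs_add_le _ _).trans (add_le_add ?_ h2)
        rw [abs_mul, abs_norm]
        exact mul_le_mul_of_nonneg_left h1 h3
      refine h4.trans ?_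
      have h5 : (1 + 90 * δ) * (2 * π) + 10 ^ 6 * δ + 1 / 100 ≤ 9.3 := by
        have h6 : 10 ^ 6 * δ ≤ 1 := by linarith
        have h7 : 90 * δ ≤ 0.01 := by linarith
        have h8 : (1 + 90 * δ) * (2 * π) ≤ 1.01 * (2 * 3.15) := by
          apply mul_le_mul
          · linarith
          · linarith [Real.pi_lt_d2]
          · linarith [Real.pi_pos]
          · norm_num
        linarith
      have h6 : 0 ≤ δ * s ^ 2 * ‖x‖ := by positivity
      calc ‖x‖ * (δ * s ^ 2 * (1 + 90 * δ) * (2 * π) + 10 ^ 6 * δ ^ 2 * s ^ 2) +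
            δ / 100 * s ^ 2 * ‖x‖
          = δ * s ^ 2 * ‖x‖ * ((1 + 90 * δ) * (2 * π) + 10 ^ 6 * δ + 1 / 100) := by ring
        _ ≤ δ * s ^ 2 * ‖x‖ * 9.3 := mul_le_mul_of_nonneg_left h5 h6
        _ = 3 * δ * s ^ 2 * ‖x‖ * 3.1 := by ring
        _ ≤ 3 * δ * s ^ 2 * ‖x‖ * (P z e3 + τ e3) :=
            mul_le_mul_of_nonneg_left hc (by positivity)

end PB3
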