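import Pool.Agent.Lib.MP_03c723_gt.Iter2

/-! Two steps of the iteration contract the oscillation of differences. -/

namespace PB3
open MeasureTheory Real
open scoped InnerProductSpace

theorem F_diff {τ z z' : E → ℝ} {u : E} (hu : ‖u‖ = 1) (hc : P z e3 + τ e3 ≠ 0)
    (hc' : P z' e3 + τ e3 ≠ 0) :
    F τ z' u - F τ z u = (P z' u - P z u) / (P z e3 + τ e3)
      - F τ z' u * ((P z' e3 - P z e3) / (P z e3 + τ e3)) := by
  rw [F_unit τ z hu, F_unit τ z' hu]
  field_simp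
  ring

theorem Inv.sub {z z' : E → ℝ} (h : Inv z) (h' : Inv z') : Inv (fun x => z' x - z x) :=
  ⟨fun i x => by simp only [h.flip, h'.flip], fun x => by simp only [h.cyc, h'.cyc]⟩

theorem EH.bound_of_unit {η : E → ℝ} (h : EH η) {O : ℝ} (hO : ∀ u : E, ‖u‖ = 1 → |η u| ≤ O)
    (x : E) : |η x| ≤ O * ‖x‖ := by
  by_cases hx : x = 0
  · subst hx; rw [h.zero]; simp
  · have hxn : ‖x‖ ≠ 0 := norm_ne_zero_iff.2 hx
    rw [h.norm_smul_unit x, abs_mul, abs_of_nonneg (norm_nonneg x), mul_comm]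
    exact mul_le_mul_of_nonneg_right
      (hO _ (by rw [norm_smul, norm_inv, norm_norm, inv_mul_cancel₀ hxn])) (norm_nonneg x)

theorem exists_iso {u v : E} (hu : ‖u‖ = 1) (hv : ‖v‖ = 1) : ∃ ρ : E ≃ₗᵢ[ℝ] E, ρ v = u :=
  ⟨(ℝ ∙ (v - u))ᗮ.reflection, Submodule.reflection_sub (by rw [hu, hv])⟩

/-- size of the difference of `P` for close `z`, `z'` -/
theorem P_diff_abs {z z' : E → ℝ} {δ S : ℝ} (hδ0 : 0 ≤ δ) (hδ : δ ≤ 1 / 10000) (h : Near z δ)
    (h' : Near z' δ) (hS : ∀ x, |z' x - z x| ≤ S * ‖x‖) {u : E} (hu : ‖u‖ = 1) :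
    |P z' u - P z u| ≤ 6.4 * S := by
  obtain ⟨a, b, hf⟩ := exists_frame hu
  have hS0 : 0 ≤ S := by
    have := (abs_nonneg _).trans (hS u)
    rwa [hu, mul_one] at this
  obtain ⟨h1, h2⟩ := P_diff hδ0 (by linarith) h h' hS hf
  have key : ∀ t : E → E → ℝ, Good t (30 * δ) →
      |∫ θ in (-π)..π, (fun x => z' x - z x) (cp a b θ + t (cp a b θ) u • u)| ≤ 6.3 * S := by
    intro t ht
    have : ‖∫ θ in (-π)..π, (fun x => z' x - z x) (cp a b θ + t (cp a b θ) u • u)‖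
        ≤ ((1 + (30 * δ) ^ 2) * S) * |π - (-π)| := by
      apply intervalIntegral.norm_integral_le_of_norm_le_const
      intro θ _
      rw [Real.norm_eq_abs]
      refine (hS _).trans ?_
      rw [mul_comm]
      apply mul_le_mul_of_nonneg_right _ hS0
      rw [norm_add_smul (hf.op θ)]
      refine (sqrt_one_add_sq_le _).trans ?_
      have h3 := ht.bd _ _ (hf.op θ)
      have := sq_le_sq' (abs_le.1 h3).1 (abs_le.1 h3).2
      linarith
    rw [Real.norm_eq_abs] at this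
    refine this.trans ?_
    have hpi := Real.pi_pos
    have hpi2 := Real.pi_lt_d4
    rw [abs_of_pos (by linarith)]
    have h4 : (30 * δ) ^ 2 ≤ 1 / 10 ^ 4 := by nlinarith
    have h5 : (1 + (30 * δ) ^ 2) * (π - -π) ≤ 6.3 := by nlinarith
    nlinarith
  have k1 := abs_le.1 (key _ (h'.tz_good hδ0 (by linarith)))
  have k2 := abs_le.1 (key _ (h.tz_good hδ0 (by linarith)))
  rw [abs_le]
  have h6 : 100 * δ * S ≤ 0.01 * S := by nlinarith
  constructor <;> linarith [k1.1, k1.2, k2.1, k2.2]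

theorem int_norm {t : E → E → ℝ} {δ : ℝ} (hδ0 : 0 ≤ δ) (ht : Good t δ) {a b u : E}
    (hf : Fr a b u) :
    Continuous (fun θ : ℝ => ‖cp a b θ + t (cp a b θ) u • u‖) ∧
    |(∫ θ in (-π)..π, ‖cp a b θ + t (cp a b θ) u • u‖) - 2 * π| ≤ 7 * δ ^ 2 := by
  have hw : Continuous fun θ : ℝ => cp a b θ :=
    continuous_cp continuous_const continuous_const continuous_id
  have hc : Continuous (fun θ : ℝ => ‖cp a b θ + t (cp a b θ) u • u‖) :=
    (hw.add ((ht.continuous_comp hw continuous_const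
      (fun θ => hf.op θ)).smul continuous_const)).norm
  refine ⟨hc, ?_⟩
  have h1 : (2 * π : ℝ) = ∫ _ in (-π)..π, (1 : ℝ) := by rw [int_const]; ring
  rw [h1, ← intervalIntegral.integral_sub (hc.intervalIntegrable _ _)
    (continuous_const.intervalIntegrable _ _)]
  have : ‖∫ θ in (-π)..π, (‖cp a b θ + t (cp a b θ) u • u‖ - 1)‖ ≤ δ ^ 2 * |π - (-π)| := by
    apply intervalIntegral.norm_integral_le_of_norm_le_const
    intro θ _
    rw [Real.norm_eq_abs, norm_add_smul (hf.op θ)]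
    have h2 := one_le_sqrt_one_add_sq (t (cp a b θ) u)
    have h3 := sqrt_one_add_sq_le (t (cp a b θ) u)
    have h4 := ht.bd _ _ (hf.op θ)
    have := sq_le_sq' (abs_le.1 h4).1 (abs_le.1 h4).2
    rw [abs_of_nonneg (by linarith)]
    linarith
  rw [Real.norm_eq_abs] at this
  refine this.trans ?_
  have hpi := Real.pi_pos
  have hpi2 := Real.pi_lt_d4
  rw [abs_of_pos (by linarith)]
  nlinarith [sq_nonneg δ]

/-- the two-step estimate for the difference -/
theorem contr_aux {δt : ℝ}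
    (htor : ∀ t₁ t₂ : E → E → ℝ, Good t₁ δt → Good t₂ δt →
      ∀ (σ : E → ℝ) (S : ℝ), EH σ → (∀ x, |σ x| ≤ S * ‖x‖) → ∀ a b u : E, Fr a b u →
      |(∫ θ in (-π)..π, ∫ ψ in (-π)..π, σ (Y t₁ t₂ a b u θ ψ))
        - ∫ θ in (-π)..π, ∫ ψ in (-π)..π, σ (Y0 a b u θ ψ)| ≤ 1 / 4 * S)
    {δ : ℝ} (hδ : 0 < δ) (d2 : δ ≤ δt / 1000) (d3 : δ ≤ 1 / 10 ^ 10) {τ z z' : E → ℝ}
    (hn : Near z (9 * δ)) (hn' : Near z' (9 * δ))
    (hz1 : Cls (F τ z) (9 * δ)) (hz1' : Cls (F τ z') (9 * δ))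
    (hc : 3.14 ≤ P z e3 + τ e3) (hcu : P z e3 + τ e3 ≤ 3.15) (hc' : 3.14 ≤ P z' e3 + τ e3)
    {O : ℝ} (hηeh : EH (fun x => z' x - z x)) (hηb : ∀ x, |z' x - z x| ≤ O * ‖x‖) :
    (∀ u : E, ‖u‖ = 1 → |P (F τ z') u - P (F τ z) u| ≤ 27 * O) ∧
    ∃ k : ℝ, ∀ a b u : E, Fr a b u →
      P (F τ z') u - P (F τ z) u ≤ (1 / (P z e3 + τ e3)) *
        ((∫ θ in (-π)..π, ∫ ψ in (-π)..π, (fun x => z' x - z x) (Y0 a b u θ ψ))
          + 1 / 4 * O + 0.002 * O) - k + 0.0002 * O ∧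
      (1 / (P z e3 + τ e3)) *
        ((∫ θ in (-π)..π, ∫ ψ in (-π)..π, (fun x => z' x - z x) (Y0 a b u θ ψ))
          - 1 / 4 * O - 0.002 * O) - k - 0.0002 * O ≤ P (F τ z') u - P (F τ z) u := by
  have hn1 : Near (F τ z) (27 * δ) := by
    have := hz1.near (by linarith); rwa [show 3 * (9 * δ) = 27 * δ by ring] at this
  have hn1' : Near (F τ z') (27 * δ) := by
    have := hz1'.near (by linarith); rwa [show 3 * (9 * δ) = 27 * δ by ring] at this
  have hpi1 := Real.pi_gt_d6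
  have hpi2 := Real.pi_lt_d6
  set c := P z e3 + τ e3 with hcdef
  set c' := P z' e3 + τ e3 with hc'def
  have hcpos : 0 < c := by linarith
  set η : E → ℝ := fun x => z' x - z x with hηdef
  have hηu : ∀ u : E, ‖u‖ = 1 → |η u| ≤ O := fun u hu => by
    have := hηb u; rwa [hu, mul_one] at this
  have hO0 : 0 ≤ O := (abs_nonneg _).trans (hηu e3 norm_e3)
  -- first step
  set DP : E → ℝ := fun u => P z' u - P z u with hDPdef
  have hDPb : ∀ u : E, ‖u‖ = 1 → |DP u| ≤ 6.4 * O := fun u hu =>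
    P_diff_abs (by linarith) (by linarith) hn hn' hηb hu
  set k₁ := -(DP e3) / c with hk1
  have hk1b : |k₁| ≤ 2.04 * O := by
    rw [hk1, abs_div, abs_neg, abs_of_pos hcpos, div_le_iff₀ hcpos]
    have := hDPb e3 norm_e3
    nlinarith
  set η₁ : E → ℝ := fun x => F τ z' x - F τ z x with hη1def
  have hη1eh : EH η₁ := hz1.eh.sub hz1'.eh
  have hη1eq : ∀ u : E, ‖u‖ = 1 → η₁ u = DP u / c + k₁ + (F τ z' u - 1) * k₁ := by
    intro u hu
    have := F_diff (τ := τ) (z := z) (z' := z') hu (by rw [← hcdef]; linarith)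
      (by rw [← hc'def]; linarith)
    show F τ z' u - F τ z u = _
    rw [this, ← hcdef, hk1]
    ring
  have hz1'b : ∀ u : E, ‖u‖ = 1 → |F τ z' u - 1| ≤ 12 * δ := by
    intro u hu
    have := hz1'.abs_le u
    rw [hu, mul_one] at this
    linarith
  have herr1 : ∀ u : E, ‖u‖ = 1 → |(F τ z' u - 1) * k₁| ≤ 25 * δ * O := by
    intro u hu
    rw [abs_mul]
    calc |F τ z' u - 1| * |k₁| ≤ (12 * δ) * (2.04 * O) :=
          mul_le_mul (hz1'b u hu) hk1b (abs_nonneg _) (by positivity)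
      _ ≤ 25 * δ * O := by nlinarith [mul_nonneg hδ.le hO0]
  have hη1u : ∀ u : E, ‖u‖ = 1 → |η₁ u| ≤ 4.2 * O := by
    intro u hu
    rw [hη1eq u hu]
    have h1 : |DP u / c| ≤ 2.04 * O := by
      rw [abs_div, abs_of_pos hcpos, div_le_iff₀ hcpos]
      have := hDPb u hu
      nlinarith
    have h2 := herr1 u hu
    have h3 : 25 * δ * O ≤ 0.01 * O := by nlinarith
    calc |DP u / c + k₁ + (F τ z' u - 1) * k₁| ≤ |DP u / c| + |k₁| + |(F τ z' u - 1) * k₁| :=
          (abs_add_le _ _).trans (add_le_add (abs_add_le _ _) le_rfl)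
      _ ≤ 4.2 * O := by linarith
  have hη1b : ∀ x, |η₁ x| ≤ 4.2 * O * ‖x‖ := hη1eh.bound_of_unit hη1u
  set g : E → ℝ := fun x => η₁ x - k₁ * ‖x‖ with hgdef
  have hgeh : EH g := by
    refine ⟨hη1eh.cont.sub (continuous_const.mul continuous_norm), fun r x => ?_⟩
    simp only [hgdef, hη1eh.hom, norm_smul, Real.norm_eq_abs]
    ring
  set X := 1000 * δ * O with hXdef
  have hX0 : 0 ≤ X := by positivity
  have hXO : X ≤ 0.0001 * O := by rw [hXdef]; nlinarith
  set δg := 810 * δ with hδg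
  have g0 : 0 ≤ δg := by positivity
  have g1 : δg ≤ 1 / 10 := by rw [hδg]; linarith
  have g2 : δg ≤ δt := by rw [hδg]; linarith
  have gsq0 : δg ^ 2 ≤ 1 / 10 ^ 6 := by
    have : δg ≤ 1 / 10 ^ 3 := by rw [hδg]; linarith
    nlinarith
  have gsq : δg ^ 2 * (50 * (O + X)) ≤ 0.001 * O := by
    calc δg ^ 2 * (50 * (O + X)) ≤ 1 / 10 ^ 6 * (50 * (O + 0.0001 * O)) := by
          apply mul_le_mul gsq0 (by linarith) (by positivity) (by positivity)
      _ ≤ 0.001 * O := by nlinarith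
  have hA : ∀ a b v : E, Fr a b v → -g v ≤
      (1 / c) * ((∫ ψ in (-π)..π, η (cp a b ψ + tz z (cp a b ψ) v • v)) + X) := by
    intro a b v hfv
    have h1 := (P_diff (by linarith) (by linarith) hn hn' hηb hfv).2
    have h2 := (abs_le.1 (herr1 v hfv.nu)).1
    have h3 : -g v = -DP v / c - (F τ z' v - 1) * k₁ := by
      simp only [hgdef]; rw [hη1eq v hfv.nu, hfv.nu]; ring
    rw [h3]
    have h4 : -DP v ≤ (∫ ψ in (-π)..π, η (cp a b ψ + tz z (cp a b ψ) v • v))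
        + 100 * (9 * δ) * O := by simp only [hDPdef]; linarith
    have h5 : -DP v / c ≤ (1 / c) * ((∫ ψ in (-π)..π, η (cp a b ψ + tz z (cp a b ψ) v • v))
        + 100 * (9 * δ) * O) := by
      rw [div_eq_inv_mul, one_div]
      exact mul_le_mul_of_nonneg_left h4 (by positivity)
    have h6 : 25 * δ * O ≤ (1 / c) * (100 * δ * O) := by
      rw [one_div, le_inv_mul_iff₀ hcpos]
      have := mul_nonneg hδ.le hO0
      nlinarith
    have h7 : (1 / c) * ((∫ ψ in (-π)..π, η (cp a b ψ + tz z (cp a b ψ) v • v)) + X)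
        = (1 / c) * ((∫ ψ in (-π)..π, η (cp a b ψ + tz z (cp a b ψ) v • v))
        + 100 * (9 * δ) * O) + (1 / c) * (100 * δ * O) := by rw [hXdef]; ring
    rw [h7]
    linarith
  have hB : ∀ a b v : E, Fr a b v → -(-g v) ≤
      (1 / c) * ((∫ ψ in (-π)..π, (fun x => -η x) (cp a b ψ + tz z' (cp a b ψ) v • v)) + X) := by
    intro a b v hfv
    have h1 := (P_diff (by linarith) (by linarith) hn hn' hηb hfv).1
    have h2 := (abs_le.1 (herr1 v hfv.nu)).2
    have h3 : -(-g v) = DP v / c + (F τ z' v - 1) * k₁ := by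
      simp only [hgdef]; rw [hη1eq v hfv.nu, hfv.nu]; ring
    rw [h3]
    simp only [intervalIntegral.integral_neg]
    have h4 : DP v ≤ -(∫ ψ in (-π)..π, η (cp a b ψ + tz z' (cp a b ψ) v • v))
        + 100 * (9 * δ) * O := by simp only [hDPdef]; linarith
    have h5 : DP v / c ≤ (1 / c) * (-(∫ ψ in (-π)..π, η (cp a b ψ + tz z' (cp a b ψ) v • v))
        + 100 * (9 * δ) * O) := by
      rw [div_eq_inv_mul, one_div]
      exact mul_le_mul_of_nonneg_left h4 (by positivity)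
    have h6 : 25 * δ * O ≤ (1 / c) * (100 * δ * O) := by
      rw [one_div, le_inv_mul_iff₀ hcpos]
      have := mul_nonneg hδ.le hO0
      nlinarith
    have h7 : (1 / c) * (-(∫ ψ in (-π)..π, η (cp a b ψ + tz z' (cp a b ψ) v • v)) + X)
        = (1 / c) * (-(∫ ψ in (-π)..π, η (cp a b ψ + tz z' (cp a b ψ) v • v))
        + 100 * (9 * δ) * O) + (1 / c) * (100 * δ * O) := by rw [hXdef]; ring
    rw [h7]
    linarith
  have hgood1 : Good (tz (F τ z)) δg :=
    (hn1.tz_good (by linarith) (by linarith)).mono (by rw [hδg]; linarith)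
  have hgood1' : Good (tz (F τ z')) δg :=
    (hn1'.tz_good (by linarith) (by linarith)).mono (by rw [hδg]; linarith)
  have hgood : Good (tz z) δg :=
    (hn.tz_good (by linarith) (by linarith)).mono (by rw [hδg]; linarith)
  have hgood' : Good (tz z') δg :=
    (hn'.tz_good (by linarith) (by linarith)).mono (by rw [hδg]; linarith)
  -- second step
  set DP₁ : E → ℝ := fun u => P (F τ z') u - P (F τ z) u with hDP1def
  have hDP1b : ∀ u : E, ‖u‖ = 1 → |DP₁ u| ≤ 6.4 * (4.2 * O) := fun u hu =>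
    P_diff_abs (by linarith) (by linarith) hn1 hn1' hη1b hu
  have herr2 : 100 * (27 * δ) * (4.2 * O) ≤ 0.0001 * O := by nlinarith
  have hsplit : ∀ (t : E → E → ℝ) (a b u : E), Good t δg → Fr a b u →
      |(∫ θ in (-π)..π, η₁ (cp a b θ + t (cp a b θ) u • u))
        - (∫ θ in (-π)..π, g (cp a b θ + t (cp a b θ) u • u)) - 2 * π * k₁| ≤ 0.0001 * O := by
    intro t a b u ht hfr
    obtain ⟨hcn, hin⟩ := int_norm g0 ht hfr
    have hw : Continuous fun θ : ℝ => cp a b θ :=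
      continuous_cp continuous_const continuous_const continuous_id
    have hwt : Continuous fun θ : ℝ => cp a b θ + t (cp a b θ) u • u :=
      hw.add ((ht.continuous_comp hw continuous_const
        (fun θ => hfr.op θ)).smul continuous_const)
    have e1 : (∫ θ in (-π)..π, η₁ (cp a b θ + t (cp a b θ) u • u))
        - (∫ θ in (-π)..π, g (cp a b θ + t (cp a b θ) u • u))
        = k₁ * ∫ θ in (-π)..π, ‖cp a b θ + t (cp a b θ) u • u‖ := by
      have hi1 : IntervalIntegrable (fun θ => η₁ (cp a b θ + t (cp a b θ) u • u)) volume (-π) π :=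
        (hη1eh.cont.comp hwt).intervalIntegrable _ _
      have hi2 : IntervalIntegrable (fun θ => g (cp a b θ + t (cp a b θ) u • u)) volume (-π) π :=
        (hgeh.cont.comp hwt).intervalIntegrable _ _
      rw [← intervalIntegral.integral_sub hi1 hi2, ← intervalIntegral.integral_const_mul]
      congr 1
      funext θ
      simp only [hgdef]
      ring
    rw [e1]
    have e2 : k₁ * (∫ θ in (-π)..π, ‖cp a b θ + t (cp a b θ) u • u‖) - 2 * π * k₁
        = k₁ * ((∫ θ in (-π)..π, ‖cp a b θ + t (cp a b θ) u • u‖) - 2 * π) := by ring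
    rw [e2, abs_mul]
    calc |k₁| * |(∫ θ in (-π)..π, ‖cp a b θ + t (cp a b θ) u • u‖) - 2 * π|
        ≤ (2.04 * O) * (7 * δg ^ 2) := mul_le_mul hk1b hin (abs_nonneg _) (by positivity)
      _ ≤ (2.04 * O) * (7 * (1 / 10 ^ 6)) := by
          apply mul_le_mul_of_nonneg_left _ (by positivity)
          linarith
      _ ≤ 0.0001 * O := by nlinarith
  have h2piX : 2 * π * X ≤ 0.001 * O := by nlinarith
  have hup : ∀ a b u : E, Fr a b u → DP₁ u ≤
      (1 / c) * ((∫ θ in (-π)..π, ∫ ψ in (-π)..π, η (Y0 a b u θ ψ)) + 1 / 4 * O + 0.002 * O)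
        - 2 * π * k₁ + 0.0002 * O := by
    intro a b u hfr
    have h1 := (P_diff (by linarith) (by linarith) hn1 hn1' hη1b hfr).1
    have h2 := step_upper hgeh hηeh hηb hX0 hcpos hgood1' hgood g0 g1 hA hfr
    have h3 := (abs_le.1 (htor _ _ (hgood1'.mono g2) (hgood.mono g2) _ O hηeh hηb a b u hfr)).2
    have h4 := (abs_le.1 (hsplit _ a b u hgood1' hfr)).1
    have h5 : (1 / c) * ((∫ θ in (-π)..π, ∫ ψ in (-π)..π, η (Y (tz (F τ z')) (tz z) a b u θ ψ))
        + 2 * π * X + δg ^ 2 * (50 * (O + X))) ≤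
        (1 / c) * ((∫ θ in (-π)..π, ∫ ψ in (-π)..π, η (Y0 a b u θ ψ)) + 1 / 4 * O
          + 0.002 * O) := by
      apply mul_le_mul_of_nonneg_left _ (by positivity)
      linarith
    have h6 : DP₁ u ≤ -(∫ θ in (-π)..π, η₁ (cp a b θ + tz (F τ z') (cp a b θ) u • u))
        + 100 * (27 * δ) * (4.2 * O) := h1
    linarith
  have hlo : ∀ a b u : E, Fr a b u →
      (1 / c) * ((∫ θ in (-π)..π, ∫ ψ in (-π)..π, η (Y0 a b u θ ψ)) - 1 / 4 * O - 0.002 * O)
        - 2 * π * k₁ - 0.0002 * O ≤ DP₁ u := by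
    intro a b u hfr
    have h1 := (P_diff (by linarith) (by linarith) hn1 hn1' hη1b hfr).2
    have h2 := step_upper hgeh.neg hηeh.neg (fun x => by rw [abs_neg]; exact hηb x) hX0 hcpos
      hgood1 hgood' g0 g1 hB hfr
    simp only [intervalIntegral.integral_neg, neg_neg] at h2
    have h3 := (abs_le.1 (htor _ _ (hgood1.mono g2) (hgood'.mono g2) _ O hηeh hηb a b u hfr)).1
    have h4 := (abs_le.1 (hsplit _ a b u hgood1 hfr)).2
    have h5 : (1 / c) * (-(∫ θ in (-π)..π, ∫ ψ in (-π)..π,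
          η (Y (tz (F τ z)) (tz z') a b u θ ψ))
        + 2 * π * X + δg ^ 2 * (50 * (O + X))) ≤
        -((1 / c) * ((∫ θ in (-π)..π, ∫ ψ in (-π)..π, η (Y0 a b u θ ψ)) - 1 / 4 * O
          - 0.002 * O)) := by
      rw [← mul_neg]
      apply mul_le_mul_of_nonneg_left _ (by positivity)
      linarith
    have h6 : -(∫ θ in (-π)..π, η₁ (cp a b θ + tz (F τ z) (cp a b θ) u • u))
        - 100 * (27 * δ) * (4.2 * O) ≤ DP₁ u := h1
    linarith
  refine ⟨fun u hu => (hDP1b u hu).trans (by linarith), 2 * π * k₁,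
    fun a b u hfr => ⟨hup a b u hfr, hlo a b u hfr⟩⟩

theorem torus_sub {η : E → ℝ} (hη : Continuous η) (ρ : E ≃ₗᵢ[ℝ] E) (a b v : E) :
    (∫ θ in (-π)..π, ∫ ψ in (-π)..π, η (Y0 (ρ a) (ρ b) (ρ v) θ ψ))
      - (∫ θ in (-π)..π, ∫ ψ in (-π)..π, η (Y0 a b v θ ψ))
      = ∫ θ in (-π)..π, ∫ ψ in (-π)..π, (fun x => η (ρ x) - η x) (Y0 a b v θ ψ) := by
  have hmap : ∀ θ ψ, Y0 (ρ a) (ρ b) (ρ v) θ ψ = ρ (Y0 a b v θ ψ) := by
    intro θ ψ
    unfold Y0
    rw [map_cp, map_cp]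
  simp only [hmap]
  have hηρ : Continuous fun x => η (ρ x) := hη.comp ρ.continuous
  have i1 : IntervalIntegrable (fun θ => ∫ ψ in (-π)..π, η (ρ (Y0 a b v θ ψ))) volume (-π) π :=
    (continuous_inner_Y0 (a := a) (b := b) (u := v) hηρ).intervalIntegrable _ _
  have i2 : IntervalIntegrable (fun θ => ∫ ψ in (-π)..π, η (Y0 a b v θ ψ)) volume (-π) π :=
    (continuous_inner_Y0 (a := a) (b := b) (u := v) hη).intervalIntegrable _ _
  rw [← intervalIntegral.integral_sub i1 i2]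
  congr 1
  funext θ
  have c1 : Continuous fun ψ : ℝ => Y0 a b v θ ψ := by
    unfold Y0
    exact continuous_cp continuous_const continuous_const continuous_id
  have j1 : IntervalIntegrable (fun ψ => η (ρ (Y0 a b v θ ψ))) volume (-π) π :=
    (hηρ.comp c1).intervalIntegrable _ _
  have j2 : IntervalIntegrable (fun ψ => η (Y0 a b v θ ψ)) volume (-π) π :=
    (hη.comp c1).intervalIntegrable _ _
  rw [← intervalIntegral.integral_sub j1 j2]

theorem F_contr : ∃ δ₀ : ℝ, 0 < δ₀ ∧ ∀ δ : ℝ, 0 < δ → δ ≤ δ₀ → ∀ τ : E → ℝ,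
    TauOK τ (δ / 100) → ∀ z z' : E → ℝ, Cls z (3 * δ) → Cls z' (3 * δ) → ∀ O : ℝ,
      (∀ u v : E, ‖u‖ = 1 → ‖v‖ = 1 → (z' u - z u) - (z' v - z v) ≤ O) →
      ∀ u v : E, ‖u‖ = 1 → ‖v‖ = 1 →
        (F τ (F τ z') u - F τ (F τ z) u) - (F τ (F τ z') v - F τ (F τ z) v) ≤ 19 / 20 * O := by
  obtain ⟨δa, hδa, hcls⟩ := F_cls1
  obtain ⟨δt, hδt, htor⟩ := torus_close (1 / 4) (by norm_num)
  refine ⟨min (δa / 9) (min (δt / 1000) (1 / 10 ^ 10)), by positivity, ?_⟩
  intro δ hδ hδ0 τ hτ z z' hz hz' O hO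
  have d1 : δ ≤ δa / 9 := hδ0.trans (min_le_left _ _)
  have d2 : δ ≤ δt / 1000 := hδ0.trans ((min_le_right _ _).trans (min_le_left _ _))
  have d3 : δ ≤ 1 / 10 ^ 10 := hδ0.trans ((min_le_right _ _).trans (min_le_right _ _))
  have hn : Near z (9 * δ) := by
    have := hz.near (by linarith); rwa [show 3 * (3 * δ) = 9 * δ by ring] at this
  have hn' : Near z' (9 * δ) := by
    have := hz'.near (by linarith); rwa [show 3 * (3 * δ) = 9 * δ by ring] at this
  have hz1 : Cls (F τ z) (9 * δ) := by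
    have := hcls (3 * δ) (by linarith) (by linarith) τ (hτ.mono (by linarith)) z hz
    rwa [show 3 * (3 * δ) = 9 * δ by ring] at this
  have hz1' : Cls (F τ z') (9 * δ) := by
    have := hcls (3 * δ) (by linarith) (by linarith) τ (hτ.mono (by linarith)) z' hz'
    rwa [show 3 * (3 * δ) = 9 * δ by ring] at this
  have hz2' : Cls (F τ (F τ z')) (27 * δ) := by
    have := hcls (9 * δ) (by linarith) (by linarith) τ (hτ.mono (by linarith)) _ hz1'
    rwa [show 3 * (9 * δ) = 27 * δ by ring] at this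
  have hn1 : Near (F τ z) (27 * δ) := by
    have := hz1.near (by linarith); rwa [show 3 * (9 * δ) = 27 * δ by ring] at this
  have hn1' : Near (F τ z') (27 * δ) := by
    have := hz1'.near (by linarith); rwa [show 3 * (9 * δ) = 27 * δ by ring] at this
  set c := P z e3 + τ e3 with hcdef
  set c' := P z' e3 + τ e3 with hc'def
  set c₁ := P (F τ z) e3 + τ e3 with hc1def
  set c₁' := P (F τ z') e3 + τ e3 with hc1'def
  have hcb := abs_le.1 (c_bd (δ := 3 * δ) (by linarith) (by linarith) hz hτ)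
  have hcb' := abs_le.1 (c_bd (δ := 3 * δ) (by linarith) (by linarith) hz' hτ)
  have hc1b := abs_le.1 (c_bd (δ := 9 * δ) (by linarith) (by linarith) hz1 hτ)
  have hc1b' := abs_le.1 (c_bd (δ := 9 * δ) (by linarith) (by linarith) hz1' hτ)
  rw [← hcdef] at hcb
  rw [← hc'def] at hcb'
  rw [← hc1def] at hc1b
  rw [← hc1'def] at hc1b'
  have hpi1 := Real.pi_gt_d6
  have hpi2 := Real.pi_lt_d6
  have hc : 3.14 ≤ c := by linarith [hcb.1]
  have hcu : c ≤ 3.15 := by linarith [hcb.2]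
  have hc' : 3.14 ≤ c' := by linarith [hcb'.1]
  have hc1 : 3.14 ≤ c₁ := by linarith [hc1b.1]
  have hc1' : 3.14 ≤ c₁' := by linarith [hc1b'.1]
  have hcpos : 0 < c := by linarith
  have hc1pos : 0 < c₁ := by linarith
  -- η
  set η : E → ℝ := fun x => z' x - z x with hηdef
  have hηeh : EH η := hz.eh.sub hz'.eh
  have hηinv : Inv η := hz.inv.sub hz'.inv
  have hη3 : η e3 = 0 := by simp only [hηdef, hz.one, hz'.one]; ring
  have hηu : ∀ u : E, ‖u‖ = 1 → |η u| ≤ O := by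
    intro u hu
    have h1 := hO u e3 hu norm_e3
    have h2 := hO e3 u norm_e3 hu
    have h3 : z' e3 - z e3 = 0 := hη3
    rw [abs_le]
    constructor
    · show -O ≤ z' u - z u; linarith
    · show z' u - z u ≤ O; linarith
  have hO0 : 0 ≤ O := (abs_nonneg _).trans (hηu e3 norm_e3)
  have hηb : ∀ x, |η x| ≤ O * ‖x‖ := hηeh.bound_of_unit hηu
  obtain ⟨hDP1b, k, hk⟩ := contr_aux htor hδ d2 d3 hn hn' hz1 hz1' hc hcu hc' hηeh
    (hηeh.bound_of_unit hηu)
  have hηb : ∀ x, |η x| ≤ O * ‖x‖ := hηeh.bound_of_unit hηu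
  set DP₁ : E → ℝ := fun u => P (F τ z') u - P (F τ z) u with hDP1def
  -- comparison at two points
  intro u v hu hv
  obtain ⟨ρ, hρ⟩ := exists_iso hu hv
  obtain ⟨a, b, hfv⟩ := exists_frame hv
  have hfu : Fr (ρ a) (ρ b) u := by
    have := hfv.map ρ; rwa [hρ] at this
  have hround := round_bound (hηeh.sub (hηeh.comp ρ)) (MF_diff hηeh hηinv ρ) (S := O) (by
    apply (hηeh.sub (hηeh.comp ρ)).bound_of_unit
    intro w hw
    have h1 := hO (ρ w) w (by rw [ρ.norm_map, hw]) hw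
    have h2 := hO w (ρ w) hw (by rw [ρ.norm_map, hw])
    rw [abs_le]
    constructor
    · show -O ≤ (z' (ρ w) - z (ρ w)) - (z' w - z w); linarith
    · show (z' (ρ w) - z (ρ w)) - (z' w - z w) ≤ O; linarith) hfv
  have hsub := torus_sub hηeh.cont ρ a b v
  rw [hρ] at hsub
  have hr := (abs_le.1 hround).2
  rw [← hsub] at hr
  have hpisq : 7 / 8 * π ^ 2 ≤ 8.637 := by nlinarith
  have h1 : DP₁ u ≤ _ := (hk _ _ _ hfu).1
  have h2 : _ ≤ DP₁ v := (hk _ _ _ hfv).2
  set Ju := ∫ θ in (-π)..π, ∫ ψ in (-π)..π, η (Y0 (ρ a) (ρ b) u θ ψ) with hJu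
  set Jv := ∫ θ in (-π)..π, ∫ ψ in (-π)..π, η (Y0 a b v θ ψ) with hJv
  have h3 : DP₁ u - DP₁ v ≤ (1 / c) * (9.15 * O) + 0.0004 * O := by
    have h4 : (1 / c) * (Ju + 1 / 4 * O + 0.002 * O) - (1 / c) * (Jv - 1 / 4 * O - 0.002 * O)
        ≤ (1 / c) * (9.15 * O) := by
      rw [← mul_sub]
      apply mul_le_mul_of_nonneg_left _ (by positivity)
      nlinarith
    linarith
  have h3' : DP₁ u - DP₁ v ≤ 2.92 * O := by
    have : (1 / c) * (9.15 * O) ≤ 2.915 * O := by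
      rw [one_div, inv_mul_le_iff₀ hcpos]; nlinarith
    linarith
  have e1 := F_diff (τ := τ) (z := F τ z) (z' := F τ z') hu (by rw [← hc1def]; linarith)
    (by rw [← hc1'def]; linarith)
  have e2 := F_diff (τ := τ) (z := F τ z) (z' := F τ z') hv (by rw [← hc1def]; linarith)
    (by rw [← hc1'def]; linarith)
  rw [e1, e2, ← hc1def]
  have hq : |F τ (F τ z') u - F τ (F τ z') v| ≤ 70 * δ := by
    have a1 := hz2'.abs_le u
    have a2 := hz2'.abs_le v
    rw [hu, mul_one] at a1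
    rw [hv, mul_one] at a2
    have : F τ (F τ z') u - F τ (F τ z') v
        = (F τ (F τ z') u - 1) - (F τ (F τ z') v - 1) := by ring
    rw [this]
    refine (abs_sub _ _).trans ?_
    linarith
  have hq2 : |(F τ (F τ z') u - F τ (F τ z') v) * (DP₁ e3 / c₁)| ≤ 0.0001 * O := by
    rw [abs_mul]
    have b1 : |DP₁ e3 / c₁| ≤ 9 * O := by
      rw [abs_div, abs_of_pos hc1pos, div_le_iff₀ hc1pos]
      have : |DP₁ e3| ≤ 27 * O := hDP1b e3 norm_e3
      nlinarith
    calc |F τ (F τ z') u - F τ (F τ z') v| * |DP₁ e3 / c₁| ≤ (70 * δ) * (9 * O) :=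
          mul_le_mul hq b1 (abs_nonneg _) (by positivity)
      _ ≤ 0.0001 * O := by nlinarith
  have hq3 := (abs_le.1 hq2).1
  have h5 : (DP₁ u - DP₁ v) / c₁ ≤ 0.935 * O := by
    rw [div_le_iff₀ hc1pos]; nlinarith
  have e3' : (P (F τ z') u - P (F τ z) u) / c₁
        - F τ (F τ z') u * ((P (F τ z') e3 - P (F τ z) e3) / c₁)
      - ((P (F τ z') v - P (F τ z) v) / c₁
        - F τ (F τ z') v * ((P (F τ z') e3 - P (F τ z) e3) / c₁))
      = (DP₁ u - DP₁ v) / c₁ - (F τ (F τ z') u - F τ (F τ z') v) * (DP₁ e3 / c₁) := by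
    simp only [hDP1def]; ring
  rw [e3']
  linarith

end PB3
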