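import Pool.Agent.Lib.MP_03c723_gt.Basic
import Pool.Agent.Lib.MP_03c723_gt.Grad
import Pool.Agent.Lib.MP_03c723_gt.Iter1
import Pool.Agent.Lib.MP_03c723_gt.Iter3

/-!
MP_03c723_gt: the fixed point of the normalised map `F τ`.
-/

namespace PB3
open MeasureTheory Real Filter Topology
open scoped InnerProductSpace Pointwise

private theorem fx_norm_e3 : ‖e3‖ = 1 := by
  simp [e3]

private theorem fx_mono {z : E → ℝ} {δ δ' : ℝ} (h : Cls z δ) (hle : δ ≤ δ') : Cls z δ' := by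
  refine ⟨h.eh, h.inv, h.one, fun p q o s x => (h.n2 p q o s x).trans ?_⟩
  exact mul_le_mul_of_nonneg_right (mul_le_mul_of_nonneg_right hle (sq_nonneg s)) (norm_nonneg x)

private theorem fx_cls_norm {δ : ℝ} (hδ : 0 ≤ δ) : Cls (fun x => ‖x‖) δ := by
  refine ⟨⟨continuous_norm, fun c x => ?_⟩, ⟨fun i x => ?_, fun x => ?_⟩, fx_norm_e3,
    fun p q o s x => ?_⟩
  · show ‖c • x‖ = |c| * ‖x‖
    rw [norm_smul, Real.norm_eq_abs]
  · exact (flip i).norm_map x
  · exact cyc.norm_map x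
  · obtain ⟨ρ, h1, h2⟩ := exists_rot o s
    show |‖rotf p q s x‖ + ‖rotf p q (-s) x‖ - 2 * ‖x‖| ≤ _
    rw [← h1, ← h2, ρ.norm_map, ρ.symm.norm_map]
    have : ‖x‖ + ‖x‖ - 2 * ‖x‖ = 0 := by ring
    rw [this, abs_zero]
    exact mul_nonneg (mul_nonneg hδ (sq_nonneg s)) (norm_nonneg x)

private theorem fx_zero {z : E → ℝ} (h : EH z) : z 0 = 0 := by
  have := h.hom 0 0
  simpa using this

private theorem fx_eq_unit {z : E → ℝ} (h : EH z) {x : E} (hx : x ≠ 0) :
    z x = ‖x‖ * z (‖x‖⁻¹ • x) := by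
  have h1 := h.hom ‖x‖ (‖x‖⁻¹ • x)
  rw [smul_smul, mul_inv_cancel₀ (norm_ne_zero_iff.2 hx), one_smul, abs_norm] at h1
  exact h1

private theorem fx_norm_unit {x : E} (hx : x ≠ 0) : ‖(‖x‖⁻¹ • x : E)‖ = 1 := by
  rw [norm_smul, norm_inv, norm_norm, inv_mul_cancel₀ (norm_ne_zero_iff.2 hx)]

private theorem fx_diff_le {z z' : E → ℝ} (h : EH z) (h' : EH z') {S : ℝ}
    (hS : ∀ u : E, ‖u‖ = 1 → |z' u - z u| ≤ S) (x : E) : |z' x - z x| ≤ S * ‖x‖ := by
  by_cases hx : x = 0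
  · rw [hx, fx_zero h, fx_zero h']
    simp
  · rw [fx_eq_unit h hx, fx_eq_unit h' hx, ← mul_sub, abs_mul, abs_norm, mul_comm]
    exact mul_le_mul_of_nonneg_right (hS _ (fx_norm_unit hx)) (norm_nonneg x)

private theorem fx_ext_unit {z z' : E → ℝ} (h : EH z) (h' : EH z')
    (hS : ∀ u : E, ‖u‖ = 1 → z' u = z u) : z' = z := by
  funext x
  have := fx_diff_le h h' (S := 0) (fun u hu => by rw [hS u hu]; simp) x
  rw [zero_mul] at this
  exact sub_eq_zero.1 (abs_nonpos_iff.1 this)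

/-- pointwise limits of functions of the class -/
private theorem fx_cls_lim {zs : ℕ → E → ℝ} {z : E → ℝ} {δ : ℝ} (hδ : 0 < δ) (h : ∀ n, Cls (zs n) δ)
    (hz : ∀ x, Tendsto (fun n => zs n x) atTop (𝓝 (z x))) : Cls z δ := by
  have hlip : ∀ x y, |z x - z y| ≤ (3 * (3 * δ) + 1) * ‖x - y‖ := by
    intro x y
    have h1 : ∀ n, |zs n x - zs n y| ≤ (3 * (3 * δ) + 1) * ‖x - y‖ := by
      intro n
      have h2 := ((h n).near hδ).lip (by positivity) x y
      have h3 := abs_norm_sub_norm_le x y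
      have h4 : zs n x - zs n y = ((zs n x - ‖x‖) - (zs n y - ‖y‖)) + (‖x‖ - ‖y‖) := by ring
      rw [h4]
      refine (abs_add_le _ _).trans ?_
      linarith
    exact le_of_tendsto (((hz x).sub (hz y)).abs) (Eventually.of_forall h1)
  refine ⟨⟨?_, fun c x => ?_⟩, ⟨fun i x => ?_, fun x => ?_⟩, ?_, fun p q o s x => ?_⟩
  · have : LipschitzWith (Real.toNNReal (3 * (3 * δ) + 1)) z := by
      apply LipschitzWith.of_dist_le_mul
      intro x y
      rw [Real.dist_eq, dist_eq_norm, Real.coe_toNNReal _ (by positivity)]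
      exact hlip x y
    exact this.continuous
  · refine tendsto_nhds_unique (hz (c • x)) ?_
    have : (fun n => zs n (c • x)) = fun n => |c| * zs n x := funext fun n => (h n).eh.hom c x
    rw [this]
    exact (hz x).const_mul _
  · refine tendsto_nhds_unique (hz (flip i x)) ?_
    have : (fun n => zs n (flip i x)) = fun n => zs n x := funext fun n => (h n).inv.flip i x
    rw [this]
    exact hz x
  · refine tendsto_nhds_unique (hz (cyc x)) ?_
    have : (fun n => zs n (cyc x)) = fun n => zs n x := funext fun n => (h n).inv.cyc x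
    rw [this]
    exact hz x
  · refine tendsto_nhds_unique (hz e3) ?_
    have : (fun n => zs n e3) = fun _ => (1 : ℝ) := funext fun n => (h n).one
    rw [this]
    exact tendsto_const_nhds
  · exact le_of_tendsto ((((hz _).add (hz _)).sub ((hz x).const_mul 2)).abs)
      (Eventually.of_forall (fun n => (h n).n2 p q o s x))

theorem fixed_point : ∃ δ₀ : ℝ, 0 < δ₀ ∧ ∀ δ : ℝ, 0 < δ → δ ≤ δ₀ →
    ∀ τ : E → ℝ, TauOK τ (δ / 100) →
      ∃ (z : E → ℝ) (c : ℝ), Cls z δ ∧ 0 < c ∧ ∀ u : E, ‖u‖ = 1 → c * z u = P z u + τ u := by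
  obtain ⟨d1, hd1, H1⟩ := F_cls1
  obtain ⟨d2, hd2, H2⟩ := F_cls2
  obtain ⟨d3, hd3, H3⟩ := F_contr
  refine ⟨min (min d1 d2) (min d3 (1 / 300)), by positivity, ?_⟩
  intro δ hδ hδ0 τ hτ
  have hδ1 : δ ≤ d1 := hδ0.trans ((min_le_left _ _).trans (min_le_left _ _))
  have hδ2 : δ ≤ d2 := hδ0.trans ((min_le_left _ _).trans (min_le_right _ _))
  have hδ3 : δ ≤ d3 := hδ0.trans ((min_le_right _ _).trans (min_le_left _ _))
  have hδ4 : δ ≤ 1 / 300 := hδ0.trans ((min_le_right _ _).trans (min_le_right _ _))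
  have C1 := H1 δ hδ hδ1 τ hτ
  have C2 := H2 δ hδ hδ2 τ hτ
  have C3 := H3 δ hδ hδ3 τ hτ
  clear H1 H2 H3
  have h3δ : δ ≤ 3 * δ := by linarith
  have hr0 : (0 : ℝ) ≤ 19 / 20 := by norm_num
  have hr1 : (19 / 20 : ℝ) < 1 := by norm_num
  -- the iteration
  obtain ⟨zs, hzs0, hzs⟩ : ∃ zs : ℕ → E → ℝ, zs 0 = (fun x => ‖x‖) ∧
      ∀ n, zs (n + 1) = F τ (F τ (zs n)) :=
    ⟨fun n => (fun z => F τ (F τ z))^[n] (fun x => ‖x‖), rfl,
      fun n => Function.iterate_succ_apply' _ _ _⟩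
  have hcls : ∀ n, Cls (zs n) δ := by
    intro n
    induction n with
    | zero => rw [hzs0]; exact fx_cls_norm hδ.le
    | succ n ih => rw [hzs]; exact C2 _ ih
  have hosc : ∀ n, ∀ u v : E, ‖u‖ = 1 → ‖v‖ = 1 →
      (zs (n + 1) u - zs n u) - (zs (n + 1) v - zs n v) ≤ 5 / 2 * δ * (19 / 20) ^ n := by
    intro n
    induction n with
    | zero =>
      intro u v hu hv
      have h1 := abs_le.1 ((hcls 1).abs_le u)
      have h2 := abs_le.1 ((hcls 1).abs_le v)
      rw [hu] at h1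
      rw [hv] at h2
      rw [hzs0, zero_add, pow_zero]
      show zs 1 u - ‖u‖ - (zs 1 v - ‖v‖) ≤ 5 / 2 * δ * 1
      rw [hu, hv]
      linarith [h1.1, h1.2, h2.1, h2.2]
    | succ n ih =>
      intro u v hu hv
      have := C3 (zs n) (zs (n + 1)) (fx_mono (hcls n) h3δ) (fx_mono (hcls (n + 1)) h3δ) _ ih u v hu hv
      rw [← hzs n, ← hzs (n + 1)] at this
      rw [pow_succ]
      linarith
  have hdiffu : ∀ n, ∀ u : E, ‖u‖ = 1 → |zs (n + 1) u - zs n u| ≤ 5 / 2 * δ * (19 / 20) ^ n := by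
    intro n u hu
    have h1 := hosc n u e3 hu fx_norm_e3
    have h2 := hosc n e3 u fx_norm_e3 hu
    rw [(hcls n).one, (hcls (n + 1)).one] at h1 h2
    rw [abs_le]
    constructor <;> linarith
  have hdiff : ∀ n, ∀ x : E, |zs (n + 1) x - zs n x| ≤ 5 / 2 * δ * (19 / 20) ^ n * ‖x‖ :=
    fun n x => fx_diff_le (hcls n).eh (hcls (n + 1)).eh (hdiffu n) x
  have hdist : ∀ x n, dist (zs n x) (zs (n + 1) x) ≤ 5 / 2 * δ * ‖x‖ * (19 / 20) ^ n := by
    intro x n
    rw [dist_comm, Real.dist_eq]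
    have := hdiff n x
    linarith
  have hlim : ∀ x, ∃ l, Tendsto (fun n => zs n x) atTop (𝓝 l) := fun x =>
    cauchySeq_tendsto_of_complete (cauchySeq_of_le_geometric _ _ hr1 (hdist x))
  choose z hz using hlim
  have hzc : Cls z δ := fx_cls_lim hδ hcls hz
  have hrate : ∀ n, ∀ u : E, ‖u‖ = 1 → |z u - zs n u| ≤ 50 * δ * (19 / 20) ^ n := by
    intro n u hu
    have h1 := dist_le_of_le_geometric_of_tendsto _ _ hr1 (hdist u) (hz u) n
    rw [dist_comm, Real.dist_eq, hu] at h1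
    refine h1.trans (le_of_eq ?_)
    ring
  -- `z` is a fixed point of the square
  have hzF : F τ (F τ z) = z := by
    apply fx_ext_unit hzc.eh (C2 z hzc).eh
    intro u hu
    have hO : ∀ n, ∀ u v : E, ‖u‖ = 1 → ‖v‖ = 1 →
        (z u - zs n u) - (z v - zs n v) ≤ 100 * δ * (19 / 20) ^ n := by
      intro n u v hu hv
      have h1 := abs_le.1 (hrate n u hu)
      have h2 := abs_le.1 (hrate n v hv)
      linarith [h1.1, h1.2, h2.1, h2.2]
    have hb : ∀ n, |F τ (F τ z) u - zs (n + 1) u| ≤ 19 / 20 * (100 * δ * (19 / 20) ^ n) := by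
      intro n
      have h1 := C3 (zs n) z (fx_mono (hcls n) h3δ) (fx_mono hzc h3δ) _ (hO n) u e3 hu fx_norm_e3
      have h2 := C3 (zs n) z (fx_mono (hcls n) h3δ) (fx_mono hzc h3δ) _ (hO n) e3 u fx_norm_e3 hu
      rw [← hzs n, (C2 z hzc).one, (hcls (n + 1)).one] at h1 h2
      rw [abs_le]
      constructor <;> linarith
    have ht : Tendsto (fun n : ℕ => 19 / 20 * (100 * δ * (19 / 20 : ℝ) ^ n)) atTop (𝓝 0) := by
      have := ((tendsto_pow_atTop_nhds_zero_of_lt_one hr0 hr1).const_mul (100 * δ)).const_mul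
        (19 / 20)
      simpa using this
    have h3 : Tendsto (fun n => F τ (F τ z) u - zs (n + 1) u) atTop (𝓝 0) :=
      squeeze_zero_norm (fun n => by rw [Real.norm_eq_abs]; exact hb n) ht
    have h4 : Tendsto (fun n => F τ (F τ z) u - zs (n + 1) u) atTop
        (𝓝 (F τ (F τ z) u - z u)) :=
      tendsto_const_nhds.sub ((tendsto_add_atTop_iff_nat 1).2 (hz u))
    exact sub_eq_zero.1 (tendsto_nhds_unique h4 h3)
  -- `z` is a fixed point
  have hz'c : Cls (F τ z) (3 * δ) := C1 z hzc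
  have hz'F : F τ (F τ (F τ z)) = F τ z := by rw [hzF]
  have hO' : ∀ n : ℕ, ∀ u v : E, ‖u‖ = 1 → ‖v‖ = 1 →
      (F τ z u - z u) - (F τ z v - z v) ≤ 10 * δ * (19 / 20) ^ n := by
    intro n
    induction n with
    | zero =>
      intro u v hu hv
      have h1 := abs_le.1 (hz'c.abs_le u)
      have h2 := abs_le.1 (hz'c.abs_le v)
      have h3 := abs_le.1 (hzc.abs_le u)
      have h4 := abs_le.1 (hzc.abs_le v)
      rw [hu] at h1 h3
      rw [hv] at h2 h4
      rw [pow_zero]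
      linarith [h1.1, h1.2, h2.1, h2.2, h3.1, h3.2, h4.1, h4.2]
    | succ n ih =>
      intro u v hu hv
      have := C3 z (F τ z) (fx_mono hzc h3δ) hz'c _ ih u v hu hv
      rw [hzF] at this
      rw [pow_succ]
      linarith
  have hO0 : ∀ u v : E, ‖u‖ = 1 → ‖v‖ = 1 → (F τ z u - z u) - (F τ z v - z v) ≤ 0 := by
    intro u v hu hv
    have ht : Tendsto (fun n : ℕ => 10 * δ * (19 / 20 : ℝ) ^ n) atTop (𝓝 0) := by
      have := (tendsto_pow_atTop_nhds_zero_of_lt_one hr0 hr1).const_mul (10 * δ)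
      simpa using this
    exact ge_of_tendsto ht (Eventually.of_forall (fun n => hO' n u v hu hv))
  have hfix : ∀ u : E, ‖u‖ = 1 → F τ z u = z u := by
    intro u hu
    have h1 := hO0 u e3 hu fx_norm_e3
    have h2 := hO0 e3 u fx_norm_e3 hu
    rw [hz'c.one, hzc.one] at h1 h2
    linarith
  -- conclusion
  have hP := P_bd (by positivity) (by linarith) (hzc.near hδ) fx_norm_e3
  have hc : 0 < P z e3 + τ e3 := by
    have h1 := (abs_le.1 hP).1
    have h2 := (abs_le.1 hτ.e3).1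
    have h3 := Real.pi_gt_three
    linarith
  refine ⟨z, P z e3 + τ e3, hzc, hc, fun u hu => ?_⟩
  have h1 := hfix u hu
  have h2 : F τ z u = (P z u + τ u) / (P z e3 + τ e3) := by
    unfold F
    rw [hu, inv_one, one_smul, one_mul]
  rw [h2] at h1
  rw [← h1]
  field_simp

end PB3
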