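import Pool.Agent.Lib.MP_03c723_gt.D2Def

/-!
MP_03c723_gt, `Moment`: differences `η ∘ ρ - η` of an invariant even one-homogeneous function
have no Gaussian moments of degree `0` and `2`.
-/

namespace PB3
open MeasureTheory Real
open scoped InnerProductSpace

namespace MomentAux

theorem flip_apply (i j : Fin 3) (x : E) : flip i x j = if j = i then - x j else x j := by
  have h : flip i x = x - (2 : ℝ) • (x i) • (EuclideanSpace.single i (1 : ℝ) : E) := by
    unfold PB3.flip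
    rw [Submodule.reflection_orthogonal_apply, Submodule.reflection_singleton_apply]
    simp only [EuclideanSpace.inner_single_left, map_one, one_mul, PiLp.norm_single,
      norm_one, RCLike.ofReal_real_eq_id, id, one_pow, div_one]
    rw [two_smul, two_smul]
    abel
  rw [h]
  by_cases hji : j = i
  · subst hji
    simp
    ring
  · simp [hji]

theorem cyc_apply (x : E) (j : Fin 3) : cyc x (j + 1) = x j := by
  unfold PB3.cyc
  rw [LinearIsometryEquiv.piLpCongrLeft_apply]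
  rw [Equiv.piCongrLeft'_apply]
  have : (finRotate 3).symm (j + 1) = j := by
    rw [Equiv.symm_apply_eq, finRotate_succ_apply]
  rw [this]

theorem bound {η : E → ℝ} (hη : EH η) : ∃ C : ℝ, 0 ≤ C ∧ ∀ x, |η x| ≤ C * ‖x‖ := by
  obtain ⟨C, hC⟩ := (isCompact_closedBall (0 : E) 1).exists_bound_of_continuousOn
    hη.cont.continuousOn
  have hC0 : 0 ≤ C := le_trans (norm_nonneg _) (hC 0 (by simp))
  refine ⟨C, hC0, fun x => ?_⟩
  by_cases hx : x = 0
  · subst hx
    have := hη.hom 0 0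
    simp at this
    simp [this]
  · have hx' : 0 < ‖x‖ := norm_pos_iff.2 hx
    have h1 : η x = ‖x‖ * η (‖x‖⁻¹ • x) := by
      have := hη.hom ‖x‖ (‖x‖⁻¹ • x)
      rw [smul_smul, mul_inv_cancel₀ hx'.ne', one_smul, abs_norm] at this
      exact this
    have h2 : ‖η (‖x‖⁻¹ • x)‖ ≤ C := by
      apply hC
      simp [norm_smul, hx]
    rw [h1, abs_mul, abs_norm, mul_comm]
    exact mul_le_mul_of_nonneg_right h2 hx'.le

theorem cube_exp (t : ℝ) (ht : 0 ≤ t) : t ^ 3 * Real.exp (-t ^ 2) ≤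
    4 * Real.exp (-(1 / 2) * t ^ 2) := by
  have h1 := Real.quadratic_le_exp_of_nonneg (x := t ^ 2 / 2) (by positivity)
  have h2 : t ^ 3 ≤ 4 * Real.exp (t ^ 2 / 2) := by
    nlinarith [mul_nonneg ht (sq_nonneg (t - 1)), sq_nonneg (t ^ 2 - 1), sq_nonneg (t - 1),
      sq_nonneg t, sq_nonneg (t ^ 2), mul_nonneg (sq_nonneg t) (sq_nonneg (t - 1))]
  have h3 : Real.exp (-(1 / 2) * t ^ 2) = Real.exp (t ^ 2 / 2) * Real.exp (-t ^ 2) := by
    rw [← Real.exp_add]
    ring_nf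
  rw [h3, ← mul_assoc]
  exact mul_le_mul_of_nonneg_right h2 (Real.exp_pos _).le

theorem gauss_int : Integrable (fun x : E => 4 * Real.exp (-(1 / 2) * ‖x‖ ^ 2)) := by
  have h := (GaussianFourier.integrable_cexp_neg_mul_sq_norm_add (V := E)
    (b := ((1 / 2 : ℝ) : ℂ)) (by norm_num) 0 0).norm
  refine (Integrable.congr h ?_).const_mul 4
  filter_upwards with x
  rw [Complex.norm_exp]
  congr 1
  have : (-((1 / 2 : ℝ) : ℂ) * ((‖x‖ : ℝ) : ℂ) ^ 2 + 0 * ((inner ℝ (0 : E) x : ℝ) : ℂ))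
      = ((-(1 / 2) * ‖x‖ ^ 2 : ℝ) : ℂ) := by
    push_cast
    ring
  rw [this, Complex.ofReal_re]

theorem integrable {η : E → ℝ} (hη : EH η) (i j : Fin 3) :
    Integrable (fun x : E => η x * (x i * x j) * Real.exp (-‖x‖ ^ 2)) := by
  obtain ⟨C, hC0, hC⟩ := bound hη
  refine Integrable.mono' (gauss_int.const_mul C) ?_ ?_
  · have : Continuous (fun x : E => η x * (x i * x j) * Real.exp (-‖x‖ ^ 2)) := by
      have := hη.cont
      fun_prop
    exact this.aestronglyMeasurable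
  · filter_upwards with x
    rw [Real.norm_eq_abs, abs_mul, abs_mul, abs_mul, Real.abs_exp]
    have h1 := hC x
    have h2 : ∀ i : Fin 3, |x i| ≤ ‖x‖ := fun i => by
      simpa using EuclideanSpace.norm_eq x ▸ (PiLp.norm_apply_le x i)
    have h3 := cube_exp ‖x‖ (norm_nonneg _)
    have h4 : |x i| * |x j| ≤ ‖x‖ * ‖x‖ :=
      mul_le_mul (h2 i) (h2 j) (abs_nonneg _) (norm_nonneg _)
    have h5 : |η x| * (|x i| * |x j|) ≤ C * ‖x‖ * (‖x‖ * ‖x‖) :=
      mul_le_mul h1 h4 (by positivity) (by positivity)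
    calc |η x| * (|x i| * |x j|) * Real.exp (-‖x‖ ^ 2)
        ≤ C * ‖x‖ * (‖x‖ * ‖x‖) * Real.exp (-‖x‖ ^ 2) :=
          mul_le_mul_of_nonneg_right h5 (Real.exp_pos _).le
      _ = C * (‖x‖ ^ 3 * Real.exp (-‖x‖ ^ 2)) := by ring
      _ ≤ C * (4 * Real.exp (-(1 / 2) * ‖x‖ ^ 2)) := mul_le_mul_of_nonneg_left h3 hC0

/-- change of variables by an isometry -/
theorem change (ρ : E ≃ₗᵢ[ℝ] E) (g : E → ℝ) : ∫ x, g (ρ x) = ∫ x, g x :=
  ρ.measurePreserving.integral_comp ρ.toHomeomorph.measurableEmbedding g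

/-- the moment -/
noncomputable def mom (η : E → ℝ) (i j : Fin 3) : ℝ :=
  ∫ x : E, η x * (x i * x j) * Real.exp (-‖x‖ ^ 2)

theorem mom_off {η : E → ℝ} (hi : Inv η) {i j : Fin 3} (hij : i ≠ j) : mom η i j = 0 := by
  have h := change (flip i) (fun x => η x * (x i * x j) * Real.exp (-‖x‖ ^ 2))
  have h2 : ∀ x : E, (fun x => η x * (x i * x j) * Real.exp (-‖x‖ ^ 2)) (flip i x)
      = - (η x * (x i * x j) * Real.exp (-‖x‖ ^ 2)) := by
    intro x
    simp only [hi.flip, LinearIsometryEquiv.norm_map, flip_apply]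
    rw [if_pos trivial, if_neg (Ne.symm hij)]
    ring
  simp only [h2, integral_neg] at h
  unfold mom
  linarith

theorem mom_diag {η : E → ℝ} (hi : Inv η) (i : Fin 3) : mom η (i + 1) (i + 1) = mom η i i := by
  have h := change cyc (fun x => η x * (x (i + 1) * x (i + 1)) * Real.exp (-‖x‖ ^ 2))
  unfold mom
  rw [← h]
  simp only [hi.cyc, LinearIsometryEquiv.norm_map, cyc_apply]

theorem mom_eq {η : E → ℝ} (hi : Inv η) (i j : Fin 3) :
    mom η i j = if i = j then mom η 0 0 else 0 := by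
  by_cases h : i = j
  · subst h
    rw [if_pos rfl]
    have h1 := mom_diag hi 0
    have h2 := mom_diag hi 1
    fin_cases i
    · rfl
    · exact h1
    · exact h2.trans h1
  · rw [if_neg h]
    exact mom_off hi h

theorem coord (ρ : E ≃ₗᵢ[ℝ] E) (i : Fin 3) (y : E) :
    (ρ.symm y) i = ∑ k, (ρ (EuclideanSpace.single i 1)) k * y k := by
  have h1 : (ρ.symm y) i = ⟪(EuclideanSpace.single i 1 : E), ρ.symm y⟫_ℝ := by
    rw [EuclideanSpace.inner_single_left]
    simp
  rw [h1, ← LinearIsometryEquiv.inner_map_eq_flip, PiLp.inner_apply]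
  refine Finset.sum_congr rfl fun k _ => ?_
  simp [mul_comm]

theorem mom_comp {η : E → ℝ} (hη : EH η) (hi : Inv η) (ρ : E ≃ₗᵢ[ℝ] E) (i j : Fin 3) :
    ∫ x : E, η (ρ x) * (x i * x j) * Real.exp (-‖x‖ ^ 2) = mom η i j := by
  have h := change ρ (fun y => η y * ((ρ.symm y) i * (ρ.symm y) j) * Real.exp (-‖y‖ ^ 2))
  simp only [LinearIsometryEquiv.symm_apply_apply, LinearIsometryEquiv.norm_map] at h
  rw [h]
  have h2 : ∀ y : E, η y * ((ρ.symm y) i * (ρ.symm y) j) * Real.exp (-‖y‖ ^ 2)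
      = ∑ k, ∑ l, ((ρ (EuclideanSpace.single i 1)) k * (ρ (EuclideanSpace.single j 1)) l) *
        (η y * (y k * y l) * Real.exp (-‖y‖ ^ 2)) := by
    intro y
    rw [coord, coord, Finset.sum_mul_sum, Finset.mul_sum, Finset.sum_mul]
    refine Finset.sum_congr rfl fun k _ => ?_
    rw [Finset.mul_sum, Finset.sum_mul]
    refine Finset.sum_congr rfl fun l _ => ?_
    ring
  simp only [h2]
  rw [integral_finsetSum _ (fun k _ => integrable_finsetSum _ fun l _ =>
    (integrable hη k l).const_mul _)]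
  have h3 : ∀ k : Fin 3, ∫ y : E, ∑ l,
      ((ρ (EuclideanSpace.single i 1)) k * (ρ (EuclideanSpace.single j 1)) l) *
        (η y * (y k * y l) * Real.exp (-‖y‖ ^ 2))
      = (ρ (EuclideanSpace.single i 1)) k * (ρ (EuclideanSpace.single j 1)) k * mom η 0 0 := by
    intro k
    rw [integral_finsetSum _ (fun l _ => (integrable hη k l).const_mul _)]
    rw [Finset.sum_eq_single k]
    · rw [integral_const_mul]
      congr 1
      have := mom_eq hi k k
      rw [if_pos rfl] at this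
      exact this
    · intro l _ hl
      rw [integral_const_mul]
      have := mom_eq hi k l
      rw [if_neg (Ne.symm hl)] at this
      unfold mom at this
      rw [this, mul_zero]
    · simp
  simp only [h3]
  rw [← Finset.sum_mul, mom_eq hi i j]
  have h4 : ∑ k, (ρ (EuclideanSpace.single i 1)) k * (ρ (EuclideanSpace.single j 1)) k
      = ⟪ρ (EuclideanSpace.single i 1 : E), ρ (EuclideanSpace.single j 1 : E)⟫_ℝ := by
    rw [PiLp.inner_apply]
    refine Finset.sum_congr rfl fun k _ => ?_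
    simp [mul_comm]
  rw [h4, LinearIsometryEquiv.inner_map_map, EuclideanSpace.inner_single_left]
  by_cases hij : i = j
  · subst hij
    simp
  · simp [hij]

theorem rotf_eq (p q : E) (s : ℝ) (x : E) :
    rotf p q s x = x + ((Real.cos s - 1) * ⟪p, x⟫_ℝ - Real.sin s * ⟪q, x⟫_ℝ) • p
      + ((Real.cos s - 1) * ⟪q, x⟫_ℝ + Real.sin s * ⟪p, x⟫_ℝ) • q := by
  unfold rotf
  module

theorem inner_p {p q : E} (h : OP p q) (s : ℝ) (x : E) :
    ⟪p, rotf p q s x⟫_ℝ = Real.cos s * ⟪p, x⟫_ℝ - Real.sin s * ⟪q, x⟫_ℝ := by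
  rw [rotf_eq]
  simp only [inner_add_right, inner_smul_right, real_inner_self_eq_norm_sq, h.nw, h.wu]
  ring

theorem inner_q {p q : E} (h : OP p q) (s : ℝ) (x : E) :
    ⟪q, rotf p q s x⟫_ℝ = Real.cos s * ⟪q, x⟫_ℝ + Real.sin s * ⟪p, x⟫_ℝ := by
  rw [rotf_eq]
  have h2 : ⟪q, p⟫_ℝ = 0 := by rw [real_inner_comm]; exact h.wu
  simp only [inner_add_right, inner_smul_right, real_inner_self_eq_norm_sq, h.nu, h2]
  ring

theorem rot_inv {p q : E} (h : OP p q) (s : ℝ) (x : E) :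
    rotf p q (-s) (rotf p q s x) = x := by
  rw [rotf_eq p q (-s), inner_p h, inner_q h, rotf_eq p q s, Real.cos_neg, Real.sin_neg]
  have h1 := Real.sin_sq_add_cos_sq s
  have e1 : (Real.cos s - 1) * ⟪p, x⟫_ℝ - Real.sin s * ⟪q, x⟫_ℝ +
      ((Real.cos s - 1) * (Real.cos s * ⟪p, x⟫_ℝ - Real.sin s * ⟪q, x⟫_ℝ)
        - -Real.sin s * (Real.cos s * ⟪q, x⟫_ℝ + Real.sin s * ⟪p, x⟫_ℝ)) = 0 := by
    linear_combination ⟪p, x⟫_ℝ * h1
  have e2 : (Real.cos s - 1) * ⟪q, x⟫_ℝ + Real.sin s * ⟪p, x⟫_ℝ +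
      ((Real.cos s - 1) * (Real.cos s * ⟪q, x⟫_ℝ + Real.sin s * ⟪p, x⟫_ℝ)
        + -Real.sin s * (Real.cos s * ⟪p, x⟫_ℝ - Real.sin s * ⟪q, x⟫_ℝ)) = 0 := by
    linear_combination ⟪q, x⟫_ℝ * h1
  generalize (Real.cos s - 1) * ⟪p, x⟫_ℝ - Real.sin s * ⟪q, x⟫_ℝ = A at *
  generalize (Real.cos s - 1) * ⟪q, x⟫_ℝ + Real.sin s * ⟪p, x⟫_ℝ = B at *
  generalize ((Real.cos s - 1) * (Real.cos s * ⟪p, x⟫_ℝ - Real.sin s * ⟪q, x⟫_ℝ)
        - -Real.sin s * (Real.cos s * ⟪q, x⟫_ℝ + Real.sin s * ⟪p, x⟫_ℝ)) = A' at *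
  generalize ((Real.cos s - 1) * (Real.cos s * ⟪q, x⟫_ℝ + Real.sin s * ⟪p, x⟫_ℝ)
        + -Real.sin s * (Real.cos s * ⟪p, x⟫_ℝ - Real.sin s * ⟪q, x⟫_ℝ)) = B' at *
  have hA : A' = -A := by linarith
  have hB : B' = -B := by linarith
  rw [hA, hB]
  module

theorem rot_norm {p q : E} (h : OP p q) (s : ℝ) (x : E) : ‖rotf p q s x‖ = ‖x‖ := by
  have h2 : ⟪q, p⟫_ℝ = 0 := by rw [real_inner_comm]; exact h.wu
  have h1 : ‖rotf p q s x‖ ^ 2 = ‖x‖ ^ 2 := by
    rw [← real_inner_self_eq_norm_sq, ← real_inner_self_eq_norm_sq]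
    conv_lhs => rw [rotf_eq]
    simp only [inner_add_right, inner_add_left, inner_smul_right, inner_smul_left,
      real_inner_self_eq_norm_sq, h.nw, h.nu, h.wu, h2, real_inner_comm p x,
      real_inner_comm q x, map_sub, map_add, map_mul, conj_trivial]
    have := Real.sin_sq_add_cos_sq s
    linear_combination (⟪p, x⟫_ℝ ^ 2 + ⟪q, x⟫_ℝ ^ 2) * this
  exact (sq_eq_sq₀ (norm_nonneg _) (norm_nonneg _)).1 h1

/-- the rotation as a linear isometry equivalence -/
theorem exists_rot {p q : E} (h : OP p q) (s : ℝ) :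
    ∃ ρ : E ≃ₗᵢ[ℝ] E, (∀ x, ρ x = rotf p q s x) ∧ (∀ x, ρ.symm x = rotf p q (-s) x) := by
  refine ⟨{ toFun := rotf p q s
            invFun := rotf p q (-s)
            map_add' := ?_
            map_smul' := ?_
            left_inv := fun x => rot_inv h s x
            right_inv := fun x => by
              have := rot_inv h (-s) x
              rwa [neg_neg] at this
            norm_map' := fun x => rot_norm h s x }, fun x => rfl, fun x => rfl⟩
  · intro x y
    simp only [rotf, inner_add_right]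
    module
  · intro c x
    simp only [rotf, inner_smul_right, RingHom.id_apply]
    module

end MomentAux

open MomentAux in
theorem MF_diff {η : E → ℝ} (hη : EH η) (hi : Inv η) (ρ : E ≃ₗᵢ[ℝ] E) :
    MF (fun x => η (ρ x) - η x) := by
  intro i j
  have h1 : ∀ x : E, (η (ρ x) - η x) * (x i * x j) * Real.exp (-‖x‖ ^ 2)
      = η (ρ x) * (x i * x j) * Real.exp (-‖x‖ ^ 2) - η x * (x i * x j) * Real.exp (-‖x‖ ^ 2) := by
    intro x
    ring
  simp only [h1]
  have hρ : EH (fun x => η (ρ x)) :=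
    ⟨hη.cont.comp ρ.continuous, fun c x => by simp only [map_smul, hη.hom]⟩
  rw [integral_sub (integrable hρ i j) (integrable hη i j), mom_comp hη hi ρ i j]
  unfold mom
  ring

open MomentAux in
theorem MF_D2 {η : E → ℝ} (hη : EH η) (hi : Inv η) {p q : E} (o : OP p q) (s : ℝ) :
    MF (D2 p q s η) := by
  obtain ⟨ρ, h1, h2⟩ := exists_rot o s
  intro i j
  have e1 : ∀ x : E, D2 p q s η x * (x i * x j) * Real.exp (-‖x‖ ^ 2)
      = (η (ρ x) - η x) * (x i * x j) * Real.exp (-‖x‖ ^ 2)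
        + (η (ρ.symm x) - η x) * (x i * x j) * Real.exp (-‖x‖ ^ 2) := by
    intro x
    rw [h1, h2]
    unfold D2
    ring
  have hρ : ∀ ρ : E ≃ₗᵢ[ℝ] E, Integrable
      (fun x : E => (η (ρ x) - η x) * (x i * x j) * Real.exp (-‖x‖ ^ 2)) := by
    intro ρ
    have hρ : EH (fun x => η (ρ x) - η x) :=
      ⟨(hη.cont.comp ρ.continuous).sub hη.cont, fun c x => by
        simp only [map_smul, hη.hom]
        ring⟩
    exact integrable hρ i j
  simp only [e1]
  rw [integral_add (hρ ρ) (hρ ρ.symm)]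
  have m1 := MF_diff hη hi ρ i j
  have m2 := MF_diff hη hi ρ.symm i j
  rw [m1, m2, add_zero]

end PB3
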