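import Mathlib
import Pool.Agent.Lib.MP_03c723_gt.Defs

/-!
# Spherical coordinates

For a continuous, positively 3-homogeneous function `φ` on `E` with
`∫ φ x * exp (-‖x‖ ^ 2) = 0`, the integral of `φ` over the unit sphere
(written in spherical coordinates with axis `u`) vanishes.
-/

namespace PB3

open MeasureTheory Real Set
open scoped InnerProductSpace

/-- coordinates in the frame `(a, b, u)` -/
noncomputable def sphT (a b u : E) (p : ℝ × (ℝ × ℝ)) : E := p.1 • u + (p.2.1 • a + p.2.2 • b)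

theorem sphT_norm_sq {a b u : E} (h : Fr a b u) (p : ℝ × (ℝ × ℝ)) :
    ‖sphT a b u p‖ ^ 2 = p.1 ^ 2 + (p.2.1 ^ 2 + p.2.2 ^ 2) := by
  have hba : ⟪b, a⟫_ℝ = 0 := by rw [real_inner_comm]; exact h.ab
  have hua : ⟪u, a⟫_ℝ = 0 := by rw [real_inner_comm]; exact h.au
  have hub : ⟪u, b⟫_ℝ = 0 := by rw [real_inner_comm]; exact h.bu
  have haa : ⟪a, a⟫_ℝ = 1 := by rw [real_inner_self_eq_norm_sq, h.na]; norm_num
  have hbb : ⟪b, b⟫_ℝ = 1 := by rw [real_inner_self_eq_norm_sq, h.nb]; norm_num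
  have huu : ⟪u, u⟫_ℝ = 1 := by rw [real_inner_self_eq_norm_sq, h.nu]; norm_num
  rw [← real_inner_self_eq_norm_sq]
  simp only [sphT, inner_add_left, inner_add_right, real_inner_smul_left, real_inner_smul_right,
    haa, hbb, huu, h.ab, h.au, h.bu, hba, hua, hub]
  ring

theorem sphT_continuous (a b u : E) : Continuous (sphT a b u) := by
  unfold sphT
  fun_prop

theorem sphT_injective {a b u : E} (h : Fr a b u) : Function.Injective (sphT a b u) := by
  intro p q hpq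
  have h1 : sphT a b u (p - q) = 0 := by
    have : sphT a b u (p - q) = sphT a b u p - sphT a b u q := by
      simp only [sphT, Prod.fst_sub, Prod.snd_sub, sub_smul]
      abel
    rw [this, hpq, sub_self]
  have h2 := sphT_norm_sq h (p - q)
  rw [h1, norm_zero] at h2
  have h3 : (p - q).1 = 0 := by nlinarith [sq_nonneg (p - q).1, sq_nonneg (p - q).2.1, sq_nonneg (p - q).2.2]
  have h4 : (p - q).2.1 = 0 := by nlinarith [sq_nonneg (p - q).1, sq_nonneg (p - q).2.1, sq_nonneg (p - q).2.2]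
  have h5 : (p - q).2.2 = 0 := by nlinarith [sq_nonneg (p - q).1, sq_nonneg (p - q).2.1, sq_nonneg (p - q).2.2]
  apply sub_eq_zero.mp
  exact Prod.ext h3 (Prod.ext h4 h5)

theorem sphT_measurePreserving {a b u : E} (h : Fr a b u) :
    MeasurePreserving (sphT a b u) volume volume := by
  have hba : ⟪b, a⟫_ℝ = 0 := by rw [real_inner_comm]; exact h.ab
  have hua : ⟪u, a⟫_ℝ = 0 := by rw [real_inner_comm]; exact h.au
  have hub : ⟪u, b⟫_ℝ = 0 := by rw [real_inner_comm]; exact h.bu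
  have hon : Orthonormal ℝ ![a, b, u] := by
    rw [orthonormal_iff_ite]
    intro i j
    fin_cases i <;> fin_cases j <;>
      simp [h.na, h.nb, h.nu, h.ab, h.au, h.bu, hba, hua, hub]
  obtain ⟨B, hB⟩ := (Orthonormal.exists_orthonormalBasis_extension_of_card_eq
    (ι := Fin 3) (𝕜 := ℝ) (E := E) (by simp) (v := ![a, b, u]) (s := Set.univ)
    (hon.comp _ Subtype.val_injective))
  have hB0 : B 0 = a := hB 0 (Set.mem_univ _)
  have hB1 : B 1 = b := hB 1 (Set.mem_univ _)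
  have hB2 : B 2 = u := hB 2 (Set.mem_univ _)
  have m1 : MeasurePreserving (Prod.map (id : ℝ → ℝ) (MeasurableEquiv.finTwoArrow (α := ℝ)).symm)
      (volume : Measure (ℝ × (ℝ × ℝ))) (volume : Measure (ℝ × (Fin 2 → ℝ))) :=
    (MeasurePreserving.id volume).prod (volume_preserving_finTwoArrow ℝ).symm
  have m2 : MeasurePreserving (MeasurableEquiv.piFinSuccAbove (fun _ : Fin 3 => ℝ) 2).symm
      volume volume :=
    (volume_preserving_piFinSuccAbove (fun _ : Fin 3 => ℝ) 2).symm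
  have m3 := PiLp.volume_preserving_toLp (Fin 3)
  have m4 := B.measurePreserving_repr_symm
  have m := m4.comp (m3.comp (m2.comp m1))
  convert m using 1
  funext p
  rw [Function.comp_apply, Function.comp_apply, Function.comp_apply]
  rw [← OrthonormalBasis.sum_repr_symm]
  rw [Fin.sum_univ_three, hB0, hB1, hB2]
  have e0 : Fin.insertNth (α := fun _ : Fin 3 => ℝ) 2 p.1 ![p.2.1, p.2.2] 0 = p.2.1 :=
    Fin.insertNth_apply_succAbove (α := fun _ : Fin 3 => ℝ) 2 p.1 ![p.2.1, p.2.2] 0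
  have e1 : Fin.insertNth (α := fun _ : Fin 3 => ℝ) 2 p.1 ![p.2.1, p.2.2] 1 = p.2.2 :=
    Fin.insertNth_apply_succAbove (α := fun _ : Fin 3 => ℝ) 2 p.1 ![p.2.1, p.2.2] 1
  simp [sphT, e0, e1]
  abel

theorem sph_cube_bound {φ : E → ℝ} (hc : Continuous φ)
    (hh : ∀ (c : ℝ) (x : E), 0 ≤ c → φ (c • x) = c ^ 3 * φ x) :
    ∃ M : ℝ, 0 ≤ M ∧ ∀ x, |φ x| ≤ M * ‖x‖ ^ 3 := by
  obtain ⟨M, hM⟩ := (isCompact_sphere (0 : E) 1).exists_bound_of_continuousOn hc.continuousOn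
  have hφ0 : φ 0 = 0 := by
    have := hh 0 0 le_rfl
    simpa using this
  refine ⟨max M 0, le_max_right _ _, fun x => ?_⟩
  by_cases hx : x = 0
  · subst hx
    simp [hφ0]
  · have hn : 0 < ‖x‖ := norm_pos_iff.mpr hx
    have h1 : φ x = ‖x‖ ^ 3 * φ (‖x‖⁻¹ • x) := by
      rw [← hh _ _ hn.le, smul_smul, mul_inv_cancel₀ hn.ne', one_smul]
    have h2 := hM (‖x‖⁻¹ • x) (by simp [norm_smul, hn.ne'])
    rw [Real.norm_eq_abs] at h2
    rw [h1, abs_mul, abs_of_nonneg (by positivity : (0 : ℝ) ≤ ‖x‖ ^ 3), mul_comm]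
    exact mul_le_mul_of_nonneg_right (h2.trans (le_max_left _ _)) (by positivity)

theorem exp_half_ge (t : ℝ) (ht : 0 ≤ t) : 1 + t + t ^ 2 / 2 ≤ Real.exp t :=
  Real.quadratic_le_exp_of_nonneg ht

theorem sph_int_gauss {c : ℝ} (hc : 0 < c) : Integrable (fun x : ℝ => Real.exp (-c * x ^ 2)) :=
  integrable_exp_neg_mul_sq hc

/-- the radial constant is positive -/
theorem sph_radial : 0 < ∫ ρ in Ioi (0 : ℝ), ρ ^ 5 * Real.exp (-ρ ^ 2) := by
  have h := integral_rpow_mul_exp_neg_rpow (p := 2) (q := 5) (by norm_num) (by norm_num)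
  have h2 : ∫ ρ in Ioi (0 : ℝ), ρ ^ 5 * Real.exp (-ρ ^ 2)
      = ∫ x in Ioi (0 : ℝ), x ^ (5 : ℝ) * Real.exp (-x ^ (2 : ℝ)) := by
    apply setIntegral_congr_fun measurableSet_Ioi
    intro x _
    simp only
    rw [show (5 : ℝ) = ((5 : ℕ) : ℝ) by norm_num, Real.rpow_natCast]
    rw [show (2 : ℝ) = ((2 : ℕ) : ℝ) by norm_num, Real.rpow_natCast]
  rw [h2, h]
  have : 0 < Real.Gamma ((5 + 1) / 2) := Real.Gamma_pos_of_pos (by norm_num)
  positivity

theorem sph_half {φ : E → ℝ} (hh : ∀ (c : ℝ) (x : E), 0 ≤ c → φ (c • x) = c ^ 3 * φ x)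
    (w u : E) :
    ∫ q in ((univ : Set ℝ) ×ˢ Ioi (0 : ℝ)),
        q.2 * (φ (q.1 • u + q.2 • w) * Real.exp (-(q.1 ^ 2 + q.2 ^ 2)))
      = (∫ ρ in Ioi (0 : ℝ), ρ ^ 5 * Real.exp (-ρ ^ 2)) *
        ∫ ψ in Ioo (0 : ℝ) π, φ (Real.sin ψ • w + Real.cos ψ • u) * Real.sin ψ := by
  rw [← integral_indicator (MeasurableSet.univ.prod measurableSet_Ioi),
    ← integral_comp_polarCoord_symm]
  have key : ∀ p ∈ polarCoord.target,
      p.1 • ((univ : Set ℝ) ×ˢ Ioi (0 : ℝ)).indicator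
        (fun q : ℝ × ℝ => q.2 * (φ (q.1 • u + q.2 • w) * Real.exp (-(q.1 ^ 2 + q.2 ^ 2))))
        (polarCoord.symm p)
      = (Ioi (0 : ℝ) ×ˢ Ioo (0 : ℝ) π).indicator
        (fun q : ℝ × ℝ => (q.1 ^ 5 * Real.exp (-q.1 ^ 2)) *
          (φ (Real.sin q.2 • w + Real.cos q.2 • u) * Real.sin q.2)) p := by
    rintro ⟨ρ, ψ⟩ hp
    rw [polarCoord_target, mem_prod] at hp
    obtain ⟨hρ, hψ⟩ := hp
    simp only [mem_Ioi, mem_Ioo] at hρ hψ
    rw [polarCoord_symm_apply]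
    by_cases h0 : 0 < ψ
    · have hs : 0 < Real.sin ψ := Real.sin_pos_of_pos_of_lt_pi h0 hψ.2
      rw [indicator_of_mem, indicator_of_mem]
      · simp only [smul_eq_mul]
        have e1 : (ρ * Real.cos ψ) • u + (ρ * Real.sin ψ) • w
            = ρ • (Real.sin ψ • w + Real.cos ψ • u) := by
          rw [smul_add, smul_smul, smul_smul, add_comm]
        have e2 : (ρ * Real.cos ψ) ^ 2 + (ρ * Real.sin ψ) ^ 2 = ρ ^ 2 := by
          have := Real.sin_sq_add_cos_sq ψ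
          calc (ρ * Real.cos ψ) ^ 2 + (ρ * Real.sin ψ) ^ 2
              = ρ ^ 2 * (Real.sin ψ ^ 2 + Real.cos ψ ^ 2) := by ring
            _ = ρ ^ 2 := by rw [this, mul_one]
        rw [e1, e2, hh _ _ hρ.le]
        ring
      · exact ⟨hρ, h0, hψ.2⟩
      · exact ⟨mem_univ _, mul_pos hρ hs⟩
    · have hs : Real.sin ψ ≤ 0 := Real.sin_nonpos_of_nonpos_of_neg_pi_le (not_lt.mp h0) hψ.1.le
      rw [indicator_of_notMem, indicator_of_notMem, smul_zero]
      · rintro ⟨_, h1, _⟩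
        exact h0 h1
      · rintro ⟨_, h1⟩
        exact absurd h1 (not_lt.mpr (mul_nonpos_of_nonneg_of_nonpos hρ.le hs))
  rw [setIntegral_congr_fun polarCoord.open_target.measurableSet key,
    setIntegral_indicator (measurableSet_Ioi.prod measurableSet_Ioo)]
  have hint : polarCoord.target ∩ (Ioi (0 : ℝ) ×ˢ Ioo (0 : ℝ) π)
      = (Ioi (0 : ℝ) ×ˢ Ioo (0 : ℝ) π) := by
    apply inter_eq_right.mpr
    rintro ⟨ρ, ψ⟩ ⟨h1, h2, h3⟩
    rw [polarCoord_target]
    exact ⟨h1, by simp only at h2 ⊢; linarith [Real.pi_pos], h3⟩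
  rw [hint, Measure.volume_eq_prod, ← Measure.prod_restrict]
  exact integral_prod_mul (μ := volume.restrict (Ioi (0 : ℝ))) (ν := volume.restrict (Ioo (0 : ℝ) π))
    (fun ρ : ℝ => ρ ^ 5 * Real.exp (-ρ ^ 2))
    (fun ψ : ℝ => φ (Real.sin ψ • w + Real.cos ψ • u) * Real.sin ψ)

theorem sph_three_bound (n : ℝ) :
    n ^ 3 * Real.exp (-n ^ 2) ≤ 4 * Real.exp (-(1 / 2) * n ^ 2) := by
  have h1 := exp_half_ge (n ^ 2 / 2) (by positivity)
  have h2 : Real.exp (-(1 / 2) * n ^ 2) = Real.exp (-n ^ 2) * Real.exp (n ^ 2 / 2) := by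
    rw [← Real.exp_add]; congr 1; ring
  rw [h2]
  have h3 : n ^ 3 ≤ 4 * Real.exp (n ^ 2 / 2) := by
    nlinarith [sq_nonneg (n ^ 2 - n), sq_nonneg n, sq_nonneg (n ^ 2)]
  have := Real.exp_pos (-n ^ 2)
  nlinarith

theorem sph_four_bound (s : ℝ) (hs : 0 ≤ s) :
    s ^ 2 * Real.exp (-s) ≤ 8 * Real.exp (-(1 / 2) * s) := by
  have h1 := exp_half_ge (s / 2) (by positivity)
  have h2 : Real.exp (-(1 / 2) * s) = Real.exp (-s) * Real.exp (s / 2) := by
    rw [← Real.exp_add]; congr 1; ring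
  rw [h2]
  have h3 : s ^ 2 ≤ 8 * Real.exp (s / 2) := by nlinarith
  have := Real.exp_pos (-s)
  nlinarith

/-- the integrand in cylindrical coordinates -/
noncomputable def sphK (φ : E → ℝ) (a b u : E) (p : ℝ × (ℝ × ℝ)) : ℝ :=
  p.2.1 * (φ (p.1 • u + p.2.1 • cp a b p.2.2) * Real.exp (-(p.1 ^ 2 + p.2.1 ^ 2)))

theorem sph_g_integrable {φ : E → ℝ} (hc : Continuous φ)
    (hh : ∀ (c : ℝ) (x : E), 0 ≤ c → φ (c • x) = c ^ 3 * φ x) {a b u : E} (h : Fr a b u) :
    Integrable (fun p : ℝ × (ℝ × ℝ) => φ (sphT a b u p) * Real.exp (-‖sphT a b u p‖ ^ 2))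
      (volume.prod (volume.prod volume)) := by
  obtain ⟨M, hM0, hM⟩ := sph_cube_bound hc hh
  have g1 := sph_int_gauss (c := 1 / 2) (by norm_num)
  have hdom : Integrable (fun p : ℝ × (ℝ × ℝ) => (4 * M) *
      (Real.exp (-(1 / 2) * p.1 ^ 2) * (Real.exp (-(1 / 2) * p.2.1 ^ 2) *
        Real.exp (-(1 / 2) * p.2.2 ^ 2)))) (volume.prod (volume.prod volume)) :=
    (g1.mul_prod (g1.mul_prod g1)).const_mul _
  refine hdom.mono' ?_ (Filter.Eventually.of_forall fun p => ?_)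
  · apply Continuous.aestronglyMeasurable
    have := sphT_continuous a b u
    fun_prop
  · have h1 := sph_three_bound ‖sphT a b u p‖
    have h2 := sphT_norm_sq h p
    rw [Real.norm_eq_abs, abs_mul, abs_of_pos (Real.exp_pos _)]
    calc |φ (sphT a b u p)| * Real.exp (-‖sphT a b u p‖ ^ 2)
        ≤ (M * ‖sphT a b u p‖ ^ 3) * Real.exp (-‖sphT a b u p‖ ^ 2) :=
          mul_le_mul_of_nonneg_right (hM _) (Real.exp_pos _).le
      _ = M * (‖sphT a b u p‖ ^ 3 * Real.exp (-‖sphT a b u p‖ ^ 2)) := by ring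
      _ ≤ M * (4 * Real.exp (-(1 / 2) * ‖sphT a b u p‖ ^ 2)) :=
          mul_le_mul_of_nonneg_left h1 hM0
      _ = _ := by
          rw [h2, ← Real.exp_add, ← Real.exp_add]
          have : -(1 / 2) * (p.1 ^ 2 + (p.2.1 ^ 2 + p.2.2 ^ 2))
            = -(1 / 2) * p.1 ^ 2 + (-(1 / 2) * p.2.1 ^ 2 + -(1 / 2) * p.2.2 ^ 2) := by ring
          rw [this]; ring

theorem sph_norm_cyl {a b u : E} (h : Fr a b u) (z r θ : ℝ) :
    ‖z • u + r • cp a b θ‖ ^ 2 = z ^ 2 + r ^ 2 := by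
  have h1 : z • u + r • cp a b θ = sphT a b u (z, (r * Real.cos θ, r * Real.sin θ)) := by
    simp only [sphT, cp, smul_add, smul_smul]
  rw [h1, sphT_norm_sq h]
  simp only
  have := Real.sin_sq_add_cos_sq θ
  nlinarith [this]

theorem sph_K_integrable {φ : E → ℝ} (hc : Continuous φ)
    (hh : ∀ (c : ℝ) (x : E), 0 ≤ c → φ (c • x) = c ^ 3 * φ x) {a b u : E} (h : Fr a b u) :
    Integrable (sphK φ a b u) ((volume : Measure ℝ).prod
      ((volume.restrict (Ioi (0 : ℝ))).prod (volume.restrict (Ioo (-π) π)))) := by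
  obtain ⟨M, hM0, hM⟩ := sph_cube_bound hc hh
  have g1 := sph_int_gauss (c := 1 / 2) (by norm_num)
  have g2 : Integrable (fun _ : ℝ => (1 : ℝ)) (volume.restrict (Ioo (-π) π)) :=
    integrable_const _
  have hdom : Integrable (fun p : ℝ × (ℝ × ℝ) => (8 * M) *
      (Real.exp (-(1 / 2) * p.1 ^ 2) * (Real.exp (-(1 / 2) * p.2.1 ^ 2) * 1)))
      ((volume : Measure ℝ).prod
      ((volume.restrict (Ioi (0 : ℝ))).prod (volume.restrict (Ioo (-π) π)))) :=
    (g1.mul_prod ((g1.restrict (s := Ioi (0 : ℝ))).mul_prod g2)).const_mul _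
  refine hdom.mono' ?_ (Filter.Eventually.of_forall fun p => ?_)
  · apply Continuous.aestronglyMeasurable
    unfold sphK cp
    fun_prop
  · obtain ⟨z, r, θ⟩ := p
    simp only [sphK]
    have h2 := sph_norm_cyl h z r θ
    set x := z • u + r • cp a b θ with hx
    have hr : |r| ≤ ‖x‖ := by
      rw [← abs_of_nonneg (norm_nonneg x)]
      exact sq_le_sq.mp (by rw [h2]; nlinarith [sq_nonneg z])
    have h4 := sph_four_bound (‖x‖ ^ 2) (by positivity)
    rw [← h2, Real.norm_eq_abs, abs_mul, abs_mul, abs_of_pos (Real.exp_pos _)]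
    calc |r| * (|φ x| * Real.exp (-‖x‖ ^ 2))
        ≤ ‖x‖ * ((M * ‖x‖ ^ 3) * Real.exp (-‖x‖ ^ 2)) := by
          apply mul_le_mul hr _ (by positivity) (norm_nonneg _)
          exact mul_le_mul_of_nonneg_right (hM _) (Real.exp_pos _).le
      _ = M * ((‖x‖ ^ 2) ^ 2 * Real.exp (-‖x‖ ^ 2)) := by ring
      _ ≤ M * (8 * Real.exp (-(1 / 2) * ‖x‖ ^ 2)) := mul_le_mul_of_nonneg_left h4 hM0
      _ = _ := by
          rw [h2, mul_one, ← Real.exp_add]
          have : -(1 / 2) * (z ^ 2 + r ^ 2) = -(1 / 2) * z ^ 2 + -(1 / 2) * r ^ 2 := by ring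
          rw [this]; ring

theorem sph_main {φ : E → ℝ} (hc : Continuous φ)
    (hh : ∀ (c : ℝ) (x : E), 0 ≤ c → φ (c • x) = c ^ 3 * φ x) {a b u : E} (h : Fr a b u) :
    ∫ x : E, φ x * Real.exp (-‖x‖ ^ 2)
      = (∫ ρ in Ioi (0 : ℝ), ρ ^ 5 * Real.exp (-ρ ^ 2)) *
        ∫ θ in Ioo (-π) π, ∫ ψ in Ioo (0 : ℝ) π,
          φ (Real.sin ψ • cp a b θ + Real.cos ψ • u) * Real.sin ψ := by
  have hemb : MeasurableEmbedding (sphT a b u) :=
    (sphT_continuous a b u).measurableEmbedding (sphT_injective h)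
  rw [← (sphT_measurePreserving h).integral_comp hemb]
  rw [Measure.volume_eq_prod, Measure.volume_eq_prod, integral_prod _ (sph_g_integrable hc hh h)]
  have e1 : ∀ z : ℝ, ∫ q : ℝ × ℝ, φ (sphT a b u (z, q)) * Real.exp (-‖sphT a b u (z, q)‖ ^ 2)
      ∂((volume : Measure ℝ).prod volume)
      = ∫ q, sphK φ a b u (z, q)
        ∂((volume.restrict (Ioi (0 : ℝ))).prod (volume.restrict (Ioo (-π) π))) := by
    intro z
    rw [← Measure.volume_eq_prod, ← integral_comp_polarCoord_symm, polarCoord_target,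
      Measure.prod_restrict, ← Measure.volume_eq_prod]
    apply setIntegral_congr_fun (measurableSet_Ioi.prod measurableSet_Ioo)
    rintro ⟨r, θ⟩ _
    simp only [polarCoord_symm_apply, smul_eq_mul, sphK]
    have h1 : sphT a b u (z, (r * Real.cos θ, r * Real.sin θ)) = z • u + r • cp a b θ := by
      simp only [sphT, cp, smul_add, smul_smul]
    rw [h1, sph_norm_cyl h]
  simp_rw [e1]
  rw [← integral_prod _ (sph_K_integrable hc hh h)]
  have hassoc := MeasureTheory.measurePreserving_prodAssoc (volume : Measure ℝ)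
    (volume.restrict (Ioi (0 : ℝ))) (volume.restrict (Ioo (-π) π))
  rw [← hassoc.integral_comp MeasurableEquiv.prodAssoc.measurableEmbedding]
  have hint2 : Integrable (fun p => sphK φ a b u (MeasurableEquiv.prodAssoc p))
      (((volume : Measure ℝ).prod (volume.restrict (Ioi (0 : ℝ)))).prod
        (volume.restrict (Ioo (-π) π))) :=
    (hassoc.integrable_comp_emb MeasurableEquiv.prodAssoc.measurableEmbedding).mpr
      (sph_K_integrable hc hh h)
  rw [integral_prod_symm _ hint2, ← integral_const_mul]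
  congr 1
  funext θ
  have e2 := sph_half hh (cp a b θ) u
  rw [← e2, Measure.volume_eq_prod, ← Measure.prod_restrict, Measure.restrict_univ]
  rfl

/-- **Spherical coordinates.** -/
theorem sph_zero {φ : E → ℝ} (hc : Continuous φ)
    (hh : ∀ (c : ℝ) (x : E), 0 ≤ c → φ (c • x) = c ^ 3 * φ x) {a b u : E} (h : Fr a b u)
    (h0 : ∫ x : E, φ x * Real.exp (-‖x‖ ^ 2) = 0) :
    ∫ θ in (-π)..π, ∫ ψ in (0 : ℝ)..π,
      φ (Real.sin ψ • cp a b θ + Real.cos ψ • u) * Real.sin ψ = 0 := by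
  rw [sph_main hc hh h] at h0
  have h1 := (mul_eq_zero.mp h0).resolve_left sph_radial.ne'
  rw [intervalIntegral.integral_of_le (by linarith [Real.pi_pos]), integral_Ioc_eq_integral_Ioo]
  refine Eq.trans ?_ h1
  congr 1
  funext θ
  rw [intervalIntegral.integral_of_le Real.pi_pos.le, integral_Ioc_eq_integral_Ioo]

end PB3
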