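import Pool.Agent.Lib.MP_03c723_gt.Defs
import Pool.Agent.Lib.MP_03c723_gt.Sph

/-!
The round torus integral of a function without moments of degree `0` and `2`.
-/

namespace PB3

open MeasureTheory Real
open scoped InnerProductSpace

private theorem round_int3 : Integrable fun x : E => ‖x‖ ^ 3 * Real.exp (-‖x‖ ^ 2) := by
  have h := (integrable_fun_norm_addHaar (E := E) volume
    (f := fun r : ℝ => r ^ 3 * Real.exp (-r ^ 2))).2 ?_
  · exact h
  · have h5 := integrableOn_rpow_mul_exp_neg_mul_sq (b := 1) one_pos (s := 5) (by norm_num)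
    have hd : Module.finrank ℝ E = 3 := by simp [E]
    rw [hd]
    refine h5.congr_fun ?_ measurableSet_Ioi
    intro y hy
    have h5' : y ^ (5 : ℝ) = y ^ 5 := by
      rw [← Real.rpow_natCast]; norm_num
    simp only [h5', smul_eq_mul]
    rw [show (-1 : ℝ) * y ^ 2 = -y ^ 2 by ring]
    ring

/-- the antiderivative of `1 - 7/3 sin + 4/3 sin^3` -/
private theorem round_deriv (ψ : ℝ) :
    HasDerivAt (fun ψ : ℝ => ψ + Real.cos ψ + 4 / 9 * Real.cos ψ ^ 3)
      (1 - 7 / 3 * Real.sin ψ + 4 / 3 * Real.sin ψ ^ 3) ψ := by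
  have h1 := Real.hasDerivAt_cos ψ
  have h := ((hasDerivAt_id ψ).add h1).add ((h1.pow 3).const_mul (4 / 9 : ℝ))
  refine (h.congr_deriv ?_)
  have hs : Real.cos ψ ^ 2 = 1 - Real.sin ψ ^ 2 := by
    have := Real.sin_sq_add_cos_sq ψ
    linarith
  simp only [Nat.cast_ofNat, Nat.add_one_sub_one]
  rw [hs]
  ring

private theorem round_cont :
    Continuous fun ψ : ℝ => 1 - 7 / 3 * Real.sin ψ + 4 / 3 * Real.sin ψ ^ 3 := by fun_prop

private theorem round_ftc (x y : ℝ) :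
    ∫ ψ in x..y, (1 - 7 / 3 * Real.sin ψ + 4 / 3 * Real.sin ψ ^ 3) =
      (y + Real.cos y + 4 / 9 * Real.cos y ^ 3) - (x + Real.cos x + 4 / 9 * Real.cos x ^ 3) :=
  intervalIntegral.integral_eq_sub_of_hasDerivAt (fun ψ _ => round_deriv ψ)
    (round_cont.intervalIntegrable _ _)

private theorem round_factor (s : ℝ) :
    1 - 7 / 3 * s + 4 / 3 * s ^ 3 = (1 - s) * (1 - 2 * s) * (1 + 2 / 3 * s) := by ring

private theorem round_abs :
    ∫ ψ in (0 : ℝ)..π, |1 - 7 / 3 * Real.sin ψ + 4 / 3 * Real.sin ψ ^ 3| ≤ 7 * π / 32 := by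
  set q : ℝ → ℝ := fun ψ => 1 - 7 / 3 * Real.sin ψ + 4 / 3 * Real.sin ψ ^ 3 with hq
  have hπ := Real.pi_pos
  have hqi : ∀ x y : ℝ, IntervalIntegrable (fun ψ => |q ψ|) volume x y := fun x y =>
    (round_cont.abs).intervalIntegrable _ _
  have hsin1 : ∀ ψ : ℝ, 0 ≤ ψ → ψ ≤ π / 6 → 0 ≤ q ψ := by
    intro ψ h0 h1
    have hs0 : 0 ≤ Real.sin ψ := Real.sin_nonneg_of_nonneg_of_le_pi h0 (by linarith)
    have hs1 : Real.sin ψ ≤ 1 / 2 := by
      rw [← Real.sin_pi_div_six]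
      exact Real.sin_le_sin_of_le_of_le_pi_div_two (by linarith) (by linarith) h1
    simp only [hq]
    rw [round_factor]
    refine mul_nonneg (mul_nonneg ?_ ?_) ?_ <;> linarith
  have hsin3 : ∀ ψ : ℝ, 5 * π / 6 ≤ ψ → ψ ≤ π → 0 ≤ q ψ := by
    intro ψ h0 h1
    have : q ψ = q (π - ψ) := by simp only [hq, Real.sin_pi_sub]
    rw [this]
    exact hsin1 _ (by linarith) (by linarith)
  have hsin2 : ∀ ψ : ℝ, π / 6 ≤ ψ → ψ ≤ 5 * π / 6 → q ψ ≤ 0 := by
    intro ψ h0 h1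
    have hs1 : 1 / 2 ≤ Real.sin ψ := by
      rcases le_total ψ (π / 2) with h | h
      · rw [← Real.sin_pi_div_six]
        exact Real.sin_le_sin_of_le_of_le_pi_div_two (by linarith) h h0
      · rw [← Real.sin_pi_div_six, ← Real.sin_pi_sub ψ]
        exact Real.sin_le_sin_of_le_of_le_pi_div_two (by linarith) (by linarith) (by linarith)
    have hs2 := Real.sin_le_one ψ
    simp only [hq]
    rw [round_factor]
    have h1 : (1 - Real.sin ψ) * (1 - 2 * Real.sin ψ) ≤ 0 :=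
      mul_nonpos_of_nonneg_of_nonpos (by linarith) (by linarith)
    exact mul_nonpos_of_nonpos_of_nonneg h1 (by linarith)
  have hsplit : ∫ ψ in (0 : ℝ)..π, |q ψ| = (∫ ψ in (0 : ℝ)..(π / 6), |q ψ|) +
      (∫ ψ in (π / 6)..(5 * π / 6), |q ψ|) + ∫ ψ in (5 * π / 6)..π, |q ψ| := by
    rw [intervalIntegral.integral_add_adjacent_intervals (hqi _ _) (hqi _ _),
      intervalIntegral.integral_add_adjacent_intervals (hqi _ _) (hqi _ _)]
  have e1 : ∫ ψ in (0 : ℝ)..(π / 6), |q ψ| = ∫ ψ in (0 : ℝ)..(π / 6), q ψ := by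
    refine intervalIntegral.integral_congr fun ψ hψ => ?_
    rw [Set.uIcc_of_le (by positivity)] at hψ
    exact abs_of_nonneg (hsin1 ψ hψ.1 hψ.2)
  have e2 : ∫ ψ in (π / 6)..(5 * π / 6), |q ψ| = ∫ ψ in (π / 6)..(5 * π / 6), -q ψ := by
    refine intervalIntegral.integral_congr fun ψ hψ => ?_
    rw [Set.uIcc_of_le (by linarith)] at hψ
    exact abs_of_nonpos (hsin2 ψ hψ.1 hψ.2)
  have e3 : ∫ ψ in (5 * π / 6)..π, |q ψ| = ∫ ψ in (5 * π / 6)..π, q ψ := by
    refine intervalIntegral.integral_congr fun ψ hψ => ?_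
    rw [Set.uIcc_of_le (by linarith)] at hψ
    exact abs_of_nonneg (hsin3 ψ hψ.1 hψ.2)
  have hcos : Real.cos (5 * π / 6) = -(Real.sqrt 3 / 2) := by
    rw [show 5 * π / 6 = π - π / 6 by ring, Real.cos_pi_sub, Real.cos_pi_div_six]
  have h3 : Real.sqrt 3 ^ 2 = 3 := Real.sq_sqrt (by norm_num)
  have h3' : Real.sqrt 3 < 1.7321 := by
    rw [Real.sqrt_lt' (by norm_num)]
    norm_num
  have h33 : Real.sqrt 3 ^ 3 = 3 * Real.sqrt 3 := by
    rw [pow_succ, h3]
  rw [hsplit, e1, e2, e3, intervalIntegral.integral_neg]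
  simp only [hq]
  rw [round_ftc, round_ftc, round_ftc, hcos, Real.cos_pi_div_six, Real.cos_zero, Real.cos_pi]
  have hπ' := Real.pi_gt_d4
  ring_nf
  rw [h33]
  nlinarith

private theorem round_cp_self {a b u : E} (hf : Fr a b u) (θ : ℝ) :
    ⟪cp a b θ, cp a b θ⟫_ℝ = 1 := by
  have haa : ⟪a, a⟫_ℝ = 1 := by rw [real_inner_self_eq_norm_sq, hf.na]; norm_num
  have hbb : ⟪b, b⟫_ℝ = 1 := by rw [real_inner_self_eq_norm_sq, hf.nb]; norm_num
  have hba : ⟪b, a⟫_ℝ = 0 := by rw [real_inner_comm]; exact hf.ab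
  simp only [cp, inner_add_left, inner_add_right, real_inner_smul_left, real_inner_smul_right,
    haa, hbb, hf.ab, hba]
  have := Real.sin_sq_add_cos_sq θ
  linarith

private theorem round_cp_u {a b u : E} (hf : Fr a b u) (θ : ℝ) : ⟪cp a b θ, u⟫_ℝ = 0 := by
  simp only [cp, inner_add_left, real_inner_smul_left, hf.au, hf.bu]
  ring

private theorem round_fr {a b u : E} (hf : Fr a b u) : Fr b (-a) u where
  na := hf.nb
  nb := by rw [norm_neg]; exact hf.na
  nu := hf.nu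
  ab := by rw [inner_neg_right, real_inner_comm, hf.ab, neg_zero]
  au := hf.bu
  bu := by rw [inner_neg_left, hf.au, neg_zero]

private theorem round_cp_shift (a b : E) (θ : ℝ) : cp b (-a) θ = cp a b (θ + π / 2) := by
  simp only [cp, Real.cos_add_pi_div_two, Real.sin_add_pi_div_two]
  rw [smul_neg, neg_smul, add_comm]

private theorem round_Y0 (a b u : E) (θ ψ : ℝ) :
    Y0 a b u θ ψ = Real.sin ψ • cp b (-a) θ + Real.cos ψ • u := by
  rw [round_cp_shift, Y0, cp, add_comm]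

private theorem round_Y0_inner {a b u : E} (hf : Fr a b u) (θ ψ : ℝ) :
    ⟪Y0 a b u θ ψ, u⟫_ℝ = Real.cos ψ := by
  have huu : ⟪u, u⟫_ℝ = 1 := by rw [real_inner_self_eq_norm_sq, hf.nu]; norm_num
  rw [round_Y0, inner_add_left, real_inner_smul_left, real_inner_smul_left,
    round_cp_u (round_fr hf), huu]
  ring

private theorem round_Y0_norm {a b u : E} (hf : Fr a b u) (θ ψ : ℝ) :
    ‖Y0 a b u θ ψ‖ = 1 := by
  have huu : ⟪u, u⟫_ℝ = 1 := by rw [real_inner_self_eq_norm_sq, hf.nu]; norm_num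
  have h : ‖Y0 a b u θ ψ‖ ^ 2 = 1 := by
    have h2 := round_cp_u (round_fr hf) θ
    have h3 : ⟪u, cp b (-a) θ⟫_ℝ = 0 := by rw [real_inner_comm]; exact h2
    rw [← real_inner_self_eq_norm_sq, round_Y0]
    simp only [inner_add_left, inner_add_right, real_inner_smul_left, real_inner_smul_right,
      round_cp_self (round_fr hf) θ, h2, h3, huu]
    have := Real.sin_sq_add_cos_sq ψ
    linarith
  have h0 := norm_nonneg (Y0 a b u θ ψ)
  nlinarith

private theorem round_Y0_neg (a b u : E) (θ ψ : ℝ) :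
    Y0 a b u θ (ψ - π) = -Y0 a b u θ ψ := by
  simp only [Y0, cp, Real.cos_sub_pi, Real.sin_sub_pi]
  rw [neg_smul, neg_smul, neg_add]

private theorem round_Y0_cont (a b u : E) : Continuous fun p : ℝ × ℝ => Y0 a b u p.1 p.2 := by
  unfold Y0 cp
  fun_prop

private theorem round_moment {σ : E → ℝ} {S : ℝ} (hσ : EH σ) (hm : MF σ)
    (hS : ∀ x, |σ x| ≤ S * ‖x‖) (u : E) :
    ∫ x : E, (σ x * (‖x‖ ^ 2 + 4 / 3 * ⟪x, u⟫_ℝ ^ 2)) * Real.exp (-‖x‖ ^ 2) = 0 := by
  have hcoord : ∀ (x : E) (i : Fin 3), |x i| ≤ ‖x‖ := by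
    intro x i
    have := PiLp.norm_apply_le x i
    rwa [Real.norm_eq_abs] at this
  have hint : ∀ i j : Fin 3,
      Integrable fun x : E => σ x * (x i * x j) * Real.exp (-‖x‖ ^ 2) := by
    intro i j
    refine (round_int3.const_mul S).mono' ?_ ?_
    · have hc := hσ.cont
      exact Continuous.aestronglyMeasurable (by fun_prop)
    · refine Filter.Eventually.of_forall fun x => ?_
      rw [Real.norm_eq_abs, abs_mul, abs_mul, abs_mul, Real.abs_exp]
      have h1 := hcoord x i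
      have h2 := hcoord x j
      have h3 := hS x
      have h4 : |σ x| * (|x i| * |x j|) ≤ (S * ‖x‖) * (‖x‖ * ‖x‖) :=
        mul_le_mul h3 (mul_le_mul h1 h2 (abs_nonneg _) (norm_nonneg _)) (by positivity)
          ((abs_nonneg _).trans h3)
      calc |σ x| * (|x i| * |x j|) * Real.exp (-‖x‖ ^ 2)
          ≤ (S * ‖x‖) * (‖x‖ * ‖x‖) * Real.exp (-‖x‖ ^ 2) :=
            mul_le_mul_of_nonneg_right h4 (Real.exp_pos _).le
        _ = S * (‖x‖ ^ 3 * Real.exp (-‖x‖ ^ 2)) := by ring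
  have hexp : ∀ x : E, (σ x * (‖x‖ ^ 2 + 4 / 3 * ⟪x, u⟫_ℝ ^ 2)) * Real.exp (-‖x‖ ^ 2) =
      ∑ i : Fin 3, ∑ j : Fin 3, ((if i = j then 1 else 0) + 4 / 3 * (u i * u j)) *
        (σ x * (x i * x j) * Real.exp (-‖x‖ ^ 2)) := by
    intro x
    have h1 : ‖x‖ ^ 2 = x 0 ^ 2 + x 1 ^ 2 + x 2 ^ 2 := by
      rw [EuclideanSpace.real_norm_sq_eq, Fin.sum_univ_three]
    have h2 : ⟪x, u⟫_ℝ = u 0 * x 0 + u 1 * x 1 + u 2 * x 2 := by
      rw [PiLp.inner_apply, Fin.sum_univ_three]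
      simp
    generalize Real.exp (-‖x‖ ^ 2) = ee
    rw [h1, h2]
    simp [Fin.sum_univ_three]
    ring
  simp_rw [hexp]
  rw [integral_finsetSum _ fun i _ => integrable_finsetSum _ fun j _ => (hint i j).const_mul _]
  refine Finset.sum_eq_zero fun i _ => ?_
  rw [integral_finsetSum _ fun j _ => (hint i j).const_mul _]
  refine Finset.sum_eq_zero fun j _ => ?_
  rw [integral_const_mul, hm i j, mul_zero]

private theorem round_sph {σ : E → ℝ} {S : ℝ} (hσ : EH σ) (hm : MF σ)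
    (hS : ∀ x, |σ x| ≤ S * ‖x‖) {a b u : E} (hf : Fr a b u) :
    ∫ θ in (-π)..π, ∫ ψ in (0 : ℝ)..π,
      σ (Y0 a b u θ ψ) * (7 / 3 * Real.sin ψ - 4 / 3 * Real.sin ψ ^ 3) = 0 := by
  have hc := hσ.cont
  have h := sph_zero (φ := fun x => σ x * (‖x‖ ^ 2 + 4 / 3 * ⟪x, u⟫_ℝ ^ 2))
    (by fun_prop) ?_ (round_fr hf) (round_moment hσ hm hS u)
  · refine Eq.trans ?_ h
    refine intervalIntegral.integral_congr fun θ _ => ?_
    refine intervalIntegral.integral_congr fun ψ _ => ?_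
    rw [← round_Y0, round_Y0_norm hf, round_Y0_inner hf]
    have hs : Real.cos ψ ^ 2 = 1 - Real.sin ψ ^ 2 := by
      have := Real.sin_sq_add_cos_sq ψ
      linarith
    rw [hs]
    ring
  · intro c x hc0
    rw [hσ.hom c x, norm_smul, Real.norm_eq_abs, abs_of_nonneg hc0, real_inner_smul_left]
    ring

theorem round_bound {σ : E → ℝ} {S : ℝ} (hσ : EH σ) (hm : MF σ)
    (hS : ∀ x, |σ x| ≤ S * ‖x‖) {a b u : E} (hf : Fr a b u) :
    |∫ θ in (-π)..π, ∫ ψ in (-π)..π, σ (Y0 a b u θ ψ)| ≤ 7 / 8 * π ^ 2 * S := by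
  have hπ := Real.pi_pos
  have hS0 : 0 ≤ S := by
    have h := hS u
    rw [hf.nu, mul_one] at h
    exact (abs_nonneg _).trans h
  have hc := hσ.cont
  have hYc := round_Y0_cont a b u
  have hneg : ∀ x : E, σ (-x) = σ x := by
    intro x
    have h := hσ.hom (-1) x
    simpa using h
  have hσY : Continuous fun p : ℝ × ℝ => σ (Y0 a b u p.1 p.2) := hc.comp hYc
  have hσθ : ∀ θ : ℝ, Continuous fun ψ : ℝ => σ (Y0 a b u θ ψ) := by
    intro θ
    refine hc.comp ?_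
    unfold Y0 cp
    fun_prop
  -- evenness
  have heven : ∀ θ : ℝ, ∫ ψ in (-π)..π, σ (Y0 a b u θ ψ) =
      2 * ∫ ψ in (0 : ℝ)..π, σ (Y0 a b u θ ψ) := by
    intro θ
    have h1 : ∫ ψ in (-π)..0, σ (Y0 a b u θ ψ) = ∫ ψ in (0 : ℝ)..π, σ (Y0 a b u θ ψ) := by
      have h := intervalIntegral.integral_comp_sub_right (a := 0) (b := π)
        (fun ψ => σ (Y0 a b u θ ψ)) π
      rw [sub_self, zero_sub] at h
      rw [← h]
      refine intervalIntegral.integral_congr fun ψ _ => ?_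
      rw [round_Y0_neg, hneg]
    rw [← intervalIntegral.integral_add_adjacent_intervals
      ((hσθ θ).intervalIntegrable (-π) 0) ((hσθ θ).intervalIntegrable 0 π), h1]
    ring
  -- the moment conditions
  have hzero := round_sph hσ hm hS hf
  have hI1 : IntervalIntegrable (fun θ => ∫ ψ in (0 : ℝ)..π, σ (Y0 a b u θ ψ)) volume (-π) π :=
    (intervalIntegral.continuous_parametric_intervalIntegral_of_continuous' hσY 0
      π).intervalIntegrable _ _
  have hI2 : IntervalIntegrable (fun θ => ∫ ψ in (0 : ℝ)..π,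
      σ (Y0 a b u θ ψ) * (7 / 3 * Real.sin ψ - 4 / 3 * Real.sin ψ ^ 3)) volume (-π) π := by
    refine (intervalIntegral.continuous_parametric_intervalIntegral_of_continuous'
      (f := fun θ ψ => σ (Y0 a b u θ ψ) * (7 / 3 * Real.sin ψ - 4 / 3 * Real.sin ψ ^ 3)) ?_ 0
      π).intervalIntegrable _ _
    exact hσY.mul (by fun_prop)
  have hsum : ∫ θ in (-π)..π, ∫ ψ in (0 : ℝ)..π, σ (Y0 a b u θ ψ) =
      ∫ θ in (-π)..π, ∫ ψ in (0 : ℝ)..π,
        σ (Y0 a b u θ ψ) * (1 - 7 / 3 * Real.sin ψ + 4 / 3 * Real.sin ψ ^ 3) := by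
    have h := intervalIntegral.integral_sub hI1 hI2
    rw [hzero, sub_zero] at h
    rw [← h]
    refine intervalIntegral.integral_congr fun θ _ => ?_
    have hq : Continuous fun ψ : ℝ =>
        σ (Y0 a b u θ ψ) * (7 / 3 * Real.sin ψ - 4 / 3 * Real.sin ψ ^ 3) :=
      (hσθ θ).mul (by fun_prop)
    rw [← intervalIntegral.integral_sub ((hσθ θ).intervalIntegrable _ _)
      (hq.intervalIntegrable _ _)]
    refine intervalIntegral.integral_congr fun ψ _ => ?_
    ring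
  have hin : ∀ θ : ℝ, |∫ ψ in (0 : ℝ)..π,
      σ (Y0 a b u θ ψ) * (1 - 7 / 3 * Real.sin ψ + 4 / 3 * Real.sin ψ ^ 3)| ≤
      S * (7 * π / 32) := by
    intro θ
    calc |∫ ψ in (0 : ℝ)..π,
          σ (Y0 a b u θ ψ) * (1 - 7 / 3 * Real.sin ψ + 4 / 3 * Real.sin ψ ^ 3)|
        ≤ ∫ ψ in (0 : ℝ)..π,
          |σ (Y0 a b u θ ψ) * (1 - 7 / 3 * Real.sin ψ + 4 / 3 * Real.sin ψ ^ 3)| :=
          intervalIntegral.abs_integral_le_integral_abs hπ.le
      _ ≤ ∫ ψ in (0 : ℝ)..π, S * |1 - 7 / 3 * Real.sin ψ + 4 / 3 * Real.sin ψ ^ 3| := by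
          refine intervalIntegral.integral_mono_on hπ.le
            (((hσθ θ).mul round_cont).abs.intervalIntegrable _ _)
            ((round_cont.abs.const_mul S).intervalIntegrable _ _) fun ψ _ => ?_
          rw [abs_mul]
          have h1 := hS (Y0 a b u θ ψ)
          rw [round_Y0_norm hf, mul_one] at h1
          exact mul_le_mul_of_nonneg_right h1 (abs_nonneg _)
      _ = S * ∫ ψ in (0 : ℝ)..π, |1 - 7 / 3 * Real.sin ψ + 4 / 3 * Real.sin ψ ^ 3| :=
          intervalIntegral.integral_const_mul _ _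
      _ ≤ S * (7 * π / 32) := mul_le_mul_of_nonneg_left round_abs hS0
  have hout : |∫ θ in (-π)..π, ∫ ψ in (0 : ℝ)..π,
      σ (Y0 a b u θ ψ) * (1 - 7 / 3 * Real.sin ψ + 4 / 3 * Real.sin ψ ^ 3)| ≤
      S * (7 * π / 32) * (2 * π) := by
    have h := intervalIntegral.norm_integral_le_of_norm_le_const (a := -π) (b := π)
      (f := fun θ => ∫ ψ in (0 : ℝ)..π,
        σ (Y0 a b u θ ψ) * (1 - 7 / 3 * Real.sin ψ + 4 / 3 * Real.sin ψ ^ 3))
      (C := S * (7 * π / 32)) (fun θ _ => hin θ)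
    rw [Real.norm_eq_abs] at h
    refine h.trans (le_of_eq ?_)
    rw [show π - -π = 2 * π by ring, abs_of_pos (by positivity)]
  have hfin : ∫ θ in (-π)..π, ∫ ψ in (-π)..π, σ (Y0 a b u θ ψ) =
      2 * ∫ θ in (-π)..π, ∫ ψ in (0 : ℝ)..π, σ (Y0 a b u θ ψ) := by
    rw [← intervalIntegral.integral_const_mul]
    exact intervalIntegral.integral_congr fun θ _ => heven θ
  rw [hfin, hsum, abs_mul, abs_of_pos (by norm_num : (0 : ℝ) < 2)]
  calc 2 * |∫ θ in (-π)..π, ∫ ψ in (0 : ℝ)..π,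
        σ (Y0 a b u θ ψ) * (1 - 7 / 3 * Real.sin ψ + 4 / 3 * Real.sin ψ ^ 3)|
      ≤ 2 * (S * (7 * π / 32) * (2 * π)) := mul_le_mul_of_nonneg_left hout (by norm_num)
    _ = 7 / 8 * π ^ 2 * S := by ring

end PB3
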