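import Pool.Agent.Lib.MP_03c723_gt.YCont
import Pool.Agent.Lib.MP_03c723_gt.D2Def
import Pool.Agent.Lib.MP_03c723_gt.TauDef

/-! Two-step composition: the general one-sided estimate used for the second differences and for
the contraction. -/

namespace PB3
open MeasureTheory Real
open scoped InnerProductSpace

theorem norm_e3 : ‖e3‖ = 1 := by simp [e3]

theorem F_unit (τ z : E → ℝ) {u : E} (hu : ‖u‖ = 1) :
    F τ z u = (P z u + τ u) / (P z e3 + τ e3) := by simp [F, hu]

theorem EH.neg {z : E → ℝ} (h : EH z) : EH (fun x => - z x) :=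
  ⟨h.cont.neg, fun c x => by rw [h.hom]; ring⟩

theorem EH.sub {z z' : E → ℝ} (h : EH z) (h' : EH z') : EH (fun x => z' x - z x) :=
  ⟨h'.cont.sub h.cont, fun c x => by rw [h.hom, h'.hom]; ring⟩

theorem EH.comp {z : E → ℝ} (h : EH z) (ρ : E ≃ₗᵢ[ℝ] E) : EH (fun x => z (ρ x)) :=
  ⟨h.cont.comp ρ.continuous, fun c x => by rw [map_smul, h.hom]⟩

theorem EH.zero {z : E → ℝ} (h : EH z) : z 0 = 0 := by
  have := h.hom 0 0; simpa using this

theorem EH.even {z : E → ℝ} (h : EH z) (x : E) : z (-x) = z x := by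
  have := h.hom (-1) x; simpa using this

theorem EH.norm_smul_unit {z : E → ℝ} (h : EH z) (x : E) : z x = ‖x‖ * z (‖x‖⁻¹ • x) := by
  by_cases hx : x = 0
  · subst hx; simp [h.zero]
  · have : ‖x‖ ≠ 0 := norm_ne_zero_iff.2 hx
    rw [h.hom, abs_of_nonneg (inv_nonneg.2 (norm_nonneg x)), ← mul_assoc,
      mul_inv_cancel₀ this, one_mul]

theorem rotf_smul (p q : E) (s c : ℝ) (x : E) : rotf p q s (c • x) = c • rotf p q s x := by
  simp only [rotf, inner_smul_right]
  module

theorem continuous_rotf (p q : E) (s : ℝ) : Continuous (rotf p q s) := by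
  unfold rotf
  fun_prop

theorem D2_eh {z : E → ℝ} (hz : EH z) (p q : E) (s : ℝ) : EH (D2 p q s z) := by
  constructor
  · unfold D2
    have h1 := hz.cont.comp (continuous_rotf p q s)
    have h2 := hz.cont.comp (continuous_rotf p q (-s))
    have h3 := hz.cont
    exact (h1.add h2).sub (h3.const_mul 2 |>.congr (fun _ => rfl))
  · intro c x
    simp only [D2, rotf_smul, hz.hom]
    ring

theorem smul_nv (t : ℝ) (w u : E) : w + t • u = Real.sqrt (1 + t ^ 2) • nv t w u := by
  unfold nv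
  rw [smul_smul, mul_inv_cancel₀ (by positivity), one_smul]

theorem int_const (c : ℝ) : ∫ _ in (-π)..π, c = 2 * π * c := by
  rw [intervalIntegral.integral_const, smul_eq_mul]; ring

/-- one-sided two-step estimate -/
theorem step_upper {g σ : E → ℝ} (hg : EH g) (hσ : EH σ) {S X c : ℝ}
    (hS : ∀ x, |σ x| ≤ S * ‖x‖) (hX : 0 ≤ X) (hc : 0 < c) {t₁ t₂ : E → E → ℝ} {δ' : ℝ}
    (h₁ : Good t₁ δ') (h₂ : Good t₂ δ') (h0 : 0 ≤ δ') (h1 : δ' ≤ 1 / 10)
    (H : ∀ a b v, Fr a b v →
      -g v ≤ (1 / c) * ((∫ ψ in (-π)..π, σ (cp a b ψ + t₂ (cp a b ψ) v • v)) + X))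
    {a b u : E} (hf : Fr a b u) :
    -(∫ θ in (-π)..π, g (cp a b θ + t₁ (cp a b θ) u • u)) ≤
      (1 / c) * ((∫ θ in (-π)..π, ∫ ψ in (-π)..π, σ (Y t₁ t₂ a b u θ ψ))
        + 2 * π * X + δ' ^ 2 * (50 * (S + X))) := by
  have hS0 : 0 ≤ S := by
    have := (abs_nonneg _).trans (hS u)
    rw [hf.nu, mul_one] at this; exact this
  set I : ℝ → ℝ := fun θ => ∫ ψ in (-π)..π, σ (Y t₁ t₂ a b u θ ψ) with hI
  have hIc : Continuous I := continuous_inner_Y h₁ h₂ hf hσ.cont
  have hIb : ∀ θ, |I θ| ≤ 7 * S := by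
    intro θ
    have : ‖I θ‖ ≤ ((1 + δ' ^ 2) * S) * |π - (-π)| := by
      apply intervalIntegral.norm_integral_le_of_norm_le_const
      intro ψ _
      rw [Real.norm_eq_abs]
      calc |σ (Y t₁ t₂ a b u θ ψ)| ≤ S * ‖Y t₁ t₂ a b u θ ψ‖ := hS _
        _ ≤ S * (1 + δ' ^ 2) := mul_le_mul_of_nonneg_left (norm_Y_le h₂ hf θ ψ) hS0
        _ = (1 + δ' ^ 2) * S := by ring
    rw [Real.norm_eq_abs] at this
    refine this.trans ?_
    have hpi : |π - (-π)| = 2 * π := by
      rw [abs_of_pos (by linarith [Real.pi_pos])]; ring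
    rw [hpi]
    have h2 : (1 + δ' ^ 2) * (2 * π) ≤ 7 := by
      have := Real.pi_lt_d2
      have h3 : δ' ^ 2 ≤ 1 / 100 := by nlinarith
      nlinarith [Real.pi_pos]
    nlinarith
  have hpt : ∀ θ, -g (cp a b θ + t₁ (cp a b θ) u • u) ≤
      (1 / c) * (I θ + X + δ' ^ 2 * (7 * S + X)) := by
    intro θ
    set t := t₁ (cp a b θ) u with ht
    have htb : |t| ≤ δ' := h₁.bd _ _ (hf.op θ)
    have hr1 := one_le_sqrt_one_add_sq t
    have hr2 : Real.sqrt (1 + t ^ 2) - 1 ≤ δ' ^ 2 := by
      have := sqrt_one_add_sq_le t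
      have h3 := sq_le_sq' (abs_le.1 htb).1 (abs_le.1 htb).2
      linarith
    rw [smul_nv t (cp a b θ) u, hg.hom, abs_of_nonneg (Real.sqrt_nonneg _)]
    have hH : -g (nv t (cp a b θ) u) ≤ (1 / c) * (I θ + X) :=
      H _ _ _ (frame_nh_nv hf t θ)
    set r := Real.sqrt (1 + t ^ 2)
    have hIX : |I θ + X| ≤ 7 * S + X := by
      refine (abs_add_le _ _).trans ?_
      rw [abs_of_nonneg hX]; linarith [hIb θ]
    have h4 : (r - 1) * (I θ + X) ≤ δ' ^ 2 * (7 * S + X) := by
      calc (r - 1) * (I θ + X) ≤ (r - 1) * |I θ + X| :=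
            mul_le_mul_of_nonneg_left (le_abs_self _) (by linarith)
        _ ≤ δ' ^ 2 * (7 * S + X) := mul_le_mul hr2 hIX (abs_nonneg _) (sq_nonneg _)
    have h5 : 0 ≤ 1 / c := by positivity
    calc -(r * g (nv t (cp a b θ) u)) = r * (-g (nv t (cp a b θ) u)) := by ring
      _ ≤ r * ((1 / c) * (I θ + X)) := mul_le_mul_of_nonneg_left hH (by linarith)
      _ = (1 / c) * ((I θ + X) + (r - 1) * (I θ + X)) := by ring
      _ ≤ (1 / c) * ((I θ + X) + δ' ^ 2 * (7 * S + X)) :=
          mul_le_mul_of_nonneg_left (by linarith) h5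
      _ = _ := by ring
  have hgc : Continuous fun θ : ℝ => g (cp a b θ + t₁ (cp a b θ) u • u) := by
    have hw : Continuous fun θ : ℝ => cp a b θ :=
      continuous_cp continuous_const continuous_const continuous_id
    exact hg.cont.comp (hw.add ((h₁.continuous_comp hw continuous_const
      (fun θ => hf.op θ)).smul continuous_const))
  rw [← intervalIntegral.integral_neg]
  have hpi := Real.pi_pos
  calc ∫ θ in (-π)..π, -g (cp a b θ + t₁ (cp a b θ) u • u)
      ≤ ∫ θ in (-π)..π, (1 / c) * (I θ + X + δ' ^ 2 * (7 * S + X)) := by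
        apply intervalIntegral.integral_mono_on (by linarith)
        · exact hgc.neg.intervalIntegrable _ _
        · exact (continuous_const.mul ((hIc.add continuous_const).add
            continuous_const)).intervalIntegrable _ _
        · intro θ _; exact hpt θ
    _ = (1 / c) * ((∫ θ in (-π)..π, I θ) + 2 * π * (X + δ' ^ 2 * (7 * S + X))) := by
        rw [intervalIntegral.integral_const_mul]
        congr 1
        have : ∀ θ, I θ + X + δ' ^ 2 * (7 * S + X) = I θ + (X + δ' ^ 2 * (7 * S + X)) :=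
          fun θ => by ring
        simp only [this]
        rw [intervalIntegral.integral_add (hIc.intervalIntegrable _ _)
          (continuous_const.intervalIntegrable _ _), int_const]
    _ ≤ _ := by
        apply mul_le_mul_of_nonneg_left _ (by positivity)
        have h6 : 2 * π * (7 * S + X) ≤ 50 * (S + X) := by
          have := Real.pi_lt_d2
          nlinarith
        have h7 : 0 ≤ δ' ^ 2 := sq_nonneg _
        nlinarith

end PB3
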