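import Mathlib

/-!
Torus1: near-identity change of variables in `ℝ × ℝ`, total variation estimate.
-/

namespace PB3

open MeasureTheory Real Set
open scoped NNReal ENNReal

/-- one-sided estimate for nonnegative continuous functions -/
theorem torus1_aux {e η : ℝ} (hη : η ≤ 1 / 4)
    {p : ℝ × ℝ → ℝ × ℝ} (hp : Continuous p) (hlip : ∀ x y, ‖p x - p y‖ ≤ η * ‖x - y‖)
    (hb : ∀ x ∈ Icc (-π) π ×ˢ Icc e (π - e), ‖p x‖ ≤ η)
    {g : ℝ × ℝ → ℝ} (hg : Continuous g) (hg0 : ∀ x, 0 ≤ g x) :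
    ∫ x in Icc (-π) π ×ˢ Icc e (π - e), g (x + p x) ≤
      ((1 - η) ^ 2)⁻¹ * ∫ x in Icc (-π - η) (π + η) ×ˢ Icc (e - η) (π - e + η), g x := by
  have h1η : 0 < 1 - η := by linarith
  set D : Set (ℝ × ℝ) := Icc (-π) π ×ˢ Icc e (π - e) with hD
  set D' : Set (ℝ × ℝ) := Icc (-π - η) (π + η) ×ˢ Icc (e - η) (π - e + η) with hD'
  set Φ : ℝ × ℝ → ℝ × ℝ := fun x => x + p x with hΦ
  have hΦc : Continuous Φ := continuous_id.add hp
  have hmem : ∀ x ∈ D, Φ x ∈ D' := by
    rintro ⟨x1, x2⟩ hx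
    have hbx := hb _ hx
    rw [Prod.norm_def, max_le_iff, Real.norm_eq_abs, Real.norm_eq_abs, abs_le, abs_le] at hbx
    obtain ⟨hx1, hx2⟩ := hx
    simp only [mem_Icc] at hx1 hx2
    refine ⟨⟨?_, ?_⟩, ⟨?_, ?_⟩⟩
    · change -π - η ≤ x1 + (p (x1, x2)).1
      linarith [hbx.1.1]
    · change x1 + (p (x1, x2)).1 ≤ π + η
      linarith [hbx.1.2]
    · change e - η ≤ x2 + (p (x1, x2)).2
      linarith [hbx.2.1]
    · change x2 + (p (x1, x2)).2 ≤ π - e + η
      linarith [hbx.2.2]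
  have hanti : AntilipschitzWith (Real.toNNReal (1 - η)⁻¹) Φ := by
    refine AntilipschitzWith.of_le_mul_dist ?_
    intro x y
    rw [Real.coe_toNNReal _ (inv_nonneg.2 h1η.le), dist_eq_norm, dist_eq_norm,
      inv_mul_eq_div, le_div_iff₀ h1η]
    have h1 := hlip x y
    have h2 : ‖x - y‖ ≤ ‖Φ x - Φ y‖ + ‖p x - p y‖ := by
      have h3 : x - y = (Φ x - Φ y) - (p x - p y) := by
        simp only [hΦ]
        abel
      rw [h3]
      exact norm_sub_le _ _
    nlinarith
  have hvol : ∀ s : Set (ℝ × ℝ), volume (Φ ⁻¹' s) ≤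
      (ENNReal.ofReal (1 - η)⁻¹) ^ (2 : ℝ) * volume s := by
    intro s
    have h := hanti.hausdorffMeasure_preimage_le (d := 2) (by norm_num) s
    rw [MeasureTheory.hausdorffMeasure_prod_real] at h
    exact h
  have hmap : (volume.restrict D).map Φ ≤
      (ENNReal.ofReal (1 - η)⁻¹) ^ (2 : ℝ) • volume.restrict D' := by
    refine Measure.le_iff.2 ?_
    intro s hs
    rw [Measure.map_apply hΦc.measurable hs, Measure.restrict_apply (hΦc.measurable hs),
      Measure.smul_apply, Measure.restrict_apply hs, smul_eq_mul]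
    refine le_trans (measure_mono ?_) (hvol (s ∩ D'))
    rintro x ⟨hx1, hx2⟩
    exact ⟨hx1, hmem x hx2⟩
  have hfin : (ENNReal.ofReal (1 - η)⁻¹) ^ (2 : ℝ) ≠ ⊤ :=
    ENNReal.rpow_ne_top_of_nonneg (by norm_num) ENNReal.ofReal_ne_top
  have hD'c : IsCompact D' := isCompact_Icc.prod isCompact_Icc
  have hint' : IntegrableOn g D' := hg.continuousOn.integrableOn_compact hD'c
  have hint : Integrable g ((ENNReal.ofReal (1 - η)⁻¹) ^ (2 : ℝ) • volume.restrict D') :=
    Integrable.smul_measure hint' hfin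
  have h1 := integral_mono_measure hmap (Filter.Eventually.of_forall hg0) hint
  rw [integral_map hΦc.aemeasurable hg.aestronglyMeasurable, integral_smul_measure,
    smul_eq_mul] at h1
  have h2 : ((ENNReal.ofReal (1 - η)⁻¹) ^ (2 : ℝ)).toReal = ((1 - η) ^ 2)⁻¹ := by
    rw [← ENNReal.toReal_rpow, ENNReal.toReal_ofReal (inv_nonneg.2 h1η.le), Real.rpow_two,
      inv_pow]
  rw [h2] at h1
  exact h1

/-- one-sided estimate for bounded continuous functions -/
theorem torus1_aux2 {e η S : ℝ} (he0 : 0 < e) (he1 : e < 1) (hη0 : 0 ≤ η) (hη : η ≤ 1 / 4)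
    {p : ℝ × ℝ → ℝ × ℝ} (hp : Continuous p) (hlip : ∀ x y, ‖p x - p y‖ ≤ η * ‖x - y‖)
    (hb : ∀ x ∈ Icc (-π) π ×ˢ Icc e (π - e), ‖p x‖ ≤ η)
    {f : ℝ × ℝ → ℝ} (hf : Continuous f) (hS : ∀ x, |f x| ≤ S) :
    ∫ x in Icc (-π) π ×ˢ Icc e (π - e), f (x + p x) ≤
      (∫ x in Icc (-π) π ×ˢ Icc e (π - e), f x) + 400 * η * S := by
  have hπ3 := Real.pi_gt_three
  have hπ4 := Real.pi_le_four
  have hS0 : 0 ≤ S := (abs_nonneg _).trans (hS 0)
  have h1η : 0 < 1 - η := by linarith
  set D : Set (ℝ × ℝ) := Icc (-π) π ×ˢ Icc e (π - e) with hD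
  set D' : Set (ℝ × ℝ) := Icc (-π - η) (π + η) ×ˢ Icc (e - η) (π - e + η) with hD'
  have hDc : IsCompact D := isCompact_Icc.prod isCompact_Icc
  have hD'c : IsCompact D' := isCompact_Icc.prod isCompact_Icc
  have hsub : D ⊆ D' := by
    refine prod_mono (Icc_subset_Icc (by linarith) (by linarith))
      (Icc_subset_Icc (by linarith) (by linarith))
  have hvD : volume.real D = 2 * π * (π - 2 * e) := by
    rw [hD, Measure.real, Measure.volume_eq_prod, Measure.prod_prod, Real.volume_Icc,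
      Real.volume_Icc, ENNReal.toReal_mul, ENNReal.toReal_ofReal (by linarith),
      ENNReal.toReal_ofReal (by linarith)]
    ring
  have hvD' : volume.real D' = (2 * π + 2 * η) * (π - 2 * e + 2 * η) := by
    rw [hD', Measure.real, Measure.volume_eq_prod, Measure.prod_prod, Real.volume_Icc,
      Real.volume_Icc, ENNReal.toReal_mul, ENNReal.toReal_ofReal (by linarith),
      ENNReal.toReal_ofReal (by linarith)]
    ring
  have hfD : IntegrableOn f D := hf.continuousOn.integrableOn_compact hDc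
  have hfD' : IntegrableOn f D' := hf.continuousOn.integrableOn_compact hD'c
  have hΦc : Continuous (fun x : ℝ × ℝ => f (x + p x)) := hf.comp (continuous_id.add hp)
  have hfΦ : IntegrableOn (fun x : ℝ × ℝ => f (x + p x)) D :=
    hΦc.continuousOn.integrableOn_compact hDc
  have hcD : IntegrableOn (fun _ : ℝ × ℝ => S) D :=
    continuous_const.continuousOn.integrableOn_compact hDc
  have hcD' : IntegrableOn (fun _ : ℝ × ℝ => S) D' :=
    continuous_const.continuousOn.integrableOn_compact hD'c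
  have h1 := torus1_aux hη hp hlip hb (g := fun x => f x + S) (hf.add continuous_const)
    (fun x => by linarith [(abs_le.1 (hS x)).1])
  rw [integral_add hfΦ hcD, integral_add hfD' hcD', setIntegral_const, setIntegral_const,
    smul_eq_mul, smul_eq_mul, hvD, hvD'] at h1
  -- the part outside `D`
  have h2 : (∫ x in D', f x) ≤ (∫ x in D, f x) + S * (volume.real D' - volume.real D) := by
    have h3 : ∫ x in D', f x = (∫ x in D, f x) + ∫ x in D' \ D, f x := by
      rw [← setIntegral_union disjoint_sdiff_right (hD'c.measurableSet.diff hDc.measurableSet)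
        hfD (hfD'.mono_set sdiff_subset), union_sdiff_cancel hsub]
    have h4 : ‖∫ x in D' \ D, f x‖ ≤ S * volume.real (D' \ D) := by
      refine norm_setIntegral_le_of_norm_le_const ?_ (fun x _ => hS x)
      exact lt_of_le_of_lt (measure_mono sdiff_subset) hD'c.measure_lt_top
    have h5 : volume.real (D' \ D) = volume.real D' - volume.real D :=
      measureReal_sdiff hsub hDc.measurableSet hD'c.measure_lt_top.ne
    rw [h5] at h4
    rw [h3]
    linarith [le_abs_self (∫ x in D' \ D, f x), (Real.norm_eq_abs _ ▸ h4 :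
      |∫ x in D' \ D, f x| ≤ S * (volume.real D' - volume.real D))]
  rw [hvD, hvD'] at h2
  have h6 : |∫ x in D, f x| ≤ S * (2 * π * (π - 2 * e)) := by
    have := norm_setIntegral_le_of_norm_le_const (μ := volume) (s := D) (f := f) (C := S)
      hDc.measure_lt_top (fun x _ => hS x)
    rw [hvD] at this
    exact this
  set I := ∫ x in D, f x with hI
  set I' := ∫ x in D', f x with hI'
  set J := ∫ x in D, f (x + p x) with hJ
  set L := ((1 - η) ^ 2)⁻¹ with hL
  have hL1 : L ≤ 1 + 4 * η := by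
    rw [hL, inv_le_iff_one_le_mul₀ (by positivity)]
    nlinarith [mul_nonneg hη0 hη0, mul_nonneg hη0 (by linarith : (0:ℝ) ≤ 1/4 - η)]
  have hL0 : 0 ≤ L := by positivity
  have hV : 0 ≤ 2 * π * (π - 2 * e) := by
    have : 0 ≤ π - 2 * e := by linarith
    positivity
  have hV2 : 2 * π * (π - 2 * e) ≤ 32 := by
    have h7 : π - 2 * e ≤ 4 := by linarith
    have h8 : 0 ≤ π - 2 * e := by linarith
    nlinarith
  have hdiff : (2 * π + 2 * η) * (π - 2 * e + 2 * η) - 2 * π * (π - 2 * e) ≤ 25 * η := by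
    nlinarith [mul_nonneg hη0 he0.le, mul_nonneg hη0 hη0]
  have hdiff0 : 0 ≤ (2 * π + 2 * η) * (π - 2 * e + 2 * η) - 2 * π * (π - 2 * e) := by
    have h8 : 0 ≤ π - 2 * e := by linarith
    have : (2 * π + 2 * η) * (π - 2 * e + 2 * η) - 2 * π * (π - 2 * e) =
      2 * π * (2 * η) + 2 * η * (π - 2 * e + 2 * η) := by ring
    rw [this]
    have : 0 ≤ π - 2 * e + 2 * η := by linarith
    positivity
  set V := 2 * π * (π - 2 * e) with hVdef
  set V' := (2 * π + 2 * η) * (π - 2 * e + 2 * η) with hV'def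
  -- h1 : J + V * S ≤ L * (I' + V' * S)
  have h9 : I' + V' * S ≤ I + V * S + 50 * η * S := by nlinarith
  have h10 : 0 ≤ I + V * S := by nlinarith [(abs_le.1 h6).1]
  have h11 : I + V * S ≤ 64 * S := by nlinarith [(abs_le.1 h6).2]
  have h12 : L * (I' + V' * S) ≤ (1 + 4 * η) * (I + V * S + 50 * η * S) := by
    have hA : 0 ≤ I + V * S + 50 * η * S := by positivity
    calc L * (I' + V' * S) ≤ L * (I + V * S + 50 * η * S) := mul_le_mul_of_nonneg_left h9 hL0
      _ ≤ _ := mul_le_mul_of_nonneg_right hL1 hA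
  have h13 : 4 * η * (I + V * S) ≤ 4 * η * (64 * S) :=
    mul_le_mul_of_nonneg_left h11 (by positivity)
  have h14 : 200 * η * η * S ≤ 50 * η * S := by
    have : 0 ≤ η * S := mul_nonneg hη0 hS0
    nlinarith
  nlinarith

/-- near-identity change of variables: total variation estimate -/
theorem torus_T1 {e η S : ℝ} (he0 : 0 < e) (he1 : e < 1) (hη0 : 0 ≤ η) (hη : η ≤ 1 / 4)
    {p : ℝ × ℝ → ℝ × ℝ}
    (hlip : ∀ x ∈ Icc (-π) π ×ˢ Icc e (π - e), ∀ y ∈ Icc (-π) π ×ˢ Icc e (π - e),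
      ‖p x - p y‖ ≤ η * ‖x - y‖)
    (hb : ∀ x ∈ Icc (-π) π ×ˢ Icc e (π - e), ‖p x‖ ≤ η)
    {f : ℝ × ℝ → ℝ} (hf : Continuous f) (hS : ∀ x, |f x| ≤ S) :
    |(∫ x in Icc (-π) π ×ˢ Icc e (π - e), f (x + p x)) -
      ∫ x in Icc (-π) π ×ˢ Icc e (π - e), f x| ≤ 400 * η * S := by
  set D : Set (ℝ × ℝ) := Icc (-π) π ×ˢ Icc e (π - e) with hD
  have hDm : MeasurableSet D := measurableSet_Icc.prod measurableSet_Icc
  -- extend `p` to the whole plane
  have hl1 : LipschitzOnWith (Real.toNNReal η) (fun x => (p x).1) D := by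
    refine LipschitzOnWith.of_dist_le_mul ?_
    intro x hx y hy
    rw [Real.coe_toNNReal _ hη0, dist_eq_norm, dist_eq_norm]
    exact (norm_fst_le (p x - p y)).trans (hlip x hx y hy)
  have hl2 : LipschitzOnWith (Real.toNNReal η) (fun x => (p x).2) D := by
    refine LipschitzOnWith.of_dist_le_mul ?_
    intro x hx y hy
    rw [Real.coe_toNNReal _ hη0, dist_eq_norm, dist_eq_norm]
    exact (norm_snd_le (p x - p y)).trans (hlip x hx y hy)
  obtain ⟨p1, hp1, he1'⟩ := hl1.extend_real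
  obtain ⟨p2, hp2, he2'⟩ := hl2.extend_real
  set q : ℝ × ℝ → ℝ × ℝ := fun x => (p1 x, p2 x) with hq
  have hqc : Continuous q := hp1.continuous.prodMk hp2.continuous
  have hqp : ∀ x ∈ D, q x = p x := by
    intro x hx
    exact Prod.ext (he1' hx).symm (he2' hx).symm
  have hqlip : ∀ x y, ‖q x - q y‖ ≤ η * ‖x - y‖ := by
    intro x y
    have h1 := hp1.dist_le_mul x y
    have h2 := hp2.dist_le_mul x y
    rw [Real.coe_toNNReal _ hη0, dist_eq_norm, dist_eq_norm] at h1 h2
    rw [Prod.norm_def]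
    exact max_le h1 h2
  have hqb : ∀ x ∈ D, ‖q x‖ ≤ η := by
    intro x hx
    rw [hqp x hx]
    exact hb x hx
  have hcongr : ∀ g : ℝ × ℝ → ℝ, ∫ x in D, g (x + p x) = ∫ x in D, g (x + q x) := by
    intro g
    refine setIntegral_congr_fun hDm ?_
    intro x hx
    simp only
    rw [hqp x hx]
  rw [hcongr f, abs_le]
  have h1 := torus1_aux2 he0 he1 hη0 hη hqc hqlip hqb hf hS
  have h2 := torus1_aux2 (f := fun x => -f x) he0 he1 hη0 hη hqc hqlip hqb hf.neg
    (fun x => by rw [abs_neg]; exact hS x)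
  rw [integral_neg, integral_neg] at h2
  constructor
  · linarith
  · linarith

end PB3
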