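import Pool.Agent.Lib.MP_03c723_gt.Torus2
import Pool.Agent.Lib.MP_03c723_gt.Torus1

/-!
MP_03c723_gt, `Torus3`: integrals over the slightly deformed torus `Y` are close to integrals over
the round torus `Y0`, uniformly for all bounded integrands.
-/

namespace PB3
open MeasureTheory Real
open scoped InnerProductSpace

namespace Torus3Aux

theorem double_eq {g : ℝ × ℝ → ℝ} (hg : Continuous g) {c d : ℝ} (hcd : c ≤ d) :
    ∫ θ in (-π)..π, ∫ ψ in c..d, g (θ, ψ) = ∫ x in Set.Icc (-π) π ×ˢ Set.Icc c d, g x := by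
  have hπ : -π ≤ π := by linarith [Real.pi_pos]
  have hint : IntegrableOn g (Set.Icc (-π) π ×ˢ Set.Icc c d) (volume.prod volume) :=
    hg.continuousOn.integrableOn_compact (isCompact_Icc.prod isCompact_Icc)
  have h1 := setIntegral_prod g hint
  rw [Measure.volume_eq_prod, h1, intervalIntegral.integral_of_le hπ,
    ← integral_Icc_eq_integral_Ioc]
  refine integral_congr_ae (Filter.Eventually.of_forall fun θ => ?_)
  show ∫ ψ in c..d, g (θ, ψ) = ∫ y in Set.Icc c d, g (θ, y)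
  rw [intervalIntegral.integral_of_le hcd, ← integral_Icc_eq_integral_Ioc]

theorem halve {h : ℝ → ℝ} (hc : Continuous h) (hp : ∀ x, h (x + π) = h x) :
    ∫ ψ in (-π)..π, h ψ = 2 * ∫ ψ in (0 : ℝ)..π, h ψ := by
  have h1 : Function.Periodic h π := hp
  have h2 := h1.intervalIntegral_add_eq (-π) 0
  rw [neg_add_cancel, zero_add] at h2
  rw [← intervalIntegral.integral_add_adjacent_intervals (hc.intervalIntegrable (-π) 0)
    (hc.intervalIntegrable 0 π), h2]
  ring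

theorem cont_inner {g : ℝ × ℝ → ℝ} (hg : Continuous g) (c d : ℝ) :
    Continuous fun θ => ∫ ψ in c..d, g (θ, ψ) :=
  intervalIntegral.continuous_parametric_intervalIntegral_of_continuous'
    (f := fun θ ψ => g (θ, ψ)) (by simpa [Function.uncurry_def] using hg) c d

theorem small_part {g : ℝ × ℝ → ℝ} {M c d : ℝ} (hcd : c ≤ d) (hM : ∀ x, |g x| ≤ M) :
    |∫ θ in (-π)..π, ∫ ψ in c..d, g (θ, ψ)| ≤ 2 * π * (M * (d - c)) := by
  have h1 : ∀ θ, ‖∫ ψ in c..d, g (θ, ψ)‖ ≤ M * (d - c) := by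
    intro θ
    have := intervalIntegral.norm_integral_le_of_norm_le_const (a := c) (b := d)
      (f := fun ψ => g (θ, ψ)) (C := M) (fun ψ _ => hM (θ, ψ))
    rwa [abs_of_nonneg (by linarith)] at this
  have h2 := intervalIntegral.norm_integral_le_of_norm_le_const (a := -π) (b := π)
      (f := fun θ => ∫ ψ in c..d, g (θ, ψ)) (C := M * (d - c)) (fun θ _ => h1 θ)
  rw [Real.norm_eq_abs] at h2
  have h3 : |π - -π| = 2 * π := by
    rw [abs_of_nonneg (by linarith [Real.pi_pos])]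
    ring
  rw [h3] at h2
  linarith

theorem T1 {e : ℝ} (he0 : 0 < e) (he1 : e < 1) :
    ∃ C : ℝ, 0 ≤ C ∧ ∀ (η : ℝ) (p : ℝ × ℝ → ℝ × ℝ), 0 ≤ η → η ≤ 1 / 4 →
    LipschitzOnWith (Real.toNNReal η) p (Set.Icc (-π) π ×ˢ Set.Icc e (π - e)) →
    (∀ x ∈ Set.Icc (-π) π ×ˢ Set.Icc e (π - e), ‖p x‖ ≤ η) →
    ∀ (f : ℝ × ℝ → ℝ) (S : ℝ), Continuous f → (∀ x, |f x| ≤ S) →
    |(∫ x in Set.Icc (-π) π ×ˢ Set.Icc e (π - e), f (x + p x))
      - ∫ x in Set.Icc (-π) π ×ˢ Set.Icc e (π - e), f x| ≤ C * η * S := by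
  refine ⟨400, by norm_num, fun η p h0 h1 hl hb f S hf hS => ?_⟩
  refine torus_T1 he0 he1 h0 h1 ?_ hb hf hS
  intro x hx y hy
  have := hl.dist_le_mul x hx y hy
  rwa [Real.coe_toNNReal _ h0, dist_eq_norm, dist_eq_norm] at this

end Torus3Aux

open Torus3Aux in
theorem torus_close (κ : ℝ) (hκ : 0 < κ) :
    ∃ δ₀ : ℝ, 0 < δ₀ ∧ ∀ t₁ t₂ : E → E → ℝ, Good t₁ δ₀ → Good t₂ δ₀ →
      ∀ (σ : E → ℝ) (S : ℝ), EH σ → (∀ x, |σ x| ≤ S * ‖x‖) → ∀ a b u : E, Fr a b u →
      |(∫ θ in (-π)..π, ∫ ψ in (-π)..π, σ (Y t₁ t₂ a b u θ ψ))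
        - ∫ θ in (-π)..π, ∫ ψ in (-π)..π, σ (Y0 a b u θ ψ)| ≤ κ * S := by
  have hπ := Real.pi_pos
  obtain ⟨e, he0, he1, he2⟩ : ∃ e : ℝ, 0 < e ∧ e ≤ 1 / 2 ∧ 24 * π * e ≤ κ / 3 := by
    refine ⟨min (1 / 2) (κ / (72 * π)), by positivity, min_le_left _ _, ?_⟩
    have h1 : min (1 / 2) (κ / (72 * π)) ≤ κ / (72 * π) := min_le_right _ _
    calc 24 * π * min (1 / 2) (κ / (72 * π)) ≤ 24 * π * (κ / (72 * π)) :=
          mul_le_mul_of_nonneg_left h1 (by positivity)
      _ = κ / 3 := by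
          field_simp
          norm_num
  obtain ⟨C, d₀, hC, hd₀, hd₁, H2⟩ := torus_T2 he0 (by linarith : e < 1)
  obtain ⟨C', hC', H1⟩ := T1 he0 (by linarith : e < 1)
  obtain ⟨d, hd0, hdd, hdC, hdκ, hdκ'⟩ : ∃ d : ℝ, 0 < d ∧ d ≤ d₀ ∧ C * d ≤ 1 / 4 ∧
      4 * π ^ 2 * d ≤ κ / 3 ∧ 2 * (C' * (C * d)) ≤ κ / 3 := by
    refine ⟨min d₀ (min (1 / (4 * C)) (min (κ / (12 * π ^ 2)) (κ / (6 * (C' * C + 1))))),
      by positivity, min_le_left _ _, ?_, ?_, ?_⟩
    · have h1 : min d₀ (min (1 / (4 * C)) (min (κ / (12 * π ^ 2)) (κ / (6 * (C' * C + 1)))))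
          ≤ 1 / (4 * C) := (min_le_right _ _).trans (min_le_left _ _)
      calc _ ≤ C * (1 / (4 * C)) := mul_le_mul_of_nonneg_left h1 hC.le
        _ = 1 / 4 := by field_simp
    · have h1 : min d₀ (min (1 / (4 * C)) (min (κ / (12 * π ^ 2)) (κ / (6 * (C' * C + 1)))))
          ≤ κ / (12 * π ^ 2) :=
        ((min_le_right _ _).trans (min_le_right _ _)).trans (min_le_left _ _)
      calc _ ≤ 4 * π ^ 2 * (κ / (12 * π ^ 2)) := mul_le_mul_of_nonneg_left h1 (by positivity)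
        _ = κ / 3 := by
          field_simp
          norm_num
    · have h1 : min d₀ (min (1 / (4 * C)) (min (κ / (12 * π ^ 2)) (κ / (6 * (C' * C + 1)))))
          ≤ κ / (6 * (C' * C + 1)) :=
        ((min_le_right _ _).trans (min_le_right _ _)).trans (min_le_right _ _)
      have h2 : 0 ≤ C' * C := mul_nonneg hC' hC.le
      calc 2 * (C' * (C * min d₀ (min (1 / (4 * C)) (min (κ / (12 * π ^ 2))
              (κ / (6 * (C' * C + 1)))))))
          = 2 * (C' * C) * min d₀ (min (1 / (4 * C)) (min (κ / (12 * π ^ 2))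
              (κ / (6 * (C' * C + 1))))) := by ring
        _ ≤ 2 * (C' * C) * (κ / (6 * (C' * C + 1))) :=
          mul_le_mul_of_nonneg_left h1 (by positivity)
        _ = κ / 3 * (C' * C / (C' * C + 1)) := by
          have h3 : C' * C + 1 ≠ 0 := by positivity
          rw [mul_div_assoc', div_mul_div_comm, div_eq_div_iff (by positivity) (by positivity)]
          ring
        _ ≤ κ / 3 * 1 := by
          apply mul_le_mul_of_nonneg_left _ (by positivity)
          rw [div_le_one (by positivity)]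
          linarith
        _ = κ / 3 := by ring
  refine ⟨d, hd0, ?_⟩
  intro t₁ t₂ g1 g2 σ S hσ hS a b u hf
  have hd1 : d ≤ 1 := hdd.trans hd₁
  obtain ⟨hYn, hYc, hYp, hY0n, hY0c⟩ := torus_Y hd0.le hd1 g1 g2 hf
  obtain ⟨p, hpl, hpb, hpY⟩ := H2 d hd0.le hdd t₁ t₂ g1 g2 a b u hf
  have hS0 : 0 ≤ S := by
    have := hS u
    rw [hf.nu, mul_one] at this
    exact (abs_nonneg _).trans this
  set G : ℝ × ℝ → ℝ := fun x => σ (Y t₁ t₂ a b u x.1 x.2) with hG
  set f : ℝ × ℝ → ℝ := fun x => σ (Y0 a b u x.1 x.2) with hfdef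
  have hGc : Continuous G := hσ.cont.comp hYc
  have hfc : Continuous f := hσ.cont.comp hY0c
  have hfb : ∀ x, |f x| ≤ S := by
    intro x
    have := hS (Y0 a b u x.1 x.2)
    rwa [hY0n, mul_one] at this
  have hGb : ∀ x, |G x| ≤ 2 * S := by
    intro x
    have h1 := hS (Y t₁ t₂ a b u x.1 x.2)
    have h2 := (hYn x.1 x.2).2
    have h3 : d ^ 2 ≤ 1 := by nlinarith
    calc |G x| ≤ S * ‖Y t₁ t₂ a b u x.1 x.2‖ := h1
      _ ≤ S * 2 := mul_le_mul_of_nonneg_left (by linarith) hS0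
      _ = 2 * S := by ring
  have hneg : ∀ x : E, σ (-x) = σ x := by
    intro x
    have := hσ.hom (-1) x
    simpa using this
  have hGp : ∀ θ ψ, G (θ, ψ + π) = G (θ, ψ) := by
    intro θ ψ
    simp only [hG, hYp, hneg]
  have hfp : ∀ θ ψ, f (θ, ψ + π) = f (θ, ψ) := by
    intro θ ψ
    have : Y0 a b u θ (ψ + π) = - Y0 a b u θ ψ := by
      unfold Y0 cp
      rw [Real.cos_add_pi, Real.sin_add_pi]
      module
    simp only [hfdef, this, hneg]
  -- the difference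
  set h : ℝ × ℝ → ℝ := fun x => G x - f x with hh
  have hhc : Continuous h := hGc.sub hfc
  have hhb : ∀ x, |h x| ≤ 3 * S := by
    intro x
    calc |G x - f x| ≤ |G x| + |f x| := abs_sub _ _
      _ ≤ 3 * S := by linarith [hGb x, hfb x]
  have hsec : ∀ θ, Continuous fun ψ => h (θ, ψ) := fun θ => hhc.comp (by fun_prop)
  have e1 : (∫ θ in (-π)..π, ∫ ψ in (-π)..π, σ (Y t₁ t₂ a b u θ ψ))
        - ∫ θ in (-π)..π, ∫ ψ in (-π)..π, σ (Y0 a b u θ ψ)
      = ∫ θ in (-π)..π, ∫ ψ in (-π)..π, h (θ, ψ) := by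
    rw [← intervalIntegral.integral_sub ((cont_inner hGc (-π) π).intervalIntegrable _ _)
      ((cont_inner hfc (-π) π).intervalIntegrable _ _)]
    refine intervalIntegral.integral_congr fun θ _ => ?_
    show (∫ ψ in (-π)..π, G (θ, ψ)) - (∫ ψ in (-π)..π, f (θ, ψ)) = ∫ ψ in (-π)..π, h (θ, ψ)
    rw [← intervalIntegral.integral_sub]
    · exact (hGc.comp (by fun_prop : Continuous fun ψ : ℝ => (θ, ψ))).intervalIntegrable _ _
    · exact (hfc.comp (by fun_prop : Continuous fun ψ : ℝ => (θ, ψ))).intervalIntegrable _ _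
  have e2 : ∀ θ, ∫ ψ in (-π)..π, h (θ, ψ) = 2 * ((∫ ψ in (0 : ℝ)..e, h (θ, ψ))
      + (∫ ψ in e..(π - e), h (θ, ψ)) + ∫ ψ in (π - e)..π, h (θ, ψ)) := by
    intro θ
    rw [halve (hsec θ) (fun ψ => by simp only [hh, hGp, hfp])]
    rw [intervalIntegral.integral_add_adjacent_intervals ((hsec θ).intervalIntegrable _ _)
      ((hsec θ).intervalIntegrable _ _),
      intervalIntegral.integral_add_adjacent_intervals ((hsec θ).intervalIntegrable _ _)
      ((hsec θ).intervalIntegrable _ _)]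
  have e3' : ∫ θ in (-π)..π, ∫ ψ in (-π)..π, h (θ, ψ)
      = 2 * ((∫ θ in (-π)..π, ∫ ψ in (0 : ℝ)..e, h (θ, ψ))
      + (∫ θ in (-π)..π, ∫ ψ in e..(π - e), h (θ, ψ))
      + ∫ θ in (-π)..π, ∫ ψ in (π - e)..π, h (θ, ψ)) := by
    simp only [e2]
    rw [intervalIntegral.integral_const_mul, intervalIntegral.integral_add,
      intervalIntegral.integral_add]
    · exact (cont_inner hhc _ _).intervalIntegrable _ _
    · exact (cont_inner hhc _ _).intervalIntegrable _ _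
    · exact ((cont_inner hhc _ _).add (cont_inner hhc _ _)).intervalIntegrable _ _
    · exact (cont_inner hhc _ _).intervalIntegrable _ _
  have s1 := small_part (g := h) (M := 3 * S) he0.le hhb
  have s2 := small_part (g := h) (M := 3 * S) (by linarith : π - e ≤ π) hhb
  have hπ3 := Real.pi_gt_three
  have he3 : e ≤ π - e := by linarith
  have m1 := double_eq hhc he3
  -- the main part
  set D : Set (ℝ × ℝ) := Set.Icc (-π) π ×ˢ Set.Icc e (π - e) with hD
  have hDc : IsCompact D := isCompact_Icc.prod isCompact_Icc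
  have hDm : MeasurableSet D := hDc.measurableSet
  have hpc : ContinuousOn p D := hpl.continuousOn
  have hfpc : ContinuousOn (fun x => f (x + p x)) D :=
    hfc.comp_continuousOn (continuousOn_id.add hpc)
  have hfpi : IntegrableOn (fun x => f (x + p x)) D := hfpc.integrableOn_compact hDc
  have hGi : IntegrableOn G D := hGc.continuousOn.integrableOn_compact hDc
  have hfi : IntegrableOn f D := hfc.continuousOn.integrableOn_compact hDc
  have m2 := H1 (C * d) p (by positivity) hdC hpl hpb f S hfc hfb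
  have m3 : |∫ x in D, (G x - f (x + p x))| ≤ 2 * π ^ 2 * (d ^ 2 * S) := by
    have hb : ∀ x ∈ D, ‖G x - f (x + p x)‖ ≤ d ^ 2 * S := by
      intro x hx
      have h1 := hpY x hx
      have h2 : G x = ‖Y t₁ t₂ a b u x.1 x.2‖ * f (x + p x) := by
        show σ (Y t₁ t₂ a b u x.1 x.2) = _
        rw [h1, hσ.hom, abs_norm]
        congr 1
        · rw [← h1]
      rw [h2, Real.norm_eq_abs]
      have h3 : ‖Y t₁ t₂ a b u x.1 x.2‖ * f (x + p x) - f (x + p x)
          = (‖Y t₁ t₂ a b u x.1 x.2‖ - 1) * f (x + p x) := by ring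
      rw [h3, abs_mul]
      have h4 := hYn x.1 x.2
      rw [abs_of_nonneg (by linarith : (0 : ℝ) ≤ ‖Y t₁ t₂ a b u x.1 x.2‖ - 1)]
      exact mul_le_mul (by linarith) (hfb _) (abs_nonneg _) (sq_nonneg _)
    have hv : volume D = ENNReal.ofReal (2 * π) * ENNReal.ofReal (π - 2 * e) := by
      rw [hD, Measure.volume_eq_prod, Measure.prod_prod, Real.volume_Icc, Real.volume_Icc]
      congr 2 <;> ring
    have hv' : volume.real D = 2 * π * (π - 2 * e) := by
      rw [Measure.real, hv, ENNReal.toReal_mul, ENNReal.toReal_ofReal (by positivity),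
        ENNReal.toReal_ofReal (by linarith)]
    have h5 := norm_setIntegral_le_of_norm_le_const (s := D) (μ := volume)
      hDc.measure_lt_top hb
    rw [hv', Real.norm_eq_abs] at h5
    refine h5.trans ?_
    have h6 : 2 * π * (π - 2 * e) ≤ 2 * π ^ 2 := by nlinarith
    have h7 : 0 ≤ d ^ 2 * S := by positivity
    nlinarith [mul_le_mul_of_nonneg_left h6 h7]
  have m4 : ∫ x in D, h x = (∫ x in D, (G x - f (x + p x)))
      + ((∫ x in D, f (x + p x)) - ∫ x in D, f x) := by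
    rw [integral_sub hGi hfpi]
    have : ∫ x in D, h x = (∫ x in D, G x) - ∫ x in D, f x := integral_sub hGi hfi
    rw [this]
    ring
  rw [e1, e3', m1, m4, abs_mul, abs_of_pos (by norm_num : (0 : ℝ) < 2)]
  set I1 := ∫ θ in (-π)..π, ∫ ψ in (0 : ℝ)..e, h (θ, ψ)
  set I2 := ∫ θ in (-π)..π, ∫ ψ in (π - e)..π, h (θ, ψ)
  set I3 := ∫ x in D, (G x - f (x + p x))
  set I4 := (∫ x in D, f (x + p x)) - ∫ x in D, f x
  have t1 : |I1 + (I3 + I4) + I2| ≤ |I1| + |I2| + |I3| + |I4| := by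
    calc |I1 + (I3 + I4) + I2| ≤ |I1 + (I3 + I4)| + |I2| := abs_add_le _ _
      _ ≤ |I1| + |I3 + I4| + |I2| := by linarith [abs_add_le I1 (I3 + I4)]
      _ ≤ |I1| + (|I3| + |I4|) + |I2| := by linarith [abs_add_le I3 I4]
      _ = _ := by ring
  have t2 : 2 * (2 * π ^ 2 * (d ^ 2 * S)) ≤ κ / 3 * S := by
    have h8 : d ^ 2 ≤ d := by nlinarith
    have h9 : 4 * π ^ 2 * d ^ 2 ≤ κ / 3 :=
      (mul_le_mul_of_nonneg_left h8 (by positivity)).trans hdκ
    calc 2 * (2 * π ^ 2 * (d ^ 2 * S)) = 4 * π ^ 2 * d ^ 2 * S := by ring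
      _ ≤ κ / 3 * S := mul_le_mul_of_nonneg_right h9 hS0
  have t3 : 2 * (C' * (C * d) * S) ≤ κ / 3 * S := by
    calc 2 * (C' * (C * d) * S) = 2 * (C' * (C * d)) * S := by ring
      _ ≤ κ / 3 * S := mul_le_mul_of_nonneg_right hdκ' hS0
  have t4 : 2 * (2 * π * (3 * S * (e - 0)) + 2 * π * (3 * S * (π - (π - e)))) ≤ κ / 3 * S := by
    calc 2 * (2 * π * (3 * S * (e - 0)) + 2 * π * (3 * S * (π - (π - e))))
        = 24 * π * e * S := by ring
      _ ≤ κ / 3 * S := mul_le_mul_of_nonneg_right he2 hS0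
  linarith

end PB3
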