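import Pool.Agent.Lib.MP_03c723_gt.Iter1
import Pool.Agent.Lib.MP_03c723_gt.Env2
import Pool.Agent.Lib.MP_03c723_gt.Moment
import Pool.Agent.Lib.MP_03c723_gt.Round
import Pool.Agent.Lib.MP_03c723_gt.Torus3
import Pool.Agent.Lib.MP_03c723_gt.Step

/-! Two steps of the iteration contract the second differences. -/

namespace PB3
open MeasureTheory Real
open scoped InnerProductSpace

theorem Good.mono {t : E → E → ℝ} {δ δ' : ℝ} (h : Good t δ) (hd : δ ≤ δ') : Good t δ' :=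
  ⟨fun w u o => (h.bd w u o).trans hd, fun w u w' u' o o' =>
    (h.lip w u w' u' o o').trans (mul_le_mul_of_nonneg_right hd (by positivity)), h.odd⟩

theorem TauOK.mono {τ : E → ℝ} {κ κ' : ℝ} (h : TauOK τ κ) (hd : κ ≤ κ') : TauOK τ κ' :=
  ⟨h.eh, h.inv, fun p q o s x => (h.n2 p q o s x).trans (by
    have : 0 ≤ s ^ 2 * ‖x‖ := by positivity
    nlinarith), h.e3.trans hd⟩

theorem D2_neg (p q : E) (s : ℝ) (z : E → ℝ) (x : E) :
    D2 p q s (fun x => - z x) x = - D2 p q s z x := by simp only [D2]; ring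

theorem D2_F {τ z : E → ℝ} {p q : E} (o : OP p q) (s : ℝ) {u : E} (hu : ‖u‖ = 1) :
    D2 p q s (F τ z) u = (D2 p q s (P z) u + D2 p q s τ u) / (P z e3 + τ e3) := by
  simp only [D2]
  rw [F_unit τ z hu, F_unit τ z (by rw [norm_rotf o, hu]), F_unit τ z (by rw [norm_rotf o, hu])]
  ring

theorem c_bd {τ z : E → ℝ} {δ κ : ℝ} (hδ0 : 0 < δ) (hδ : 3 * δ ≤ 1 / 100) (h : Cls z δ)
    (hτ : TauOK τ κ) : |P z e3 + τ e3 - π| ≤ 30 * δ + κ := by
  have h1 := P_bd (by linarith) hδ (h.near hδ0) norm_e3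
  have h2 := hτ.e3
  have : P z e3 + τ e3 - π = (P z e3 - π) + τ e3 := by ring
  rw [this]
  exact (abs_add_le _ _).trans (by linarith)

theorem F_cls2 : ∃ δ₀ : ℝ, 0 < δ₀ ∧ ∀ δ : ℝ, 0 < δ → δ ≤ δ₀ → ∀ τ : E → ℝ,
    TauOK τ (δ / 100) → ∀ z : E → ℝ, Cls z δ → Cls (F τ (F τ z)) δ := by
  obtain ⟨δa, hδa, hcls⟩ := F_cls1
  obtain ⟨δt, hδt, htor⟩ := torus_close (1 / 4) (by norm_num)
  refine ⟨min (δa / 3) (min (δt / 300) (1 / 10 ^ 10)), by positivity, ?_⟩
  intro δ hδ hδ0 τ hτ z hz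
  have d1 : δ ≤ δa / 3 := hδ0.trans (min_le_left _ _)
  have d2 : δ ≤ δt / 300 := hδ0.trans ((min_le_right _ _).trans (min_le_left _ _))
  have d3 : δ ≤ 1 / 10 ^ 10 := hδ0.trans ((min_le_right _ _).trans (min_le_right _ _))
  have hz1 : Cls (F τ z) (3 * δ) := hcls δ hδ (by linarith) τ hτ z hz
  have hz2 : Cls (F τ (F τ z)) (3 * (3 * δ)) :=
    hcls (3 * δ) (by linarith) (by linarith) τ (hτ.mono (by linarith)) _ hz1
  refine ⟨hz2.eh, hz2.inv, hz2.one, ?_⟩
  intro p q o s x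
  -- constants
  have hn : Near z (3 * δ) := hz.near hδ
  have hn1 : Near (F τ z) (9 * δ) := by
    have := hz1.near (by linarith)
    have e : 3 * (3 * δ) = 9 * δ := by ring
    rwa [e] at this
  set c := P z e3 + τ e3 with hcdef
  set c₁ := P (F τ z) e3 + τ e3 with hc1def
  have hcb := abs_le.1 (c_bd hδ (by linarith) hz hτ)
  have hc1b := abs_le.1 (c_bd (δ := 3 * δ) (by linarith) (by linarith) hz1 hτ)
  rw [← hcdef] at hcb
  rw [← hc1def] at hc1b
  have hpi1 := Real.pi_gt_d6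
  have hpi2 := Real.pi_lt_d6
  have hc : 3.14 ≤ c := by linarith [hcb.1]
  have hc1 : 3.14 ≤ c₁ := by linarith [hc1b.1]
  have hs2 : 0 ≤ s ^ 2 := sq_nonneg s
  set S := δ * s ^ 2 with hSdef
  have hS0 : 0 ≤ S := by positivity
  set X := 10 ^ 6 * δ ^ 2 * s ^ 2 + δ / 100 * s ^ 2 with hXdef
  have hX0 : 0 ≤ X := by positivity
  have hXS : X ≤ (1 / 50) * S := by
    have : 10 ^ 6 * δ ≤ 1 / 100 := by linarith
    rw [hXdef, hSdef]
    nlinarith
  set δg := 270 * δ with hδgdef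
  have g0 : 0 ≤ δg := by positivity
  have g1 : δg ≤ 1 / 10 := by rw [hδgdef]; linarith
  have g2 : δg ≤ δt := by rw [hδgdef]; linarith
  have gsq : δg ^ 2 * (50 * (S + X)) ≤ 1 / 1000 * S := by
    have h1 : δg ^ 2 ≤ 1 / 10 ^ 6 := by
      have : δg ≤ 1 / 10 ^ 3 := by rw [hδgdef]; linarith
      nlinarith
    calc δg ^ 2 * (50 * (S + X)) ≤ 1 / 10 ^ 6 * (50 * (S + 1 / 50 * S)) := by
          apply mul_le_mul h1 (by linarith) (by positivity) (by positivity)
      _ ≤ 1 / 1000 * S := by nlinarith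
  -- reduce to unit vectors
  suffices hmain : ∀ u : E, ‖u‖ = 1 → |D2 p q s (F τ (F τ z)) u| ≤ δ * s ^ 2 by
    by_cases hx : x = 0
    · subst hx
      have h0 : rotf p q s 0 = 0 := by simpa using rotf_smul p q s 0 0
      have h0' : rotf p q (-s) 0 = 0 := by simpa using rotf_smul p q (-s) 0 0
      rw [h0, h0', hz2.eh.zero]; simp
    · have hxn : ‖x‖ ≠ 0 := norm_ne_zero_iff.2 hx
      have h1 := hmain (‖x‖⁻¹ • x) (by rw [norm_smul, norm_inv, norm_norm, inv_mul_cancel₀ hxn])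
      have h2 := (D2_eh hz2.eh p q s).norm_smul_unit x
      have h3 : |D2 p q s (F τ (F τ z)) x| ≤ δ * s ^ 2 * ‖x‖ := by
        rw [h2, abs_mul, abs_of_nonneg (norm_nonneg x), mul_comm]
        exact mul_le_mul_of_nonneg_right h1 (norm_nonneg x)
      exact h3
  intro u hu
  obtain ⟨a, b, hf⟩ := exists_frame hu
  have hD2z : ∀ x, |D2 p q s z x| ≤ S * ‖x‖ := fun x => hz.n2 p q o s x
  have hτ2 : ∀ v : E, ‖v‖ = 1 → |D2 p q s τ v| ≤ δ / 100 * s ^ 2 := fun v hv => by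
    have := hτ.n2 p q o s v
    rw [hv, mul_one] at this; exact this
  have hgood1 : Good (tb p q s (F τ z)) δg := (tb_good (by linarith) (by linarith) hn1 o s).mono
    (by rw [hδgdef]; linarith)
  have hgood2 : Good (tz (F τ z)) δg := (hn1.tz_good (by linarith) (by linarith)).mono
    (by rw [hδgdef]; linarith)
  have hgood3 : Good (tz z) δg := (hn.tz_good (by linarith) (by linarith)).mono
    (by rw [hδgdef]; linarith)
  have hgood4 : Good (tb p q s z) δg := (tb_good (by linarith) (by linarith) hn o s).mono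
    (by rw [hδgdef]; linarith)
  have hround := round_bound (D2_eh hz.eh p q s) (MF_D2 hz.eh hz.inv o s) hD2z hf
  have hcpos : 0 < c := by linarith
  -- pointwise bounds for the first step
  have hA : ∀ a b v : E, Fr a b v → -D2 p q s (F τ z) v ≤
      (1 / c) * ((∫ ψ in (-π)..π, D2 p q s z (cp a b ψ + tz z (cp a b ψ) v • v)) + X) := by
    intro a b v hfv
    rw [D2_F o s hfv.nu, ← hcdef]
    have h1 := (P_diff2 hδ (by linarith) hz o s hfv).2
    have h2 := (abs_le.1 (hτ2 v hfv.nu)).1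
    rw [← neg_div, div_le_iff₀ hcpos]
    have e : 1 / c * ((∫ ψ in (-π)..π, D2 p q s z (cp a b ψ + tz z (cp a b ψ) v • v)) + X) * c
        = (∫ ψ in (-π)..π, D2 p q s z (cp a b ψ + tz z (cp a b ψ) v • v)) + X := by
      field_simp
    rw [e, hXdef]
    linarith
  have hB : ∀ a b v : E, Fr a b v → -(-D2 p q s (F τ z) v) ≤
      (1 / c) * ((∫ ψ in (-π)..π,
        (fun x => -D2 p q s z x) (cp a b ψ + tb p q s z (cp a b ψ) v • v)) + X) := by
    intro a b v hfv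
    rw [D2_F o s hfv.nu, ← hcdef]
    have h1 := (P_diff2 hδ (by linarith) hz o s hfv).1
    have h2 := (abs_le.1 (hτ2 v hfv.nu)).2
    rw [neg_neg, div_le_iff₀ hcpos]
    simp only [intervalIntegral.integral_neg]
    have e : 1 / c * (-(∫ ψ in (-π)..π, D2 p q s z (cp a b ψ + tb p q s z (cp a b ψ) v • v)) + X)
        * c = -(∫ ψ in (-π)..π, D2 p q s z (cp a b ψ + tb p q s z (cp a b ψ) v • v)) + X := by
      field_simp
    rw [e, hXdef]
    linarith
  -- second step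
  have hU := (P_diff2 (δ := 3 * δ) (by linarith) (by linarith) hz1 o s hf).1
  have hL := (P_diff2 (δ := 3 * δ) (by linarith) (by linarith) hz1 o s hf).2
  have hstepU := step_upper (D2_eh hz1.eh p q s) (D2_eh hz.eh p q s) hD2z hX0 hcpos hgood1 hgood3
    g0 g1 hA hf
  have hstepL := step_upper (D2_eh hz1.eh p q s).neg (D2_eh hz.eh p q s).neg
    (fun x => by rw [abs_neg]; exact hD2z x) hX0 hcpos hgood2 hgood4 g0 g1 hB hf
  simp only [intervalIntegral.integral_neg, neg_neg] at hstepL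
  have htU := (abs_le.1 (htor _ _ (hgood1.mono g2) (hgood3.mono g2) _ S (D2_eh hz.eh p q s) hD2z
    a b u hf)).2
  have htL := (abs_le.1 (htor _ _ (hgood2.mono g2) (hgood4.mono g2) _ S (D2_eh hz.eh p q s) hD2z
    a b u hf)).1
  set JU := ∫ θ in (-π)..π, ∫ ψ in (-π)..π,
    D2 p q s z (Y (tb p q s (F τ z)) (tz z) a b u θ ψ) with hJU
  set JL := ∫ θ in (-π)..π, ∫ ψ in (-π)..π,
    D2 p q s z (Y (tz (F τ z)) (tb p q s z) a b u θ ψ) with hJL
  set J0 := ∫ θ in (-π)..π, ∫ ψ in (-π)..π, D2 p q s z (Y0 a b u θ ψ) with hJ0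
  have hr := abs_le.1 hround
  have hpisq : 7 / 8 * π ^ 2 ≤ 8.637 := by nlinarith
  have hpisq0 : 0 ≤ 7 / 8 * π ^ 2 := by positivity
  have hJUb : JU ≤ 8.9 * S := by nlinarith
  have hJLb : -(8.9 * S) ≤ JL := by nlinarith
  have h2piX : 2 * π * X ≤ 0.13 * S := by nlinarith
  -- totals
  have hbr : (1 / c) * (9.1 * S) ≤ 2.9 * S := by
    rw [one_div, inv_mul_le_iff₀ hcpos]; nlinarith
  have hUU : -(∫ θ in (-π)..π, D2 p q s (F τ z)
      (cp a b θ + tb p q s (F τ z) (cp a b θ) u • u)) ≤ 2.9 * S := by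
    refine hstepU.trans (le_trans ?_ hbr)
    apply mul_le_mul_of_nonneg_left _ (by positivity)
    linarith
  have hLL : -(2.9 * S) ≤ -(∫ θ in (-π)..π, D2 p q s (F τ z)
      (cp a b θ + tz (F τ z) (cp a b θ) u • u)) := by
    have : (∫ θ in (-π)..π, D2 p q s (F τ z)
      (cp a b θ + tz (F τ z) (cp a b θ) u • u)) ≤ 2.9 * S := by
      refine hstepL.trans (le_trans ?_ hbr)
      apply mul_le_mul_of_nonneg_left _ (by positivity)
      linarith
    linarith
  have herr : 10 ^ 6 * (3 * δ) ^ 2 * s ^ 2 ≤ 0.01 * S := by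
    have : 10 ^ 6 * 9 * δ ≤ 0.01 := by
      have : (10 : ℝ) ^ 6 * 9 * δ ≤ 10 ^ 6 * 9 * (1 / 10 ^ 10) := by
        apply mul_le_mul_of_nonneg_left d3 (by norm_num)
      refine this.trans (by norm_num)
    rw [hSdef]
    nlinarith
  have hPb : |D2 p q s (P (F τ z)) u| ≤ 2.91 * S := by
    rw [abs_le]; constructor <;> linarith
  rw [D2_F o s hu, ← hc1def, abs_div, abs_of_pos (by linarith : (0 : ℝ) < c₁),
    div_le_iff₀ (by linarith)]
  have hτu := hτ2 u hu
  calc |D2 p q s (P (F τ z)) u + D2 p q s τ u| ≤ |D2 p q s (P (F τ z)) u| + |D2 p q s τ u| :=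
        abs_add_le _ _
    _ ≤ 2.91 * S + δ / 100 * s ^ 2 := add_le_add hPb hτu
    _ ≤ S * 3.14 := by rw [hSdef]; nlinarith
    _ ≤ S * c₁ := mul_le_mul_of_nonneg_left hc1 hS0

end PB3
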