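import Pool.Agent.Lib.MP_03c723_gt.Defs

/-!
Area of a planar convex body in terms of a smooth support function.
-/

namespace PB3

open MeasureTheory Real Set

namespace Plane

section
variable {H : ℝ → ℝ}

theorem d1 (hH : ContDiff ℝ 2 H) (θ : ℝ) : HasDerivAt H (deriv H θ) θ :=
  ((hH.differentiable (by norm_num)) θ).hasDerivAt

theorem cd1 (hH : ContDiff ℝ 2 H) : ContDiff ℝ 1 (deriv H) := by
  have : ContDiff ℝ (1 + 1) H := by
    rw [one_add_one_eq_two]; exact hH
  exact this.deriv'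

theorem d2 (hH : ContDiff ℝ 2 H) (θ : ℝ) : HasDerivAt (deriv H) (deriv (deriv H) θ) θ :=
  (((cd1 hH).differentiable (by norm_num)) θ).hasDerivAt

theorem c2 (hH : ContDiff ℝ 2 H) : Continuous (deriv (deriv H)) :=
  (cd1 hH).continuous_deriv (by norm_num)

/-- the derivative is periodic -/
theorem per_deriv (hp : ∀ θ, H (θ + 2 * π) = H θ) (θ : ℝ) :
    deriv H (θ + 2 * π) = deriv H θ := by
  have h : (fun x => H (x + 2 * π)) = H := funext hp
  have h1 := deriv_comp_add_const H (2 * π) θ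
  rw [h] at h1
  exact h1.symm

/-- strict convexity, local form -/
theorem D_pos (hH : ContDiff ℝ 2 H) (h2 : ∀ θ, 0 < H θ + deriv (deriv H) θ) (θ : ℝ) {s : ℝ}
    (hs : s ≠ 0) (hs' : |s| ≤ π) :
    0 < H (θ + s) - H θ * cos s - deriv H θ * sin s := by
  set D : ℝ → ℝ := fun r => H (θ + r) - H θ * cos r - deriv H θ * sin r with hD
  set D1 : ℝ → ℝ := fun r => deriv H (θ + r) + H θ * sin r - deriv H θ * cos r with hD1
  set D2 : ℝ → ℝ := fun r => deriv (deriv H) (θ + r) + H θ * cos r + deriv H θ * sin r with hD2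
  have hDd : ∀ r, HasDerivAt D (D1 r) r := by
    intro r
    have e1 : HasDerivAt (fun r => H (θ + r)) (deriv H (θ + r)) r := by
      have := (d1 hH (θ + r)).comp_const_add θ r
      exact this
    have e2 := (hasDerivAt_cos r).const_mul (H θ)
    have e3 := (hasDerivAt_sin r).const_mul (deriv H θ)
    exact ((e1.sub e2).sub e3).congr_deriv (by simp only [hD1]; ring)
  have hD1d : ∀ r, HasDerivAt D1 (D2 r) r := by
    intro r
    have e1 : HasDerivAt (fun r => deriv H (θ + r)) (deriv (deriv H) (θ + r)) r := by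
      have := (d2 hH (θ + r)).comp_const_add θ r
      exact this
    have e2 := (hasDerivAt_sin r).const_mul (H θ)
    have e3 := (hasDerivAt_cos r).const_mul (deriv H θ)
    exact ((e1.add e2).sub e3).congr_deriv (by simp only [hD2]; ring)
  set W : ℝ → ℝ := fun r => D1 r * sin (s - r) + D r * cos (s - r) with hW
  have hWd : ∀ r, HasDerivAt W ((H (θ + r) + deriv (deriv H) (θ + r)) * sin (s - r)) r := by
    intro r
    have e1 : HasDerivAt (fun r => sin (s - r)) (-cos (s - r)) r := by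
      exact ((hasDerivAt_id' r).const_sub s).sin.congr_deriv (by ring)
    have e2 : HasDerivAt (fun r => cos (s - r)) (sin (s - r)) r := by
      exact ((hasDerivAt_id' r).const_sub s).cos.congr_deriv (by ring)
    exact (((hD1d r).mul e1).add ((hDd r).mul e2)).congr_deriv (by
      simp only [hD, hD1, hD2]; ring)
  have hW0 : W 0 = 0 := by simp [hW, hD, hD1]
  have hWs : W s = D s := by simp [hW]
  have hWc : Continuous W := continuous_iff_continuousAt.2 fun r => (hWd r).continuousAt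
  change 0 < D s
  rw [← hWs, ← hW0]
  rcases lt_or_gt_of_ne hs with hneg | hpos
  · rw [abs_of_neg hneg] at hs'
    have hanti : StrictAntiOn W (Icc s 0) := by
      refine strictAntiOn_of_deriv_neg (convex_Icc _ _) hWc.continuousOn ?_
      intro r hr
      rw [interior_Icc] at hr
      rw [(hWd r).deriv]
      have h1 : sin (s - r) < 0 := sin_neg_of_neg_of_neg_pi_lt (by linarith [hr.1]) (by linarith [hr.2])
      exact mul_neg_of_pos_of_neg (h2 _) h1
    exact hanti (left_mem_Icc.2 hneg.le) (right_mem_Icc.2 hneg.le) hneg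
  · rw [abs_of_pos hpos] at hs'
    have hmono : StrictMonoOn W (Icc 0 s) := by
      refine strictMonoOn_of_deriv_pos (convex_Icc _ _) hWc.continuousOn ?_
      intro r hr
      rw [interior_Icc] at hr
      rw [(hWd r).deriv]
      have h1 : 0 < sin (s - r) := sin_pos_of_pos_of_lt_pi (by linarith [hr.2]) (by linarith [hr.1])
      exact mul_pos (h2 _) h1
    exact hmono (left_mem_Icc.2 hpos.le) (right_mem_Icc.2 hpos.le) hpos

/-- the boundary curve -/
noncomputable def gam (H : ℝ → ℝ) (θ : ℝ) : ℝ × ℝ :=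
  (H θ * cos θ - deriv H θ * sin θ, H θ * sin θ + deriv H θ * cos θ)

theorem gam_dot (H : ℝ → ℝ) (θ α : ℝ) :
    (gam H θ).1 * cos α + (gam H θ).2 * sin α = H θ * cos (α - θ) + deriv H θ * sin (α - θ) := by
  simp only [gam, cos_sub, sin_sub]; ring

theorem gam_per (hp : ∀ θ, H (θ + 2 * π) = H θ) (θ : ℝ) : gam H (θ + 2 * π) = gam H θ := by
  simp only [gam, hp, per_deriv hp, cos_add_two_pi, sin_add_two_pi]

theorem exists_red (hp : ∀ θ, H (θ + 2 * π) = H θ) (a b : ℝ) :
    ∃ c ∈ Ico a (a + 2 * π), (∃ k : ℤ, b = c + k * (2 * π)) ∧ H b = H c := by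
  obtain ⟨k, hk, -⟩ := existsUnique_sub_zsmul_mem_Ico (two_pi_pos) b a
  refine ⟨b - k • (2 * π), hk, ⟨k, by simp⟩, ?_⟩
  have hper : Function.Periodic H (2 * π) := hp
  exact (hper.sub_zsmul_eq k).symm

theorem gam_le (hH : ContDiff ℝ 2 H) (hp : ∀ θ, H (θ + 2 * π) = H θ)
    (h2 : ∀ θ, 0 < H θ + deriv (deriv H) θ) (θ α : ℝ) :
    (gam H θ).1 * cos α + (gam H θ).2 * sin α ≤ H α := by
  obtain ⟨c, hc, ⟨k, hk⟩, hHc⟩ := exists_red hp (θ - π) α
  rw [gam_dot, hHc]
  have e1 : cos (α - θ) = cos (c - θ) := by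
    rw [hk, show c + k * (2 * π) - θ = (c - θ) + k * (2 * π) by ring]
    exact cos_add_int_mul_two_pi _ _
  have e2 : sin (α - θ) = sin (c - θ) := by
    rw [hk, show c + k * (2 * π) - θ = (c - θ) + k * (2 * π) by ring]
    exact sin_add_int_mul_two_pi _ _
  rw [e1, e2]
  by_cases h : c - θ = 0
  · have : c = θ := by linarith
    simp [this]
  · have habs : |c - θ| ≤ π := by
      rw [abs_le]
      constructor <;> linarith [hc.1, hc.2]
    have := D_pos hH h2 θ h habs
    rw [show θ + (c - θ) = c by ring] at this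
    linarith

theorem gam_inj (hH : ContDiff ℝ 2 H) (hp : ∀ θ, H (θ + 2 * π) = H θ)
    (h2 : ∀ θ, 0 < H θ + deriv (deriv H) θ) {θ α : ℝ} (hθ : θ ∈ Ico (-π) π) (hα : α ∈ Ico (-π) π)
    (h : gam H θ = gam H α) : θ = α := by
  by_contra hne
  have h1 : (gam H θ).1 * cos α + (gam H θ).2 * sin α = H α := by
    rw [h, gam_dot]; simp
  rw [gam_dot] at h1
  obtain ⟨c, hc, ⟨k, hk⟩, hHc⟩ := exists_red hp (θ - π) α
  have e1 : cos (α - θ) = cos (c - θ) := by
    rw [hk, show c + k * (2 * π) - θ = (c - θ) + k * (2 * π) by ring]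
    exact cos_add_int_mul_two_pi _ _
  have e2 : sin (α - θ) = sin (c - θ) := by
    rw [hk, show c + k * (2 * π) - θ = (c - θ) + k * (2 * π) by ring]
    exact sin_add_int_mul_two_pi _ _
  rw [e1, e2, hHc] at h1
  have hcθ : c - θ ≠ 0 := by
    intro h0
    have hc' : c = θ := by linarith
    rw [hc'] at hk
    have hpi := pi_pos
    have hk0 : k = 0 := by
      have hlt : |(k : ℝ) * (2 * π)| < 2 * π := by
        rw [abs_lt]
        constructor <;> linarith [hθ.1, hθ.2, hα.1, hα.2]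
      rw [abs_mul, abs_of_pos two_pi_pos] at hlt
      have h3 : |(k : ℝ)| < 1 := by
        by_contra hge
        push Not at hge
        nlinarith
      have h4 : |k| < 1 := by exact_mod_cast h3
      exact Int.abs_lt_one_iff.1 h4
    rw [hk0] at hk
    apply hne
    simpa using hk.symm
  have habs : |c - θ| ≤ π := by
    rw [abs_le]
    constructor <;> linarith [hc.1, hc.2]
  have := D_pos hH h2 θ hcθ habs
  rw [show θ + (c - θ) = c by ring] at this
  linarith

/-- every direction is the direction of a boundary point -/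
theorem gam_surj (hH : ContDiff ℝ 2 H) (hp : ∀ θ, H (θ + 2 * π) = H θ) (h0 : ∀ θ, 0 < H θ)
    {x : ℝ × ℝ} (hx : x ≠ 0) :
    ∃ (l θ : ℝ), 0 < l ∧ θ ∈ Ico (-π) π ∧ x = l • gam H θ := by
  set f : ℝ → ℝ := fun θ => (x.1 * cos θ + x.2 * sin θ) / H θ with hf
  have hcont : Continuous f := by
    have hHc : Continuous H := hH.continuous
    have : Continuous fun θ => x.1 * cos θ + x.2 * sin θ := by fun_prop
    exact this.div hHc fun θ => (h0 θ).ne'
  have hfp : ∀ θ, f (θ + 2 * π) = f θ := by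
    intro θ
    simp only [hf, hp, cos_add_two_pi, sin_add_two_pi]
  obtain ⟨θ₁, hθ₁, hmax⟩ := (isCompact_Icc (a := -π) (b := π)).exists_isMaxOn
    ⟨0, by constructor <;> linarith [pi_pos]⟩ hcont.continuousOn
  have hmax' : ∀ θ, f θ ≤ f θ₁ := by
    intro θ
    obtain ⟨c, hc, -, hfc⟩ := exists_red hfp (-π) θ
    rw [hfc]
    exact hmax ⟨hc.1, by linarith [hc.2]⟩
  -- choose the representative in the half open interval
  obtain ⟨θ₀, hθ₀, -, hfc⟩ := exists_red hfp (-π) θ₁
  have hmax0 : ∀ θ, f θ ≤ f θ₀ := fun θ => hfc ▸ hmax' θ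
  have hθ₀' : θ₀ ∈ Ico (-π) π := ⟨hθ₀.1, by linarith [hθ₀.2]⟩
  set l := f θ₀ with hl
  have hlpos : 0 < l := by
    by_contra hneg
    push Not at hneg
    have key : ∀ θ, x.1 * cos θ + x.2 * sin θ ≤ 0 := by
      intro θ
      have h1 : f θ ≤ 0 := (hmax0 θ).trans hneg
      have h3 : (x.1 * cos θ + x.2 * sin θ) = f θ * H θ := by
        simp only [hf]
        field_simp [(h0 θ).ne']
      rw [h3]
      exact mul_nonpos_of_nonpos_of_nonneg h1 (h0 θ).le
    have k1 := key 0
    have k2 := key π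
    have k3 := key (π / 2)
    have k4 := key (-(π / 2))
    simp only [cos_zero, sin_zero, cos_pi, sin_pi, cos_pi_div_two, sin_pi_div_two, cos_neg,
      sin_neg] at k1 k2 k3 k4
    apply hx
    ext
    · simp only [Prod.fst_zero]; linarith
    · simp only [Prod.snd_zero]; linarith
  have hd : HasDerivAt f (((-x.1 * sin θ₀ + x.2 * cos θ₀) * H θ₀ -
      (x.1 * cos θ₀ + x.2 * sin θ₀) * deriv H θ₀) / H θ₀ ^ 2) θ₀ := by
    have e1 : HasDerivAt (fun θ => x.1 * cos θ + x.2 * sin θ) (-x.1 * sin θ₀ + x.2 * cos θ₀) θ₀ := by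
      exact (((hasDerivAt_cos θ₀).const_mul x.1).add
        ((hasDerivAt_sin θ₀).const_mul x.2)).congr_deriv (by ring)
    exact e1.div (d1 hH θ₀) (h0 θ₀).ne'
  have hz : ((-x.1 * sin θ₀ + x.2 * cos θ₀) * H θ₀ -
      (x.1 * cos θ₀ + x.2 * sin θ₀) * deriv H θ₀) / H θ₀ ^ 2 = 0 := by
    have hloc : IsLocalMax f θ₀ := Filter.Eventually.of_forall hmax0
    exact hloc.hasDerivAt_eq_zero hd
  have hH0 := (h0 θ₀).ne'
  have e1 : x.1 * cos θ₀ + x.2 * sin θ₀ = l * H θ₀ := by
    simp only [hl, hf]; field_simp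
  have e2 : -x.1 * sin θ₀ + x.2 * cos θ₀ = l * deriv H θ₀ := by
    rw [div_eq_zero_iff] at hz
    rcases hz with hz | hz
    · rw [e1] at hz
      have : (-x.1 * sin θ₀ + x.2 * cos θ₀ - l * deriv H θ₀) * H θ₀ = 0 := by linarith
      rcases mul_eq_zero.1 this with h | h
      · linarith
      · exact absurd h hH0
    · exact absurd (pow_eq_zero_iff (two_ne_zero)|>.1 hz) hH0
  have hsc := sin_sq_add_cos_sq θ₀
  refine ⟨l, θ₀, hlpos, hθ₀', ?_⟩
  ext
  · simp only [gam, Prod.smul_fst, smul_eq_mul]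
    have : x.1 = (x.1 * cos θ₀ + x.2 * sin θ₀) * cos θ₀ -
        (-x.1 * sin θ₀ + x.2 * cos θ₀) * sin θ₀ := by
      linear_combination (-x.1) * hsc
    rw [this, e1, e2]; ring
  · simp only [gam, Prod.smul_snd, smul_eq_mul]
    have : x.2 = (x.1 * cos θ₀ + x.2 * sin θ₀) * sin θ₀ +
        (-x.1 * sin θ₀ + x.2 * cos θ₀) * cos θ₀ := by
      linear_combination (-x.2) * hsc
    rw [this, e1, e2]; ring

/-- the parametrisation of the body -/
noncomputable def Ph (H : ℝ → ℝ) (p : ℝ × ℝ) : ℝ × ℝ := p.1 • gam H p.2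

/-- its derivative -/
noncomputable def dPh (H : ℝ → ℝ) (p : ℝ × ℝ) : ℝ × ℝ →L[ℝ] ℝ × ℝ :=
  (Matrix.toLin (.finTwoProd ℝ) (.finTwoProd ℝ)
    !![(gam H p.2).1, p.1 * (-(H p.2 + deriv (deriv H) p.2) * sin p.2);
      (gam H p.2).2, p.1 * ((H p.2 + deriv (deriv H) p.2) * cos p.2)]).toContinuousLinearMap

theorem hasFDerivAt_Ph (hH : ContDiff ℝ 2 H) (p : ℝ × ℝ) :
    HasFDerivAt (Ph H) (dPh H p) p := by
  have g1 : HasDerivAt (fun θ => (gam H θ).1)
      (-(H p.2 + deriv (deriv H) p.2) * sin p.2) p.2 := by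
    simp only [gam]
    exact (((d1 hH p.2).mul (hasDerivAt_cos p.2)).sub
      ((d2 hH p.2).mul (hasDerivAt_sin p.2))).congr_deriv (by ring)
  have g2 : HasDerivAt (fun θ => (gam H θ).2)
      ((H p.2 + deriv (deriv H) p.2) * cos p.2) p.2 := by
    simp only [gam]
    exact (((d1 hH p.2).mul (hasDerivAt_sin p.2)).add
      ((d2 hH p.2).mul (hasDerivAt_cos p.2))).congr_deriv (by ring)
  unfold dPh
  rw [Matrix.toLin_finTwoProd_toContinuousLinearMap]
  convert!
    HasFDerivAt.prodMk (𝕜 := ℝ)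
      (hasFDerivAt_fst.mul (g1.comp_hasFDerivAt p hasFDerivAt_snd))
      (hasFDerivAt_fst.mul (g2.comp_hasFDerivAt p hasFDerivAt_snd)) using
    2 <;>
  simp [smul_smul, add_comm]

theorem det_dPh (H : ℝ → ℝ) (p : ℝ × ℝ) :
    (dPh H p).det = p.1 * (H p.2 * (H p.2 + deriv (deriv H) p.2)) := by
  have hsc := sin_sq_add_cos_sq p.2
  unfold dPh
  simp only [LinearMap.det_toContinuousLinearMap, LinearMap.det_toLin,
    Matrix.det_fin_two_of, gam]
  linear_combination (p.1 * H p.2 * (H p.2 + deriv (deriv H) p.2)) * hsc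

theorem image_Ph (hH : ContDiff ℝ 2 H) (hp : ∀ θ, H (θ + 2 * π) = H θ) (h0 : ∀ θ, 0 < H θ)
    (h2 : ∀ θ, 0 < H θ + deriv (deriv H) θ) :
    Ph H '' (Ioc 0 1 ×ˢ Ico (-π) π) = LH H \ {0} := by
  ext x
  constructor
  · rintro ⟨⟨r, θ⟩, ⟨hr, hθ⟩, rfl⟩
    simp only at hr hθ
    refine ⟨?_, ?_⟩
    · intro α
      simp only [Ph, Prod.smul_fst, Prod.smul_snd, smul_eq_mul]
      have h := gam_le hH hp h2 θ α
      have h3 := h0 α
      calc r * (gam H θ).1 * cos α + r * (gam H θ).2 * sin α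
          = r * ((gam H θ).1 * cos α + (gam H θ).2 * sin α) := by ring
        _ ≤ r * H α := mul_le_mul_of_nonneg_left h hr.1.le
        _ ≤ 1 * H α := mul_le_mul_of_nonneg_right hr.2 h3.le
        _ = H α := one_mul _
    · simp only [mem_singleton_iff, Ph]
      intro hz
      rw [smul_eq_zero] at hz
      rcases hz with hz | hz
      · exact hr.1.ne' hz
      · have := gam_dot H θ θ
        rw [hz] at this
        simp at this
        exact (h0 θ).ne' this.symm
  · rintro ⟨hx, hx0⟩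
    obtain ⟨l, θ, hl, hθ, rfl⟩ := gam_surj hH hp h0 (x := x) (by simpa using hx0)
    refine ⟨(l, θ), ⟨⟨hl, ?_⟩, hθ⟩, rfl⟩
    have h := hx θ
    simp only [Prod.smul_fst, Prod.smul_snd, smul_eq_mul] at h
    have h3 := gam_dot H θ θ
    simp only [sub_self, cos_zero, sin_zero, mul_one, mul_zero, add_zero] at h3
    have h4 : l * H θ ≤ H θ := by
      calc l * H θ = l * (gam H θ).1 * cos θ + l * (gam H θ).2 * sin θ := by rw [← h3]; ring
        _ ≤ H θ := h
    have := h0 θ
    by_contra hgt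
    push Not at hgt
    simp only at hgt
    nlinarith

theorem inj_Ph (hH : ContDiff ℝ 2 H) (hp : ∀ θ, H (θ + 2 * π) = H θ) (h0 : ∀ θ, 0 < H θ)
    (h2 : ∀ θ, 0 < H θ + deriv (deriv H) θ) :
    InjOn (Ph H) (Ioc 0 1 ×ˢ Ico (-π) π) := by
  -- comparison of the two radii
  have key : ∀ r r' θ θ' : ℝ, 0 < r → 0 < r' → r • gam H θ = r' • gam H θ' → r' ≤ r := by
    intro r r' θ θ' hr hr' h
    have h3 := gam_dot H θ' θ'
    simp only [sub_self, cos_zero, sin_zero, mul_one, mul_zero, add_zero] at h3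
    have h4 := gam_le hH hp h2 θ θ'
    have e1 : r * (gam H θ).1 = r' * (gam H θ').1 := by
      have := congrArg Prod.fst h
      simpa using this
    have e2 : r * (gam H θ).2 = r' * (gam H θ').2 := by
      have := congrArg Prod.snd h
      simpa using this
    have h5 : r' * H θ' ≤ r * H θ' := by
      calc r' * H θ' = r' * (gam H θ').1 * cos θ' + r' * (gam H θ').2 * sin θ' := by
            rw [← h3]; ring
        _ = r * ((gam H θ).1 * cos θ' + (gam H θ).2 * sin θ') := by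
            rw [← e1, ← e2]; ring
        _ ≤ r * H θ' := mul_le_mul_of_nonneg_left h4 hr.le
    exact le_of_mul_le_mul_right h5 (h0 θ')
  rintro ⟨r, θ⟩ ⟨hr, hθ⟩ ⟨r', θ'⟩ ⟨hr', hθ'⟩ h
  simp only [Ph] at h hr hθ hr' hθ'
  have e : r = r' := le_antisymm (key r' r θ' θ hr'.1 hr.1 h.symm) (key r r' θ θ' hr.1 hr'.1 h)
  subst e
  have h6 : gam H θ = gam H θ' := smul_right_injective _ hr.1.ne' h
  rw [gam_inj hH hp h2 hθ hθ' h6]

end

end Plane

open Plane in
theorem area_LH_smooth {H : ℝ → ℝ} (hH : ContDiff ℝ 2 H) (hp : ∀ θ, H (θ + 2 * π) = H θ)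
    (h0 : ∀ θ, 0 < H θ) (h2 : ∀ θ, 0 < H θ + deriv (deriv H) θ) :
    volume (LH H) =
      ENNReal.ofReal ((1 / 2) * ∫ θ in (-π)..π, (H θ ^ 2 - (deriv H θ) ^ 2)) := by
  have hpi := pi_pos
  have hv : volume (LH H) = volume (LH H \ {0}) :=
    (measure_sdiff_null (measure_singleton 0)).symm
  have hms : MeasurableSet (Ioc (0 : ℝ) 1 ×ˢ Ico (-π) π) := measurableSet_Ioc.prod measurableSet_Ico
  rw [hv, ← image_Ph hH hp h0 h2, ← lintegral_abs_det_fderiv_eq_addHaar_image volume hms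
    (fun p _ => (hasFDerivAt_Ph hH p).hasFDerivWithinAt) (inj_Ph hH hp h0 h2)]
  set w : ℝ → ℝ := fun θ => H θ * (H θ + deriv (deriv H) θ) with hw
  have hw0 : ∀ θ, 0 ≤ w θ := fun θ => (mul_pos (h0 θ) (h2 θ)).le
  have hHc : Continuous H := hH.continuous
  have hwc : Continuous w := hHc.mul (hHc.add (c2 hH))
  have e1 : ∫⁻ p in Ioc (0 : ℝ) 1 ×ˢ Ico (-π) π, ENNReal.ofReal |(dPh H p).det| =
      ∫⁻ p in Ioc (0 : ℝ) 1 ×ˢ Ico (-π) π, ENNReal.ofReal p.1 * ENNReal.ofReal (w p.2) := by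
    refine setLIntegral_congr_fun hms ?_
    rintro ⟨r, θ⟩ ⟨hr, hθ⟩
    simp only at hr
    simp only [det_dPh]
    rw [← ENNReal.ofReal_mul hr.1.le, abs_of_nonneg (mul_nonneg hr.1.le (hw0 θ))]
  rw [e1, Measure.volume_eq_prod, ← Measure.prod_restrict,
    lintegral_prod_mul (f := fun r : ℝ => ENNReal.ofReal r)
      (g := fun θ : ℝ => ENNReal.ofReal (w θ)) (by fun_prop)
      (hwc.measurable.ennreal_ofReal.aemeasurable)]
  have i1 : ∫⁻ r in Ioc (0 : ℝ) 1, ENNReal.ofReal r = ENNReal.ofReal (1 / 2) := by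
    rw [← ofReal_integral_eq_lintegral_ofReal]
    · rw [← intervalIntegral.integral_of_le zero_le_one, integral_id]
      norm_num
    · exact (continuous_id.integrableOn_Icc).mono_set Ioc_subset_Icc_self
    · filter_upwards [ae_restrict_mem measurableSet_Ioc] with r hr
      exact hr.1.le
  have i2 : ∫⁻ θ in Ico (-π) π, ENNReal.ofReal (w θ) = ENNReal.ofReal (∫ θ in (-π)..π, w θ) := by
    rw [← ofReal_integral_eq_lintegral_ofReal]
    · rw [intervalIntegral.integral_of_le (by linarith), integral_Ico_eq_integral_Ioo,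
        integral_Ioc_eq_integral_Ioo]
    · exact (hwc.integrableOn_Icc).mono_set Ico_subset_Icc_self
    · exact Filter.Eventually.of_forall hw0
  rw [i1, i2, ← ENNReal.ofReal_mul (by norm_num)]
  congr 1
  congr 1
  -- integration by parts
  have hH1c : Continuous (deriv H) := (cd1 hH).continuous
  have hparts : ∫ θ in (-π)..π, H θ * deriv (deriv H) θ =
      H π * deriv H π - H (-π) * deriv H (-π) - ∫ θ in (-π)..π, deriv H θ * deriv H θ :=
    intervalIntegral.integral_mul_deriv_eq_deriv_mul (fun θ _ => d1 hH θ) (fun θ _ => d2 hH θ)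
      (hH1c.intervalIntegrable _ _) ((c2 hH).intervalIntegrable _ _)
  have hb1 : H π = H (-π) := by
    have := hp (-π)
    rwa [show -π + 2 * π = π by ring] at this
  have hb2 : deriv H π = deriv H (-π) := by
    have := per_deriv hp (-π)
    rwa [show -π + 2 * π = π by ring] at this
  rw [hb1, hb2, sub_self, zero_sub] at hparts
  have e3 : ∫ θ in (-π)..π, w θ = (∫ θ in (-π)..π, H θ ^ 2) +
      ∫ θ in (-π)..π, H θ * deriv (deriv H) θ := by
    rw [← intervalIntegral.integral_add]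
    · refine intervalIntegral.integral_congr fun θ _ => ?_
      simp only [hw]; ring
    · exact (hHc.pow 2).intervalIntegrable _ _
    · exact (hHc.mul (c2 hH)).intervalIntegrable _ _
  rw [e3, hparts, ← sub_eq_add_neg, ← intervalIntegral.integral_sub]
  · refine intervalIntegral.integral_congr fun θ _ => ?_
    ring
  · exact (hHc.pow 2).intervalIntegrable _ _
  · exact (hH1c.mul hH1c).intervalIntegrable _ _

end PB3
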