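import Mathlib
import Pool.Agent.Lib.MP_03c723_gt.Defs

/-!
MP_03c723_gt, Torus2 (helper78): the slightly deformed torus in the coordinates of the round one.
-/

namespace PB3

open MeasureTheory Real
open scoped InnerProductSpace

/-! ### small functions -/

/-- bounded by `K` and `K`-Lipschitz on `D` -/
def t2Sm (D : Set (ℝ × ℝ)) (K : ℝ) (f : ℝ × ℝ → ℝ) : Prop :=
  (∀ x ∈ D, |f x| ≤ K) ∧ ∀ x ∈ D, ∀ y ∈ D, |f x - f y| ≤ K * dist x y

theorem t2Sm.mono {D : Set (ℝ × ℝ)} {K K' : ℝ} {f : ℝ × ℝ → ℝ} (h : t2Sm D K f) (hK : K ≤ K') :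
    t2Sm D K' f :=
  ⟨fun x hx => (h.1 x hx).trans hK, fun x hx y hy =>
    (h.2 x hx y hy).trans (mul_le_mul_of_nonneg_right hK dist_nonneg)⟩

theorem t2Sm.add {D : Set (ℝ × ℝ)} {K K' : ℝ} {f g : ℝ × ℝ → ℝ} (hf : t2Sm D K f)
    (hg : t2Sm D K' g) : t2Sm D (K + K') (fun x => f x + g x) := by
  refine ⟨fun x hx => (abs_add_le _ _).trans (add_le_add (hf.1 x hx) (hg.1 x hx)),
    fun x hx y hy => ?_⟩
  have h1 := hf.2 x hx y hy
  have h2 := hg.2 x hx y hy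
  have e : f x + g x - (f y + g y) = (f x - f y) + (g x - g y) := by ring
  rw [e, add_mul]
  exact (abs_add_le _ _).trans (add_le_add h1 h2)

theorem t2Sm.neg {D : Set (ℝ × ℝ)} {K : ℝ} {f : ℝ × ℝ → ℝ} (hf : t2Sm D K f) :
    t2Sm D K (fun x => -f x) := by
  refine ⟨fun x hx => by rw [abs_neg]; exact hf.1 x hx, fun x hx y hy => ?_⟩
  have e : -f x - -f y = -(f x - f y) := by ring
  rw [e, abs_neg]
  exact hf.2 x hx y hy

theorem t2Sm.sub {D : Set (ℝ × ℝ)} {K K' : ℝ} {f g : ℝ × ℝ → ℝ} (hf : t2Sm D K f)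
    (hg : t2Sm D K' g) : t2Sm D (K + K') (fun x => f x - g x) := by
  simpa only [sub_eq_add_neg] using hf.add hg.neg

theorem t2Sm.mul {D : Set (ℝ × ℝ)} {K K' : ℝ} {f g : ℝ × ℝ → ℝ} (hf : t2Sm D K f)
    (hg : t2Sm D K' g) (hK : 0 ≤ K) (hK' : 0 ≤ K') :
    t2Sm D (2 * K * K') (fun x => f x * g x) := by
  refine ⟨fun x hx => ?_, fun x hx y hy => ?_⟩
  · rw [abs_mul]
    have h1 := mul_le_mul (hf.1 x hx) (hg.1 x hx) (abs_nonneg _) hK
    have h2 : 0 ≤ K * K' := mul_nonneg hK hK'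
    linarith
  · have e : f x * g x - f y * g y = (f x - f y) * g x + f y * (g x - g y) := by ring
    rw [e]
    refine (abs_add_le _ _).trans ?_
    rw [abs_mul, abs_mul]
    have h1 := mul_le_mul (hf.2 x hx y hy) (hg.1 x hx) (abs_nonneg _)
      (mul_nonneg hK dist_nonneg)
    have h2 := mul_le_mul (hf.1 y hy) (hg.2 x hx y hy) (abs_nonneg _) hK
    calc |f x - f y| * |g x| + |f y| * |g x - g y| ≤
        K * dist x y * K' + K * (K' * dist x y) := add_le_add h1 h2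
      _ = 2 * K * K' * dist x y := by ring

theorem t2Sm.const (D : Set (ℝ × ℝ)) {c K : ℝ} (hc : |c| ≤ K) : t2Sm D K (fun _ => c) := by
  refine ⟨fun _ _ => hc, fun x _ y _ => ?_⟩
  rw [sub_self, abs_zero]
  exact mul_nonneg ((abs_nonneg _).trans hc) dist_nonneg

theorem t2Sm.comp {D : Set (ℝ × ℝ)} {K : ℝ} {f : ℝ × ℝ → ℝ} {φ : ℝ → ℝ} (hf : t2Sm D K f)
    (h0 : φ 0 = 0) (hφ : ∀ x y, |φ x - φ y| ≤ |x - y|) : t2Sm D K (fun x => φ (f x)) := by
  refine ⟨fun x hx => ?_, fun x hx y hy => (hφ _ _).trans (hf.2 x hx y hy)⟩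
  have h1 := hφ (f x) 0
  rw [h0, sub_zero, sub_zero] at h1
  exact h1.trans (hf.1 x hx)

theorem t2Sm.inv {D : Set (ℝ × ℝ)} {K m : ℝ} {f : ℝ × ℝ → ℝ} (hf : t2Sm D K f) (hm : 0 < m)
    (hfm : ∀ x ∈ D, m ≤ f x) {K' : ℝ} (h1 : 1 / m ≤ K') (h2 : K / m ^ 2 ≤ K') :
    t2Sm D K' (fun x => (f x)⁻¹) := by
  refine ⟨fun x hx => ?_, fun x hx y hy => ?_⟩
  · have h3 := hfm x hx
    have h4 : 0 < f x := hm.trans_le h3
    rw [abs_of_pos (inv_pos.mpr h4)]
    refine le_trans ?_ h1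
    rw [← one_div]
    exact one_div_le_one_div_of_le hm h3
  · have h3 := hfm x hx
    have h3' := hfm y hy
    have h4 : 0 < f x := hm.trans_le h3
    have h5 : 0 < f y := hm.trans_le h3'
    have e : (f x)⁻¹ - (f y)⁻¹ = (f y - f x) / (f x * f y) := by
      field_simp
    rw [e, abs_div, abs_of_pos (mul_pos h4 h5), abs_sub_comm]
    have h6 : m ^ 2 ≤ f x * f y := by
      rw [sq]
      exact mul_le_mul h3 h3' hm.le h4.le
    have h7 : |f x - f y| / (f x * f y) ≤ K * dist x y / m ^ 2 := by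
      have h8 := hf.2 x hx y hy
      calc |f x - f y| / (f x * f y) ≤ |f x - f y| / m ^ 2 :=
            div_le_div_of_nonneg_left (abs_nonneg _) (by positivity) h6
        _ ≤ K * dist x y / m ^ 2 := div_le_div_of_nonneg_right h8 (by positivity)
    refine h7.trans ?_
    rw [mul_div_right_comm]
    exact mul_le_mul_of_nonneg_right h2 dist_nonneg

/-! ### three contractions -/

theorem t2_sqrt_lip (x y : ℝ) : |√(1 + x ^ 2) - √(1 + y ^ 2)| ≤ |x - y| := by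
  have h1 : 0 < √(1 + x ^ 2) := Real.sqrt_pos.mpr (by positivity)
  have h2 : 0 < √(1 + y ^ 2) := Real.sqrt_pos.mpr (by positivity)
  have h3 : √(1 + x ^ 2) ^ 2 = 1 + x ^ 2 := Real.sq_sqrt (by positivity)
  have h4 : √(1 + y ^ 2) ^ 2 = 1 + y ^ 2 := Real.sq_sqrt (by positivity)
  have h5 : |x| ≤ √(1 + x ^ 2) := Real.abs_le_sqrt (by linarith)
  have h6 : |y| ≤ √(1 + y ^ 2) := Real.abs_le_sqrt (by linarith)
  have e : √(1 + x ^ 2) - √(1 + y ^ 2) = (x - y) * (x + y) / (√(1 + x ^ 2) + √(1 + y ^ 2)) := by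
    rw [eq_div_iff (by positivity)]
    nlinarith
  rw [e, abs_div, abs_mul, abs_of_pos (add_pos h1 h2), div_le_iff₀ (by positivity)]
  refine mul_le_mul_of_nonneg_left ?_ (abs_nonneg _)
  exact (abs_add_le _ _).trans (add_le_add h5 h6)

/-- `√(1+x²) - 1` -/
noncomputable def t2phi2 (x : ℝ) : ℝ := √(1 + x ^ 2) - 1

/-- `1/√(1+x²) - 1` -/
noncomputable def t2phi1 (x : ℝ) : ℝ := (√(1 + x ^ 2))⁻¹ - 1

theorem t2phi2_zero : t2phi2 0 = 0 := by simp [t2phi2]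

theorem t2phi1_zero : t2phi1 0 = 0 := by simp [t2phi1]

theorem t2phi2_lip (x y : ℝ) : |t2phi2 x - t2phi2 y| ≤ |x - y| := by
  unfold t2phi2
  rw [sub_sub_sub_cancel_right]
  exact t2_sqrt_lip x y

theorem t2_one_le_sqrt (x : ℝ) : 1 ≤ √(1 + x ^ 2) := by
  rw [Real.one_le_sqrt]
  nlinarith [sq_nonneg x]

theorem t2phi1_lip (x y : ℝ) : |t2phi1 x - t2phi1 y| ≤ |x - y| := by
  unfold t2phi1
  rw [sub_sub_sub_cancel_right]
  have h1 := t2_one_le_sqrt x
  have h2 := t2_one_le_sqrt y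
  have e : (√(1 + x ^ 2))⁻¹ - (√(1 + y ^ 2))⁻¹ =
      (√(1 + y ^ 2) - √(1 + x ^ 2)) / (√(1 + x ^ 2) * √(1 + y ^ 2)) := by
    field_simp
  have h3 : 1 ≤ √(1 + x ^ 2) * √(1 + y ^ 2) := one_le_mul_of_one_le_of_one_le h1 h2
  have h4 : 0 < √(1 + x ^ 2) * √(1 + y ^ 2) := by linarith
  rw [e, abs_div, abs_of_pos h4, abs_sub_comm (√(1 + y ^ 2))]
  exact (div_le_self (abs_nonneg _) h3).trans (t2_sqrt_lip x y)

theorem t2_arctan_lip (x y : ℝ) : |arctan x - arctan y| ≤ |x - y| := by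
  have h : LipschitzWith 1 arctan := by
    apply lipschitzWith_of_nnnorm_deriv_le Real.differentiable_arctan
    intro x
    rw [← NNReal.coe_le_coe, coe_nnnorm, NNReal.coe_one, Real.norm_eq_abs]
    rw [(Real.hasDerivAt_arctan x).deriv]
    rw [abs_of_pos (by positivity)]
    rw [div_le_one (by positivity)]
    nlinarith [sq_nonneg x]
  have := h.dist_le_mul x y
  simpa [Real.dist_eq] using this

/-! ### trigonometry -/

/-- the change of the angles -/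
theorem t2_angles {ψ yw yu : ℝ} (hs : 0 < sin ψ)
    (hD : 0 < yu * cos ψ + √(sin ψ ^ 2 + yw ^ 2) * sin ψ) :
    let R := √(sin ψ ^ 2 + yw ^ 2)
    let n := √(yw ^ 2 + sin ψ ^ 2 + yu ^ 2)
    let p₁ := -arctan (yw / sin ψ)
    let p₂ := arctan ((R * cos ψ - yu * sin ψ) / (yu * cos ψ + R * sin ψ))
    n * cos (ψ + p₂) = yu ∧ n * (sin (ψ + p₂) * cos p₁) = sin ψ ∧
      n * (sin (ψ + p₂) * sin p₁) = -yw := by
  intro R n p₁ p₂
  have hcs := Real.sin_sq_add_cos_sq ψ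
  have hR0 : 0 < R := Real.sqrt_pos.mpr (by positivity)
  have hR2 : R ^ 2 = sin ψ ^ 2 + yw ^ 2 := Real.sq_sqrt (by positivity)
  have hn0 : 0 < n := Real.sqrt_pos.mpr (by positivity)
  have hn2 : n ^ 2 = yw ^ 2 + sin ψ ^ 2 + yu ^ 2 := Real.sq_sqrt (by positivity)
  set N := R * cos ψ - yu * sin ψ with hN
  set Dn := yu * cos ψ + R * sin ψ with hDn
  have hDn0 : 0 < Dn := hD
  have hND : N ^ 2 + Dn ^ 2 = n ^ 2 := by
    have e : N ^ 2 + Dn ^ 2 = (R ^ 2 + yu ^ 2) * (sin ψ ^ 2 + cos ψ ^ 2) := by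
      rw [hN, hDn]; ring
    rw [e, hcs, hR2, hn2]
    ring
  have hs2 : √(1 + (N / Dn) ^ 2) = n / Dn := by
    have e : 1 + (N / Dn) ^ 2 = (n / Dn) ^ 2 := by
      field_simp
      linarith
    rw [e, Real.sqrt_sq (by positivity)]
  have hc2 : cos p₂ = Dn / n := by
    change cos (arctan (N / Dn)) = _
    rw [Real.cos_arctan, hs2]
    field_simp
  have hsn2 : sin p₂ = N / n := by
    change sin (arctan (N / Dn)) = _
    rw [Real.sin_arctan, hs2]
    field_simp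
  have hs1 : √(1 + (yw / sin ψ) ^ 2) = R / sin ψ := by
    have e : 1 + (yw / sin ψ) ^ 2 = (R / sin ψ) ^ 2 := by
      field_simp
      linarith
    rw [e, Real.sqrt_sq (by positivity)]
  have hc1 : cos p₁ = sin ψ / R := by
    change cos (-arctan (yw / sin ψ)) = _
    rw [Real.cos_neg, Real.cos_arctan, hs1]
    field_simp
  have hsn1 : sin p₁ = -(yw / R) := by
    change sin (-arctan (yw / sin ψ)) = _
    rw [Real.sin_neg, Real.sin_arctan, hs1]
    field_simp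
  have hcos : cos (ψ + p₂) = yu / n := by
    rw [Real.cos_add, hc2, hsn2]
    have e : cos ψ * (Dn / n) - sin ψ * (N / n) = (yu * (sin ψ ^ 2 + cos ψ ^ 2)) / n := by
      rw [hDn, hN]; ring
    rw [e, hcs, mul_one]
  have hsin : sin (ψ + p₂) = R / n := by
    rw [Real.sin_add, hc2, hsn2]
    have e : sin ψ * (Dn / n) + cos ψ * (N / n) = (R * (sin ψ ^ 2 + cos ψ ^ 2)) / n := by
      rw [hDn, hN]; ring
    rw [e, hcs, mul_one]
  refine ⟨?_, ?_, ?_⟩
  · rw [hcos]; field_simp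
  · rw [hsin, hc1]; field_simp
  · rw [hsin, hsn1]; field_simp

/-! ### the frames -/

theorem t2_norm_sq {a b u : E} (h : Fr a b u) (x y z : ℝ) :
    ‖x • a + y • b + z • u‖ ^ 2 = x ^ 2 + y ^ 2 + z ^ 2 := by
  rw [← real_inner_self_eq_norm_sq]
  simp only [inner_add_left, inner_add_right, inner_smul_left, inner_smul_right,
    real_inner_self_eq_norm_sq, h.na, h.nb, h.nu, h.ab, h.au, h.bu,
    real_inner_comm a b, real_inner_comm a u, real_inner_comm b u]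
  simp
  ring

theorem t2_inner {a b u : E} (h : Fr a b u) (x y z x' y' z' : ℝ) :
    ⟪x • a + y • b + z • u, x' • a + y' • b + z' • u⟫_ℝ = x * x' + y * y' + z * z' := by
  simp only [inner_add_left, inner_add_right, inner_smul_left, inner_smul_right,
    real_inner_self_eq_norm_sq, h.na, h.nb, h.nu, h.ab, h.au, h.bu,
    real_inner_comm a b, real_inner_comm a u, real_inner_comm b u]
  simp
  ring

theorem t2_norm_one {x : E} (h : ‖x‖ ^ 2 = 1) : ‖x‖ = 1 :=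
  (sq_eq_sq₀ (norm_nonneg x) zero_le_one).mp (by rw [h, one_pow])

theorem t2_fr {a b u : E} (h : Fr a b u) (θ : ℝ) :
    Fr (cp a b θ) (cp a b (θ + π / 2)) u := by
  have e1 : cp a b θ = cos θ • a + sin θ • b + (0 : ℝ) • u := by unfold cp; module
  have e2 : cp a b (θ + π / 2) = (-sin θ) • a + cos θ • b + (0 : ℝ) • u := by
    unfold cp
    rw [Real.cos_add_pi_div_two, Real.sin_add_pi_div_two]
    module
  have e3 : u = (0 : ℝ) • a + (0 : ℝ) • b + (1 : ℝ) • u := by module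
  have hcs := Real.sin_sq_add_cos_sq θ
  refine ⟨?_, ?_, h.nu, ?_, ?_, ?_⟩
  · have := t2_norm_sq h (cos θ) (sin θ) 0
    rw [← e1] at this
    exact t2_norm_one (by rw [this]; linarith)
  · have := t2_norm_sq h (-sin θ) (cos θ) 0
    rw [← e2] at this
    exact t2_norm_one (by rw [this]; linarith)
  · rw [e1, e2, t2_inner h]; ring
  · have k := t2_inner h (cos θ) (sin θ) 0 0 0 1
    rw [← e3, ← e1] at k
    rw [k]; ring
  · have k := t2_inner h (-sin θ) (cos θ) 0 0 0 1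
    rw [← e3, ← e2] at k
    rw [k]; ring

theorem t2_sqrt_inv_sq (s : ℝ) : (√(1 + s ^ 2))⁻¹ ^ 2 * (1 + s ^ 2) = 1 := by
  have h1 : √(1 + s ^ 2) ^ 2 = 1 + s ^ 2 := Real.sq_sqrt (by positivity)
  have h2 : 0 < √(1 + s ^ 2) := Real.sqrt_pos.mpr (by positivity)
  have h3 : (√(1 + s ^ 2))⁻¹ ^ 2 * √(1 + s ^ 2) ^ 2 = 1 := by
    field_simp
  rwa [h1] at h3

theorem t2_fr2 {a b u : E} (h : Fr a b u) (s : ℝ) :
    Fr (nh s a u) b (nv s a u) := by
  have hr := t2_sqrt_inv_sq s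
  set r := (√(1 + s ^ 2))⁻¹ with hrdef
  have e1 : nh s a u = (-(r * s)) • a + (0 : ℝ) • b + r • u := by
    unfold nh; rw [← hrdef]; module
  have e2 : nv s a u = r • a + (0 : ℝ) • b + (r * s) • u := by
    unfold nv; rw [← hrdef]; module
  have e3 : b = (0 : ℝ) • a + (1 : ℝ) • b + (0 : ℝ) • u := by module
  refine ⟨?_, h.nb, ?_, ?_, ?_, ?_⟩
  · have := t2_norm_sq h (-(r * s)) 0 r
    rw [← e1] at this
    exact t2_norm_one (by rw [this]; linarith)
  · have := t2_norm_sq h r 0 (r * s)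
    rw [← e2] at this
    exact t2_norm_one (by rw [this]; linarith)
  · have k := t2_inner h (-(r * s)) 0 r 0 1 0
    rw [← e3, ← e1] at k
    rw [k]; ring
  · rw [e1, e2, t2_inner h]; ring
  · have k := t2_inner h 0 1 0 r 0 (r * s)
    rw [← e3, ← e2] at k
    rw [k]; ring

theorem t2_op1 {a b u : E} (h : Fr a b u) (θ : ℝ) : OP (cp a b θ) u :=
  ⟨(t2_fr h θ).na, h.nu, (t2_fr h θ).au⟩

theorem t2_op2 {a b u : E} (h : Fr a b u) (s θ ψ : ℝ) :
    OP (cp (nh s (cp a b θ) u) (cp a b (θ + π / 2)) ψ) (nv s (cp a b θ) u) :=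
  t2_op1 (t2_fr2 (t2_fr h θ) s) ψ

/-- the coordinates of the point of the deformed torus -/
theorem t2_Y_eq (t₁ t₂ : E → E → ℝ) (a b u : E) (θ ψ : ℝ) :
    Y t₁ t₂ a b u θ ψ =
      ((t₂ (cp (nh (t₁ (cp a b θ) u) (cp a b θ) u) (cp a b (θ + π / 2)) ψ)
        (nv (t₁ (cp a b θ) u) (cp a b θ) u) - t₁ (cp a b θ) u * cos ψ) *
        (√(1 + t₁ (cp a b θ) u ^ 2))⁻¹) • cp a b θ + sin ψ • cp a b (θ + π / 2) +
      ((cos ψ + t₁ (cp a b θ) u * t₂ (cp (nh (t₁ (cp a b θ) u) (cp a b θ) u)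
        (cp a b (θ + π / 2)) ψ) (nv (t₁ (cp a b θ) u) (cp a b θ) u)) *
        (√(1 + t₁ (cp a b θ) u ^ 2))⁻¹) • u := by
  unfold Y
  simp only
  set w := cp a b θ
  set w' := cp a b (θ + π / 2)
  set s := t₁ w u
  set β := t₂ (cp (nh s w u) w' ψ) (nv s w u)
  unfold cp nh nv
  module

theorem t2_Y0_eq (a b u : E) (θ p ψ : ℝ) :
    Y0 a b u (θ + p) ψ = (-(sin ψ * sin p)) • cp a b θ +
      (sin ψ * cos p) • cp a b (θ + π / 2) + cos ψ • u := by
  unfold Y0 cp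
  rw [Real.cos_add_pi_div_two, Real.sin_add_pi_div_two, Real.cos_add_pi_div_two,
    Real.sin_add_pi_div_two, Real.cos_add, Real.sin_add]
  module

/-! ### Lipschitz bounds for vectors -/

theorem t2_abs_cos_sub (x y : ℝ) : |cos x - cos y| ≤ |x - y| := by
  have h : LipschitzWith 1 cos := by
    apply lipschitzWith_of_nnnorm_deriv_le Real.differentiable_cos
    intro x
    rw [← NNReal.coe_le_coe, coe_nnnorm, NNReal.coe_one, Real.norm_eq_abs]
    rw [(Real.hasDerivAt_cos x).deriv, abs_neg]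
    exact Real.abs_sin_le_one x
  have := h.dist_le_mul x y
  simpa [Real.dist_eq] using this

theorem t2_abs_sin_sub (x y : ℝ) : |sin x - sin y| ≤ |x - y| := by
  have h : LipschitzWith 1 sin := by
    apply lipschitzWith_of_nnnorm_deriv_le Real.differentiable_sin
    intro x
    rw [← NNReal.coe_le_coe, coe_nnnorm, NNReal.coe_one, Real.norm_eq_abs]
    rw [(Real.hasDerivAt_sin x).deriv]
    exact Real.abs_cos_le_one x
  have := h.dist_le_mul x y
  simpa [Real.dist_eq] using this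

theorem t2_cp_lip {p q p' q' : E} (hp : ‖p‖ ≤ 1) (hq : ‖q‖ ≤ 1) (x y : ℝ) :
    ‖cp p q x - cp p' q' y‖ ≤ 2 * |x - y| + ‖p - p'‖ + ‖q - q'‖ := by
  have e : cp p q x - cp p' q' y = (cos x - cos y) • p + (sin x - sin y) • q +
      cos y • (p - p') + sin y • (q - q') := by
    unfold cp
    module
  rw [e]
  have h1 : ‖(cos x - cos y) • p‖ ≤ |x - y| := by
    rw [norm_smul, Real.norm_eq_abs]
    calc _ ≤ |x - y| * 1 := mul_le_mul (t2_abs_cos_sub x y) hp (norm_nonneg _) (abs_nonneg _)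
      _ = _ := mul_one _
  have h2 : ‖(sin x - sin y) • q‖ ≤ |x - y| := by
    rw [norm_smul, Real.norm_eq_abs]
    calc _ ≤ |x - y| * 1 := mul_le_mul (t2_abs_sin_sub x y) hq (norm_nonneg _) (abs_nonneg _)
      _ = _ := mul_one _
  have h3 : ‖cos y • (p - p')‖ ≤ ‖p - p'‖ := by
    rw [norm_smul, Real.norm_eq_abs]
    exact mul_le_of_le_one_left (norm_nonneg _) (Real.abs_cos_le_one y)
  have h4 : ‖sin y • (q - q')‖ ≤ ‖q - q'‖ := by
    rw [norm_smul, Real.norm_eq_abs]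
    exact mul_le_of_le_one_left (norm_nonneg _) (Real.abs_sin_le_one y)
  calc _ ≤ ‖(cos x - cos y) • p‖ + ‖(sin x - sin y) • q‖ + ‖cos y • (p - p')‖ +
        ‖sin y • (q - q')‖ :=
        (norm_add_le _ _).trans (add_le_add ((norm_add_le _ _).trans
          (add_le_add (norm_add_le _ _) le_rfl)) le_rfl)
    _ ≤ _ := by linarith

theorem t2_nv_lip {s s' : ℝ} {w u w' : E} (hw : ‖w‖ ≤ 1) (hu : ‖u‖ ≤ 1) (hs : |s| ≤ 1) : ‖nv s w u - nv s' w' u‖ ≤ 3 * |s - s'| + ‖w - w'‖ := by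
  have e : nv s w u - nv s' w' u = (t2phi1 s - t2phi1 s') • (w + s • u) +
      (√(1 + s' ^ 2))⁻¹ • ((w - w') + (s - s') • u) := by
    unfold nv t2phi1
    module
  have hr1 : (√(1 + s' ^ 2))⁻¹ ≤ 1 := inv_le_one_of_one_le₀ (t2_one_le_sqrt s')
  have hr0 : 0 ≤ (√(1 + s' ^ 2))⁻¹ := by positivity
  rw [e]
  have h1 : ‖w + s • u‖ ≤ 2 := by
    refine (norm_add_le _ _).trans ?_
    rw [norm_smul, Real.norm_eq_abs]
    have : |s| * ‖u‖ ≤ 1 * 1 := mul_le_mul hs hu (norm_nonneg _) (by norm_num)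
    linarith
  have h2 : ‖(w - w') + (s - s') • u‖ ≤ ‖w - w'‖ + |s - s'| := by
    refine (norm_add_le _ _).trans ?_
    rw [norm_smul, Real.norm_eq_abs]
    have : |s - s'| * ‖u‖ ≤ |s - s'| * 1 := mul_le_mul_of_nonneg_left hu (abs_nonneg _)
    linarith
  refine (norm_add_le _ _).trans ?_
  rw [norm_smul, norm_smul, Real.norm_eq_abs, Real.norm_eq_abs, abs_of_nonneg hr0]
  have h3 : |t2phi1 s - t2phi1 s'| * ‖w + s • u‖ ≤ |s - s'| * 2 :=
    mul_le_mul (t2phi1_lip s s') h1 (norm_nonneg _) (abs_nonneg _)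
  have h4 : (√(1 + s' ^ 2))⁻¹ * ‖(w - w') + (s - s') • u‖ ≤ ‖w - w'‖ + |s - s'| :=
    (mul_le_of_le_one_left (norm_nonneg _) hr1).trans h2
  linarith

theorem t2_nh_lip {s s' : ℝ} {w u w' : E} (hw : ‖w‖ ≤ 1) (hu : ‖u‖ ≤ 1) (hs : |s| ≤ 1)
    (hs' : |s'| ≤ 1) : ‖nh s w u - nh s' w' u‖ ≤ 3 * |s - s'| + ‖w - w'‖ := by
  have e : nh s w u - nh s' w' u = (t2phi1 s - t2phi1 s') • (u - s • w) +
      (√(1 + s' ^ 2))⁻¹ • (-((s - s') • w + s' • (w - w'))) := by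
    unfold nh t2phi1
    module
  have hr1 : (√(1 + s' ^ 2))⁻¹ ≤ 1 := inv_le_one_of_one_le₀ (t2_one_le_sqrt s')
  have hr0 : 0 ≤ (√(1 + s' ^ 2))⁻¹ := by positivity
  rw [e]
  have h1 : ‖u - s • w‖ ≤ 2 := by
    refine (norm_sub_le _ _).trans ?_
    rw [norm_smul, Real.norm_eq_abs]
    have : |s| * ‖w‖ ≤ 1 * 1 := mul_le_mul hs hw (norm_nonneg _) (by norm_num)
    linarith
  have h2 : ‖-((s - s') • w + s' • (w - w'))‖ ≤ ‖w - w'‖ + |s - s'| := by
    rw [norm_neg]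
    refine (norm_add_le _ _).trans ?_
    rw [norm_smul, Real.norm_eq_abs, norm_smul, Real.norm_eq_abs]
    have h1 : |s - s'| * ‖w‖ ≤ |s - s'| * 1 := mul_le_mul_of_nonneg_left hw (abs_nonneg _)
    have h2 : |s'| * ‖w - w'‖ ≤ ‖w - w'‖ := mul_le_of_le_one_left (norm_nonneg _) hs'
    linarith
  refine (norm_add_le _ _).trans ?_
  rw [norm_smul, norm_smul, Real.norm_eq_abs, Real.norm_eq_abs, abs_of_nonneg hr0]
  have h3 : |t2phi1 s - t2phi1 s'| * ‖u - s • w‖ ≤ |s - s'| * 2 :=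
    mul_le_mul (t2phi1_lip s s') h1 (norm_nonneg _) (abs_nonneg _)
  have h4 : (√(1 + s' ^ 2))⁻¹ * ‖-((s - s') • w + s' • (w - w'))‖ ≤ ‖w - w'‖ + |s - s'| :=
    (mul_le_of_le_one_left (norm_nonneg _) hr1).trans h2
  linarith

/-! ### the two functions -/

/-- first parameter -/
noncomputable def t2al (t₁ : E → E → ℝ) (a b u : E) (x : ℝ × ℝ) : ℝ := t₁ (cp a b x.1) u

/-- second parameter -/
noncomputable def t2be (t₁ t₂ : E → E → ℝ) (a b u : E) (x : ℝ × ℝ) : ℝ :=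
  t₂ (cp (nh (t₁ (cp a b x.1) u) (cp a b x.1) u) (cp a b (x.1 + π / 2)) x.2)
    (nv (t₁ (cp a b x.1) u) (cp a b x.1) u)

theorem t2al_sm {d : ℝ} (hd : 0 ≤ d) {t₁ : E → E → ℝ} (h1 : Good t₁ d) {a b u : E}
    (h : Fr a b u) (D : Set (ℝ × ℝ)) : t2Sm D (2 * d) (t2al t₁ a b u) := by
  refine ⟨fun x _ => ?_, fun x _ y _ => ?_⟩
  · have := h1.bd _ _ (t2_op1 h x.1)
    unfold t2al
    linarith
  · have h2 := h1.lip _ _ _ _ (t2_op1 h x.1) (t2_op1 h y.1)
    have h3 := t2_cp_lip (p' := a) (q' := b) h.na.le h.nb.le x.1 y.1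
    rw [sub_self, sub_self, norm_zero, add_zero, add_zero] at h3
    rw [sub_self, norm_zero, add_zero] at h2
    have h4 : |x.1 - y.1| ≤ dist x y := by
      rw [Prod.dist_eq, Real.dist_eq]
      exact le_max_left _ _
    have h5 : ‖cp a b x.1 - cp a b y.1‖ ≤ 2 * dist x y := by linarith
    calc |t2al t₁ a b u x - t2al t₁ a b u y| ≤ d * ‖cp a b x.1 - cp a b y.1‖ := h2
      _ ≤ d * (2 * dist x y) := mul_le_mul_of_nonneg_left h5 hd
      _ = 2 * d * dist x y := by ring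

theorem t2be_sm {d : ℝ} (hd : 0 ≤ d) (hd1 : d ≤ 1) {t₁ t₂ : E → E → ℝ} (h1 : Good t₁ d)
    (h2 : Good t₂ d) {a b u : E} (h : Fr a b u) (D : Set (ℝ × ℝ)) :
    t2Sm D (22 * d) (t2be t₁ t₂ a b u) := by
  refine ⟨fun x _ => ?_, fun x hx y hy => ?_⟩
  · have := h2.bd _ _ (t2_op2 h (t₁ (cp a b x.1) u) x.1 x.2)
    unfold t2be
    linarith
  · have h3 := h2.lip _ _ _ _ (t2_op2 h (t₁ (cp a b x.1) u) x.1 x.2)
      (t2_op2 h (t₁ (cp a b y.1) u) y.1 y.2)
    have hal := (t2al_sm hd h1 h D).2 x hx y hy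
    have hx1 : |x.1 - y.1| ≤ dist x y := by
      rw [Prod.dist_eq, Real.dist_eq]
      exact le_max_left _ _
    have hx2 : |x.2 - y.2| ≤ dist x y := by
      rw [Prod.dist_eq, Real.dist_eq, Real.dist_eq]
      exact le_max_right _ _
    have hw : ‖cp a b x.1 - cp a b y.1‖ ≤ 2 * dist x y := by
      have h3 := t2_cp_lip (p' := a) (q' := b) h.na.le h.nb.le x.1 y.1
      rw [sub_self, sub_self, norm_zero, add_zero, add_zero] at h3
      linarith
    have hw' : ‖cp a b (x.1 + π / 2) - cp a b (y.1 + π / 2)‖ ≤ 2 * dist x y := by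
      have h3 := t2_cp_lip (p' := a) (q' := b) h.na.le h.nb.le (x.1 + π / 2) (y.1 + π / 2)
      rw [sub_self, sub_self, norm_zero, add_zero, add_zero, add_sub_add_right_eq_sub] at h3
      linarith
    have hd0 : 0 ≤ dist x y := dist_nonneg
    have hal2 : |t₁ (cp a b x.1) u - t₁ (cp a b y.1) u| ≤ 2 * dist x y := by
      refine le_trans hal ?_
      nlinarith
    have hs : ∀ z : ℝ, |t₁ (cp a b z) u| ≤ 1 := fun z => (h1.bd _ _ (t2_op1 h z)).trans hd1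
    have hnv := t2_nv_lip (s' := t₁ (cp a b y.1) u) (w' := cp a b y.1) (t2_op1 h x.1).nw.le
      h.nu.le (hs x.1)
    have hnh := t2_nh_lip (w' := cp a b y.1) (t2_op1 h x.1).nw.le h.nu.le (hs x.1) (hs y.1)
    have hq := t2_cp_lip (p' := nh (t₁ (cp a b y.1) u) (cp a b y.1) u)
      (q' := cp a b (y.1 + π / 2)) (t2_fr2 (t2_fr h x.1) (t₁ (cp a b x.1) u)).na.le
      (t2_fr h x.1).nb.le x.2 y.2
    calc |t2be t₁ t₂ a b u x - t2be t₁ t₂ a b u y| ≤ _ := h3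
      _ ≤ d * (22 * dist x y) := mul_le_mul_of_nonneg_left (by linarith) hd
      _ = 22 * d * dist x y := by ring

theorem t2Sm.congr {D : Set (ℝ × ℝ)} {K : ℝ} {f g : ℝ × ℝ → ℝ} (hf : t2Sm D K f)
    (e : ∀ x ∈ D, g x = f x) : t2Sm D K g := by
  refine ⟨fun x hx => by rw [e x hx]; exact hf.1 x hx, fun x hx y hy => ?_⟩
  rw [e x hx, e y hy]
  exact hf.2 x hx y hy

theorem t2_cos_sm (D : Set (ℝ × ℝ)) : t2Sm D 1 (fun x => cos x.2) := by
  refine ⟨fun x _ => Real.abs_cos_le_one _, fun x _ y _ => ?_⟩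
  rw [one_mul]
  refine (t2_abs_cos_sub _ _).trans ?_
  rw [Prod.dist_eq, Real.dist_eq, Real.dist_eq]
  exact le_max_right _ _

theorem t2_sin_sm (D : Set (ℝ × ℝ)) : t2Sm D 1 (fun x => sin x.2) := by
  refine ⟨fun x _ => Real.abs_sin_le_one _, fun x _ y _ => ?_⟩
  rw [one_mul]
  refine (t2_abs_sin_sub _ _).trans ?_
  rw [Prod.dist_eq, Real.dist_eq, Real.dist_eq]
  exact le_max_right _ _

theorem t2_sin_ge {e ψ : ℝ} (he : 0 < e) (he1 : e < 1) (hψ : ψ ∈ Set.Icc e (π - e)) :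
    sin e ≤ sin ψ := by
  have hpi := Real.pi_gt_three
  rcases le_total ψ (π / 2) with h | h
  · exact Real.sin_le_sin_of_le_of_le_pi_div_two (by linarith) h hψ.1
  · rw [← Real.sin_pi_sub ψ]
    exact Real.sin_le_sin_of_le_of_le_pi_div_two (by linarith) (by linarith) (by linarith [hψ.2])

/-- the coefficients of `Y` -/
noncomputable def t2yw (t₁ t₂ : E → E → ℝ) (a b u : E) (x : ℝ × ℝ) : ℝ :=
  (t2be t₁ t₂ a b u x - t2al t₁ a b u x * cos x.2) * (√(1 + t2al t₁ a b u x ^ 2))⁻¹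

noncomputable def t2yu (t₁ t₂ : E → E → ℝ) (a b u : E) (x : ℝ × ℝ) : ℝ :=
  (cos x.2 + t2al t₁ a b u x * t2be t₁ t₂ a b u x) * (√(1 + t2al t₁ a b u x ^ 2))⁻¹

theorem t2_Y_eq' (t₁ t₂ : E → E → ℝ) (a b u : E) (x : ℝ × ℝ) :
    Y t₁ t₂ a b u x.1 x.2 = t2yw t₁ t₂ a b u x • cp a b x.1 +
      sin x.2 • cp a b (x.1 + π / 2) + t2yu t₁ t₂ a b u x • u :=
  t2_Y_eq t₁ t₂ a b u x.1 x.2

theorem t2_norm_Y (t₁ t₂ : E → E → ℝ) {a b u : E} (h : Fr a b u) (x : ℝ × ℝ) :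
    ‖Y t₁ t₂ a b u x.1 x.2‖ = √(t2yw t₁ t₂ a b u x ^ 2 + sin x.2 ^ 2 + t2yu t₁ t₂ a b u x ^ 2) := by
  rw [t2_Y_eq', ← t2_norm_sq (t2_fr h x.1), Real.sqrt_sq (norm_nonneg _)]

theorem t2_sum_sq (t₁ t₂ : E → E → ℝ) (a b u : E) (x : ℝ × ℝ) :
    t2yw t₁ t₂ a b u x ^ 2 + sin x.2 ^ 2 + t2yu t₁ t₂ a b u x ^ 2 =
      1 + t2be t₁ t₂ a b u x ^ 2 := by
  unfold t2yw t2yu
  have h1 := t2_sqrt_inv_sq (t2al t₁ a b u x)
  have h2 := Real.sin_sq_add_cos_sq x.2
  set r := (√(1 + t2al t₁ a b u x ^ 2))⁻¹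
  set s := t2al t₁ a b u x
  set t := t2be t₁ t₂ a b u x
  have e : ((t - s * cos x.2) * r) ^ 2 + sin x.2 ^ 2 + ((cos x.2 + s * t) * r) ^ 2 =
      (t ^ 2 + cos x.2 ^ 2) * (r ^ 2 * (1 + s ^ 2)) + sin x.2 ^ 2 := by ring
  rw [e, h1]
  linarith

theorem t2_one_add (s : ℝ) : (√(1 + s ^ 2))⁻¹ = 1 + t2phi1 s := by
  unfold t2phi1
  ring

theorem t2_sqrt_split {s y : ℝ} (hs : 0 < s) : √(s ^ 2 + y ^ 2) = s + s * t2phi2 (y * s⁻¹) := by
  unfold t2phi2
  have e : s ^ 2 + y ^ 2 = s ^ 2 * (1 + (y * s⁻¹) ^ 2) := by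
    field_simp
  rw [e, Real.sqrt_mul (by positivity), Real.sqrt_sq hs.le]
  ring

/-- T2 -/
theorem torus_T2 {e : ℝ} (he : 0 < e) (he1 : e < 1) :
    ∃ C d₀ : ℝ, 0 < C ∧ 0 < d₀ ∧ d₀ ≤ 1 ∧ ∀ d : ℝ, 0 ≤ d → d ≤ d₀ → ∀ t₁ t₂ : E → E → ℝ,
      Good t₁ d → Good t₂ d → ∀ a b u : E, Fr a b u → ∃ p : ℝ × ℝ → ℝ × ℝ,
        LipschitzOnWith (Real.toNNReal (C * d)) p (Set.Icc (-π) π ×ˢ Set.Icc e (π - e)) ∧
        (∀ x ∈ Set.Icc (-π) π ×ˢ Set.Icc e (π - e), ‖p x‖ ≤ C * d) ∧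
        (∀ x ∈ Set.Icc (-π) π ×ˢ Set.Icc e (π - e),
          Y t₁ t₂ a b u x.1 x.2 = ‖Y t₁ t₂ a b u x.1 x.2‖ •
            Y0 a b u (x.1 + (p x).1) (x.2 + (p x).2)) := by
  have hpi := Real.pi_gt_three
  set m := sin e with hm
  have hm0 : 0 < m := Real.sin_pos_of_pos_of_lt_pi he (by linarith)
  have hm1 : m ≤ 1 := Real.sin_le_one e
  set M := 1 / m ^ 2 with hM
  have hM1 : 1 ≤ M := by
    rw [hM, le_div_iff₀ (by positivity)]
    nlinarith
  have hMm : 1 / m ≤ M := by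
    rw [hM]
    apply one_div_le_one_div_of_le (by positivity)
    nlinarith
  refine ⟨27744 * M, 1 / (4624 * M), by positivity, by positivity, ?_, ?_⟩
  · rw [div_le_one (by positivity)]
    linarith
  intro d hd hd0 t₁ t₂ h1 h2 a b u h
  have hd1 : d ≤ 1 := by
    refine hd0.trans ?_
    rw [div_le_one (by positivity)]
    linarith
  have hdM : 2312 * (d * M) ≤ 1 / 2 := by
    rw [le_div_iff₀ (by positivity)] at hd0
    linarith
  have hddM : d ≤ d * M := le_mul_of_one_le_right hd hM1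
  set D : Set (ℝ × ℝ) := Set.Icc (-π) π ×ˢ Set.Icc e (π - e) with hD
  have hsin : ∀ x ∈ D, m ≤ sin x.2 := fun x hx => t2_sin_ge he he1 hx.2
  have hsin0 : ∀ x ∈ D, 0 < sin x.2 := fun x hx => hm0.trans_le (hsin x hx)
  -- the list of the small functions
  have sα := t2al_sm hd h1 h D
  have sβ := t2be_sm hd hd1 h1 h2 h D
  have sc := t2_cos_sm D
  have ss := t2_sin_sm D
  have ssi : t2Sm D M (fun x => (sin x.2)⁻¹) := ss.inv hm0 hsin hMm (le_of_eq rfl)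
  set α := t2al t₁ a b u with hα
  set β := t2be t₁ t₂ a b u with hβ
  have sφ : t2Sm D (2 * d) (fun x => t2phi1 (α x)) := sα.comp t2phi1_zero t2phi1_lip
  have sr : t2Sm D 3 (fun x => 1 + t2phi1 (α x)) :=
    ((t2Sm.const D (c := 1) (K := 1) (by simp)).add sφ).mono (by linarith)
  have sαc : t2Sm D (4 * d) (fun x => α x * cos x.2) :=
    (sα.mul sc (by positivity) zero_le_one).mono (by linarith)
  have syw : t2Sm D (156 * d) (fun x => (β x - α x * cos x.2) * (1 + t2phi1 (α x))) :=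
    ((sβ.sub sαc).mul sr (by positivity) (by norm_num)).mono (by linarith)
  have sx : t2Sm D (312 * (d * M)) (fun x => (β x - α x * cos x.2) * (1 + t2phi1 (α x)) *
      (sin x.2)⁻¹) :=
    (syw.mul ssi (by positivity) (by positivity)).mono (by linarith)
  have sA : t2Sm D (624 * (d * M)) (fun x => sin x.2 * t2phi2 ((β x - α x * cos x.2) *
      (1 + t2phi1 (α x)) * (sin x.2)⁻¹)) :=
    (ss.mul (sx.comp t2phi2_zero t2phi2_lip) zero_le_one (by positivity)).mono (by linarith)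
  have sB : t2Sm D (532 * d) (fun x => cos x.2 * t2phi1 (α x) + α x * β x *
      (1 + t2phi1 (α x))) := by
    have k1 : t2Sm D (88 * d) (fun x => α x * β x) := by
      refine (sα.mul sβ (by positivity) (by positivity)).mono ?_
      nlinarith
    exact ((sc.mul sφ zero_le_one (by positivity)).add
      (k1.mul sr (by positivity) (by norm_num))).mono (by linarith)
  set A : ℝ × ℝ → ℝ := fun x => sin x.2 * t2phi2 ((β x - α x * cos x.2) *
      (1 + t2phi1 (α x)) * (sin x.2)⁻¹) with hA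
  set B : ℝ × ℝ → ℝ := fun x => cos x.2 * t2phi1 (α x) + α x * β x *
      (1 + t2phi1 (α x)) with hB
  have sN : t2Sm D (2312 * (d * M)) (fun x => A x * cos x.2 - B x * sin x.2) :=
    ((sA.mul sc (by positivity) zero_le_one).sub (sB.mul ss (by positivity) zero_le_one)).mono
      (by linarith)
  have sD' : t2Sm D (2312 * (d * M)) (fun x => B x * cos x.2 + A x * sin x.2) :=
    ((sB.mul sc (by positivity) zero_le_one).add (sA.mul ss (by positivity) zero_le_one)).mono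
      (by linarith)
  have sD1 : t2Sm D (3 / 2) (fun x => 1 + (B x * cos x.2 + A x * sin x.2)) :=
    ((t2Sm.const D (c := 1) (K := 1) (by simp)).add sD').mono (by linarith)
  have hD1 : ∀ x ∈ D, 1 / 2 ≤ 1 + (B x * cos x.2 + A x * sin x.2) := by
    intro x hx
    have := (abs_le.mp (sD'.1 x hx)).1
    linarith
  have sDi : t2Sm D 6 (fun x => (1 + (B x * cos x.2 + A x * sin x.2))⁻¹) :=
    sD1.inv (m := 1 / 2) (by norm_num) hD1 (by norm_num) (by norm_num)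
  have sq : t2Sm D (27744 * (d * M)) (fun x => (A x * cos x.2 - B x * sin x.2) *
      (1 + (B x * cos x.2 + A x * sin x.2))⁻¹) :=
    (sN.mul sDi (by positivity) (by norm_num)).mono (by linarith)
  -- identities
  have eyw : ∀ x, t2yw t₁ t₂ a b u x = (β x - α x * cos x.2) * (1 + t2phi1 (α x)) := by
    intro x
    unfold t2yw
    rw [t2_one_add]
  have eyu : ∀ x, t2yu t₁ t₂ a b u x = cos x.2 + B x := by
    intro x
    unfold t2yu
    rw [t2_one_add, hB]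
    ring
  have eR : ∀ x ∈ D, √(sin x.2 ^ 2 + t2yw t₁ t₂ a b u x ^ 2) = sin x.2 + A x := by
    intro x hx
    rw [t2_sqrt_split (hsin0 x hx), eyw]
  have eD : ∀ x ∈ D, t2yu t₁ t₂ a b u x * cos x.2 +
      √(sin x.2 ^ 2 + t2yw t₁ t₂ a b u x ^ 2) * sin x.2 =
      1 + (B x * cos x.2 + A x * sin x.2) := by
    intro x hx
    rw [eR x hx, eyu]
    have := Real.sin_sq_add_cos_sq x.2
    linear_combination this
  have eN : ∀ x ∈ D, √(sin x.2 ^ 2 + t2yw t₁ t₂ a b u x ^ 2) * cos x.2 -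
      t2yu t₁ t₂ a b u x * sin x.2 = A x * cos x.2 - B x * sin x.2 := by
    intro x hx
    rw [eR x hx, eyu]
    ring
  set p₁ : ℝ × ℝ → ℝ := fun x => -arctan (t2yw t₁ t₂ a b u x / sin x.2) with hp₁
  set p₂ : ℝ × ℝ → ℝ := fun x => arctan ((√(sin x.2 ^ 2 + t2yw t₁ t₂ a b u x ^ 2) * cos x.2 -
      t2yu t₁ t₂ a b u x * sin x.2) / (t2yu t₁ t₂ a b u x * cos x.2 +
      √(sin x.2 ^ 2 + t2yw t₁ t₂ a b u x ^ 2) * sin x.2)) with hp₂
  have sp1 : t2Sm D (27744 * (d * M)) p₁ := by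
    refine (((sx.comp Real.arctan_zero t2_arctan_lip).neg).mono ?_).congr ?_
    · have : 0 ≤ d * M := by positivity
      linarith
    · intro x _
      rw [hp₁]
      dsimp only
      rw [eyw, div_eq_mul_inv]
  have sp2 : t2Sm D (27744 * (d * M)) p₂ := by
    refine (sq.comp Real.arctan_zero t2_arctan_lip).congr ?_
    intro x hx
    rw [hp₂]
    dsimp only
    rw [eN x hx, eD x hx, div_eq_mul_inv]
  have hC0 : 0 ≤ 27744 * M * d := by positivity
  refine ⟨fun x => (p₁ x, p₂ x), ?_, ?_, ?_⟩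
  · apply LipschitzOnWith.of_dist_le_mul
    intro x hx y hy
    rw [Real.coe_toNNReal _ hC0, Prod.dist_eq, Real.dist_eq, Real.dist_eq]
    have k1 := sp1.2 x hx y hy
    have k2 := sp2.2 x hx y hy
    apply max_le
    · linarith
    · linarith
  · intro x hx
    rw [Prod.norm_def, Real.norm_eq_abs, Real.norm_eq_abs]
    have k1 := sp1.1 x hx
    have k2 := sp2.1 x hx
    apply max_le
    · linarith
    · linarith
  · intro x hx
    have hk : 0 < t2yu t₁ t₂ a b u x * cos x.2 +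
        √(sin x.2 ^ 2 + t2yw t₁ t₂ a b u x ^ 2) * sin x.2 := by
      rw [eD x hx]
      linarith [hD1 x hx]
    obtain ⟨k1, k2, k3⟩ := t2_angles (hsin0 x hx) hk
    rw [t2_Y0_eq, t2_norm_Y t₁ t₂ h, smul_add, smul_add, smul_smul, smul_smul, smul_smul]
    rw [k1, k2]
    have k4 : √(t2yw t₁ t₂ a b u x ^ 2 + sin x.2 ^ 2 + t2yu t₁ t₂ a b u x ^ 2) *
        -(sin (x.2 + p₂ x) * sin (p₁ x)) = t2yw t₁ t₂ a b u x := by
      linarith [k3]
    rw [k4]
    exact t2_Y_eq' t₁ t₂ a b u x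

theorem t2_cp_cont (a b : E) : Continuous (cp a b) := by
  unfold cp
  fun_prop

/-- elementary facts on the deformed torus -/
theorem torus_Y {d : ℝ} (hd : 0 ≤ d) (hd1 : d ≤ 1) {t₁ t₂ : E → E → ℝ} (h1 : Good t₁ d)
    (h2 : Good t₂ d) {a b u : E} (h : Fr a b u) :
    (∀ θ ψ, 1 ≤ ‖Y t₁ t₂ a b u θ ψ‖ ∧ ‖Y t₁ t₂ a b u θ ψ‖ ≤ 1 + d ^ 2) ∧
    (Continuous fun x : ℝ × ℝ => Y t₁ t₂ a b u x.1 x.2) ∧
    (∀ θ ψ, Y t₁ t₂ a b u θ (ψ + π) = - Y t₁ t₂ a b u θ ψ) ∧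
    (∀ θ ψ, ‖Y0 a b u θ ψ‖ = 1) ∧ (Continuous fun x : ℝ × ℝ => Y0 a b u x.1 x.2) := by
  have hcont : ∀ (K : ℝ) (f : ℝ × ℝ → ℝ), t2Sm Set.univ K f → Continuous f := by
    intro K f hf
    have : LipschitzWith (Real.toNNReal K) f := by
      apply LipschitzWith.of_dist_le_mul
      intro x y
      have k := hf.2 x (Set.mem_univ _) y (Set.mem_univ _)
      rw [Real.dist_eq]
      exact k.trans (mul_le_mul_of_nonneg_right (Real.le_coe_toNNReal K) dist_nonneg)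
    exact this.continuous
  have cα := hcont _ _ (t2al_sm hd h1 h Set.univ)
  have cβ := hcont _ _ (t2be_sm hd hd1 h1 h2 h Set.univ)
  refine ⟨fun θ ψ => ?_, ?_, ?_, ?_, ?_⟩
  · have e := t2_norm_Y t₁ t₂ h (θ, ψ)
    rw [t2_sum_sq] at e
    dsimp only at e
    have hb := h2.bd _ _ (t2_op2 h (t₁ (cp a b θ) u) θ ψ)
    have hb2 : t2be t₁ t₂ a b u (θ, ψ) ^ 2 ≤ d ^ 2 := sq_le_sq' (abs_le.mp hb).1 (abs_le.mp hb).2
    rw [e]
    constructor
    · exact t2_one_le_sqrt _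
    · rw [Real.sqrt_le_left (by positivity)]
      nlinarith [sq_nonneg (t2be t₁ t₂ a b u (θ, ψ)), sq_nonneg d]
  · have e : (fun x : ℝ × ℝ => Y t₁ t₂ a b u x.1 x.2) = fun x => t2yw t₁ t₂ a b u x • cp a b x.1 +
      sin x.2 • cp a b (x.1 + π / 2) + t2yu t₁ t₂ a b u x • u := by
      funext x
      exact t2_Y_eq' t₁ t₂ a b u x
    rw [e]
    have cr : Continuous fun x : ℝ × ℝ => (√(1 + t2al t₁ a b u x ^ 2))⁻¹ := by
      apply Continuous.inv₀
      · fun_prop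
      · intro x
        have := t2_one_le_sqrt (t2al t₁ a b u x)
        linarith
    have cyw : Continuous (t2yw t₁ t₂ a b u) := by
      unfold t2yw
      exact (cβ.sub (cα.mul (by fun_prop))).mul cr
    have cyu : Continuous (t2yu t₁ t₂ a b u) := by
      unfold t2yu
      exact (Continuous.add (by fun_prop) (cα.mul cβ)).mul cr
    have c1 := (t2_cp_cont a b).comp (continuous_fst (X := ℝ) (Y := ℝ))
    have c2 := (t2_cp_cont a b).comp ((continuous_fst (X := ℝ) (Y := ℝ)).add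
      (continuous_const (y := π / 2)))
    refine ((cyw.smul c1).add ((Real.continuous_sin.comp continuous_snd).smul c2)).add
      (cyu.smul continuous_const)
  · intro θ ψ
    unfold Y
    simp only
    have e : cp (nh (t₁ (cp a b θ) u) (cp a b θ) u) (cp a b (θ + π / 2)) (ψ + π) =
        -cp (nh (t₁ (cp a b θ) u) (cp a b θ) u) (cp a b (θ + π / 2)) ψ := by
      rw [cp, cp.eq_def (nh (t₁ (cp a b θ) u) (cp a b θ) u) (cp a b (θ + π / 2)) ψ,
        Real.cos_add_pi, Real.sin_add_pi]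
      module
    rw [e, h2.odd _ _ (t2_op2 h (t₁ (cp a b θ) u) θ ψ)]
    module
  · intro θ ψ
    have e : Y0 a b u θ ψ = (0 : ℝ) • cp a b θ + sin ψ • cp a b (θ + π / 2) + cos ψ • u := by
      unfold Y0
      rw [cp]
      module
    have k := t2_norm_sq (t2_fr h θ) 0 (sin ψ) (cos ψ)
    rw [← e] at k
    have := Real.sin_sq_add_cos_sq ψ
    exact t2_norm_one (by rw [k]; linarith)
  · have e : (fun x : ℝ × ℝ => Y0 a b u x.1 x.2) = fun x => cos x.2 • u +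
        sin x.2 • cp a b (x.1 + π / 2) := by
      funext x
      unfold Y0
      rw [cp]
    rw [e]
    have c2 := (t2_cp_cont a b).comp ((continuous_fst (X := ℝ) (Y := ℝ)).add
      (continuous_const (y := π / 2)))
    exact ((Real.continuous_cos.comp continuous_snd).smul continuous_const).add
      ((Real.continuous_sin.comp continuous_snd).smul c2)

end PB3
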