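import Pool.Agent.Lib.MP_03c723_gt.Basic

/-! Joint continuity of the second-step point `Y`. -/

namespace PB3
open MeasureTheory Real
open scoped InnerProductSpace

theorem continuous_cp {X : Type*} [TopologicalSpace X] {a b : X → E} {θ : X → ℝ}
    (ha : Continuous a) (hb : Continuous b) (hθ : Continuous θ) :
    Continuous fun x => cp (a x) (b x) (θ x) := by
  unfold cp
  exact ((Real.continuous_cos.comp hθ).smul ha).add ((Real.continuous_sin.comp hθ).smul hb)

theorem Good.continuous_comp {X : Type*} [TopologicalSpace X] {t : E → E → ℝ} {δ : ℝ}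
    (ht : Good t δ) {w u : X → E} (hw : Continuous w) (hu : Continuous u)
    (ho : ∀ x, OP (w x) (u x)) : Continuous fun x => t (w x) (u x) := by
  rw [continuous_iff_continuousAt]
  intro x
  unfold ContinuousAt
  rw [tendsto_iff_dist_tendsto_zero]
  refine squeeze_zero (g := fun y => δ * (‖w y - w x‖ + ‖u y - u x‖)) (fun y => dist_nonneg)
    (fun y => ?_) ?_
  · rw [Real.dist_eq]
    exact ht.lip _ _ _ _ (ho y) (ho x)
  · have h1 : Continuous fun y => δ * (‖w y - w x‖ + ‖u y - u x‖) := by fun_prop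
    have h2 := h1.tendsto x
    simpa using h2

theorem continuous_nv {X : Type*} [TopologicalSpace X] {s : X → ℝ} {w u : X → E}
    (hs : Continuous s) (hw : Continuous w) (hu : Continuous u) :
    Continuous fun x => nv (s x) (w x) (u x) := by
  unfold nv
  have h1 : Continuous fun x => (Real.sqrt (1 + s x ^ 2))⁻¹ := by
    apply Continuous.inv₀ (by fun_prop)
    intro x
    positivity
  have h2 : Continuous fun x => (w x + s x • u x) := by fun_prop
  exact h1.smul h2

theorem continuous_nh {X : Type*} [TopologicalSpace X] {s : X → ℝ} {w u : X → E}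
    (hs : Continuous s) (hw : Continuous w) (hu : Continuous u) :
    Continuous fun x => nh (s x) (w x) (u x) := by
  unfold nh
  have h1 : Continuous fun x => (Real.sqrt (1 + s x ^ 2))⁻¹ := by
    apply Continuous.inv₀ (by fun_prop)
    intro x
    positivity
  have h2 : Continuous fun x => (u x - s x • w x) := by fun_prop
  exact h1.smul h2

theorem continuous_Y {t₁ t₂ : E → E → ℝ} {δ₁ δ₂ : ℝ} (h₁ : Good t₁ δ₁) (h₂ : Good t₂ δ₂)
    {a b u : E} (hf : Fr a b u) :
    Continuous fun x : ℝ × ℝ => Y t₁ t₂ a b u x.1 x.2 := by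
  have hw : Continuous fun x : ℝ × ℝ => cp a b x.1 :=
    continuous_cp continuous_const continuous_const continuous_fst
  have hw' : Continuous fun x : ℝ × ℝ => cp a b (x.1 + π / 2) :=
    continuous_cp continuous_const continuous_const (by fun_prop)
  have hs : Continuous fun x : ℝ × ℝ => t₁ (cp a b x.1) u :=
    h₁.continuous_comp hw continuous_const (fun x => hf.op _)
  have hv : Continuous fun x : ℝ × ℝ => nv (t₁ (cp a b x.1) u) (cp a b x.1) u :=
    continuous_nv hs hw continuous_const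
  have hh : Continuous fun x : ℝ × ℝ => nh (t₁ (cp a b x.1) u) (cp a b x.1) u :=
    continuous_nh hs hw continuous_const
  have hq : Continuous fun x : ℝ × ℝ =>
      cp (nh (t₁ (cp a b x.1) u) (cp a b x.1) u) (cp a b (x.1 + π / 2)) x.2 :=
    continuous_cp hh hw' continuous_snd
  have ht : Continuous fun x : ℝ × ℝ =>
      t₂ (cp (nh (t₁ (cp a b x.1) u) (cp a b x.1) u) (cp a b (x.1 + π / 2)) x.2)
        (nv (t₁ (cp a b x.1) u) (cp a b x.1) u) :=
    h₂.continuous_comp hq hv (fun x => (frame_nh_nv hf _ _).op _)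
  exact hq.add (ht.smul hv)

theorem continuous_Y0 {a b u : E} : Continuous fun x : ℝ × ℝ => Y0 a b u x.1 x.2 := by
  unfold Y0
  exact continuous_cp continuous_const
    (continuous_cp continuous_const continuous_const (by fun_prop)) continuous_snd

theorem norm_add_smul {w u : E} (h : OP w u) (t : ℝ) : ‖w + t • u‖ = Real.sqrt (1 + t ^ 2) := by
  have : ‖w + t • u‖ ^ 2 = 1 + t ^ 2 := by
    rw [norm_add_sq_real, h.nw, inner_smul_right, h.wu, norm_smul, h.nu, Real.norm_eq_abs]
    simp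
  rw [← this, Real.sqrt_sq (norm_nonneg _)]

/-- the norm of the second-step point -/
theorem norm_Y {t₁ t₂ : E → E → ℝ} {a b u : E} (hf : Fr a b u) (θ ψ : ℝ) :
    ‖Y t₁ t₂ a b u θ ψ‖ = Real.sqrt (1 +
      (t₂ (cp (nh (t₁ (cp a b θ) u) (cp a b θ) u) (cp a b (θ + π / 2)) ψ)
        (nv (t₁ (cp a b θ) u) (cp a b θ) u)) ^ 2) :=
  norm_add_smul ((frame_nh_nv hf _ _).op _) _

theorem sqrt_one_add_sq_le (t : ℝ) : Real.sqrt (1 + t ^ 2) ≤ 1 + t ^ 2 := by
  rw [Real.sqrt_le_left (by positivity)]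
  nlinarith [sq_nonneg t, sq_nonneg (t ^ 2)]

theorem one_le_sqrt_one_add_sq (t : ℝ) : 1 ≤ Real.sqrt (1 + t ^ 2) := by
  rw [Real.one_le_sqrt]; nlinarith [sq_nonneg t]

theorem norm_Y_le {t₁ t₂ : E → E → ℝ} {δ₂ : ℝ} (h₂ : Good t₂ δ₂)
    {a b u : E} (hf : Fr a b u) (θ ψ : ℝ) :
    ‖Y t₁ t₂ a b u θ ψ‖ ≤ 1 + δ₂ ^ 2 := by
  rw [norm_Y hf]
  refine (sqrt_one_add_sq_le _).trans ?_
  have h := h₂.bd _ _ ((frame_nh_nv hf (t₁ (cp a b θ) u) θ).op ψ)
  have := sq_le_sq' (abs_le.1 h).1 (abs_le.1 h).2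
  linarith

theorem norm_Y0 {a b u : E} (hf : Fr a b u) (θ ψ : ℝ) : ‖Y0 a b u θ ψ‖ = 1 := by
  unfold Y0
  have h1 : OP (cp a b (θ + π / 2)) u := hf.op _
  exact norm_cp ⟨hf.nu, h1.nw, by rw [real_inner_comm]; exact h1.wu⟩ ψ

/-- continuity of the inner integral -/
theorem continuous_inner_Y {t₁ t₂ : E → E → ℝ} {δ₁ δ₂ : ℝ} (h₁ : Good t₁ δ₁) (h₂ : Good t₂ δ₂)
    {a b u : E} (hf : Fr a b u) {σ : E → ℝ} (hσ : Continuous σ) :
    Continuous fun θ : ℝ => ∫ ψ in (-π)..π, σ (Y t₁ t₂ a b u θ ψ) := by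
  have h : Continuous (Function.uncurry fun θ ψ : ℝ => σ (Y t₁ t₂ a b u θ ψ)) :=
    hσ.comp (continuous_Y h₁ h₂ hf)
  exact intervalIntegral.continuous_parametric_intervalIntegral_of_continuous' h _ _

theorem continuous_inner_Y0 {a b u : E} {σ : E → ℝ} (hσ : Continuous σ) :
    Continuous fun θ : ℝ => ∫ ψ in (-π)..π, σ (Y0 a b u θ ψ) := by
  have h : Continuous (Function.uncurry fun θ ψ : ℝ => σ (Y0 a b u θ ψ)) :=
    hσ.comp continuous_Y0
  exact intervalIntegral.continuous_parametric_intervalIntegral_of_continuous' h _ _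

end PB3
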